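import Pool.Agent.H39.QD.Defs

/-!
# MP_bcc40c_pr, Q2, lower half (helper40): definitions

Conventions of HG39 (`Pool/Agent/H39/HG/Defs.lean`): `f` = faces (all cycles of length 3), `α` =
edges, vertices = cycles of `f * α`, `ρ = α * f⁻¹` = rotation (the inverse of `f * α`); `Desc f ℓ d`: `d` is
descending; `Fst f α ℓ y δ`: `δ` is the first descending dart among `y, ρ y, ρ (ρ y), ...`.
-/

set_option autoImplicit false

namespace QL40

open Equiv HG39

variable {D : Type} [Fintype D] [DecidableEq D]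

/-- weak labels on a full triangulation: a function on the vertices, changing by at most one along
the edges (several roots allowed) -/
structure Lb (f α : Perm D) (ℓ : D → ℤ) : Prop where
  inv : ∀ d, α (α d) = d
  fpf : ∀ d, α d ≠ d
  ver : ∀ d, ℓ (f d) = ℓ (α d)
  lip : ∀ d, ℓ (f d) ≤ ℓ d + 1

/-- cocycles mod 2 -/
structure Coc (f α : Perm D) (c : D → ZMod 2) : Prop where
  ca : ∀ d, c (α d) = c d
  cf : ∀ d, c d + c (f d) + c (f (f d)) = 0

open Classical in
/-- the first descending dart in the rotation starting at `y` -/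
noncomputable def fs (f α : Perm D) (ℓ : D → ℤ) (y : D) : D :=
  if h : ∃ δ, Fst f α ℓ y δ then h.choose else y

/-- the leftmost geodesic starting at the corner `y`: `gs 0 = fs y`, `gs (i+1) = fs (α (gs i))` -/
noncomputable def gs (f α : Perm D) (ℓ : D → ℤ) (y : D) : ℕ → D
  | 0 => fs f α ℓ y
  | i + 1 => fs f α ℓ (α (gs f α ℓ y i))

/-- the sum of `c` along the leftmost geodesic from the corner `y` down to level 0 -/
noncomputable def Ph (f α : Perm D) (ℓ : D → ℤ) (c : D → ZMod 2) (y : D) : ZMod 2 :=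
  ∑ i ∈ Finset.range (ℓ y).toNat, c (gs f α ℓ y i)

/-- the sum of `c` along the loop of the edge `y` and of the two leftmost geodesics -/
noncomputable def th (f α : Perm D) (ℓ : D → ℤ) (c : D → ZMod 2) (y : D) : ZMod 2 :=
  c y + Ph f α ℓ c y + Ph f α ℓ c (α y)

/-- bigons: two leftmost descending paths `a 0, ..., a (k-1)` and `b 0, ..., b (k-1)` which start with
two different darts of the same vertex and meet again for the first time at their ends -/
structure Big (f α : Perm D) (ℓ : D → ℤ) (k : ℕ) (a b : ℕ → D) : Prop where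
  kp : 1 ≤ k
  da : ∀ i < k, Desc f ℓ (a i)
  db : ∀ i < k, Desc f ℓ (b i)
  na : ∀ i, i + 1 < k → Fst f α ℓ (α (a i)) (a (i + 1))
  nb : ∀ i, i + 1 < k → Fst f α ℓ (α (b i)) (b (i + 1))
  st : (f * α).SameCycle (a 0) (b 0)
  ne : a 0 ≠ b 0
  en : (f * α).SameCycle (α (a (k - 1))) (α (b (k - 1)))
  sep : ∀ i, 1 ≤ i → i < k → ¬ (f * α).SameCycle (a i) (b i)

/-- triangular loops: a level edge `y` and the leftmost descending paths from its two ends (the
corners `y` and `α y`) until they meet for the first time, after `k` steps (`k = 0` if `y` is a loop) -/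
structure Big1 (f α : Perm D) (ℓ : D → ℤ) (y : D) (k : ℕ) (a b : ℕ → D) : Prop where
  lev : ℓ (f y) = ℓ y
  da : ∀ i < k, Desc f ℓ (a i)
  db : ∀ i < k, Desc f ℓ (b i)
  fa : 0 < k → Fst f α ℓ y (a 0)
  fb : 0 < k → Fst f α ℓ (α y) (b 0)
  na : ∀ i, i + 1 < k → Fst f α ℓ (α (a i)) (a (i + 1))
  nb : ∀ i, i + 1 < k → Fst f α ℓ (α (b i)) (b (i + 1))
  sp0 : 0 < k → ¬ (f * α).SameCycle y (α y)
  sep : ∀ i, 1 ≤ i → i < k → ¬ (f * α).SameCycle (a i) (b i)
  en0 : k = 0 → (f * α).SameCycle y (α y)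
  en : 0 < k → (f * α).SameCycle (α (a (k - 1))) (α (b (k - 1)))

/-- product of the transpositions `(a i, b i)`, `i < k` -/
def swp (a b : ℕ → D) : ℕ → Perm D
  | 0 => 1
  | k + 1 => swp a b k * swap (a k) (b k)

/-- cut the map along the two paths and zip the sides: `a i ~ α (b i)`, `b i ~ α (a i)` -/
def sw (α : Perm D) (a b : ℕ → D) (k : ℕ) : Perm D := swp a b k * α * (swp a b k)⁻¹

/-- every vertex except those of `x` and `w` has a descending dart -/
def Rt (f α : Perm D) (ℓ : D → ℤ) (x w : D) : Prop :=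
  ∀ d, (f * α).SameCycle d x ∨ (f * α).SameCycle d w ∨
    ∃ d', (f * α).SameCycle d d' ∧ Desc f ℓ d'

/-- triangulations with `v` vertices and labels with two roots, at level `0` and at a level at
most `R`, with at most `S` darts up to level `R` -/
def Yst (f : Perm D) (v R S : ℕ) : Set (Perm D × (D → ℤ)) :=
  {p | p.1 ∈ TS f v ∧ Lb f p.1 p.2 ∧ (∀ d, 0 ≤ p.2 d) ∧
    (∃ x w, p.2 x = 0 ∧ p.2 w ≤ R ∧ Rt f p.1 p.2 x w) ∧
    (Finset.univ.filter fun d => p.2 d ≤ (R : ℤ)).card ≤ S}

/-- distance labels -/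
noncomputable def dlab (f α : Perm D) (x : D) : D → ℤ := fun d => (dst f α x d : ℤ)

/-- pairs (triangulation with `v` vertices, vertex `x`) with a bigon up to level `R` whose surgery gives a
connected map, and with at most `S` darts up to level `R` -/
def Bad2 (f : Perm D) (v R S : ℕ) : Set (Perm D × D) :=
  {p | p.1 ∈ TS f v ∧ rep f p.1 p.2 = p.2 ∧
    (Finset.univ.filter fun d => dlab f p.1 p.2 d ≤ (R : ℤ)).card ≤ S ∧
    ∃ (k : ℕ) (a b : ℕ → D), Big f p.1 (dlab f p.1 p.2) k a b ∧ dlab f p.1 p.2 (a 0) ≤ R ∧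
      PT f (sw p.1 a b k) []}

/-- the same with prescribed first darts of the bigon -/
def Bad2f (f : Perm D) (v R S : ℕ) (a0 b0 : D) : Set (Perm D × D) :=
  {p | p.1 ∈ TS f v ∧ rep f p.1 p.2 = p.2 ∧
    (Finset.univ.filter fun d => dlab f p.1 p.2 d ≤ (R : ℤ)).card ≤ S ∧
    ∃ (k : ℕ) (a b : ℕ → D), Big f p.1 (dlab f p.1 p.2) k a b ∧ dlab f p.1 p.2 (a 0) ≤ R ∧
      a 0 = a0 ∧ b 0 = b0 ∧ PT f (sw p.1 a b k) []}

/-- the faces of the digon: `(0 1 2)(3 4 5)` -/
def g6 : Perm (Fin 6) where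
  toFun := ![1, 2, 0, 4, 5, 3]
  invFun := ![2, 0, 1, 5, 3, 4]
  left_inv := by decide
  right_inv := by decide

/-- the faces after the insertion of a digon -/
def fp (f : Perm D) : Perm (D ⊕ Fin 6) := Equiv.sumCongr f g6

/-- the closed digon: edges `{0,3}, {1,5}, {2,4}` -/
def a6 : Perm (Fin 6) where
  toFun := ![3, 5, 4, 0, 2, 1]
  invFun := ![3, 5, 4, 0, 2, 1]
  left_inv := by decide
  right_inv := by decide

/-- insertion of a digon into the edge `y, α y`: the triangle `0 1 2` is glued to `y`, the triangle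
`3 4 5` to `α y`, and `1 ~ 5`, `2 ~ 4`; the new vertex of degree two has the darts `2` and `5` -/
def ap (α : Perm D) (y : D) : Perm (D ⊕ Fin 6) :=
  swap (Sum.inl (α y)) (Sum.inr 0) * Equiv.sumCongr α a6 * swap (Sum.inl (α y)) (Sum.inr 0)

/-- the labels after the insertion of a digon -/
def lp (α : Perm D) (ℓ : D → ℤ) (y : D) : D ⊕ Fin 6 → ℤ
  | Sum.inl d => ℓ d
  | Sum.inr i => ![ℓ (α y), ℓ y, min (ℓ y) (ℓ (α y)) + 1, ℓ y, ℓ (α y),
      min (ℓ y) (ℓ (α y)) + 1] i

/-- the first path of the bigon after the insertion of a digon -/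
def ca (a : ℕ → D) : ℕ → D ⊕ Fin 6
  | 0 => Sum.inr 5
  | i + 1 => Sum.inl (a i)

/-- the second path of the bigon after the insertion of a digon -/
def cb (b : ℕ → D) : ℕ → D ⊕ Fin 6
  | 0 => Sum.inr 2
  | i + 1 => Sum.inl (b i)

/-- pairs (triangulation with `v` vertices, vertex `x`) with a triangular loop up to level `R` whose surgery
(insertion of a digon, then `sw`) gives a connected map, and with at most `S` darts up to level
`R + 1` -/
def Bad1 (f : Perm D) (v R S : ℕ) : Set (Perm D × D) :=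
  {p | p.1 ∈ TS f v ∧ rep f p.1 p.2 = p.2 ∧
    (Finset.univ.filter fun d => dlab f p.1 p.2 d ≤ (R : ℤ) + 1).card ≤ S ∧
    ∃ (y : D) (k : ℕ) (a b : ℕ → D), Big1 f p.1 (dlab f p.1 p.2) y k a b ∧
      dlab f p.1 p.2 y ≤ R ∧ PT (fp f) (sw (ap p.1 y) (ca a) (cb b) (k + 1)) []}

end QL40
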