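import Mathlib
import Pool.Agent.H40.QL.Defs
import Pool.Agent.H39.HG.LabBasic
import Pool.Agent.H39.HG.LabA
import Pool.Agent.H39.HG.GraphLab
import Pool.Agent.H39.HG.GraphA

/-!
[H40 QL BAS]  (MP_bcc40c_pr, Q2 lower half)  Basic facts on labels and leftmost geodesics.

PROOFS.
lb_of_lab: no legs because `tri f [] = []` (PT.leg); the fields are those of `Lab`.
lb_same: `ℓ (f (α a)) = ℓ (α (α a)) = ℓ a`, so `ℓ` is constant on the cycles of `f * α` (induction on the power, or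
zs_ind of HG/ZSwap).
lb_low: `lip` at `α d`: `ℓ (f (α d)) ≤ ℓ (α d) + 1`, i.e. `ℓ d ≤ ℓ (f d) + 1` (`ℓ (f (α d)) = ℓ (α (α d)) = ℓ d`, `ℓ (α d) = ℓ (f d)`).
fs_spec: Classical.choose_spec.  fs_eq: fst_unique of HG/LabBasic.  fst_same: pth_same of HG/LabA.
fst_lev: lb_same and fst_same.
dlab_lab: dst_lab of HG/GraphLab.
gs_zero, gs_step: fst_exists of HG/LabBasic (the level of `α (gs y i)` is `ℓ (f (gs y i)) = ℓ (gs y i) - 1 > 0`); gs_lev by induction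
on `i` (simultaneously with gs_step).
gs_add: induction on `i`.
-/

set_option autoImplicit false

namespace QL40

open Equiv HG39 QD39

variable {D : Type} [Fintype D] [DecidableEq D]

theorem lb_of_lab {f α : Perm D} {ℓ : D → ℤ} (hα : PT f α []) (hl : Lab f α ℓ) : Lb f α ℓ := by
  have hn : ∀ d, α d ≠ d := by
    intro d h
    have h1 := (hα.leg d).1 h
    simp [tri] at h1
  exact ⟨hα.inv, hn, fun d => hl.ver d (hn d), fun d => hl.lip d (hn d)⟩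

theorem lb_same {f α : Perm D} {ℓ : D → ℤ} (h : Lb f α ℓ) {a b : D}
    (hs : (f * α).SameCycle a b) : ℓ a = ℓ b := by
  obtain ⟨n, hlt, hn⟩ := hs.exists_pow_eq'
  rw [← hn]
  clear hn hlt
  induction n with
  | zero => rfl
  | succ n ih =>
    rw [pow_succ', Perm.mul_apply, Perm.mul_apply, h.ver, h.inv]
    exact ih

theorem lb_low {f α : Perm D} {ℓ : D → ℤ} (h : Lb f α ℓ) (d : D) : ℓ d ≤ ℓ (f d) + 1 := by
  have h1 := h.lip (α d)
  rw [h.ver (α d), h.inv] at h1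
  rw [h.ver d]
  exact h1

theorem fs_spec {f α : Perm D} {ℓ : D → ℤ} {y : D} (h : ∃ δ, Fst f α ℓ y δ) :
    Fst f α ℓ y (fs f α ℓ y) := by
  unfold fs
  rw [dif_pos h]
  exact h.choose_spec

theorem fs_eq {f α : Perm D} {ℓ : D → ℤ} {y δ : D} (h : Fst f α ℓ y δ) : fs f α ℓ y = δ :=
  fst_unique (fs_spec ⟨δ, h⟩) h

theorem fst_same {f α : Perm D} {ℓ : D → ℤ} {y δ : D} (hi : ∀ d, α (α d) = d)
    (h : Fst f α ℓ y δ) : (f * α).SameCycle y δ :=
  pth_same hi h.2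

theorem fst_lev {f α : Perm D} {ℓ : D → ℤ} {y δ : D} (hl : Lb f α ℓ) (h : Fst f α ℓ y δ) :
    ℓ δ = ℓ y :=
  (lb_same hl (fst_same hl.inv h)).symm

theorem dlab_lab {f α : Perm D} (hf : TF f) (hα : PT f α []) (x : D) : Lab f α (dlab f α x) :=
  dst_lab hf hα x

theorem gs_zero {f α : Perm D} {ℓ : D → ℤ} (hf : TF f) (hα : PT f α []) (hl : Lab f α ℓ) (y : D)
    (hy : 0 < ℓ y) : Fst f α ℓ y (gs f α ℓ y 0) :=
  fs_spec (fst_exists hf hα hl y ((lb_of_lab hα hl).fpf y) hy)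

theorem gs_lev {f α : Perm D} {ℓ : D → ℤ} (hf : TF f) (hα : PT f α []) (hl : Lab f α ℓ) (y : D)
    (i : ℕ) (hi : (i : ℤ) < ℓ y) : Desc f ℓ (gs f α ℓ y i) ∧ ℓ (gs f α ℓ y i) = ℓ y - i := by
  have hb := lb_of_lab hα hl
  induction i with
  | zero =>
    have h := gs_zero hf hα hl y (by simpa using hi)
    refine ⟨h.1, ?_⟩
    rw [fst_lev hb h]
    simp
  | succ i ih =>
    push_cast at hi
    obtain ⟨h1, h2⟩ := ih (by omega)
    have h3 : ℓ (f (gs f α ℓ y i)) = ℓ (gs f α ℓ y i) - 1 := h1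
    have h4 : ℓ (α (gs f α ℓ y i)) = ℓ y - (i + 1) := by
      rw [← hb.ver, h3, h2]
      ring
    have h5 : Fst f α ℓ (α (gs f α ℓ y i)) (gs f α ℓ y (i + 1)) :=
      fs_spec (fst_exists hf hα hl _ (hb.fpf _) (by rw [h4]; omega))
    refine ⟨h5.1, ?_⟩
    rw [fst_lev hb h5, h4]
    push_cast
    ring

theorem gs_step {f α : Perm D} {ℓ : D → ℤ} (hf : TF f) (hα : PT f α []) (hl : Lab f α ℓ) (y : D)
    (i : ℕ) (hi : (i : ℤ) + 1 < ℓ y) :
    Fst f α ℓ (α (gs f α ℓ y i)) (gs f α ℓ y (i + 1)) := by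
  have hb := lb_of_lab hα hl
  obtain ⟨h1, h2⟩ := gs_lev hf hα hl y i (by omega)
  have h3 : ℓ (f (gs f α ℓ y i)) = ℓ (gs f α ℓ y i) - 1 := h1
  refine fs_spec (fst_exists hf hα hl _ (hb.fpf _) ?_)
  rw [← hb.ver, h3, h2]
  omega

theorem gs_add (f α : Perm D) (ℓ : D → ℤ) (y : D) (k i : ℕ) :
    gs f α ℓ y (k + 1 + i) = gs f α ℓ (α (gs f α ℓ y k)) i := by
  induction i with
  | zero => rfl
  | succ i ih =>
    show fs f α ℓ (α (gs f α ℓ y (k + 1 + i))) = fs f α ℓ (α (gs f α ℓ (α (gs f α ℓ y k)) i))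
    rw [ih]

end QL40
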