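import Mathlib
import Pool.Agent.H40.QL.Bas
import Pool.Agent.H39.HG.GlueVal
import Pool.Agent.H39.HG.ZSwap

/-!
[H40 QL DIGA]  (MP_bcc40c_pr, Q2 lower half)  Insertion of a digon into an edge: values, connectedness, vertices.

PROOFS.  `α⁺ = ap α y = s (α ⊕ a6) s`, `s = swap (inl (α y)) (inr 0)`, `f⁺ = fp f`.
fp_tf: cases; on `Fin 6`: decide.
ap_val: direct computation: `s (inl y) = inl y` (`y ≠ α y`), `(α ⊕ a6) (inl y) = inl (α y)`, `s` of it `= inr 0`; `s (inl (α y)) = inr 0 ↦ inr 3 ↦ inr 3`; `s (inr 0) = inl (α y) ↦ inl y`; `inr 3 ↦ inr 0 ↦ inl (α y)`; the others are not moved by `s`, their images neither.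
ap_invo: conjugate of an involution.
ap_PT: leg: `ap` has no fixed point (conjugate); con: let `P` be closed under `f⁺, α⁺`, `P d`.  The restriction to `D` is closed under `f` and `α`: for `e = y`: `P (inl y) → P (inr 0) → P (inr 1)` (f⁺) `→ P (inr 5) → P (inr 3) → P (inl (α y))`; for `e = α y`: `→ inr 3 → inr 4 → inr 2 → inr 0 → inl y`; other `e`: `α⁺ (inl e) = inl (α e)`.  If `d = inr i`: from every `inr i` one reaches `inr 0` and so
`inl y` (f⁺ cyclic on 0,1,2 and 3,4,5, and `5 → 1`, `4 → 2`, `3 → inl (α y)`).  So `P` holds on `D` (hα.con) and then on all six.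
ap_sig: the values of `σ⁺ = f⁺ α⁺`: `inl y → inr 1 → inr 3 → inl (f (α y))`, `inl (α y) → inr 4 → inr 0 → inl (f y)`, `inr 2 ↔ inr 5`, other `inl d → inl (f (α d))`.
ap_same: by ap_sig: `σ = f α` maps `y ↦ f (α y)`, `α y ↦ f y`.  (←) each step `a → σ a` is a chain of one or three steps of `σ⁺` (zs_ind).  (→) the map `g : D ⊕ Fin 6 → D`, `g (inl d) = d`, `g (inr 1) = g (inr 3) = y`, `g (inr 4) = g (inr 0) = α y` (and `g (inr 2) = g (inr 5)` arbitrary) satisfies `SameCycle σ (g z) (g (σ⁺ z))` for all `z` (zs_ind with the relation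
`SameCycle σ (g x) (g y)`).
ap_cyc: the classes of `σ⁺` are those of `σ` (every class except the one of `inr 2` meets `D` by ap_sig, ap_same) and the class `{inr 2, inr 5}`: bijection `Option (Quotient σ) ≃ Quotient σ⁺`.  (Or: `σ⁺ = (σ ⊕ f6 a6) * swap (inl y) (inr 3) * swap (inl (α y)) (inr 0)`, cyc_swap_diff twice, `cyc (σ ⊕ (g6 * a6)) = cyc σ + 3`.)
ap_inj: `inl y = ap α y (inr 0)`; then `α d` for `d ≠ y, α y` from `ap α y (inl d) = inl (α d)`, and `α y`: `ap α y (inr 3) = inl (α y)`.
ap_leaf: a leaf triangle `w` of `(f, α)` (`α (f w) = f (f w)`) with `f w ∉ {y, α y}` gives the leaf triangle `inl w`; at most one `w` has `f w ∈ {y, α y}`: if `f w = y` and `f w' = α y` then `f w' = α (f w) = f (f w)`, `w' = f w = y`, but then `f w' = f y`, so `α y = f y`, and `α (f w) = f (f w)` reads `α y = f y`; `f (f w') = f (f y) = α (f w') = y`: impossible since `f (f y) ≠ y`.  So `lfc f α ≤ lfc f⁺ α⁺ + 1`.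
-/

set_option autoImplicit false

namespace QL40

open Equiv HG39 QD39

variable {D : Type} [Fintype D] [DecidableEq D]

private theorem fp_inl (f : Perm D) (d : D) : fp f (Sum.inl d) = Sum.inl (f d) := rfl

private theorem fp_inr (f : Perm D) (i : Fin 6) : fp f (Sum.inr i) = Sum.inr (g6 i) := rfl

private theorem ap_eq (α : Perm D) (y : D) (z : D ⊕ Fin 6) :
    ap α y z = swap (Sum.inl (α y)) (Sum.inr 0)
      (Equiv.sumCongr α a6 (swap (Sum.inl (α y)) (Sum.inr 0) z)) := rfl

private theorem sc_inl (α : Perm D) (d : D) :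
    (Equiv.sumCongr α a6) (Sum.inl d : D ⊕ Fin 6) = Sum.inl (α d) := rfl

private theorem sc_inr (α : Perm D) (i : Fin 6) :
    (Equiv.sumCongr α a6) (Sum.inr i : D ⊕ Fin 6) = Sum.inr (a6 i) := rfl

private theorem sw_inl (e d : D) (h : d ≠ e) :
    (swap (Sum.inl e) (Sum.inr 0) : Perm (D ⊕ Fin 6)) (Sum.inl d) = Sum.inl d :=
  swap_apply_of_ne_of_ne (fun h' => h (Sum.inl_injective h')) (by simp)

private theorem sw_inr (e : D) (i : Fin 6) (h : i ≠ 0) :
    (swap (Sum.inl e) (Sum.inr 0) : Perm (D ⊕ Fin 6)) (Sum.inr i) = Sum.inr i :=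
  swap_apply_of_ne_of_ne (by simp) (fun h' => h (Sum.inr_injective h'))

theorem fp_tf {f : Perm D} (hf : TF f) : TF (fp f) := by
  refine ⟨?_, ?_⟩
  · rintro (d | i)
    · rw [fp_inl, fp_inl, fp_inl, hf.three]
    · rw [fp_inr, fp_inr, fp_inr]
      have h : g6 (g6 (g6 i)) = i := by revert i; decide
      rw [h]
  · rintro (d | i)
    · intro h
      exact hf.nf d (Sum.inl_injective h)
    · intro h
      have h' : g6 i = i := Sum.inr_injective h
      have h2 : ∀ i, g6 i ≠ i := by decide
      exact h2 i h'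

theorem ap_val {α : Perm D} (hi : ∀ d, α (α d) = d) (hn : ∀ d, α d ≠ d) (y : D) :
    ap α y (Sum.inl y) = Sum.inr 0 ∧ ap α y (Sum.inr 0) = Sum.inl y ∧
    ap α y (Sum.inl (α y)) = Sum.inr 3 ∧ ap α y (Sum.inr 3) = Sum.inl (α y) ∧
    ap α y (Sum.inr 1) = Sum.inr 5 ∧ ap α y (Sum.inr 5) = Sum.inr 1 ∧
    ap α y (Sum.inr 2) = Sum.inr 4 ∧ ap α y (Sum.inr 4) = Sum.inr 2 ∧
    ∀ d, d ≠ y → d ≠ α y → ap α y (Sum.inl d) = Sum.inl (α d) := by
  have hy : y ≠ α y := fun h => hn y h.symm
  have e0 : a6 0 = 3 := by decide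
  have e1 : a6 1 = 5 := by decide
  have e2 : a6 2 = 4 := by decide
  have e3 : a6 3 = 0 := by decide
  have e4 : a6 4 = 2 := by decide
  have e5 : a6 5 = 1 := by decide
  refine ⟨?_, ?_, ?_, ?_, ?_, ?_, ?_, ?_, ?_⟩
  · rw [ap_eq, sw_inl _ _ hy, sc_inl, swap_apply_left]
  · rw [ap_eq, swap_apply_right, sc_inl, hi, sw_inl _ _ hy]
  · rw [ap_eq, swap_apply_left, sc_inr, e0, sw_inr _ _ (by decide)]
  · rw [ap_eq, sw_inr _ _ (by decide), sc_inr, e3, swap_apply_right]
  · rw [ap_eq, sw_inr _ _ (by decide), sc_inr, e1, sw_inr _ _ (by decide)]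
  · rw [ap_eq, sw_inr _ _ (by decide), sc_inr, e5, sw_inr _ _ (by decide)]
  · rw [ap_eq, sw_inr _ _ (by decide), sc_inr, e2, sw_inr _ _ (by decide)]
  · rw [ap_eq, sw_inr _ _ (by decide), sc_inr, e4, sw_inr _ _ (by decide)]
  · intro d hd hd'
    have h : α d ≠ α y := fun h => hd (α.injective h)
    rw [ap_eq, sw_inl _ _ hd', sc_inl, sw_inl _ _ h]

theorem ap_invo {α : Perm D} (hi : ∀ d, α (α d) = d) (y : D) (z : D ⊕ Fin 6) :
    ap α y (ap α y z) = z := by
  rw [ap_eq, ap_eq, swap_apply_self]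
  have h : ∀ w : D ⊕ Fin 6, (Equiv.sumCongr α a6) ((Equiv.sumCongr α a6) w) = w := by
    rintro (d | i)
    · rw [sc_inl, sc_inl, hi]
    · rw [sc_inr, sc_inr]
      have h : a6 (a6 i) = i := by revert i; decide
      rw [h]
  rw [h, swap_apply_self]

private theorem fin6 {P : Fin 6 → Prop} (h0 : P 0) (h1 : P 1) (h2 : P 2) (h3 : P 3) (h4 : P 4)
    (h5 : P 5) (i : Fin 6) : P i := by
  fin_cases i
  · exact h0
  · exact h1
  · exact h2
  · exact h3
  · exact h4
  · exact h5

private theorem ap_nf {α : Perm D} (hi : ∀ d, α (α d) = d) (hn : ∀ d, α d ≠ d) (y : D)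
    (z : D ⊕ Fin 6) : ap α y z ≠ z := by
  obtain ⟨v1, v2, v3, v4, v5, v6, v7, v8, v9⟩ := ap_val hi hn y
  rcases z with d | i
  · by_cases h1 : d = y
    · subst h1
      rw [v1]
      simp
    · by_cases h2 : d = α y
      · subst h2
        rw [v3]
        simp
      · rw [v9 d h1 h2]
        exact fun h => hn d (Sum.inl_injective h)
  · revert i
    apply fin6
    · rw [v2]; simp
    · rw [v5]; simp
    · rw [v7]; simp
    · rw [v4]; simp
    · rw [v8]; simp
    · rw [v6]; simp

theorem ap_PT {f α : Perm D} (hf : TF f) (hα : PT f α []) (y : D) :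
    PT (fp f) (ap α y) [] := by
  have hn : ∀ d, α d ≠ d := by
    intro d h
    have := (hα.leg d).1 h
    simp [tri] at this
  have hi := hα.inv
  obtain ⟨v1, v2, v3, v4, v5, v6, v7, v8, v9⟩ := ap_val hi hn y
  refine ⟨ap_invo hi y, ?_, ?_, ?_⟩
  · intro d
    constructor
    · intro h
      exact absurd h (ap_nf hi hn y d)
    · intro h
      simp [tri] at h
  · simp [tri]
  · intro P ⟨d0, _, hd0⟩ hPf hPa
    have f0 : P (Sum.inr 0) → P (Sum.inr 1) := hPf (Sum.inr 0)
    have f1 : P (Sum.inr 1) → P (Sum.inr 2) := hPf (Sum.inr 1)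
    have f2 : P (Sum.inr 2) → P (Sum.inr 0) := hPf (Sum.inr 2)
    have f3 : P (Sum.inr 3) → P (Sum.inr 4) := hPf (Sum.inr 3)
    have f4 : P (Sum.inr 4) → P (Sum.inr 5) := hPf (Sum.inr 4)
    have f5 : P (Sum.inr 5) → P (Sum.inr 3) := hPf (Sum.inr 5)
    have a0 : P (Sum.inr 0) → P (Sum.inl y) := fun h => v2 ▸ hPa _ h
    have a1 : P (Sum.inr 1) → P (Sum.inr 5) := fun h => v5 ▸ hPa _ h
    have a2 : P (Sum.inr 2) → P (Sum.inr 4) := fun h => v7 ▸ hPa _ h
    have a3 : P (Sum.inr 3) → P (Sum.inl (α y)) := fun h => v4 ▸ hPa _ h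
    have a4 : P (Sum.inr 4) → P (Sum.inr 2) := fun h => v8 ▸ hPa _ h
    have a5 : P (Sum.inr 5) → P (Sum.inr 1) := fun h => v6 ▸ hPa _ h
    have b0 : P (Sum.inl y) → P (Sum.inr 0) := fun h => v1 ▸ hPa _ h
    have b3 : P (Sum.inl (α y)) → P (Sum.inr 3) := fun h => v3 ▸ hPa _ h
    have hR : ∀ e, P (Sum.inl e) → P (Sum.inl (α e)) := by
      intro e he
      by_cases h1 : e = y
      · subst h1
        exact a3 (f5 (a1 (f0 (b0 he))))
      · by_cases h2 : e = α y
        · subst h2
          rw [hi]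
          exact a0 (f2 (a4 (f3 (b3 he))))
        · exact v9 e h1 h2 ▸ hPa _ he
    have hex : P (Sum.inl y) := by
      rcases d0 with d | i
      · refine hα.con (fun e => P (Sum.inl e)) ⟨d, hn d, hd0⟩ (fun e he => hPf _ he) hR y (hn y)
      · revert i
        apply fin6 (P := fun i => ap α y (Sum.inr i) ≠ Sum.inr i → P (Sum.inr i) → P (Sum.inl y))
        · exact fun _ => a0
        · exact fun _ h => a0 (f2 (f1 h))
        · exact fun _ h => a0 (f2 h)
        · exact fun _ h => a0 (f2 (a4 (f3 h)))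
        · exact fun _ h => a0 (f2 (a4 h))
        · exact fun _ h => a0 (f2 (f1 (a5 h)))
    intro d _
    rcases d with d | i
    · exact hα.con (fun e => P (Sum.inl e)) ⟨y, hn y, hex⟩ (fun e he => hPf _ he) hR d (hn d)
    · have h0 := b0 hex
      have h1 := f0 h0
      have h2 := f1 h1
      have h5 := a1 h1
      have h3 := f5 h5
      have h4 := f3 h3
      exact fin6 (P := fun i => P (Sum.inr i)) h0 h1 h2 h3 h4 h5 i

theorem ap_sig {f α : Perm D} (hi : ∀ d, α (α d) = d) (hn : ∀ d, α d ≠ d) (y : D) :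
    (fp f * ap α y) (Sum.inl y) = Sum.inr 1 ∧ (fp f * ap α y) (Sum.inr 1) = Sum.inr 3 ∧
    (fp f * ap α y) (Sum.inr 3) = Sum.inl (f (α y)) ∧
    (fp f * ap α y) (Sum.inl (α y)) = Sum.inr 4 ∧ (fp f * ap α y) (Sum.inr 4) = Sum.inr 0 ∧
    (fp f * ap α y) (Sum.inr 0) = Sum.inl (f y) ∧
    (fp f * ap α y) (Sum.inr 2) = Sum.inr 5 ∧ (fp f * ap α y) (Sum.inr 5) = Sum.inr 2 ∧
    ∀ d, d ≠ y → d ≠ α y → (fp f * ap α y) (Sum.inl d) = Sum.inl (f (α d)) := by
  obtain ⟨v1, v2, v3, v4, v5, v6, v7, v8, v9⟩ := ap_val hi hn y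
  have e0 : g6 0 = 1 := by decide
  have e1 : g6 1 = 2 := by decide
  have e2 : g6 2 = 0 := by decide
  have e3 : g6 3 = 4 := by decide
  have e4 : g6 4 = 5 := by decide
  have e5 : g6 5 = 3 := by decide
  refine ⟨?_, ?_, ?_, ?_, ?_, ?_, ?_, ?_, ?_⟩
  · rw [Perm.mul_apply, v1, fp_inr, e0]
  · rw [Perm.mul_apply, v5, fp_inr, e5]
  · rw [Perm.mul_apply, v4, fp_inl]
  · rw [Perm.mul_apply, v3, fp_inr, e3]
  · rw [Perm.mul_apply, v8, fp_inr, e2]
  · rw [Perm.mul_apply, v2, fp_inl]
  · rw [Perm.mul_apply, v7, fp_inr, e4]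
  · rw [Perm.mul_apply, v6, fp_inr, e1]
  · intro d h1 h2
    rw [Perm.mul_apply, v9 d h1 h2, fp_inl]

private theorem sc_step (π : Perm D) {a b : D} (h : π a = b) : π.SameCycle a b :=
  ⟨1, by rw [zpow_one, h]⟩

private theorem sc_step' (π : Perm (D ⊕ Fin 6)) {a b : D ⊕ Fin 6} (h : π a = b) :
    π.SameCycle a b := ⟨1, by rw [zpow_one, h]⟩

/-- the projection of the new darts to the old ones -/
private def pg (α : Perm D) (y : D) : D ⊕ Fin 6 → D
  | Sum.inl d => d
  | Sum.inr i => ![α y, y, y, y, α y, y] i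

theorem ap_same {f α : Perm D} (hi : ∀ d, α (α d) = d) (hn : ∀ d, α d ≠ d) (y a b : D) :
    (fp f * ap α y).SameCycle (Sum.inl a) (Sum.inl b) ↔ (f * α).SameCycle a b := by
  obtain ⟨v1, v2, v3, v4, v5, v6, v7, v8, v9⟩ := ap_sig (f := f) hi hn y
  constructor
  · intro h
    have h' := zs_ind (fp f * ap α y)
      (fun x z => (f * α).SameCycle (pg α y x) (pg α y z)) (fun x => Perm.SameCycle.refl _ _)
      (fun x z w h1 h2 => h1.trans h2) ?_ h
    · exact h'
    · rintro (d | i)
      · by_cases h1 : d = y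
        · subst h1
          rw [v1]
          exact Perm.SameCycle.refl _ _
        · by_cases h2 : d = α y
          · subst h2
            rw [v4]
            exact Perm.SameCycle.refl _ _
          · rw [v9 d h1 h2]
            exact sc_step _ rfl
      · revert i
        apply fin6
        · rw [v6]
          show (f * α).SameCycle (α y) (f y)
          exact sc_step _ (by rw [Perm.mul_apply, hi])
        · rw [v2]
          exact Perm.SameCycle.refl _ _
        · rw [v7]
          exact Perm.SameCycle.refl _ _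
        · rw [v3]
          show (f * α).SameCycle y (f (α y))
          exact sc_step _ rfl
        · rw [v5]
          exact Perm.SameCycle.refl _ _
        · rw [v8]
          exact Perm.SameCycle.refl _ _
  · intro h
    refine zs_ind (f * α) (fun x z => (fp f * ap α y).SameCycle (Sum.inl x) (Sum.inl z))
      (fun x => Perm.SameCycle.refl _ _) (fun x z w h1 h2 => h1.trans h2) ?_ h
    intro d
    by_cases h1 : d = y
    · subst h1
      exact ((sc_step' _ v1).trans (sc_step' _ v2)).trans (sc_step' _ v3)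
    · by_cases h2 : d = α y
      · subst h2
        show (fp f * ap α y).SameCycle (Sum.inl (α y)) (Sum.inl (f (α (α y))))
        rw [hi]
        exact ((sc_step' _ v4).trans (sc_step' _ v5)).trans (sc_step' _ v6)
      · exact sc_step' _ (v9 d h1 h2)

theorem ap_cyc {f α : Perm D} (hf : TF f) (hi : ∀ d, α (α d) = d) (hn : ∀ d, α d ≠ d) (y : D) :
    cyc (fp f * ap α y) = cyc (f * α) + 1 := by
  obtain ⟨v1, v2, v3, v4, v5, v6, v7, v8, v9⟩ := ap_sig (f := f) hi hn y
  let Q := Quotient (Perm.SameCycle.setoid (f * α))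
  let Q' := Quotient (Perm.SameCycle.setoid (fp f * ap α y))
  let F : Option Q → Q' := fun o => o.elim (Quotient.mk _ (Sum.inr 2))
    (Quotient.map' (s₂ := Perm.SameCycle.setoid (fp f * ap α y)) Sum.inl
      (fun a b h => (ap_same hi hn y a b).2 h))
  have hno : ∀ z z' : D ⊕ Fin 6, (fp f * ap α y).SameCycle z z' →
      ((z = Sum.inr 2 ∨ z = Sum.inr 5) ↔ (z' = Sum.inr 2 ∨ z' = Sum.inr 5)) := by
    intro z z' h
    refine zs_ind (fp f * ap α y)
      (fun z z' => ((z = Sum.inr 2 ∨ z = Sum.inr 5) ↔ (z' = Sum.inr 2 ∨ z' = Sum.inr 5)))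
      (fun _ => Iff.rfl) (fun _ _ _ h1 h2 => h1.trans h2) ?_ h
    rintro (d | i)
    · by_cases h1 : d = y
      · subst h1
        rw [v1]
        simp
      · by_cases h2 : d = α y
        · subst h2
          rw [v4]
          simp
        · rw [v9 d h1 h2]
          simp
    · revert i
      apply fin6
      · rw [v6]; simp
      · rw [v2]; simp
      · rw [v7]; simp
      · rw [v3]; simp
      · rw [v5]; simp
      · rw [v8]; simp
  have hn2 : ∀ a : D, ¬ (fp f * ap α y).SameCycle (Sum.inl a) (Sum.inr 2) := by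
    intro a h
    have := (hno _ _ h).2 (Or.inl rfl)
    simp at this
  have hbij : Function.Bijective F := by
    constructor
    · intro o o' h
      rcases o with _ | q <;> rcases o' with _ | q'
      · rfl
      · exfalso
        induction q' using Quotient.inductionOn with
        | h a => exact hn2 a (Quotient.exact h).symm
      · exfalso
        induction q using Quotient.inductionOn with
        | h a => exact hn2 a (Quotient.exact h)
      · induction q using Quotient.inductionOn with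
        | h a =>
          induction q' using Quotient.inductionOn with
          | h b =>
            have h' : (fp f * ap α y).SameCycle (Sum.inl a) (Sum.inl b) := Quotient.exact h
            have h2 := (ap_same hi hn y a b).1 h'
            exact congrArg some (Quotient.sound h2)
    · intro q
      induction q using Quotient.inductionOn with
      | h z =>
        have key : ∀ a : D, (fp f * ap α y).SameCycle (Sum.inl a) z → ∃ o, F o = Quotient.mk _ z :=
          fun a h => ⟨some (Quotient.mk _ a), Quotient.sound h⟩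
        rcases z with d | i
        · exact key d (Perm.SameCycle.refl _ _)
        · revert i
          apply fin6
          · exact fun key => key _ (sc_step' _ v6).symm
          · exact fun key => key _ (sc_step' _ v1)
          · exact fun _ => ⟨none, rfl⟩
          · exact fun key => key _ (sc_step' _ v3).symm
          · exact fun key => key _ (sc_step' _ v4)
          · exact fun _ => ⟨none, Quotient.sound (sc_step' _ v7)⟩
  have h := Nat.card_eq_of_bijective F hbij
  rw [Finite.card_option] at h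
  exact h.symm

theorem ap_inj {α α' : Perm D} (hi : ∀ d, α (α d) = d) (hn : ∀ d, α d ≠ d)
    (hi' : ∀ d, α' (α' d) = d) (hn' : ∀ d, α' d ≠ d) (y y' : D) (h : ap α y = ap α' y') :
    α = α' ∧ y = y' := by
  obtain ⟨v1, v2, v3, v4, v5, v6, v7, v8, v9⟩ := ap_val hi hn y
  obtain ⟨w1, w2, w3, w4, w5, w6, w7, w8, w9⟩ := ap_val hi' hn' y'
  have e1 : y = y' := by
    rw [h, w2] at v2
    exact Sum.inl_injective v2.symm
  subst e1
  have e2 : α y = α' y := by
    rw [h, w4] at v4
    exact Sum.inl_injective v4.symm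
  refine ⟨?_, rfl⟩
  ext d
  by_cases h1 : d = y
  · rw [h1, e2]
  · by_cases h2 : d = α y
    · rw [h2, hi, e2, hi']
    · have h3 := v9 d h1 h2
      rw [h, w9 d h1 (by rw [← e2]; exact h2)] at h3
      exact (Sum.inl_injective h3).symm

theorem ap_leaf {f α : Perm D} (hf : TF f) (hα : PT f α []) (y : D) :
    lfc f α ≤ lfc (fp f) (ap α y) + 1 := by
  classical
  have hn : ∀ d, α d ≠ d := by
    intro d h
    have := (hα.leg d).1 h
    simp [tri] at this
  have hi := hα.inv
  obtain ⟨v1, v2, v3, v4, v5, v6, v7, v8, v9⟩ := ap_val hi hn y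
  have hone : ∀ w w', Leaf f α w → Leaf f α w' → f w = y → f w' = α y → False := by
    intro w w' h1 h2 h3 h4
    unfold Leaf at h1 h2
    rw [h3] at h1
    rw [h4, hi, h1] at h2
    have h7 := congrArg f h2
    rw [hf.three] at h7
    exact hf.nf y h7
  have hL : ∀ w, Leaf f α w → f w ≠ y → f w ≠ α y → Leaf (fp f) (ap α y) (Sum.inl w) := by
    intro w h1 h2 h3
    unfold Leaf at h1 ⊢
    rw [fp_inl, v9 _ h2 h3, h1, fp_inl]
  let G : {w : D // Leaf f α w} → Option {w : D ⊕ Fin 6 // Leaf (fp f) (ap α y) w} := fun w =>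
    if h : f w.1 ≠ y ∧ f w.1 ≠ α y then some ⟨Sum.inl w.1, hL w.1 w.2 h.1 h.2⟩ else none
  have hG : Function.Injective G := by
    rintro ⟨w, hw⟩ ⟨w', hw'⟩ h
    by_cases h1 : f w ≠ y ∧ f w ≠ α y
    · have e1 : G ⟨w, hw⟩ = some ⟨Sum.inl w, hL w hw h1.1 h1.2⟩ := dif_pos h1
      by_cases h2 : f w' ≠ y ∧ f w' ≠ α y
      · have e2 : G ⟨w', hw'⟩ = some ⟨Sum.inl w', hL w' hw' h2.1 h2.2⟩ := dif_pos h2
        rw [e1, e2] at h
        have h3 := congrArg Subtype.val (Option.some_injective _ h)
        have h4 : w = w' := Sum.inl_injective h3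
        subst h4
        rfl
      · have e2 : G ⟨w', hw'⟩ = none := dif_neg h2
        rw [e1, e2] at h
        exact absurd h (by simp)
    · have e1 : G ⟨w, hw⟩ = none := dif_neg h1
      by_cases h2 : f w' ≠ y ∧ f w' ≠ α y
      · have e2 : G ⟨w', hw'⟩ = some ⟨Sum.inl w', hL w' hw' h2.1 h2.2⟩ := dif_pos h2
        rw [e1, e2] at h
        exact absurd h (by simp)
      · have c1 : f w = y ∨ f w = α y := by
          by_contra hc
          push Not at hc
          exact h1 hc
        have c2 : f w' = y ∨ f w' = α y := by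
          by_contra hc
          push Not at hc
          exact h2 hc
        have h3 : w = w' := by
          rcases c1 with c1 | c1 <;> rcases c2 with c2 | c2
          · exact f.injective (by rw [c1, c2])
          · exact (hone w w' hw hw' c1 c2).elim
          · exact (hone w' w hw' hw c2 c1).elim
          · exact f.injective (by rw [c1, c2])
        subst h3
        rfl
  have h := Nat.card_le_card_of_injective G hG
  rw [Finite.card_option] at h
  exact h

end QL40
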