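import Mathlib
import Pool.Agent.H40.QL.DigA
import Pool.Agent.H39.HG.GraphLab

/-!
[H40 QL DIGL]  (MP_bcc40c_pr, Q2 lower half)  Insertion of a digon: labels and leftmost geodesics.

PROOFS.  `σ⁺ = f⁺ α⁺` (ap_sig).  New labels (`lp`): `inr 0, inr 4` have the label of `α y`, `inr 1, inr 3` the one of `y`, `inr 2, inr 5` the label `min (ℓ y) (ℓ (α y)) + 1`.
ap_lab: nn, ver, lip: check all cases (`ℓ (f y) = ℓ (α y)`, `ℓ (f (α y)) = ℓ y`, `|ℓ y - ℓ (α y)| ≤ 1`).  dsc: for a dart `inl d`, or `inr 0, 1, 3, 4` (they are in the cycle of `inl (α y)` or `inl y` by ap_sig) take the descending dart of `(f, α)` (`Desc` is the same, ap_same); for `inr 2, inr 5`: `f⁺ (inr 5) = inr 3`, `f⁺ (inr 2) = inr 0`: one of the two is descending, and `inr 2, inr 5`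
are in the same cycle.  zro: the labels of `inr 2, inr 5` are `≥ 1`; all other darts are in cycles meeting `D`: ap_same and Lab.zro.  ex0: from hl.
ap_dl: lab_dst of HG/GraphLab for ap_lab with `a = inl x` (`lp` at `inl x` is `dst x x = 0`): `lp d = dst (fp f) (ap α y) (inl x) d`.
ap_fst (for a level dart `y`): the rotation `ρ⁺ = (σ⁺)⁻¹`: `ρ⁺ (inl (σ d)) = inl d` for `d ≠ y, α y`, and `inl (σ y) → inr 3 → inr 1 → inl y`, `inl (σ (α y)) → inr 0 → inr 4 → inl (α y)`.  The darts `inr 3, inr 0` are level (`ℓ (α y) = ℓ (f y) = ℓ y`), `inr 1, inr 4` ascending.  So the path `z, ρ z, ..., δ` of non descending darts becomes a path of non descending darts from `inl z` to `inl δ`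
(induction on the length of the path; `Desc` on `D` is unchanged).
ap_fst1: `ρ⁺ (inr 1) = inl y`; ap_fst4: `ρ⁺ (inr 4) = inl (α y)`.
-/

set_option autoImplicit false

namespace QL40

open Equiv HG39 QD39

variable {D : Type} [Fintype D] [DecidableEq D]

private theorem fin6' {P : Fin 6 → Prop} (h0 : P 0) (h1 : P 1) (h2 : P 2) (h3 : P 3) (h4 : P 4)
    (h5 : P 5) (i : Fin 6) : P i := by
  fin_cases i
  · exact h0
  · exact h1
  · exact h2
  · exact h3
  · exact h4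
  · exact h5

private theorem fq_inl (f : Perm D) (d : D) : fp f (Sum.inl d) = Sum.inl (f d) := rfl

private theorem fq_inr (f : Perm D) (i : Fin 6) : fp f (Sum.inr i) = Sum.inr (g6 i) := rfl

private theorem lp_inl (α : Perm D) (ℓ : D → ℤ) (y d : D) : lp α ℓ y (Sum.inl d) = ℓ d := rfl

private theorem lp_0 (α : Perm D) (ℓ : D → ℤ) (y : D) : lp α ℓ y (Sum.inr 0) = ℓ (α y) := rfl

private theorem lp_1 (α : Perm D) (ℓ : D → ℤ) (y : D) : lp α ℓ y (Sum.inr 1) = ℓ y := rfl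

private theorem lp_2 (α : Perm D) (ℓ : D → ℤ) (y : D) :
    lp α ℓ y (Sum.inr 2) = min (ℓ y) (ℓ (α y)) + 1 := rfl

private theorem lp_3 (α : Perm D) (ℓ : D → ℤ) (y : D) : lp α ℓ y (Sum.inr 3) = ℓ y := rfl

private theorem lp_4 (α : Perm D) (ℓ : D → ℤ) (y : D) : lp α ℓ y (Sum.inr 4) = ℓ (α y) := rfl

private theorem lp_5 (α : Perm D) (ℓ : D → ℤ) (y : D) :
    lp α ℓ y (Sum.inr 5) = min (ℓ y) (ℓ (α y)) + 1 := rfl

private theorem g60 (f : Perm D) : fp f (Sum.inr 0) = Sum.inr 1 := rfl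
private theorem g61 (f : Perm D) : fp f (Sum.inr 1) = Sum.inr 2 := rfl
private theorem g62 (f : Perm D) : fp f (Sum.inr 2) = Sum.inr 0 := rfl
private theorem g63 (f : Perm D) : fp f (Sum.inr 3) = Sum.inr 4 := rfl
private theorem g64 (f : Perm D) : fp f (Sum.inr 4) = Sum.inr 5 := rfl
private theorem g65 (f : Perm D) : fp f (Sum.inr 5) = Sum.inr 3 := rfl

private theorem st1 (π : Perm (D ⊕ Fin 6)) {a b : D ⊕ Fin 6} (h : π a = b) :
    π.SameCycle a b := ⟨1, by rw [zpow_one, h]⟩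

private theorem hnf {f α : Perm D} (hα : PT f α []) (d : D) : α d ≠ d := by
  intro h
  have := (hα.leg d).1 h
  simp [tri] at this

theorem ap_lab {f α : Perm D} {ℓ : D → ℤ} (hf : TF f) (hα : PT f α []) (hl : Lab f α ℓ) (y : D) :
    Lab (fp f) (ap α y) (lp α ℓ y) := by
  have hn : ∀ d, α d ≠ d := hnf hα
  have hi := hα.inv
  obtain ⟨v1, v2, v3, v4, v5, v6, v7, v8, v9⟩ := ap_val hi hn y
  obtain ⟨s1, s2, s3, s4, s5, s6, s7, s8, s9⟩ := ap_sig (f := f) hi hn y
  have hn' : ∀ z, ap α y z ≠ z := hnf (ap_PT hf hα y)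
  have l1 : ℓ (α y) ≤ ℓ y + 1 := by
    rw [← hl.ver y (hn y)]
    exact hl.lip y (hn y)
  have l2 : ℓ y ≤ ℓ (α y) + 1 := by
    have h := hl.lip (α y) (hn _)
    rw [hl.ver (α y) (hn _), hi] at h
    exact h
  have hsame : ∀ a b, (f * α).SameCycle a b → (fp f * ap α y).SameCycle (Sum.inl a) (Sum.inl b) :=
    fun a b h => (ap_same hi hn y a b).2 h
  have hD : ∀ (z : D ⊕ Fin 6) (d : D), (fp f * ap α y).SameCycle z (Sum.inl d) → 0 < ℓ d →
      ∃ d', (fp f * ap α y).SameCycle z d' ∧ ap α y d' ≠ d' ∧ Desc (fp f) (lp α ℓ y) d' := by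
    intro z d h hd
    obtain ⟨d', h1, h2, h3⟩ := hl.dsc d (hn d) hd
    exact ⟨Sum.inl d', h.trans (hsame _ _ h1), hn' _, h3⟩
  refine ⟨?_, ?_, ?_, ?_, ?_, ?_⟩
  · intro z _
    rcases z with d | i
    · exact hl.nn d (hn d)
    · have h1 := hl.nn y (hn y)
      have h2 := hl.nn (α y) (hn _)
      have h3 : 0 ≤ min (ℓ y) (ℓ (α y)) + 1 := by
        have := le_min h1 h2
        linarith
      exact fin6' (P := fun i => 0 ≤ lp α ℓ y (Sum.inr i)) h2 h1 h3 h1 h2 h3 i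
  · intro z _
    rcases z with d | i
    · rw [fq_inl, lp_inl]
      by_cases h1 : d = y
      · subst h1
        rw [v1, lp_0, hl.ver _ (hn _)]
      · by_cases h2 : d = α y
        · subst h2
          rw [v3, lp_3, hl.ver _ (hn _), hi]
        · rw [v9 d h1 h2, lp_inl, hl.ver _ (hn _)]
    · refine fin6' (P := fun i => lp α ℓ y (fp f (Sum.inr i)) = lp α ℓ y (ap α y (Sum.inr i)))
        ?_ ?_ ?_ ?_ ?_ ?_ i
      · rw [v2]; rfl
      · rw [v5]; rfl
      · rw [v7]; rfl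
      · rw [v4]; rfl
      · rw [v8]; rfl
      · rw [v6]; rfl
  · intro z _
    rcases z with d | i
    · exact hl.lip d (hn d)
    · refine fin6' (P := fun i => lp α ℓ y (fp f (Sum.inr i)) ≤ lp α ℓ y (Sum.inr i) + 1)
        ?_ ?_ ?_ ?_ ?_ ?_ i
      · rw [g60, lp_1, lp_0]; exact l2
      · rw [g61, lp_2, lp_1]
        have := min_le_left (ℓ y) (ℓ (α y))
        linarith
      · rw [g62, lp_2, lp_0]
        rcases le_total (ℓ y) (ℓ (α y)) with h | h
        · rw [min_eq_left h]; linarith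
        · rw [min_eq_right h]; linarith
      · rw [g63, lp_4, lp_3]; exact l1
      · rw [g64, lp_5, lp_4]
        have := min_le_right (ℓ y) (ℓ (α y))
        linarith
      · rw [g65, lp_5, lp_3]
        rcases le_total (ℓ y) (ℓ (α y)) with h | h
        · rw [min_eq_left h]; linarith
        · rw [min_eq_right h]; linarith
  · intro z _ hz
    have hcyc : ∃ w, (w = Sum.inr 2 ∨ w = Sum.inr 5) ∧ Desc (fp f) (lp α ℓ y) w := by
      rcases le_total (ℓ y) (ℓ (α y)) with h | h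
      · refine ⟨Sum.inr 5, Or.inr rfl, ?_⟩
        show lp α ℓ y (fp f (Sum.inr 5)) = lp α ℓ y (Sum.inr 5) - 1
        rw [g65, lp_3, lp_5, min_eq_left h]
        ring
      · refine ⟨Sum.inr 2, Or.inl rfl, ?_⟩
        show lp α ℓ y (fp f (Sum.inr 2)) = lp α ℓ y (Sum.inr 2) - 1
        rw [g62, lp_0, lp_2, min_eq_right h]
        ring
    rcases z with d | i
    · exact hD _ d (Perm.SameCycle.refl _ _) hz
    · revert hz
      refine fin6' (P := fun i => 0 < lp α ℓ y (Sum.inr i) →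
        ∃ d', (fp f * ap α y).SameCycle (Sum.inr i) d' ∧ ap α y d' ≠ d' ∧
          Desc (fp f) (lp α ℓ y) d') ?_ ?_ ?_ ?_ ?_ ?_ i
      · intro h
        rw [lp_0] at h
        exact hD _ (α y) ((st1 _ s4).trans (st1 _ s5)).symm h
      · intro h
        rw [lp_1] at h
        exact hD _ y (st1 _ s1).symm h
      · intro h
        obtain ⟨w, hw1, hw2⟩ := hcyc
        refine ⟨w, ?_, hn' _, hw2⟩
        rcases hw1 with hw1 | hw1
        · rw [hw1]
        · rw [hw1]; exact st1 _ s7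
      · intro h
        rw [lp_3] at h
        exact hD _ y ((st1 _ s1).trans (st1 _ s2)).symm h
      · intro h
        rw [lp_4] at h
        exact hD _ (α y) (st1 _ s4).symm h
      · intro h
        obtain ⟨w, hw1, hw2⟩ := hcyc
        refine ⟨w, ?_, hn' _, hw2⟩
        rcases hw1 with hw1 | hw1
        · rw [hw1]; exact st1 _ s8
        · rw [hw1]
  · intro z z' _ _ hz hz'
    have h0 : ∀ z : D ⊕ Fin 6, lp α ℓ y z = 0 →
        ∃ d, (fp f * ap α y).SameCycle (Sum.inl d) z ∧ ℓ d = 0 := by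
      intro z hz
      have h1 := hl.nn y (hn y)
      have h2 := hl.nn (α y) (hn _)
      have h3 : 0 < min (ℓ y) (ℓ (α y)) + 1 := by
        have := le_min h1 h2
        linarith
      rcases z with d | i
      · exact ⟨d, Perm.SameCycle.refl _ _, hz⟩
      · revert hz
        refine fin6' (P := fun i => lp α ℓ y (Sum.inr i) = 0 →
          ∃ d, (fp f * ap α y).SameCycle (Sum.inl d) (Sum.inr i) ∧ ℓ d = 0) ?_ ?_ ?_ ?_ ?_ ?_ i
        · intro h
          exact ⟨α y, (st1 _ s4).trans (st1 _ s5), h⟩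
        · intro h
          exact ⟨y, st1 _ s1, h⟩
        · intro h
          rw [lp_2] at h
          linarith
        · intro h
          exact ⟨y, (st1 _ s1).trans (st1 _ s2), h⟩
        · intro h
          exact ⟨α y, st1 _ s4, h⟩
        · intro h
          rw [lp_5] at h
          linarith
    obtain ⟨d, h1, h2⟩ := h0 z hz
    obtain ⟨d', h1', h2'⟩ := h0 z' hz'
    exact (h1.symm.trans (hsame _ _ (hl.zro d d' (hn d) (hn d') h2 h2'))).trans h1'
  · obtain ⟨d, _, hd⟩ := hl.ex0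
    exact ⟨Sum.inl d, hn' _, hd⟩

theorem ap_dl {f α : Perm D} (hf : TF f) (hα : PT f α []) (x y : D) :
    dlab (fp f) (ap α y) (Sum.inl x) = lp α (dlab f α x) y := by
  funext d
  have hl : Lab f α (dlab f α x) := dst_lab hf hα x
  have h0 : lp α (dlab f α x) y (Sum.inl x) = 0 := by
    rw [lp_inl]
    unfold dlab dst
    rw [SimpleGraph.dist_self]
    rfl
  exact (lab_dst (fp_tf hf) (ap_PT hf hα y) (ap_lab hf hα hl y) (Sum.inl x) h0 d).symm

private theorem pth_one {E : Type} [Fintype E] [DecidableEq E] {ρ : Perm E} {S : E → Prop}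
    {a b : E} (h : ρ a = b) (hS : S a) : Pth ρ S a b := by
  refine ⟨1, by rw [pow_one, h], fun j hj => ?_⟩
  have : j = 0 := by omega
  subst this
  exact hS

private theorem pth_lift {f α : Perm D} {ℓ : D → ℤ} (hf : TF f) (hα : PT f α [])
    (hl : Lab f α ℓ) {y : D} (hy : ℓ (f y) = ℓ y) {z δ : D}
    (h : Pth (α * f⁻¹) (fun z => ¬ Desc f ℓ z) z δ) :
    Pth (ap α y * (fp f)⁻¹) (fun z => ¬ Desc (fp f) (lp α ℓ y) z) (Sum.inl z) (Sum.inl δ) := by
  have hn : ∀ d, α d ≠ d := hnf hα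
  have hi := hα.inv
  obtain ⟨s1, s2, s3, s4, s5, s6, s7, s8, s9⟩ := ap_sig (f := f) hi hn y
  have hr : ap α y * (fp f)⁻¹ = (fp f * ap α y)⁻¹ := rho_inv (ap_invo hi y)
  have hr0 : α * f⁻¹ = (f * α)⁻¹ := rho_inv hi
  have hay : ℓ (α y) = ℓ y := by rw [← hl.ver y (hn y), hy]
  have hst : ∀ {a b : D ⊕ Fin 6}, (fp f * ap α y) a = b → (ap α y * (fp f)⁻¹) b = a := by
    intro a b h
    rw [hr, Perm.inv_eq_iff_eq, h]
  have n0 : ¬ Desc (fp f) (lp α ℓ y) (Sum.inr 0) := by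
    intro h
    have h' : lp α ℓ y (fp f (Sum.inr 0)) = lp α ℓ y (Sum.inr 0) - 1 := h
    rw [g60, lp_0, lp_1, hay] at h'
    linarith
  have n1 : ¬ Desc (fp f) (lp α ℓ y) (Sum.inr 1) := by
    intro h
    have h' : lp α ℓ y (fp f (Sum.inr 1)) = lp α ℓ y (Sum.inr 1) - 1 := h
    rw [g61, lp_1, lp_2, hay, min_self] at h'
    linarith
  have n3 : ¬ Desc (fp f) (lp α ℓ y) (Sum.inr 3) := by
    intro h
    have h' : lp α ℓ y (fp f (Sum.inr 3)) = lp α ℓ y (Sum.inr 3) - 1 := h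
    rw [g63, lp_3, lp_4, hay] at h'
    linarith
  have n4 : ¬ Desc (fp f) (lp α ℓ y) (Sum.inr 4) := by
    intro h
    have h' : lp α ℓ y (fp f (Sum.inr 4)) = lp α ℓ y (Sum.inr 4) - 1 := h
    rw [g64, lp_4, lp_5, hay, min_self] at h'
    linarith
  have step : ∀ z, ¬ Desc f ℓ z → Pth (ap α y * (fp f)⁻¹)
      (fun z => ¬ Desc (fp f) (lp α ℓ y) z) (Sum.inl z) (Sum.inl ((α * f⁻¹) z)) := by
    intro z hz
    have hz' : ¬ Desc (fp f) (lp α ℓ y) (Sum.inl z) := hz
    obtain ⟨d, hd⟩ : ∃ d, f (α d) = z := (f * α).surjective z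
    have hρ : (α * f⁻¹) z = d := by
      rw [hr0, Perm.inv_eq_iff_eq, ← hd, Perm.mul_apply]
    rw [hρ]
    by_cases h1 : d = y
    · subst h1
      rw [hd] at s3
      exact pth_trans (pth_one (hst s3) hz') (pth_trans (pth_one (hst s2) n3)
        (pth_one (hst s1) n1))
    · by_cases h2 : d = α y
      · subst h2
        rw [hi] at hd
        rw [hd] at s6
        exact pth_trans (pth_one (hst s6) hz') (pth_trans (pth_one (hst s5) n0)
          (pth_one (hst s4) n4))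
      · have s := s9 d h1 h2
        rw [hd] at s
        exact pth_one (hst s) hz'
  obtain ⟨k, hk, hkS⟩ := h
  induction k generalizing δ with
  | zero =>
    have hk' : z = δ := hk
    rw [hk']
    exact ⟨0, rfl, fun j hj => absurd hj (Nat.not_lt_zero _)⟩
  | succ k ih =>
    have h1 := ih rfl (fun j hj => hkS j (by omega))
    have h2 := step _ (hkS k (by omega))
    have h3 : (α * f⁻¹) (((α * f⁻¹) ^ k) z) = δ := by
      rw [← hk, pow_succ']
      rfl
    rw [h3] at h2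
    exact pth_trans h1 h2

theorem ap_fst {f α : Perm D} {ℓ : D → ℤ} (hf : TF f) (hα : PT f α []) (hl : Lab f α ℓ) {y : D}
    (hy : ℓ (f y) = ℓ y) {z δ : D} (h : Fst f α ℓ z δ) :
    Fst (fp f) (ap α y) (lp α ℓ y) (Sum.inl z) (Sum.inl δ) :=
  ⟨h.1, pth_lift hf hα hl hy h.2⟩

theorem ap_fst1 {f α : Perm D} {ℓ : D → ℤ} (hf : TF f) (hα : PT f α []) (hl : Lab f α ℓ) {y : D}
    (hy : ℓ (f y) = ℓ y) {δ : D} (h : Fst f α ℓ y δ) :
    Fst (fp f) (ap α y) (lp α ℓ y) (Sum.inr 1) (Sum.inl δ) := by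
  have hn : ∀ d, α d ≠ d := hnf hα
  have hi := hα.inv
  obtain ⟨s1, s2, s3, s4, s5, s6, s7, s8, s9⟩ := ap_sig (f := f) hi hn y
  have hr : ap α y * (fp f)⁻¹ = (fp f * ap α y)⁻¹ := rho_inv (ap_invo hi y)
  have hay : ℓ (α y) = ℓ y := by rw [← hl.ver y (hn y), hy]
  have n1 : ¬ Desc (fp f) (lp α ℓ y) (Sum.inr 1) := by
    intro h
    have h' : lp α ℓ y (fp f (Sum.inr 1)) = lp α ℓ y (Sum.inr 1) - 1 := h
    rw [g61, lp_1, lp_2, hay, min_self] at h'
    linarith
  refine ⟨h.1, pth_trans (pth_one (b := Sum.inl y) ?_ n1) (pth_lift hf hα hl hy h.2)⟩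
  rw [hr, Perm.inv_eq_iff_eq, s1]

theorem ap_fst4 {f α : Perm D} {ℓ : D → ℤ} (hf : TF f) (hα : PT f α []) (hl : Lab f α ℓ) {y : D}
    (hy : ℓ (f y) = ℓ y) {δ : D} (h : Fst f α ℓ (α y) δ) :
    Fst (fp f) (ap α y) (lp α ℓ y) (Sum.inr 4) (Sum.inl δ) := by
  have hn : ∀ d, α d ≠ d := hnf hα
  have hi := hα.inv
  obtain ⟨s1, s2, s3, s4, s5, s6, s7, s8, s9⟩ := ap_sig (f := f) hi hn y
  have hr : ap α y * (fp f)⁻¹ = (fp f * ap α y)⁻¹ := rho_inv (ap_invo hi y)
  have hay : ℓ (α y) = ℓ y := by rw [← hl.ver y (hn y), hy]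
  have n4 : ¬ Desc (fp f) (lp α ℓ y) (Sum.inr 4) := by
    intro h
    have h' : lp α ℓ y (fp f (Sum.inr 4)) = lp α ℓ y (Sum.inr 4) - 1 := h
    rw [g64, lp_4, lp_5, hay, min_self] at h'
    linarith
  refine ⟨h.1, pth_trans (pth_one (b := Sum.inl (α y)) ?_ n4) (pth_lift hf hα hl hy h.2)⟩
  rw [hr, Perm.inv_eq_iff_eq, s4]

end QL40
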