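import Mathlib
import Pool.Agent.H40.QL.Defs

/-!
[H40 QL EXCH]  (MP_bcc40c_pr, Q2 lower half)  Exchangeability of the labels of the triangles.

PROOF.  For `π : Perm D` commuting with `f` let `π` act on `W` by `w ↦ (π * w.1 * π⁻¹, w.2.1 ∘ π⁻¹, π w.2.2.1, π w.2.2.2)`; this is a bijection of `W` (the inverse is the action of `π⁻¹`, which commutes with `f`, too).  So `W_{(a,b)} = {w ∈ W | w.2.2 = (a, b)}` and `W_{(π a, π b)}` have the same cardinality.
For every pair `(a', b')` with `b' ∉ {a', f a', f f a'}` there is such a `π` with `π a = a'`, `π b = b'`: all cycles of `f` have length three; let `π` exchange the triangles of `a` and `a'` (`f^i a ↔ f^i a'`), then exchange the triangles of (the image of) `b` and `b'`: first `π1 = swap a a' * swap (f a) (f a') * swap (f f a) (f f a')` if `a'`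
is not in the triangle of `a`, and the power of `f` on the triangle of `a` (identity elsewhere) which maps `a` to `a'` otherwise; then `π2` in the same way for `b1 = π1 b` and `b'`, it fixes the triangle of `a'` because neither `b1` nor `b'` is in it.  (General lemma: for all `a, a'` there is `π` commuting with `f`, `π a = a'`, and `π d = d` for all `d` outside the
triangles of `a` and `a'`.)
The number of pairs `(a', b')` is `card D * (card D - 3)`, the sets `W_{(a',b')}` are disjoint subsets of `W`.  So `W_{(a,b)}.ncard * (card D * (card D - 3)) ≤ W.ncard`.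
exch_yst: apply it to `W = {w | (w.1, w.2.1) ∈ Yst f v R S, w.2.1 w.2.2.1 ≤ R, w.2.1 w.2.2.2 ≤ R}` (invariant: `f * (π α π⁻¹) = π (f α) π⁻¹`, SameCycle and cyc are conjugation invariant, `Desc`, `Lb`, `PT` too), and `W.ncard ≤ Yst.ncard * S^2`.
-/

set_option autoImplicit false

namespace QL40

open Equiv HG39 QD39

variable {D : Type} [Fintype D] [DecidableEq D]

/-- the permutation which exchanges two triangles -/
private theorem mv {f : Perm D} (hf : TF f) (a a' : D) :
    ∃ π : Perm D, (∀ d, π (f d) = f (π d)) ∧ π a = a' ∧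
      ∀ d, d ≠ a → d ≠ f a → d ≠ f (f a) → d ≠ a' → d ≠ f a' → d ≠ f (f a') → π d = d := by
  have h3 := hf.three
  have hn := hf.nf
  have hinj := f.injective
  -- powers of the cycle
  have hcyc : ∀ d, f (f.cycleOf a d) = f.cycleOf a (f d) := by
    intro d
    rw [Equiv.Perm.cycleOf_apply, Equiv.Perm.cycleOf_apply]
    by_cases h : f.SameCycle a d
    · rw [if_pos h, if_pos (Equiv.Perm.sameCycle_apply_right.2 h)]
    · rw [if_neg h, if_neg (fun h' => h (Equiv.Perm.sameCycle_apply_right.1 h'))]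
  have hout : ∀ d, d ≠ a → d ≠ f a → d ≠ f (f a) → f.cycleOf a d = d := by
    intro d h1 h2 h4
    rw [Equiv.Perm.cycleOf_apply, if_neg]
    rintro ⟨k, hk⟩
    have hmod : ∀ k : ℕ, (f ^ k) a = a ∨ (f ^ k) a = f a ∨ (f ^ k) a = f (f a) := by
      intro k
      induction k with
      | zero => left; simp
      | succ k ih =>
        rw [pow_succ', Equiv.Perm.mul_apply]
        rcases ih with h | h | h <;> rw [h]
        · right; left; rfl
        · right; right; rfl
        · left; exact h3 a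
    have hmodz : (f ^ k) a = a ∨ (f ^ k) a = f a ∨ (f ^ k) a = f (f a) := by
      have hf3 : f ^ (3 : ℤ) = 1 := by
        ext x
        have : (f ^ (3 : ℤ)) x = f (f (f x)) := by
          rw [show (3 : ℤ) = ((3 : ℕ) : ℤ) from rfl, zpow_natCast, pow_succ, pow_two]
          rfl
        rw [this, h3]; rfl
      have hk2 : f ^ k = f ^ (k % 3) := by
        conv_lhs => rw [← Int.emod_add_mul_ediv k 3]
        rw [zpow_add, zpow_mul, hf3, one_zpow, mul_one]
      rw [hk2]
      have h5 : 0 ≤ k % 3 := Int.emod_nonneg _ (by norm_num)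
      lift k % 3 to ℕ using h5 with m hm
      rw [zpow_natCast]
      exact hmod m
    rw [hk] at hmodz
    tauto
  have hself : f.cycleOf a a = f a := Equiv.Perm.cycleOf_apply_self f a
  by_cases e0 : a' = a
  · refine ⟨1, fun d => rfl, e0.symm, fun d _ _ _ _ _ _ => rfl⟩
  by_cases e1 : a' = f a
  · refine ⟨f.cycleOf a, fun d => (hcyc d).symm, by rw [hself, e1], fun d h1 h2 h4 _ _ _ =>
      hout d h1 h2 h4⟩
  by_cases e2 : a' = f (f a)
  · refine ⟨f.cycleOf a * f.cycleOf a, fun d => ?_, ?_, fun d h1 h2 h4 _ _ _ => ?_⟩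
    · rw [Equiv.Perm.mul_apply, Equiv.Perm.mul_apply, hcyc, hcyc]
    · rw [Equiv.Perm.mul_apply, hself, ← hcyc, hself, e2]
    · rw [Equiv.Perm.mul_apply, hout d h1 h2 h4, hout d h1 h2 h4]
  -- disjoint triangles
  have n1 : a ≠ f a := (hn a).symm
  have n2 : a ≠ f (f a) := fun h => hn (f (f a)) (by rw [h3]; exact h)
  have n3 : f a ≠ f (f a) := fun h => n1 (hinj h)
  have m1 : a' ≠ f a' := (hn a').symm
  have m2 : a' ≠ f (f a') := fun h => hn (f (f a')) (by rw [h3]; exact h)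
  have m3 : f a' ≠ f (f a') := fun h => m1 (hinj h)
  have x1 : a ≠ f a' := fun h => e2 (by rw [h, h3])
  have x2 : a ≠ f (f a') := fun h => e1 (by rw [h, h3])
  have y0 : f a ≠ a' := fun h => e1 h.symm
  have y1 : f a ≠ f a' := fun h => e0 (hinj h).symm
  have y2 : f a ≠ f (f a') := fun h => x1 (hinj h)
  have z0 : f (f a) ≠ a' := fun h => e2 h.symm
  have z1 : f (f a) ≠ f a' := fun h => y0 (hinj h)
  have z2 : f (f a) ≠ f (f a') := fun h => y1 (hinj h)
  have w0 : a ≠ a' := fun h => e0 h.symm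
  set s0 := swap a a' with hs0
  set s1 := swap (f a) (f a') with hs1
  set s2 := swap (f (f a)) (f (f a')) with hs2
  have d01 : Commute s0 s1 := by
    apply Equiv.Perm.Disjoint.commute
    apply Equiv.Perm.disjoint_swap_swap
    simp only [List.nodup_cons, List.mem_cons, List.not_mem_nil, or_false, not_or, not_false_eq_true,
      List.nodup_nil, and_true]
    exact ⟨⟨w0, n1, x1⟩, ⟨y0.symm, m1⟩, y1⟩
  have d02 : Commute s0 s2 := by
    apply Equiv.Perm.Disjoint.commute
    apply Equiv.Perm.disjoint_swap_swap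
    simp only [List.nodup_cons, List.mem_cons, List.not_mem_nil, or_false, not_or, not_false_eq_true,
      List.nodup_nil, and_true]
    exact ⟨⟨w0, n2, x2⟩, ⟨z0.symm, m2⟩, z2⟩
  have hc0 : f * s0 = s1 * f := by
    rw [hs1, Equiv.swap_apply_apply]; simp [hs0, mul_assoc]
  have hc1 : f * s1 = s2 * f := by
    rw [hs2, Equiv.swap_apply_apply]; simp [hs1, mul_assoc]
  have hc2 : f * s2 = s0 * f := by
    have : s0 = swap (f (f (f a))) (f (f (f a'))) := by rw [h3, h3]
    rw [this, Equiv.swap_apply_apply]; simp [hs2, mul_assoc]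
  have hcom : f * (s0 * s1 * s2) = s0 * s1 * s2 * f := by
    calc f * (s0 * s1 * s2) = f * s0 * s1 * s2 := by simp only [mul_assoc]
      _ = s1 * (f * s1) * s2 := by rw [hc0]; simp only [mul_assoc]
      _ = s1 * s2 * (f * s2) := by rw [hc1]; simp only [mul_assoc]
      _ = s1 * s2 * s0 * f := by rw [hc2]; simp only [mul_assoc]
      _ = s1 * (s0 * s2) * f := by rw [d02.eq]; simp only [mul_assoc]
      _ = s0 * s1 * s2 * f := by rw [← mul_assoc s1, ← d01.eq]
  refine ⟨s0 * s1 * s2, fun d => ?_, ?_, fun d h1 h2 h4 h5 h6 h7 => ?_⟩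
  · have := congrArg (fun g : Perm D => g d) hcom
    simpa only [Equiv.Perm.mul_apply] using this.symm
  · rw [Equiv.Perm.mul_apply, Equiv.Perm.mul_apply, hs2, Equiv.swap_apply_of_ne_of_ne n2 x2, hs1,
      Equiv.swap_apply_of_ne_of_ne n1 x1, hs0, Equiv.swap_apply_left]
  · rw [Equiv.Perm.mul_apply, Equiv.Perm.mul_apply, hs2, Equiv.swap_apply_of_ne_of_ne h4 h7, hs1,
      Equiv.swap_apply_of_ne_of_ne h2 h6, hs0, Equiv.swap_apply_of_ne_of_ne h1 h5]

private theorem mv2 {f : Perm D} (hf : TF f) (a b a' b' : D)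
    (hab : b ≠ a ∧ b ≠ f a ∧ b ≠ f (f a)) (hab' : b' ≠ a' ∧ b' ≠ f a' ∧ b' ≠ f (f a')) :
    ∃ π : Perm D, (∀ d, π (f d) = f (π d)) ∧ π a = a' ∧ π b = b' := by
  have h3 := hf.three
  have hinj := f.injective
  obtain ⟨π1, c1, v1, -⟩ := mv hf a a'
  obtain ⟨π2, c2, v2, o2⟩ := mv hf (π1 b) b'
  have b0 : a' ≠ π1 b := by
    rw [← v1]; exact fun h => hab.1 (π1.injective h).symm
  have b1 : a' ≠ f (π1 b) := by
    rw [← v1, ← c1]; intro h
    apply hab.2.2
    rw [π1.injective h, h3]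
  have b2 : a' ≠ f (f (π1 b)) := by
    rw [← v1, ← c1, ← c1]; intro h
    apply hab.2.1
    rw [π1.injective h, h3]
  have b0' : a' ≠ b' := fun h => hab'.1 h.symm
  have b1' : a' ≠ f b' := fun h => hab'.2.2 (by rw [h, h3])
  have b2' : a' ≠ f (f b') := fun h => hab'.2.1 (by rw [h, h3])
  refine ⟨π2 * π1, fun d => ?_, ?_, ?_⟩
  · rw [Equiv.Perm.mul_apply, Equiv.Perm.mul_apply, c1, c2]
  · rw [Equiv.Perm.mul_apply, v1, o2 a' b0 b1 b2 b0' b1' b2']
  · rw [Equiv.Perm.mul_apply, v2]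

theorem exch {f : Perm D} (hf : TF f) (W : Set (Perm D × (D → ℤ) × D × D)) (hfin : W.Finite)
    (hW : ∀ π : Perm D, (∀ d, π (f d) = f (π d)) → ∀ w ∈ W,
      (π * w.1 * π⁻¹, (fun d => w.2.1 (π⁻¹ d)), π w.2.2.1, π w.2.2.2) ∈ W)
    (a b : D) (hab : b ≠ a ∧ b ≠ f a ∧ b ≠ f (f a)) :
    {w | w ∈ W ∧ w.2.2.1 = a ∧ w.2.2.2 = b}.ncard *
      (Fintype.card D * (Fintype.card D - 3)) ≤ W.ncard := by
  classical
  have h3 := hf.three
  have hn := hf.nf
  have hinj := f.injective
  set A : Finset (Σ _ : D, D) := Finset.univ.sigma (fun x => Finset.univ \ {x, f x, f (f x)}) with hA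
  have hAc : A.card = Fintype.card D * (Fintype.card D - 3) := by
    rw [hA, Finset.card_sigma]
    have : ∀ x ∈ (Finset.univ : Finset D),
        ((Finset.univ : Finset D) \ {x, f x, f (f x)}).card = Fintype.card D - 3 := by
      intro x _
      rw [Finset.card_sdiff_of_subset (Finset.subset_univ _), Finset.card_univ]
      congr 1
      have n1 : x ≠ f x := (hn x).symm
      have n2 : x ≠ f (f x) := fun h => hn (f (f x)) (by rw [h3]; exact h)
      have n3 : f x ≠ f (f x) := fun h => n1 (hinj h)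
      rw [Finset.card_insert_of_notMem, Finset.card_insert_of_notMem, Finset.card_singleton]
      · simpa using n3
      · simp [n1, n2]
    rw [Finset.sum_congr rfl this, Finset.sum_const, Finset.card_univ, smul_eq_mul]
  have hex : ∀ p : Σ _ : D, D, ∃ π : Perm D, (∀ d, π (f d) = f (π d)) ∧
      (p ∈ A → π a = p.1 ∧ π b = p.2) := by
    intro p
    by_cases hp : p ∈ A
    · have hp2 : p.2 ≠ p.1 ∧ p.2 ≠ f p.1 ∧ p.2 ≠ f (f p.1) := by
        simp only [hA, Finset.mem_sigma, Finset.mem_univ, Finset.mem_sdiff, Finset.mem_insert,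
          Finset.mem_singleton, true_and, not_or] at hp
        exact hp
      obtain ⟨π, h1, h2, h4⟩ := mv2 hf a b p.1 p.2 hab hp2
      exact ⟨π, h1, fun _ => ⟨h2, h4⟩⟩
    · exact ⟨1, fun d => rfl, fun h => absurd h hp⟩
  choose Pp hQ1 hQ2 using hex
  have hfin' : {w | w ∈ W ∧ w.2.2.1 = a ∧ w.2.2.2 = b}.Finite := hfin.subset (fun w hw => hw.1)
  rw [Set.ncard_eq_toFinset_card _ hfin', Set.ncard_eq_toFinset_card _ hfin, ← hAc, mul_comm,
    ← Finset.card_product]
  refine Finset.card_le_card_of_injOn (fun q => (Pp q.1 * q.2.1 * (Pp q.1)⁻¹,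
    (fun d => q.2.2.1 ((Pp q.1)⁻¹ d)), Pp q.1 q.2.2.2.1, Pp q.1 q.2.2.2.2)) ?_ ?_
  · intro q hq
    simp only [Finset.coe_product, Set.mem_prod, Finset.mem_coe, Set.Finite.mem_toFinset,
      Set.mem_ofPred_eq] at hq
    simp only [Finset.mem_coe, Set.Finite.mem_toFinset]
    exact hW _ (hQ1 q.1) q.2 hq.2.1
  · intro q hq q' hq' heq
    simp only [Finset.coe_product, Set.mem_prod, Finset.mem_coe, Set.Finite.mem_toFinset,
      Set.mem_ofPred_eq] at hq hq'
    obtain ⟨p, w⟩ := q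
    obtain ⟨p', w'⟩ := q'
    simp only [Prod.mk.injEq] at heq hq hq'
    obtain ⟨e1, e2, e3, e4⟩ := heq
    obtain ⟨hp, hw, ha, hb⟩ := hq
    obtain ⟨hp', hw', ha', hb'⟩ := hq'
    have k1 := hQ2 p hp
    have k2 := hQ2 p' hp'
    rw [ha, ha', k1.1, k2.1] at e3
    rw [hb, hb', k1.2, k2.2] at e4
    have hpp : p = p' := by
      obtain ⟨p1, p2⟩ := p
      obtain ⟨p1', p2'⟩ := p'
      simp only at e3 e4
      subst e3; subst e4; rfl
    subst hpp
    have e5 : w.1 = w'.1 := by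
      have := mul_right_cancel e1
      exact mul_left_cancel this
    have e6 : w.2.1 = w'.2.1 := by
      funext d
      have := congrFun e2 (Pp p d)
      simpa using this
    obtain ⟨w1, w2, w3, w4⟩ := w
    obtain ⟨w1', w2', w3', w4'⟩ := w'
    simp only at e5 e6 ha hb ha' hb'
    subst e5; subst e6; subst ha; subst hb; subst ha'; subst hb'; rfl

theorem conj_PT {f α π : Perm D} (hπ : ∀ d, π (f d) = f (π d)) (h : PT f α []) :
    PT f (π * α * π⁻¹) [] := by
  have hfix : ∀ d, α d ≠ d := by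
    intro d hd
    have := (h.leg d).1 hd
    simp [tri] at this
  have hv : ∀ d, (π * α * π⁻¹) d = π (α (π⁻¹ d)) := fun d => rfl
  have hπ' : ∀ d, π (π⁻¹ d) = d := fun d => by simp
  have hπ'' : ∀ d, π⁻¹ (π d) = d := fun d => by simp
  have hfix' : ∀ d, (π * α * π⁻¹) d ≠ d := by
    intro d hd
    rw [hv] at hd
    apply hfix (π⁻¹ d)
    apply π.injective
    rw [hd, hπ']
  refine ⟨fun d => ?_, fun d => ?_, by simp [tri], ?_⟩
  · rw [hv, hv, hπ'', h.inv, hπ']
  · constructor
    · intro hd; exact absurd hd (hfix' d)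
    · intro hd; simp [tri] at hd
  · intro P hP h1 h2 d hd
    have key := h.con (fun e => P (π e)) ?_ ?_ ?_ (π⁻¹ d) (hfix _)
    · simpa [hπ'] using key
    · obtain ⟨e, he, hPe⟩ := hP
      exact ⟨π⁻¹ e, hfix _, by simpa [hπ'] using hPe⟩
    · intro e he
      show P (π (f e))
      rw [hπ]; exact h1 _ he
    · intro e he
      have := h2 _ he
      rw [hv, hπ''] at this
      exact this

theorem conj_cyc {f α π : Perm D} (hπ : ∀ d, π (f d) = f (π d)) :
    cyc (f * (π * α * π⁻¹)) = cyc (f * α) ∧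
      ∀ a b, (f * (π * α * π⁻¹)).SameCycle (π a) (π b) ↔ (f * α).SameCycle a b := by
  have hc : f * (π * α * π⁻¹) = π * (f * α) * π⁻¹ := by
    ext d
    show f (π (α (π⁻¹ d))) = π (f (α (π⁻¹ d)))
    rw [hπ]
  have hs : ∀ a b, (f * (π * α * π⁻¹)).SameCycle (π a) (π b) ↔ (f * α).SameCycle a b := by
    intro a b
    rw [hc, Equiv.Perm.sameCycle_conj]; simp
  refine ⟨?_, hs⟩
  unfold cyc
  refine Nat.card_congr (Quotient.congr π.symm ?_)
  intro a b
  have := hs (π.symm a) (π.symm b)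
  rw [Equiv.apply_symm_apply, Equiv.apply_symm_apply] at this
  exact this

theorem exch_yst {f : Perm D} (hf : TF f) (v R S : ℕ) (a b : D)
    (hab : b ≠ a ∧ b ≠ f a ∧ b ≠ f (f a)) (hfin : (Yst f v R S).Finite) :
    {q | q ∈ Yst f v R S ∧ q.2 a ≤ R ∧ q.2 b ≤ R}.ncard *
      (Fintype.card D * (Fintype.card D - 3)) ≤ (Yst f v R S).ncard * S ^ 2 := by
  classical
  set W : Set (Perm D × (D → ℤ) × D × D) :=
    {w | (w.1, w.2.1) ∈ Yst f v R S ∧ w.2.1 w.2.2.1 ≤ R ∧ w.2.1 w.2.2.2 ≤ R} with hWdef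
  have hWfin : W.Finite := by
    have h1 : ((fun q : (Perm D × (D → ℤ)) × D × D => (q.1.1, q.1.2, q.2.1, q.2.2)) ''
        ((Yst f v R S) ×ˢ (Set.univ : Set (D × D)))).Finite :=
      (hfin.prod Set.finite_univ).image _
    refine h1.subset ?_
    rintro ⟨w1, w2, w3, w4⟩ hw
    exact ⟨((w1, w2), (w3, w4)), ⟨hw.1, Set.mem_univ _⟩, rfl⟩
  have hinvW : ∀ π : Perm D, (∀ d, π (f d) = f (π d)) → ∀ w ∈ W,
      (π * w.1 * π⁻¹, (fun d => w.2.1 (π⁻¹ d)), π w.2.2.1, π w.2.2.2) ∈ W := by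
    rintro π hπ ⟨α, ℓ, x, y⟩ ⟨⟨h1, h2, h3, h4, h5⟩, h6, h7⟩
    simp only at h1 h2 h3 h4 h5 h6 h7
    have hπ' : ∀ d, π (π⁻¹ d) = d := fun d => by simp
    have hπ'' : ∀ d, π⁻¹ (π d) = d := fun d => by simp
    have hπf : ∀ d, π⁻¹ (f d) = f (π⁻¹ d) := by
      intro d
      apply π.injective
      rw [hπ', hπ, hπ']
    have hv : ∀ d, (π * α * π⁻¹) d = π (α (π⁻¹ d)) := fun d => rfl
    obtain ⟨c1, c2⟩ := conj_cyc (α := α) hπ
    refine ⟨⟨⟨conj_PT hπ h1.1, ?_⟩, ?_, ?_, ?_, ?_⟩, ?_, ?_⟩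
    · show cyc (f * (π * α * π⁻¹)) = v
      rw [c1]; exact h1.2
    · refine ⟨fun d => ?_, fun d hd => ?_, fun d => ?_, fun d => ?_⟩
      · show (π * α * π⁻¹) ((π * α * π⁻¹) d) = d
        rw [hv, hv, hπ'', h2.inv, hπ']
      · change (π * α * π⁻¹) d = d at hd
        rw [hv] at hd
        apply h2.fpf (π⁻¹ d)
        apply π.injective
        rw [hd, hπ']
      · show ℓ (π⁻¹ (f d)) = ℓ (π⁻¹ ((π * α * π⁻¹) d))
        rw [hv, hπ'', hπf]; exact h2.ver _
      · show ℓ (π⁻¹ (f d)) ≤ ℓ (π⁻¹ d) + 1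
        rw [hπf]; exact h2.lip _
    · intro d; exact h3 _
    · obtain ⟨x0, w0, k1, k2, k3⟩ := h4
      refine ⟨π x0, π w0, ?_, ?_, ?_⟩
      · show ℓ (π⁻¹ (π x0)) = 0
        rw [hπ'']; exact k1
      · show ℓ (π⁻¹ (π w0)) ≤ R
        rw [hπ'']; exact k2
      · intro d
        rcases k3 (π⁻¹ d) with h | h | ⟨d', h, h'⟩
        · left
          have := (c2 (π⁻¹ d) x0).2 h
          rwa [hπ'] at this
        · right; left
          have := (c2 (π⁻¹ d) w0).2 h
          rwa [hπ'] at this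
        · right; right
          refine ⟨π d', ?_, ?_⟩
          · have := (c2 (π⁻¹ d) d').2 h
            rwa [hπ'] at this
          · show ℓ (π⁻¹ (f (π d'))) = ℓ (π⁻¹ (π d')) - 1
            rw [← hπ, hπ'', hπ'']; exact h'
    · show (Finset.univ.filter fun d => ℓ (π⁻¹ d) ≤ (R : ℤ)).card ≤ S
      refine le_trans (le_of_eq ?_) h5
      refine Finset.card_bij (fun d _ => π⁻¹ d) ?_ ?_ ?_
      · intro d hd
        simpa using hd
      · intro d _ d' _ h; exact (π⁻¹).injective h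
      · intro d hd
        refine ⟨π d, ?_, hπ'' d⟩
        simp only [Finset.mem_filter, Finset.mem_univ, true_and] at hd ⊢
        rw [hπ'']; exact hd
    · show ℓ (π⁻¹ (π x)) ≤ R
      rw [hπ'']; exact h6
    · show ℓ (π⁻¹ (π y)) ≤ R
      rw [hπ'']; exact h7
  have key := exch hf W hWfin hinvW a b hab
  have c1 : {q | q ∈ Yst f v R S ∧ q.2 a ≤ R ∧ q.2 b ≤ R}.ncard ≤
      {w | w ∈ W ∧ w.2.2.1 = a ∧ w.2.2.2 = b}.ncard := by
    refine Set.ncard_le_ncard_of_injOn (fun q => (q.1, q.2, a, b)) ?_ ?_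
      (hWfin.subset (fun w hw => hw.1))
    · intro q hq
      exact ⟨⟨hq.1, hq.2.1, hq.2.2⟩, rfl, rfl⟩
    · rintro ⟨q1, q2⟩ _ ⟨q1', q2'⟩ _ h
      simp only [Prod.mk.injEq] at h
      rw [h.1, h.2.1]
  have c2 : W.ncard ≤ (Yst f v R S).ncard * S ^ 2 := by
    rw [Set.ncard_eq_toFinset_card _ hWfin, Set.ncard_eq_toFinset_card _ hfin]
    have h1 := Finset.card_le_mul_card_image (f := fun w : Perm D × (D → ℤ) × D × D => (w.1, w.2.1))
      hWfin.toFinset (S ^ 2) ?_
    · refine h1.trans ?_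
      rw [mul_comm]
      refine Nat.mul_le_mul_right _ (Finset.card_le_card ?_)
      intro q hq
      simp only [Finset.mem_image, Set.Finite.mem_toFinset] at hq ⊢
      obtain ⟨w, hw, rfl⟩ := hq
      exact hw.1
    · intro q hq
      simp only [Finset.mem_image, Set.Finite.mem_toFinset] at hq
      obtain ⟨w, hw, rfl⟩ := hq
      have hS : (Finset.univ.filter fun d => w.2.1 d ≤ (R : ℤ)).card ≤ S := hw.1.2.2.2.2
      have h2 : (hWfin.toFinset.filter fun w' => (w'.1, w'.2.1) = (w.1, w.2.1)).card ≤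
          ((Finset.univ.filter fun d => w.2.1 d ≤ (R : ℤ)) ×ˢ
            (Finset.univ.filter fun d => w.2.1 d ≤ (R : ℤ))).card := by
        refine Finset.card_le_card_of_injOn (fun w' => w'.2.2) ?_ ?_
        · intro w' hw'
          simp only [Finset.coe_filter, Set.Finite.mem_toFinset, Set.mem_ofPred_eq,
            Prod.mk.injEq] at hw'
          obtain ⟨h3, h4, h5⟩ := hw'
          simp only [Finset.coe_product, Set.mem_prod, Finset.mem_coe, Finset.mem_filter,
            Finset.mem_univ, true_and]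
          rw [← h5]
          exact ⟨h3.2.1, h3.2.2⟩
        · intro w' hw' w'' hw'' h
          simp only [Finset.coe_filter, Set.Finite.mem_toFinset, Set.mem_ofPred_eq,
            Prod.mk.injEq] at hw' hw''
          obtain ⟨w1, w2, w3⟩ := w'
          obtain ⟨v1, v2, v3⟩ := w''
          simp only at h hw' hw''
          rw [hw'.2.1, hw'.2.2, hw''.2.1, hw''.2.2, h]
      refine h2.trans ?_
      rw [Finset.card_product, pow_two]
      exact Nat.mul_le_mul hS hS
  calc {q | q ∈ Yst f v R S ∧ q.2 a ≤ R ∧ q.2 b ≤ R}.ncard *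
      (Fintype.card D * (Fintype.card D - 3))
      ≤ {w | w ∈ W ∧ w.2.2.1 = a ∧ w.2.2.2 = b}.ncard *
        (Fintype.card D * (Fintype.card D - 3)) := Nat.mul_le_mul_right _ c1
    _ ≤ W.ncard := key
    _ ≤ _ := c2

end QL40
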