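import Mathlib
import Pool.Agent.H40.QL.DigL
import Pool.Agent.H40.QL.Exch

/-!
[H40 QL DEG]  (MP_bcc40c_pr, Q2 lower half)  First moment of the number of darts of a ball, from the first moment of the number of vertices.

PROOF.  `N = card (D ⊕ Fin 6)`.  `A = {(α, x, d) | α ∈ TS f v, M ≤ lfc f α, rep x = x, dst x d ≤ R}`.  Let `W` be the set of the `(α', ℓ, d1, d2)` with `α' ∈ TS (fp f) (v + 1)`, `M - 1 ≤ lfc (fp f) α'`, `ℓ = dlab (fp f) α' x'` for some `x'`, `ℓ d1 ≤ R + 1`, `(fp f * α') d1 = d2`, `(fp f * α') d2 = d1`.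
(1) `(α, x, d) ↦ (ap α d, dlab (fp f) (ap α d) (inl x), inr 2, inr 5)` maps `A` into `{w ∈ W | w.2.2 = (inr 2, inr 5)}`: ap_PT, ap_cyc, ap_leaf, ap_sig; the label of `inr 2` is `min (dst x d) (dst x (α d)) + 1 ≤ R + 1` (ap_dl).  Injective: ap_inj gives `α` and `d`; the label function is 0 at `inl x` and so `inl x, inl x'` are in the same cycle (Lab.zro of dlab_lab), ap_same, `x = rep x = rep x' = x'`.
(2) exch (with `fp f`, `a = inr 2`, `b = inr 5`; the triangle of `inr 2` is `2, 0, 1`): `A.ncard * (N (N-3)) ≤ W.ncard`.  `W` is finite (the functions `ℓ` are given by `x'`); invariance: conj_PT, conj_cyc; `lfc` is invariant (`Leaf f (π α π⁻¹) (π w) ↔ Leaf f α w`); `dst f (π α π⁻¹) (π a) (π b) = dst f α a b` (graph isomorphism; or: `fun d => dlab (x') (π⁻¹ d)` satisfies `Lab` for the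
conjugate, lab_dst).
(3) `W.ncard ≤ 2 * ∑_{r ≤ R+1} (Pr (fp f) (v+1) r (M-1)).ncard`: map `(α', ℓ, d1, d2) ↦ (α', rep x', rep d1)` into `⋃_{r ≤ R + 1} Pr (fp f) (v+1) r (M-1)` (`r = dst (rep x') (rep d1) = ℓ d1`); the fibre has at most two elements: `ℓ` is determined by `x'`, and the cycle of `d1` is `{d1, d2}`, so `d1 ∈` this cycle (two choices at most), `d2 = (fp f * α') d1`.
deg_markov: for each `(α, x)` in the set on the left there are more than `S` darts `d` with `dst x d ≤ R`, so `S * ncard ≤ A.ncard`.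
-/

set_option autoImplicit false

namespace QL40

open Equiv HG39 QD39

variable {D : Type} [Fintype D] [DecidableEq D]

private theorem pni (π : Perm D) (d : D) : π (π⁻¹ d) = d := π.apply_symm_apply d

private theorem pin (π : Perm D) (d : D) : π⁻¹ (π d) = d := π.symm_apply_apply d

private theorem tne {f α : Perm D} (h : PT f α []) (d : D) : α d ≠ d := by
  intro hd
  have := (h.leg d).1 hd
  simp [tri] at this

private theorem lfc_conj {f α π : Perm D} (hπ : ∀ d, π (f d) = f (π d)) :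
    lfc f (π * α * π⁻¹) = lfc f α := by
  unfold lfc
  refine Nat.card_congr (Equiv.subtypeEquiv π.symm fun w => ?_)
  have e1 : ∀ d, π⁻¹ (f d) = f (π⁻¹ d) := by
    intro d
    apply π.injective
    rw [pni, hπ, pni]
  change (π * α * π⁻¹) (f w) = f (f w) ↔ α (f (π⁻¹ w)) = f (f (π⁻¹ w))
  rw [Perm.mul_apply, Perm.mul_apply, ← e1, ← e1]
  constructor
  · intro h
    rw [← h, pin]
  · intro h
    rw [h, pni]

private theorem dlab_conj {f α π : Perm D} (hf : TF f) (hα : PT f α [])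
    (hπ : ∀ d, π (f d) = f (π d)) (x : D) :
    dlab f (π * α * π⁻¹) (π x) = fun d => dlab f α x (π⁻¹ d) := by
  have hi : ∀ d, π⁻¹ (π d) = d := pin π
  have e1 : ∀ d, π⁻¹ (f d) = f (π⁻¹ d) := by
    intro d
    apply π.injective
    rw [pni, hπ, pni]
  have hα' : PT f (π * α * π⁻¹) [] := conj_PT hπ hα
  have hl := dlab_lab hf hα x
  have hne : ∀ d, (π * α * π⁻¹) d ≠ d → α (π⁻¹ d) ≠ π⁻¹ d := by
    intro d hd h
    apply hd
    rw [Perm.mul_apply, Perm.mul_apply, h, pni]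
  have hne' : ∀ d, α d ≠ d → (π * α * π⁻¹) (π d) ≠ π d := by
    intro d hd h
    apply hd
    rw [Perm.mul_apply, Perm.mul_apply, hi] at h
    exact π.injective h
  have hsc := (conj_cyc (f := f) (α := α) hπ).2
  have hl' : Lab f (π * α * π⁻¹) (fun d => dlab f α x (π⁻¹ d)) := by
    refine ⟨fun d hd => hl.nn _ (hne d hd), fun d hd => ?_, fun d hd => ?_, fun d hd h0 => ?_,
      fun d d' hd hd' h0 h0' => ?_, ?_⟩
    · change dlab f α x (π⁻¹ (f d)) = dlab f α x (π⁻¹ ((π * α * π⁻¹) d))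
      rw [e1, Perm.mul_apply, Perm.mul_apply, hi]
      exact hl.ver _ (hne d hd)
    · change dlab f α x (π⁻¹ (f d)) ≤ dlab f α x (π⁻¹ d) + 1
      rw [e1]
      exact hl.lip _ (hne d hd)
    · obtain ⟨d', h1, h2, h3⟩ := hl.dsc _ (hne d hd) h0
      refine ⟨π d', ?_, hne' d' h2, ?_⟩
      · have h4 := (hsc (π⁻¹ d) d').2 h1
        rwa [pni] at h4
      · change dlab f α x (π⁻¹ (f (π d'))) = dlab f α x (π⁻¹ (π d')) - 1
        rw [← hπ, hi, hi]
        exact h3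
    · have h4 := (hsc (π⁻¹ d) (π⁻¹ d')).2 (hl.zro _ _ (hne d hd) (hne d' hd') h0 h0')
      rwa [pni, pni] at h4
    · obtain ⟨d, h1, h2⟩ := hl.ex0
      refine ⟨π d, hne' d h1, ?_⟩
      change dlab f α x (π⁻¹ (π d)) = 0
      rw [hi]
      exact h2
  funext d
  have h0 : (fun d => dlab f α x (π⁻¹ d)) (π x) = 0 := by
    change dlab f α x (π⁻¹ (π x)) = 0
    rw [hi]
    unfold dlab
    rw [dst_self f α x x (Perm.SameCycle.refl _ _)]
    rfl
  exact (lab_dst hf hα' hl' (π x) h0 d).symm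

/-- the set of the darts of vertices of degree two, with a root -/
private def Wd (f : Perm D) (v R M : ℕ) : Set (Perm D × (D → ℤ) × D × D) :=
  {w | ∃ x : D, w.1 ∈ TS f v ∧ M - 1 ≤ lfc f w.1 ∧ w.2.1 = dlab f w.1 x ∧
    w.2.1 w.2.2.1 ≤ (R : ℤ) + 1 ∧ (f * w.1) w.2.2.1 = w.2.2.2 ∧ (f * w.1) w.2.2.2 = w.2.2.1}

private theorem wd_inv {f : Perm D} (hf : TF f) (v R M : ℕ) (π : Perm D)
    (hπ : ∀ d, π (f d) = f (π d)) (w : Perm D × (D → ℤ) × D × D) (hw : w ∈ Wd f v R M) :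
    (π * w.1 * π⁻¹, (fun d => w.2.1 (π⁻¹ d)), π w.2.2.1, π w.2.2.2) ∈ Wd f v R M := by
  obtain ⟨x, h1, h2, h3, h4, h5, h6⟩ := hw
  have hi : ∀ d, π⁻¹ (π d) = d := pin π
  refine ⟨π x, ⟨conj_PT hπ h1.1, ?_⟩, ?_, ?_, ?_, ?_, ?_⟩
  · rw [(conj_cyc (f := f) (α := w.1) hπ).1]
    exact h1.2
  · rw [lfc_conj hπ]
    exact h2
  · change (fun d => w.2.1 (π⁻¹ d)) = dlab f (π * w.1 * π⁻¹) (π x)
    rw [dlab_conj hf h1.1 hπ x, h3]
  · change w.2.1 (π⁻¹ (π w.2.2.1)) ≤ _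
    rw [hi]
    exact h4
  · change f ((π * w.1 * π⁻¹) (π w.2.2.1)) = π w.2.2.2
    rw [Perm.mul_apply, Perm.mul_apply, hi, ← hπ, ← h5]
    rfl
  · change f ((π * w.1 * π⁻¹) (π w.2.2.2)) = π w.2.2.1
    rw [Perm.mul_apply, Perm.mul_apply, hi, ← hπ, ← h6]
    rfl

private theorem rep_sc (f α : Perm D) (a : D) : (f * α).SameCycle (rep f α a) a :=
  Quotient.exact (Quotient.out_eq (Quotient.mk (Equiv.Perm.SameCycle.setoid (f * α)) a))

private theorem rep_eq {f α : Perm D} {a b : D} (h : (f * α).SameCycle a b) :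
    rep f α a = rep f α b := by
  unfold rep
  rw [Quotient.sound (s := Equiv.Perm.SameCycle.setoid (f * α)) h]

private theorem cyc_two {σ : Perm D} {a b : D} (h1 : σ a = b) (h2 : σ b = a) {x : D}
    (h : σ.SameCycle a x) : x = a ∨ x = b := by
  refine zs_ind σ (fun y z => (y = a ∨ y = b) → (z = a ∨ z = b)) (fun _ h => h)
    (fun _ _ _ h1 h2 h => h2 (h1 h)) ?_ h (Or.inl rfl)
  rintro y (hy | hy)
  · rw [hy, h1]
    exact Or.inr rfl
  · rw [hy, h2]
    exact Or.inl rfl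

private theorem wd_sub {f : Perm D} (v R M : ℕ) : Wd f v R M ⊆
    (fun q : (Perm D × D × D) × Bool =>
      ((q.1.1, dlab f q.1.1 q.1.2.1, (if q.2 then q.1.2.2 else (f * q.1.1) q.1.2.2),
        (f * q.1.1) (if q.2 then q.1.2.2 else (f * q.1.1) q.1.2.2)) :
        Perm D × (D → ℤ) × D × D)) ''
      ((⋃ r ∈ Finset.range (R + 2), Pr f v r (M - 1)) ×ˢ (Set.univ : Set Bool)) := by
  rintro ⟨α, ℓ, d1, d2⟩ ⟨x, h1, h2, h3, h4, h5, h6⟩
  simp only at h1 h2 h3 h4 h5 h6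
  have hx := rep_sc f α x
  have hd := rep_sc f α d1
  have hl : dlab f α (rep f α x) = ℓ := by
    rw [h3]
    funext d
    unfold dlab
    rw [dst_comm f α _ d, dst_comm f α x d, dst_congr f α d _ _ hx]
  have hmem : (α, rep f α x, rep f α d1) ∈ ⋃ r ∈ Finset.range (R + 2), Pr f v r (M - 1) := by
    rw [Set.mem_iUnion₂]
    refine ⟨dst f α (rep f α x) (rep f α d1), ?_, h1, h2, rep_eq hx, rep_eq hd, rfl⟩
    rw [Finset.mem_range, dst_congr f α _ _ _ hd]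
    have h7 : (dst f α (rep f α x) d1 : ℤ) = ℓ d1 := by
      rw [← hl]
      rfl
    rw [← h7] at h4
    have : dst f α (rep f α x) d1 ≤ R + 1 := by exact_mod_cast h4
    omega
  rcases cyc_two h5 h6 hd.symm with hb | hb
  · refine ⟨((α, rep f α x, rep f α d1), true), ⟨hmem, Set.mem_univ _⟩, ?_⟩
    simp only [if_true]
    rw [hl, hb, h5]
  · refine ⟨((α, rep f α x, rep f α d1), false), ⟨hmem, Set.mem_univ _⟩, ?_⟩
    simp only [Bool.false_eq_true, if_false]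
    rw [hl, hb, h6, h5]

private theorem wd_card {f : Perm D} (v R M : ℕ) : (Wd f v R M).Finite ∧ (Wd f v R M).ncard ≤
    2 * ∑ r ∈ Finset.range (R + 2), (Pr f v r (M - 1)).ncard := by
  have hfin : (((⋃ r ∈ Finset.range (R + 2), Pr f v r (M - 1)) ×ˢ (Set.univ : Set Bool)) :
      Set ((Perm D × D × D) × Bool)).Finite := Set.toFinite _
  have hsub := wd_sub (f := f) v R M
  refine ⟨(hfin.image _).subset hsub, ?_⟩
  refine (Set.ncard_le_ncard hsub (hfin.image _)).trans ((Set.ncard_image_le hfin).trans ?_)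
  rw [Set.ncard_prod, Set.ncard_univ, Nat.card_eq_fintype_card, Fintype.card_bool, mul_comm]
  exact Nat.mul_le_mul_left 2 (Finset.set_ncard_biUnion_le _ _)

theorem deg_first {f : Perm D} (hf : TF f) (v R M : ℕ) :
    {p : Perm D × D × D | p.1 ∈ TS f v ∧ M ≤ lfc f p.1 ∧ rep f p.1 p.2.1 = p.2.1 ∧
        dst f p.1 p.2.1 p.2.2 ≤ R}.ncard * ((Fintype.card D + 6) * (Fintype.card D + 3)) ≤
      2 * ∑ r ∈ Finset.range (R + 2), (Pr (fp f) (v + 1) r (M - 1)).ncard := by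
  obtain ⟨hWf, hWc⟩ := wd_card (f := fp f) (v + 1) R M
  refine le_trans ?_ hWc
  have hf' := fp_tf hf
  have hab : (Sum.inr 5 : D ⊕ Fin 6) ≠ Sum.inr 2 ∧ (Sum.inr 5 : D ⊕ Fin 6) ≠ fp f (Sum.inr 2) ∧
      (Sum.inr 5 : D ⊕ Fin 6) ≠ fp f (fp f (Sum.inr 2)) := by
    have e1 : fp f (Sum.inr 2) = (Sum.inr 0 : D ⊕ Fin 6) := rfl
    have e2 : fp f (Sum.inr 0) = (Sum.inr 1 : D ⊕ Fin 6) := rfl
    rw [e1, e2]
    refine ⟨?_, ?_, ?_⟩ <;> simp
  have hex := exch hf' (Wd (fp f) (v + 1) R M) hWf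
    (fun π hπ w hw => wd_inv hf' (v + 1) R M π hπ w hw) (Sum.inr 2) (Sum.inr 5) hab
  have hcard : Fintype.card (D ⊕ Fin 6) * (Fintype.card (D ⊕ Fin 6) - 3) =
      (Fintype.card D + 6) * (Fintype.card D + 3) := by
    rw [Fintype.card_sum, Fintype.card_fin]
    congr 1
  rw [hcard] at hex
  refine le_trans (Nat.mul_le_mul_right _ ?_) hex
  have hfin2 : {w | w ∈ Wd (fp f) (v + 1) R M ∧ w.2.2.1 = Sum.inr 2 ∧
      w.2.2.2 = Sum.inr 5}.Finite := hWf.subset fun w hw => hw.1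
  refine Set.ncard_le_ncard_of_injOn
    (fun p : Perm D × D × D => ((ap p.1 p.2.2, dlab (fp f) (ap p.1 p.2.2) (Sum.inl p.2.1),
      Sum.inr 2, Sum.inr 5) : Perm (D ⊕ Fin 6) × (D ⊕ Fin 6 → ℤ) × (D ⊕ Fin 6) × (D ⊕ Fin 6)))
    ?_ ?_ hfin2
  · rintro ⟨α, x, d⟩ ⟨h1, h2, h3, h4⟩
    simp only at h1 h2 h3 h4
    have hi := h1.1.inv
    have hn := tne h1.1
    obtain ⟨-, -, -, -, -, -, s1, s2, -⟩ := ap_sig (f := f) hi hn d
    refine ⟨⟨Sum.inl x, ⟨ap_PT hf h1.1 d, ?_⟩, ?_, rfl, ?_, s1, s2⟩, rfl, rfl⟩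
    · change cyc (fp f * ap α d) = v + 1
      rw [ap_cyc hf hi hn, h1.2]
    · change M - 1 ≤ lfc (fp f) (ap α d)
      have := ap_leaf hf h1.1 d
      omega
    · change dlab (fp f) (ap α d) (Sum.inl x) (Sum.inr 2) ≤ (R : ℤ) + 1
      rw [ap_dl hf h1.1]
      change min (dlab f α x d) (dlab f α x (α d)) + 1 ≤ (R : ℤ) + 1
      have h5 : dlab f α x d ≤ (R : ℤ) := by
        unfold dlab
        exact_mod_cast h4
      have h6 := min_le_left (dlab f α x d) (dlab f α x (α d))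
      linarith
  · rintro ⟨α, x, d⟩ ⟨h1, h2, h3, h4⟩ ⟨α', x', d'⟩ ⟨h1', h2', h3', h4'⟩ heq
    simp only at h1 h2 h3 h4 h1' h2' h3' h4'
    simp only [Prod.mk.injEq] at heq
    obtain ⟨e1, e2, -⟩ := heq
    obtain ⟨rfl, rfl⟩ := ap_inj h1.1.inv (tne h1.1) h1'.1.inv (tne h1'.1) d d' e1
    have hpt := ap_PT hf h1.1 d
    have hlab := dlab_lab hf' hpt (Sum.inl x)
    have z0 : ∀ z : D, dlab (fp f) (ap α d) (Sum.inl z) (Sum.inl z) = 0 := by
      intro z
      unfold dlab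
      rw [dst_self _ _ _ _ (Perm.SameCycle.refl _ _)]
      rfl
    have z1 : dlab (fp f) (ap α d) (Sum.inl x) (Sum.inl x') = 0 := by
      rw [e2]
      exact z0 x'
    have hsc := hlab.zro (Sum.inl x) (Sum.inl x') (tne hpt _) (tne hpt _) (z0 x) z1
    have hsc2 := (ap_same h1.1.inv (tne h1.1) d x x').1 hsc
    have : x = x' := by
      rw [← h3, ← h3']
      exact rep_eq hsc2
    rw [this]

theorem deg_markov {f : Perm D} (hf : TF f) (v R M S : ℕ) :
    {p : Perm D × D | p.1 ∈ TS f v ∧ M ≤ lfc f p.1 ∧ rep f p.1 p.2 = p.2 ∧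
        S < (Finset.univ.filter fun d => dlab f p.1 p.2 d ≤ (R : ℤ)).card}.ncard * S *
          ((Fintype.card D + 6) * (Fintype.card D + 3)) ≤
      2 * ∑ r ∈ Finset.range (R + 2), (Pr (fp f) (v + 1) r (M - 1)).ncard := by
  classical
  refine le_trans (Nat.mul_le_mul_right _ ?_) (deg_first hf v R M)
  have hfB : {p : Perm D × D | p.1 ∈ TS f v ∧ M ≤ lfc f p.1 ∧ rep f p.1 p.2 = p.2 ∧
        S < (Finset.univ.filter fun d => dlab f p.1 p.2 d ≤ (R : ℤ)).card}.Finite := Set.toFinite _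
  have hfA : {p : Perm D × D × D | p.1 ∈ TS f v ∧ M ≤ lfc f p.1 ∧ rep f p.1 p.2.1 = p.2.1 ∧
        dst f p.1 p.2.1 p.2.2 ≤ R}.Finite := Set.toFinite _
  rw [Set.ncard_eq_toFinset_card _ hfB, Set.ncard_eq_toFinset_card _ hfA]
  have h1 : hfB.toFinset.card * S ≤ (hfB.toFinset.sigma
      fun p => Finset.univ.filter fun d => dlab f p.1 p.2 d ≤ (R : ℤ)).card := by
    rw [Finset.card_sigma, ← smul_eq_mul]
    refine Finset.card_nsmul_le_sum _ _ _ fun p hp => ?_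
    rw [Set.Finite.mem_toFinset] at hp
    exact hp.2.2.2.le
  refine h1.trans ?_
  refine Finset.card_le_card_of_injOn (fun q => (q.1.1, q.1.2, q.2)) ?_ ?_
  · rintro ⟨⟨α, x⟩, d⟩ hq
    rw [Finset.mem_coe, Finset.mem_sigma] at hq
    obtain ⟨hq1, hq2⟩ := hq
    rw [Set.Finite.mem_toFinset] at hq1
    rw [Finset.mem_filter] at hq2
    rw [Finset.mem_coe, Set.Finite.mem_toFinset]
    refine ⟨hq1.1, hq1.2.1, hq1.2.2.1, ?_⟩
    have h5 := hq2.2
    unfold dlab at h5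
    exact_mod_cast h5
  · rintro ⟨⟨α, x⟩, d⟩ _ ⟨⟨α', x'⟩, d'⟩ _ heq
    simp only [Prod.mk.injEq] at heq
    obtain ⟨rfl, rfl, rfl⟩ := heq
    rfl

end QL40
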