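import Mathlib
import Pool.Agent.H40.QL.Defs
import Pool.Agent.H39.UN.Rho
import Pool.Agent.H39.UN.MacF

/-!
[H40 QL RTIO]  (MP_bcc40c_pr, Q2 lower half)  Ratios of numbers of triangulations.

PROOF.  ts_card of UN: for a type `D` with `6 n` elements `(TS f v).ncard * (6 n) = (2n)! 3^(2n) bc n v` (`n ≥ 1`).  So for `D'` with `6 (n+1)` elements: `(TS f' v').ncard = (2n+2)(2n+1) * 9 * (n / (n+1)) * (bc (n+1) v' / bc n v) * (TS f v).ncard ≤ 36 (n+1)^2 (bc (n+1) v' / bc n v) (TS f v).ncard`.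
`v n / n → ω ∈ (0,1)`, `v n ≡ n mod 2`.  rho (for `n + 1`, `v n + 1`): `bc n (v n) / bc (n+1) (v n + 1) ≥ lamw ((v n + 1)/(n+1)) - ε`, and `lamw` is continuous and positive at `ω` (lamw_cont, mac_lamw_pos or lam_facts), so the quotient is `≥ lamw ω / 2 > 0` for large `n`: `bc (n+1) (v n + 1) ≤ C1 bc n (v n)`, `bc n (v n) > 0` (lrt or rho_ult).
(1) `(TS f' (v n + 1)).ncard ≤ C n^2 (TS f (v n)).ncard`.
(2) rat_two: `(v+1)^3 bc (n+1) (v + 3) ≤ 6 (3 (n+1) + 2) bc (n+1) (v+1)`, and `v n + 1 ≥ c n`: `bc (n+1) (v n + 3) ≤ C n^(-2) bc n (v n)`: `(TS f' (v n + 3)).ncard ≤ C (TS f (v n)).ncard`.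
(3) rat_two: `(TS f (v n + 2)).ncard ≤ C n^(-2) (TS f (v n)).ncard`.
-/

set_option autoImplicit false

namespace QL40

open Equiv HG39 QD39

variable {D : Type} [Fintype D] [DecidableEq D]

private theorem rt_up {D D' : Type} [Fintype D] [DecidableEq D] [Fintype D'] [DecidableEq D']
    {n : ℕ} (hn : 1 ≤ n) (hD : Fintype.card D = 6 * n) (hD' : Fintype.card D' = 6 * (n + 1))
    {f : Perm D} {f' : Perm D'} (hf : TF f) (hf' : TF f') {v v' : ℕ} {r : ℝ} (hr0 : 0 ≤ r)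
    (hr : UN39.bc (n + 1) v' ≤ r * UN39.bc n v) :
    ((TS f' v').ncard : ℝ) ≤ 54 * n ^ 2 * r * (TS f v).ncard := by
  have h1 := UN39.ts_card hf hD hn v
  have h2 := UN39.ts_card hf' hD' (by omega : 1 ≤ n + 1) v'
  obtain ⟨P, hP⟩ : ∃ P : ℝ, P = ((2 * n).factorial : ℝ) * 3 ^ (2 * n) := ⟨_, rfl⟩
  have hP0 : 0 ≤ P := by rw [hP]; positivity
  have hfac : ((2 * (n + 1)).factorial : ℝ) * 3 ^ (2 * (n + 1)) =
      (2 * n + 2) * (2 * n + 1) * 9 * P := by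
    have e1 : 2 * (n + 1) = 2 * n + 1 + 1 := by ring
    rw [e1, Nat.factorial_succ, Nat.factorial_succ, hP, pow_succ, pow_succ]
    push_cast
    ring
  rw [← hP] at h1
  rw [hfac] at h2
  have hN : (1 : ℝ) ≤ n := by exact_mod_cast hn
  obtain ⟨T, hT⟩ : ∃ T : ℝ, T = ((TS f v).ncard : ℝ) := ⟨_, rfl⟩
  obtain ⟨T', hT'⟩ : ∃ T' : ℝ, T' = ((TS f' v').ncard : ℝ) := ⟨_, rfl⟩
  have hT0 : 0 ≤ T := by rw [hT]; exact Nat.cast_nonneg _
  rw [← hT] at h1
  rw [← hT'] at h2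
  rw [← hT, ← hT']
  push_cast at h2
  have h3 : T' * (6 * (n + 1)) ≤ (2 * n + 2) * (2 * n + 1) * 9 * r * (T * (6 * n)) := by
    rw [h2, h1]
    calc (2 * (n : ℝ) + 2) * (2 * n + 1) * 9 * P * UN39.bc (n + 1) v'
        ≤ (2 * (n : ℝ) + 2) * (2 * n + 1) * 9 * P * (r * UN39.bc n v) :=
          mul_le_mul_of_nonneg_left hr (by positivity)
      _ = _ := by ring
  have h4 : T' * (6 * (n + 1)) ≤ (18 * (2 * n + 1) * n * r * T) * (6 * (n + 1)) := by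
    refine h3.trans (le_of_eq ?_)
    ring
  have h5 : T' ≤ 18 * (2 * n + 1) * n * r * T := le_of_mul_le_mul_right h4 (by positivity)
  refine h5.trans ?_
  have h6 : 18 * (2 * (n : ℝ) + 1) * n ≤ 54 * n ^ 2 := by nlinarith
  have h7 := mul_le_mul_of_nonneg_right (mul_le_mul_of_nonneg_right h6 hr0) hT0
  linarith

private theorem rt_lvl {D : Type} [Fintype D] [DecidableEq D]
    {n : ℕ} (hn : 1 ≤ n) (hD : Fintype.card D = 6 * n)
    {f : Perm D} (hf : TF f) {v v' : ℕ} {r : ℝ}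
    (hr : UN39.bc n v' * n ^ 2 ≤ r * UN39.bc n v) :
    ((TS f v').ncard : ℝ) * n ^ 2 ≤ r * (TS f v).ncard := by
  have h1 := UN39.ts_card hf hD hn v
  have h2 := UN39.ts_card hf hD hn v'
  obtain ⟨P, hP⟩ : ∃ P : ℝ, P = ((2 * n).factorial : ℝ) * 3 ^ (2 * n) := ⟨_, rfl⟩
  have hP0 : 0 ≤ P := by rw [hP]; positivity
  rw [← hP] at h1 h2
  have hN : (1 : ℝ) ≤ n := by exact_mod_cast hn
  have h3 : ((TS f v').ncard : ℝ) * n ^ 2 * (6 * n) ≤ r * (TS f v).ncard * (6 * n) := by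
    calc ((TS f v').ncard : ℝ) * n ^ 2 * (6 * n) = P * (UN39.bc n v' * n ^ 2) := by
          rw [mul_right_comm, h2]
          ring
      _ ≤ P * (r * UN39.bc n v) := mul_le_mul_of_nonneg_left hr hP0
      _ = r * ((TS f v).ncard * (6 * n)) := by rw [h1]; ring
      _ = _ := by ring
  exact le_of_mul_le_mul_right h3 (by positivity)

private theorem rt_ev {ω : ℝ} (h0 : 0 < ω) (h1 : ω < 1) {v : ℕ → ℕ}
    (hv : Filter.Tendsto (fun n => (v n : ℝ) / n) Filter.atTop (nhds ω))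
    (hp : ∀ᶠ n in Filter.atTop, v n % 2 = n % 2) :
    ∃ q : ℝ, 0 < q ∧ ∀ᶠ n in Filter.atTop, 1 ≤ n ∧ 1 ≤ v n ∧ ω / 2 * n ≤ v n ∧
      q * UN39.bc (n + 1) (v n + 1) ≤ UN39.bc n (v n) := by
  have hlw : 0 < UN39.lamw ω := UN39.mac_lamw_pos h0 h1
  have ht : Filter.Tendsto (fun n : ℕ => ((v n + 1 : ℕ) : ℝ) / ((n + 1 : ℕ) : ℝ)) Filter.atTop
      (nhds ω) := by
    have hnr : Filter.Tendsto (fun n : ℕ => ((n : ℝ))⁻¹) Filter.atTop (nhds 0) :=
      tendsto_inv_atTop_nhds_zero_nat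
    have h2 : Filter.Tendsto (fun n : ℕ => ((v n : ℝ) / n + (n : ℝ)⁻¹) / (1 + (n : ℝ)⁻¹))
        Filter.atTop (nhds ((ω + 0) / (1 + 0))) :=
      (hv.add hnr).div (tendsto_const_nhds.add hnr) (by norm_num)
    rw [add_zero, add_zero, div_one] at h2
    refine h2.congr' ?_
    filter_upwards [Filter.eventually_ge_atTop 1] with n hn
    have hN : (0 : ℝ) < n := by exact_mod_cast hn
    push_cast
    field_simp
  have hc : ContinuousAt UN39.lamw ω := UN39.lamw_cont.1.continuousAt (Ioo_mem_nhds h0 h1)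
  have ht2 : Filter.Tendsto
      (fun n : ℕ => UN39.lamw (((v n + 1 : ℕ) : ℝ) / ((n + 1 : ℕ) : ℝ))) Filter.atTop
      (nhds (UN39.lamw ω)) := hc.tendsto.comp ht
  obtain ⟨n0, hn0⟩ := UN39.rho (ω1 := ω / 2) (ω2 := (1 + ω) / 2) (by linarith) (by linarith)
    (ε := UN39.lamw ω / 4) (by linarith)
  refine ⟨UN39.lamw ω / 2, by linarith, ?_⟩
  have e1 := ht2.eventually (lt_mem_nhds (by linarith : UN39.lamw ω * (3 / 4) < UN39.lamw ω))
  have e2 := ht.eventually (lt_mem_nhds (by linarith : ω / 2 < ω))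
  have e3 := ht.eventually (gt_mem_nhds (by linarith : ω < (1 + ω) / 2))
  have e4 := hv.eventually (lt_mem_nhds (by linarith : ω / 2 < ω))
  filter_upwards [e1, e2, e3, e4, hp, Filter.eventually_ge_atTop 1,
    Filter.eventually_ge_atTop n0] with n g1 g2 g3 g4 g5 g6 g7
  have hN : (0 : ℝ) < n := by exact_mod_cast g6
  have hN1 : (0 : ℝ) < ((n + 1 : ℕ) : ℝ) := by positivity
  rw [lt_div_iff₀ hN] at g4
  have hv1 : 1 ≤ v n := by
    rcases Nat.eq_zero_or_pos (v n) with hz | hz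
    · exfalso
      rw [hz] at g4
      have : 0 < ω / 2 * n := by positivity
      push_cast at g4
      linarith
    · exact hz
  refine ⟨g6, hv1, g4.le, ?_⟩
  rw [lt_div_iff₀ hN1] at g2
  rw [div_lt_iff₀ hN1] at g3
  have g8 := hn0 (n + 1) (v n + 1) (by omega) g2.le g3.le (by omega)
  rw [Nat.add_sub_cancel, Nat.add_sub_cancel] at g8
  have g9 := (abs_le.1 g8).1
  have g10 : UN39.lamw ω / 2 ≤ UN39.bc n (v n) / UN39.bc (n + 1) (v n + 1) := by linarith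
  have hb : 0 ≤ UN39.bc (n + 1) (v n + 1) := UN39.bc_nonneg _ _
  rcases hb.lt_or_eq with hb1 | hb1
  · rwa [le_div_iff₀ hb1] at g10
  · rw [← hb1, mul_zero]
    exact UN39.bc_nonneg _ _

theorem rtio {ω : ℝ} (h0 : 0 < ω) (h1 : ω < 1) {v : ℕ → ℕ}
    (hv : Filter.Tendsto (fun n => (v n : ℝ) / n) Filter.atTop (nhds ω))
    (hp : ∀ᶠ n in Filter.atTop, v n % 2 = n % 2) :
    ∃ C : ℝ, 0 < C ∧ ∃ n0 : ℕ, 1 ≤ n0 ∧ ∀ n ≥ n0, ∀ (D D' : Type) [Fintype D] [DecidableEq D]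
      [Fintype D'] [DecidableEq D'], Fintype.card D = 6 * n → Fintype.card D' = 6 * (n + 1) →
      ∀ (f : Perm D) (f' : Perm D'), TF f → TF f' →
        ((TS f' (v n + 1)).ncard : ℝ) ≤ C * n ^ 2 * (TS f (v n)).ncard ∧
        ((TS f' (v n + 3)).ncard : ℝ) ≤ C * (TS f (v n)).ncard ∧
        ((TS f (v n + 2)).ncard : ℝ) * n ^ 2 ≤ C * (TS f (v n)).ncard := by
  obtain ⟨q, hq, hev⟩ := rt_ev h0 h1 hv hp
  obtain ⟨n0, hn0⟩ := Filter.eventually_atTop.1 hev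
  have hw3 : 0 < ω ^ 3 := by positivity
  obtain ⟨C1, hC1⟩ : ∃ C1 : ℝ, C1 = 54 * (1 / q) := ⟨_, rfl⟩
  obtain ⟨C2, hC2⟩ : ∃ C2 : ℝ, C2 = 54 * (384 / (ω ^ 3 * q)) := ⟨_, rfl⟩
  obtain ⟨C3, hC3⟩ : ∃ C3 : ℝ, C3 = 240 / ω ^ 3 := ⟨_, rfl⟩
  have p1 : 0 < C1 := by rw [hC1]; positivity
  have p2 : 0 < C2 := by rw [hC2]; positivity
  have p3 : 0 < C3 := by rw [hC3]; positivity
  refine ⟨C1 + C2 + C3, by linarith, max n0 1, le_max_right _ _, ?_⟩
  intro n hn D D' _ _ _ _ hD hD' f f' hf hf'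
  obtain ⟨g1, g2, g3, g4⟩ := hn0 n ((le_max_left _ _).trans hn)
  have hN : (1 : ℝ) ≤ n := by exact_mod_cast g1
  have hN0 : (0 : ℝ) < n := by linarith
  have hT0 : (0 : ℝ) ≤ (TS f (v n)).ncard := Nat.cast_nonneg _
  have hb0 : 0 ≤ UN39.bc n (v n) := UN39.bc_nonneg _ _
  have a1 : UN39.bc (n + 1) (v n + 1) ≤ 1 / q * UN39.bc n (v n) := by
    rw [one_div, inv_mul_eq_div, le_div_iff₀ hq]
    linarith
  have hv3 : (ω * n) ^ 3 / 8 ≤ (v n : ℝ) ^ 3 := by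
    have h2 : (ω / 2 * n) ^ 3 ≤ (v n : ℝ) ^ 3 := pow_le_pow_left₀ (by positivity) g3 3
    calc (ω * n) ^ 3 / 8 = (ω / 2 * n) ^ 3 := by ring
      _ ≤ _ := h2
  refine ⟨?_, ?_, ?_⟩
  · have h2 := rt_up g1 hD hD' hf hf' (by positivity) a1
    refine h2.trans ?_
    have h3 : 54 * (n : ℝ) ^ 2 * (1 / q) ≤ (C1 + C2 + C3) * n ^ 2 := by
      have h4 : C1 * (n : ℝ) ^ 2 ≤ (C1 + C2 + C3) * n ^ 2 := by
        apply mul_le_mul_of_nonneg_right (by linarith) (by positivity)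
      have h5 : 54 * (n : ℝ) ^ 2 * (1 / q) = C1 * n ^ 2 := by
        rw [hC1]
        ring
      linarith
    exact mul_le_mul_of_nonneg_right h3 hT0
  · have a2 := UN39.rat_two (n + 1) (v n + 1) (by omega)
    have hv3' : (ω * n) ^ 3 / 8 ≤ ((v n + 1 : ℕ) : ℝ) ^ 3 := by
      refine hv3.trans (pow_le_pow_left₀ (by positivity) ?_ 3)
      push_cast
      linarith
    have a3 : (ω * n) ^ 3 / 8 * UN39.bc (n + 1) (v n + 3) ≤
        48 * n * (1 / q * UN39.bc n (v n)) := by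
      calc (ω * n) ^ 3 / 8 * UN39.bc (n + 1) (v n + 3)
          ≤ ((v n + 1 : ℕ) : ℝ) ^ 3 * UN39.bc (n + 1) (v n + 1 + 2) :=
            mul_le_mul_of_nonneg_right hv3' (UN39.bc_nonneg _ _)
        _ ≤ 6 * (3 * ((n + 1 : ℕ) : ℝ) + 2) * UN39.bc (n + 1) (v n + 1) := a2
        _ ≤ 48 * n * UN39.bc (n + 1) (v n + 1) := by
            apply mul_le_mul_of_nonneg_right _ (UN39.bc_nonneg _ _)
            push_cast
            linarith
        _ ≤ _ := mul_le_mul_of_nonneg_left a1 (by positivity)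
    have a4 : UN39.bc (n + 1) (v n + 3) ≤ 384 / (ω ^ 3 * q) / n ^ 2 * UN39.bc n (v n) := by
      have h5 : 0 < (ω * n) ^ 3 / 8 := by positivity
      refine le_of_mul_le_mul_left (a3.trans (le_of_eq ?_)) h5
      field_simp
      ring
    have h2 := rt_up g1 hD hD' hf hf' (by positivity) a4
    refine h2.trans ?_
    have h3 : 54 * (n : ℝ) ^ 2 * (384 / (ω ^ 3 * q) / n ^ 2) ≤ C1 + C2 + C3 := by
      have h4 : 54 * (n : ℝ) ^ 2 * (384 / (ω ^ 3 * q) / n ^ 2) = C2 := by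
        rw [hC2]
        field_simp
      linarith
    exact mul_le_mul_of_nonneg_right h3 hT0
  · have a2 := UN39.rat_two n (v n) g2
    have a3 : (ω * n) ^ 3 / 8 * UN39.bc n (v n + 2) ≤ 30 * n * UN39.bc n (v n) := by
      calc (ω * n) ^ 3 / 8 * UN39.bc n (v n + 2)
          ≤ (v n : ℝ) ^ 3 * UN39.bc n (v n + 2) :=
            mul_le_mul_of_nonneg_right hv3 (UN39.bc_nonneg _ _)
        _ ≤ 6 * (3 * n + 2) * UN39.bc n (v n) := a2
        _ ≤ _ := by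
            apply mul_le_mul_of_nonneg_right _ hb0
            linarith
    have a4 : UN39.bc n (v n + 2) * n ^ 2 ≤ C3 * UN39.bc n (v n) := by
      have h5 : 0 < ω ^ 3 * n / 8 := by positivity
      refine le_of_mul_le_mul_left ?_ h5
      calc ω ^ 3 * n / 8 * (UN39.bc n (v n + 2) * n ^ 2)
          = (ω * n) ^ 3 / 8 * UN39.bc n (v n + 2) := by ring
        _ ≤ 30 * n * UN39.bc n (v n) := a3
        _ = _ := by
            rw [hC3]
            field_simp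
            ring
    have h2 := rt_lvl g1 hD hf a4
    refine h2.trans (mul_le_mul_of_nonneg_right (by linarith) hT0)

end QL40
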