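import Mathlib
import Pool.Agent.H40.QL.Bas

/-!
[H40 QL LUNI]  (MP_bcc40c_pr, Q2 lower half)  Labels are determined by the roots and their levels; number of labelled triangulations.

PROOFS.
lab_unique: it suffices to show `ℓ' d ≤ ℓ d` for all `d` (symmetry).  Strong induction on `(ℓ d).toNat`: by `Rt`, either `d` is in the cycle of `x` or `w` (lb_same for both: `ℓ d = ℓ x = ℓ' x = ℓ' d`), or there is a descending `d'` in the cycle of `d`: `ℓ (f d') = ℓ d - 1 ≥ 0`, so `ℓ' (f d') ≤ ℓ d - 1` by induction, and `ℓ' d = ℓ' d' ≤ ℓ' (f d') + 1` (lb_low).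
yst_card: choose for each `p ∈ Yst` the darts `x, w`; the map `p ↦ (p.1, x, w, (p.2 w).toNat)` is injective by lab_unique (`p.2 x = 0`, `p.2 w = ((p.2 w).toNat : ℤ)`), into `TS f v × D × D × {0, ..., R}`.  So `Yst` is finite and `ncard ≤ (TS f v).ncard * card D * card D * (R + 1)` (Set.ncard_le_ncard_of_injOn into a product set, Set.ncard_prod).
bad_fin: all these sets are finite: `Bad2 ⊆ univ` in a finite type.
-/

set_option autoImplicit false

namespace QL40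

open Equiv HG39 QD39

variable {D : Type} [Fintype D] [DecidableEq D]

private theorem lab_le {f α : Perm D} {ℓ ℓ' : D → ℤ} (h : Lb f α ℓ) (h' : Lb f α ℓ')
    (h0 : ∀ d, 0 ≤ ℓ d) (x w : D) (hx : ℓ' x ≤ ℓ x) (hw : ℓ' w ≤ ℓ w)
    (hr : Rt f α ℓ x w) : ∀ n : ℕ, ∀ d, (ℓ d).toNat = n → ℓ' d ≤ ℓ d := by
  intro n
  induction n using Nat.strong_induction_on with
  | _ n ih =>
    intro d hd
    rcases hr d with hs | hs | ⟨d', hs, hdd⟩
    · rw [lb_same h' hs, lb_same h hs]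
      exact hx
    · rw [lb_same h' hs, lb_same h hs]
      exact hw
    · have e1 : ℓ (f d') = ℓ d' - 1 := hdd
      have e2 : ℓ d = ℓ d' := lb_same h hs
      have e3 : 0 ≤ ℓ (f d') := h0 _
      have e4 : ℓ' (f d') ≤ ℓ (f d') := ih (ℓ (f d')).toNat (by omega) (f d') rfl
      have e5 : ℓ' d' ≤ ℓ' (f d') + 1 := lb_low h' d'
      have e6 : ℓ' d = ℓ' d' := lb_same h' hs
      omega

theorem lab_unique {f α : Perm D} {ℓ ℓ' : D → ℤ} (h : Lb f α ℓ) (h' : Lb f α ℓ')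
    (h0 : ∀ d, 0 ≤ ℓ d) (h0' : ∀ d, 0 ≤ ℓ' d) (x w : D) (hx : ℓ x = ℓ' x) (hw : ℓ w = ℓ' w)
    (hr : Rt f α ℓ x w) (hr' : Rt f α ℓ' x w) : ℓ = ℓ' := by
  funext d
  exact le_antisymm (lab_le h' h h0' x w hx.le hw.le hr' _ d rfl)
    (lab_le h h' h0 x w hx.ge hw.ge hr _ d rfl)

theorem yst_card (f : Perm D) (v R S : ℕ) :
    (Yst f v R S).Finite ∧
      (Yst f v R S).ncard ≤ (TS f v).ncard * (Fintype.card D) ^ 2 * (R + 1) := by
  classical
  let T : Set (Perm D × D × D × ℕ) :=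
    (TS f v) ×ˢ ((Set.univ : Set D) ×ˢ ((Set.univ : Set D) ×ˢ (Set.Iic R)))
  have hTf : T.Finite :=
    (Set.toFinite _).prod (Set.finite_univ.prod (Set.finite_univ.prod (Set.finite_Iic R)))
  have hTc : T.ncard = (TS f v).ncard * (Fintype.card D) ^ 2 * (R + 1) := by
    have h1 : (Set.Iic R).ncard = R + 1 := by
      rw [← Finset.coe_Iic, Set.ncard_coe_finset, Nat.card_Iic]
    simp only [T]
    rw [Set.ncard_prod, Set.ncard_prod, Set.ncard_prod, Set.ncard_univ, h1,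
      Nat.card_eq_fintype_card]
    ring
  have hch : ∀ p : Perm D × (D → ℤ), p ∈ Yst f v R S → ∃ t : Perm D × D × D × ℕ,
      t ∈ T ∧ t.1 = p.1 ∧ p.2 t.2.1 = 0 ∧ p.2 t.2.2.1 = (t.2.2.2 : ℤ) ∧
        Rt f p.1 p.2 t.2.1 t.2.2.1 := by
    rintro ⟨α, ℓ⟩ ⟨h1, _, h3, ⟨x, w, hx, hw, hr⟩, _⟩
    have h3w := h3 w
    refine ⟨(α, x, w, (ℓ w).toNat), ?_, rfl, hx, ?_, hr⟩
    · refine ⟨h1, Set.mem_univ _, Set.mem_univ _, ?_⟩
      change (ℓ w).toNat ≤ R
      dsimp only at hw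
      omega
    · dsimp only
      dsimp only at h3w
      omega
  rcases (Yst f v R S).eq_empty_or_nonempty with he | ⟨p0, hp0⟩
  · rw [he]
    exact ⟨Set.finite_empty, by simp⟩
  haveI : Nonempty (Perm D × D × D × ℕ) := by
    obtain ⟨t, _⟩ := hch p0 hp0
    exact ⟨t⟩
  choose! F hF using hch
  have hmaps : ∀ p ∈ Yst f v R S, F p ∈ T := fun p hp => (hF p hp).1
  have hinj : Set.InjOn F (Yst f v R S) := by
    rintro ⟨α, ℓ⟩ hp ⟨α', ℓ'⟩ hp' he
    obtain ⟨_, a1, a2, a3, a4⟩ := hF _ hp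
    obtain ⟨_, b1, b2, b3, b4⟩ := hF _ hp'
    rw [he] at a1 a2 a3 a4
    dsimp only at a1 a2 a3 a4 b1 b2 b3 b4
    have e : α = α' := a1.symm.trans b1
    subst e
    have e2 : ℓ = ℓ' := lab_unique hp.2.1 hp'.2.1 hp.2.2.1 hp'.2.2.1 _ _
      (a2.trans b2.symm) (a3.trans b3.symm) a4 b4
    rw [e2]
  refine ⟨Set.Finite.of_injOn (f := F) hmaps hinj hTf, ?_⟩
  rw [← hTc]
  exact Set.ncard_le_ncard_of_injOn F hmaps hinj hTf

end QL40
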