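import Mathlib
import Pool.Agent.H40.QL.Bas

/-!
[H40 QL SWV]  (MP_bcc40c_pr, Q2 lower half)  The surgery `sw`: values, levels, distinctness.

PROOFS.
big_lev: induction on `i`: `ℓ (a (i+1)) = ℓ (α (a i))` (fst_lev) `= ℓ (f (a i)) = ℓ (a i) - 1`; `ℓ (b 0) = ℓ (a 0)` by lb_same.
big_dist: `a i ≠ a j`, `b i ≠ b j` for `i ≠ j` and `a i ≠ b j` for `i ≠ j`: levels; `a i ≠ b i`: `ne` for `i = 0`, `sep` for `i ≥ 1` (SameCycle.refl).  `a i ≠ α (b j)` etc. for all `i, j`: `a i` is descending (`ℓ (f (a i)) = ℓ (a i) - 1`) and `α (b j)` is ascending: `ℓ (f (α (b j))) = ℓ (α (α (b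
j))) = ℓ (b j) = ℓ (f (b j)) + 1 = ℓ (α (b j)) + 1`.
swp_val: for sequences with `a i ≠ a j`, `b i ≠ b j` (`i ≠ j`), `a i ≠ b j` (all `i, j < k`): induction on `k`: `swp` exchanges `a i` and `b i` for `i < k`, and fixes all other darts.
sw_val: `swp⁻¹` has the same values as `swp` (it is an involution).  `sw α a b k (a i) = swp (α (swp⁻¹ (a i))) = swp (α (b i)) = α (b i)`, because `α (b i)` is not one of the `a j, b j`; etc.
sw_inv, sw_fpf: `sw` is a conjugate of `α`.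
sw_back: from the definition: `α = (swp a b k)⁻¹ * sw α a b k * swp a b k`.
swp_congr: `swp` depends only on the values for `i < k`.
-/

set_option autoImplicit false
set_option linter.unusedSectionVars false

namespace QL40

open Equiv HG39 QD39

variable {D : Type} [Fintype D] [DecidableEq D]

theorem big_lev {f α : Perm D} {ℓ : D → ℤ} {k : ℕ} {a b : ℕ → D} (hl : Lb f α ℓ)
    (hB : Big f α ℓ k a b) (i : ℕ) (hi : i < k) :
    ℓ (a i) = ℓ (a 0) - i ∧ ℓ (b i) = ℓ (a 0) - i ∧ ℓ (α (a i)) = ℓ (a 0) - i - 1 ∧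
      ℓ (α (b i)) = ℓ (a 0) - i - 1 := by
  have key : ∀ i < k, ℓ (a i) = ℓ (a 0) - i ∧ ℓ (b i) = ℓ (a 0) - i := by
    intro i
    induction i with
    | zero =>
      intro _
      rw [← lb_same hl hB.st]
      simp
    | succ i ih =>
      intro hi
      obtain ⟨h1, h2⟩ := ih (by omega)
      have h3 := fst_lev hl (hB.na i hi)
      have h4 := fst_lev hl (hB.nb i hi)
      have h5 := hl.ver (a i)
      have h6 := hl.ver (b i)
      have h7 : ℓ (f (a i)) = ℓ (a i) - 1 := hB.da i (by omega)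
      have h8 : ℓ (f (b i)) = ℓ (b i) - 1 := hB.db i (by omega)
      push_cast
      constructor <;> omega
  obtain ⟨h1, h2⟩ := key i hi
  have h5 := hl.ver (a i)
  have h6 := hl.ver (b i)
  have h7 : ℓ (f (a i)) = ℓ (a i) - 1 := hB.da i hi
  have h8 : ℓ (f (b i)) = ℓ (b i) - 1 := hB.db i hi
  refine ⟨h1, h2, ?_, ?_⟩ <;> omega

/-- the partner of a descending dart is not descending -/
theorem swv_not_desc {f α : Perm D} {ℓ : D → ℤ} (hl : Lb f α ℓ) {d : D} (hd : Desc f ℓ d) :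
    ¬ Desc f ℓ (α d) := by
  intro h
  have h1 : ℓ (f d) = ℓ d - 1 := hd
  have h2 : ℓ (f (α d)) = ℓ (α d) - 1 := h
  have h3 := hl.ver d
  have h4 := hl.ver (α d)
  rw [hl.inv] at h4
  omega

theorem big_dist {f α : Perm D} {ℓ : D → ℤ} {k : ℕ} {a b : ℕ → D} (hl : Lb f α ℓ)
    (hB : Big f α ℓ k a b) (i j : ℕ) (hi : i < k) (hj : j < k) :
    a i ≠ b j ∧ a i ≠ α (a j) ∧ a i ≠ α (b j) ∧ b i ≠ α (a j) ∧ b i ≠ α (b j) ∧
      α (a i) ≠ α (b j) ∧ (i ≠ j → a i ≠ a j ∧ b i ≠ b j) := by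
  obtain ⟨i1, i2, -, -⟩ := big_lev hl hB i hi
  obtain ⟨j1, j2, -, -⟩ := big_lev hl hB j hj
  have hab : a i ≠ b j := by
    intro h
    have h1 : ℓ (a i) = ℓ (b j) := by rw [h]
    have hij : i = j := by omega
    subst hij
    rcases Nat.eq_zero_or_pos i with h0 | h0
    · subst h0
      exact hB.ne h
    · exact hB.sep i h0 hi (by rw [h])
  have ha := hB.da i hi
  have hb := hB.db i hi
  have haj := swv_not_desc hl (hB.da j hj)
  have hbj := swv_not_desc hl (hB.db j hj)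
  refine ⟨hab, fun h => haj (h ▸ ha), fun h => hbj (h ▸ ha), fun h => haj (h ▸ hb),
    fun h => hbj (h ▸ hb), fun h => hab (α.injective h), fun hij => ⟨fun h => ?_, fun h => ?_⟩⟩
  · have h1 : ℓ (a i) = ℓ (a j) := by rw [h]
    omega
  · have h1 : ℓ (b i) = ℓ (b j) := by rw [h]
    omega

theorem swp_val {a b : ℕ → D} {k : ℕ} (h1 : ∀ i j, i < k → j < k → a i ≠ b j)
    (h2 : ∀ i j, i < k → j < k → i ≠ j → a i ≠ a j ∧ b i ≠ b j) :
    (∀ i < k, swp a b k (a i) = b i ∧ swp a b k (b i) = a i) ∧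
      (∀ d, (∀ i < k, d ≠ a i ∧ d ≠ b i) → swp a b k d = d) ∧
      (∀ d, swp a b k (swp a b k d) = d) := by
  have key : (∀ i < k, swp a b k (a i) = b i ∧ swp a b k (b i) = a i) ∧
      (∀ d, (∀ i < k, d ≠ a i ∧ d ≠ b i) → swp a b k d = d) := by
    induction k with
    | zero => exact ⟨fun i hi => absurd hi (Nat.not_lt_zero _), fun d _ => rfl⟩
    | succ k ih =>
      obtain ⟨g1, g2⟩ := ih (fun i j hi hj => h1 i j (by omega) (by omega))
        (fun i j hi hj => h2 i j (by omega) (by omega))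
      have hak : swp a b k (a k) = a k := g2 _ fun i hi =>
        ⟨(h2 k i (by omega) (by omega) (by omega)).1, h1 k i (by omega) (by omega)⟩
      have hbk : swp a b k (b k) = b k := g2 _ fun i hi =>
        ⟨(h1 i k (by omega) (by omega)).symm, (h2 k i (by omega) (by omega) (by omega)).2⟩
      constructor
      · intro i hi
        rw [swp, Perm.mul_apply, Perm.mul_apply]
        rcases Nat.lt_or_ge i k with h3 | h3
        · have e1 := h2 i k (by omega) (by omega) (by omega)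
          rw [swap_apply_of_ne_of_ne e1.1 (h1 i k (by omega) (by omega)),
            swap_apply_of_ne_of_ne (h1 k i (by omega) (by omega)).symm e1.2]
          exact g1 i h3
        · obtain rfl : i = k := by omega
          rw [swap_apply_left, swap_apply_right]
          exact ⟨hbk, hak⟩
      · intro d hd
        have e1 := hd k (by omega)
        rw [swp, Perm.mul_apply, swap_apply_of_ne_of_ne e1.1 e1.2]
        exact g2 d fun i hi => hd i (by omega)
  refine ⟨key.1, key.2, fun d => ?_⟩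
  by_cases hd : ∀ i < k, d ≠ a i ∧ d ≠ b i
  · rw [key.2 d hd, key.2 d hd]
  · push Not at hd
    obtain ⟨i, hi, h3⟩ := hd
    by_cases h4 : d = a i
    · rw [h4, (key.1 i hi).1, (key.1 i hi).2]
    · rw [h3 h4, (key.1 i hi).2, (key.1 i hi).1]

theorem sw_val {f α : Perm D} {ℓ : D → ℤ} {k : ℕ} {a b : ℕ → D} (hl : Lb f α ℓ)
    (hB : Big f α ℓ k a b) :
    (∀ i < k, sw α a b k (a i) = α (b i) ∧ sw α a b k (b i) = α (a i) ∧
      sw α a b k (α (a i)) = b i ∧ sw α a b k (α (b i)) = a i) ∧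
      ∀ d, (∀ i < k, d ≠ a i ∧ d ≠ b i ∧ d ≠ α (a i) ∧ d ≠ α (b i)) →
        sw α a b k d = α d := by
  obtain ⟨g1, g2, g3⟩ := swp_val (fun i j hi hj => (big_dist hl hB i j hi hj).1)
    (fun i j hi hj => (big_dist hl hB i j hi hj).2.2.2.2.2.2)
  have hinv : ∀ d, (swp a b k)⁻¹ d = swp a b k d := by
    intro d
    rw [Perm.inv_eq_iff_eq, g3]
  have hval : ∀ d, sw α a b k d = swp a b k (α (swp a b k d)) := by
    intro d
    rw [sw, Perm.mul_apply, Perm.mul_apply, hinv]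
  have hαa : ∀ i < k, swp a b k (α (a i)) = α (a i) := by
    intro i hi
    apply g2
    intro j hj
    obtain ⟨e1, e2, e3, e4, e5, e6, e7⟩ := big_dist hl hB j i hj hi
    exact ⟨e2.symm, e4.symm⟩
  have hαb : ∀ i < k, swp a b k (α (b i)) = α (b i) := by
    intro i hi
    apply g2
    intro j hj
    obtain ⟨e1, e2, e3, e4, e5, e6, e7⟩ := big_dist hl hB j i hj hi
    exact ⟨e3.symm, e5.symm⟩
  constructor
  · intro i hi
    rw [hval, hval, hval, hval, (g1 i hi).1, (g1 i hi).2, hαa i hi, hαb i hi, hl.inv, hl.inv,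
      (g1 i hi).1, (g1 i hi).2]
    exact ⟨rfl, rfl, rfl, rfl⟩
  · intro d hd
    rw [hval, g2 d fun i hi => ⟨(hd i hi).1, (hd i hi).2.1⟩]
    apply g2
    intro i hi
    obtain ⟨-, -, e3, e4⟩ := hd i hi
    constructor
    · intro h
      apply e3
      rw [← h, hl.inv]
    · intro h
      apply e4
      rw [← h, hl.inv]

theorem sw_inv {α : Perm D} (hi : ∀ d, α (α d) = d) (a b : ℕ → D) (k : ℕ) (d : D) :
    sw α a b k (sw α a b k d) = d := by
  have h1 : ∀ x, (swp a b k)⁻¹ (swp a b k x) = x := fun x => Equiv.symm_apply_apply _ x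
  have h2 : ∀ x, swp a b k ((swp a b k)⁻¹ x) = x := fun x => Equiv.apply_symm_apply _ x
  simp only [sw, Perm.mul_apply, h1, hi, h2]

theorem sw_fpf {α : Perm D} (hn : ∀ d, α d ≠ d) (a b : ℕ → D) (k : ℕ) (d : D) :
    sw α a b k d ≠ d := by
  intro h
  apply hn ((swp a b k)⁻¹ d)
  rw [sw, Perm.mul_apply, Perm.mul_apply] at h
  rw [Perm.eq_inv_iff_eq]
  exact h

theorem sw_back (α : Perm D) (a b : ℕ → D) (k : ℕ) :
    α = (swp a b k)⁻¹ * sw α a b k * swp a b k := by
  rw [sw]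
  group

theorem swp_congr {a b a' b' : ℕ → D} {k : ℕ} (h : ∀ i < k, a i = a' i ∧ b i = b' i) :
    swp a b k = swp a' b' k := by
  induction k with
  | zero => rfl
  | succ k ih =>
    rw [swp, swp, ih fun i hi => h i (by omega), (h k (by omega)).1, (h k (by omega)).2]

/-- the labels remain weak labels -/
theorem sw_lb {f α : Perm D} {ℓ : D → ℤ} {k : ℕ} {a b : ℕ → D} (hl : Lb f α ℓ)
    (hB : Big f α ℓ k a b) : Lb f (sw α a b k) ℓ := by
  obtain ⟨v1, v2⟩ := sw_val hl hB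
  refine ⟨sw_inv hl.inv a b k, sw_fpf hl.fpf a b k, fun d => ?_, hl.lip⟩
  by_cases hd : ∀ i < k, d ≠ a i ∧ d ≠ b i ∧ d ≠ α (a i) ∧ d ≠ α (b i)
  · rw [v2 d hd]
    exact hl.ver d
  · push Not at hd
    obtain ⟨i, hi, h3⟩ := hd
    obtain ⟨w1, w2, w3, w4⟩ := v1 i hi
    obtain ⟨l1, l2, l3, l4⟩ := big_lev hl hB i hi
    rw [hl.ver d]
    by_cases e1 : d = a i
    · rw [e1, w1, l3, l4]
    · by_cases e2 : d = b i
      · rw [e2, w2, l3, l4]
      · by_cases e3 : d = α (a i)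
        · rw [e3, w3, hl.inv, l1, l2]
        · rw [h3 e1 e2 e3, w4, hl.inv, l1, l2]

end QL40
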