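import Mathlib
import Pool.Agent.H40.QL.Swv
import Pool.Agent.H39.HG.GlueVal
import Pool.Agent.H39.HG.ZSwap

/-!
[H40 QL SWC]  (MP_bcc40c_pr, Q2 lower half)  Cutting and zipping a bigon creates two new vertices.

PROOF.  Let `σ = f * α`, `L = ℓ (a 0)`.  Define `π 0 = σ * swap (a 0) (b 0)`, `π' i = π i * swap (α (a i)) (α (b i))`, `π (i+1) = π' i * swap (a (i+1)) (b (i+1))`.  Then `f * sw α a b k = π' (k-1)`: both are `f *` the permutation with the values of sw_val (all `4 k` darts `a i, b i, α (a i), α (b i)`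
are different, big_dist; check on each dart, or use `glue`: `sw α a b k = glue α [(a 0, b 0), (α (a 0), α (b 0)), ...]` by glue_mem, glue_notMem, and glue_mul).
All these permutations preserve `ℓ` (each transposition exchanges two darts of the same level, big_lev; `ℓ (σ d) = ℓ d`).  `π i` agrees with `σ` on the darts of level `≤ L - i - 1` (the transposed darts have levels `≥ L - i`), so for two darts of level `≤ L - i - 1`: `SameCycle (π i) ↔ SameCycle σ` (the
whole cycle stays at this level).
Counting, by induction on `i`: `cyc (π 0) = cyc σ + 1` (cyc_swap_same, `st`, `ne`).  For `i + 1 < k`: `α (a i), α (b i)` (level `L - i - 1`) are in different cycles of `σ` (they are in the cycles of `a (i+1), b (i+1)`, fst_same; `sep`), so `cyc (π' i) + 1 = cyc (π i)` (cyc_swap_diff); `a (i+1)` and `b (i+1)` are in the same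
cycle of `π' i` (zs_iff of HG/ZSwap: `a (i+1)` is in the `π i`-cycle of `α (a i)`, `b (i+1)` in the one of `α (b i)`), so `cyc (π (i+1)) = cyc (π' i) + 1 = cyc (π i)`.  At the end `α (a (k-1)), α (b (k-1))` are in the same cycle of `σ` (`en`), so of `π (k-1)`: `cyc (π' (k-1)) = cyc (π (k-1)) + 1`.  Total `cyc σ + 2`.
-/

set_option autoImplicit false
set_option linter.unusedSectionVars false

namespace QL40

open Equiv HG39 QD39

variable {D : Type} [Fintype D] [DecidableEq D]

private theorem agree {σ π : Perm D} {ℓ : D → ℤ} (hσ : ∀ d, ℓ (σ d) = ℓ d) {c : ℤ}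
    (h : ∀ d, ℓ d ≤ c → π d = σ d) {x : D} (hx : ℓ x ≤ c) (y : D) :
    π.SameCycle x y ↔ σ.SameCycle x y := by
  have key : ∀ n : ℕ, (π ^ n) x = (σ ^ n) x ∧ ℓ ((σ ^ n) x) = ℓ x := by
    intro n
    induction n with
    | zero => simp
    | succ n ih =>
      rw [pow_succ', pow_succ', Perm.mul_apply, Perm.mul_apply, ih.1, h _ (by rw [ih.2]; exact hx),
        hσ]
      exact ⟨rfl, ih.2⟩
  constructor
  · intro hs
    obtain ⟨n, _, hn⟩ := hs.exists_pow_eq'
    exact ⟨(n : ℤ), by rw [zpow_natCast, ← (key n).1]; exact hn⟩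
  · intro hs
    obtain ⟨n, _, hn⟩ := hs.exists_pow_eq'
    exact ⟨(n : ℤ), by rw [zpow_natCast, (key n).1]; exact hn⟩

private theorem sw_succ {f α : Perm D} {ℓ : D → ℤ} {k : ℕ} {a b : ℕ → D} (hl : Lb f α ℓ)
    (hB : Big f α ℓ k a b) {j : ℕ} (hj : j < k) :
    sw α a b (j + 1) = sw α a b j * swap (a j) (b j) * swap (α (a j)) (α (b j)) := by
  obtain ⟨g1, g2, g3⟩ := swp_val (a := a) (b := b) (k := j)
    (fun i i' hi hi' => (big_dist hl hB i i' (by omega) (by omega)).1)
    (fun i i' hi hi' => (big_dist hl hB i i' (by omega) (by omega)).2.2.2.2.2.2)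
  have fa : swp a b j (a j) = a j := g2 _ fun i hi => by
    obtain ⟨e1, e2, e3, e4, e5, e6, e7⟩ := big_dist hl hB j i hj (by omega)
    exact ⟨(e7 (by omega)).1, e1⟩
  have fb : swp a b j (b j) = b j := g2 _ fun i hi => by
    obtain ⟨e1, e2, e3, e4, e5, e6, e7⟩ := big_dist hl hB i j (by omega) hj
    exact ⟨e1.symm, (e7 (by omega)).2.symm⟩
  have fαa : swp a b j (α (a j)) = α (a j) := g2 _ fun i hi => by
    obtain ⟨e1, e2, e3, e4, e5, e6, e7⟩ := big_dist hl hB i j (by omega) hj
    exact ⟨e2.symm, e4.symm⟩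
  have fαb : swp a b j (α (b j)) = α (b j) := g2 _ fun i hi => by
    obtain ⟨e1, e2, e3, e4, e5, e6, e7⟩ := big_dist hl hB i j (by omega) hj
    exact ⟨e3.symm, e5.symm⟩
  obtain ⟨e1, e2, e3, e4, e5, e6, e7⟩ := big_dist hl hB j j hj hj
  have c1 : swap (a j) (b j) * α = α * swap (α (a j)) (α (b j)) := by
    have := Equiv.mul_swap_eq_swap_mul α (α (a j)) (α (b j))
    rw [hl.inv, hl.inv] at this
    exact this.symm
  have c2 : swap (a j) (b j) * (swp a b j)⁻¹ = (swp a b j)⁻¹ * swap (a j) (b j) := by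
    have := Equiv.mul_swap_eq_swap_mul (swp a b j) (a j) (b j)
    rw [fa, fb] at this
    rw [mul_inv_eq_iff_eq_mul, mul_assoc, ← this, inv_mul_cancel_left]
  have c3 : swap (α (a j)) (α (b j)) * (swp a b j)⁻¹ =
      (swp a b j)⁻¹ * swap (α (a j)) (α (b j)) := by
    have := Equiv.mul_swap_eq_swap_mul (swp a b j) (α (a j)) (α (b j))
    rw [fαa, fαb] at this
    rw [mul_inv_eq_iff_eq_mul, mul_assoc, ← this, inv_mul_cancel_left]
  have c4 : swap (α (a j)) (α (b j)) * swap (a j) (b j) =
      swap (a j) (b j) * swap (α (a j)) (α (b j)) := by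
    have := Equiv.mul_swap_eq_swap_mul (swap (a j) (b j)) (α (a j)) (α (b j))
    rw [swap_apply_of_ne_of_ne e2.symm e4.symm, swap_apply_of_ne_of_ne e3.symm e5.symm] at this
    exact this.symm
  rw [sw, sw, swp, mul_inv_rev, Equiv.swap_inv]
  calc swp a b j * swap (a j) (b j) * α * (swap (a j) (b j) * (swp a b j)⁻¹)
      = swp a b j * (swap (a j) (b j) * α) * (swap (a j) (b j) * (swp a b j)⁻¹) := by
        simp only [mul_assoc]
    _ = swp a b j * α * (swap (α (a j)) (α (b j)) * (swp a b j)⁻¹) * swap (a j) (b j) := by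
        rw [c1, c2]
        simp only [mul_assoc]
    _ = swp a b j * α * (swp a b j)⁻¹ * (swap (α (a j)) (α (b j)) * swap (a j) (b j)) := by
        rw [c3]
        simp only [mul_assoc]
    _ = _ := by
        rw [c4]
        simp only [mul_assoc]

private theorem sw_low {f α : Perm D} {ℓ : D → ℤ} {k : ℕ} {a b : ℕ → D} (hl : Lb f α ℓ)
    (hB : Big f α ℓ k a b) {j : ℕ} (hj : j ≤ k) (d : D) (hd : ℓ d ≤ ℓ (a 0) - j - 1) :
    sw α a b j d = α d := by
  induction j with
  | zero => simp [sw, swp]
  | succ j ih =>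
    obtain ⟨l1, l2, l3, l4⟩ := big_lev hl hB j (by omega)
    push_cast at hd
    rw [sw_succ hl hB (by omega), Perm.mul_apply, Perm.mul_apply,
      swap_apply_of_ne_of_ne (a := α (a j)), swap_apply_of_ne_of_ne]
    · exact ih (by omega) (by omega)
    · intro h
      rw [h] at hd
      omega
    · intro h
      rw [h] at hd
      omega
    · intro h
      rw [h] at hd
      omega
    · intro h
      rw [h] at hd
      omega

theorem sw_cyc {f α : Perm D} {ℓ : D → ℤ} {k : ℕ} {a b : ℕ → D} (hl : Lb f α ℓ)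
    (hB : Big f α ℓ k a b) : cyc (f * sw α a b k) = cyc (f * α) + 2 := by
  have hσ : ∀ d, ℓ ((f * α) d) = ℓ d := by
    intro d
    rw [Perm.mul_apply, hl.ver, hl.inv]
  -- agreement below the level of the darts that have been exchanged
  have low : ∀ j < k, ∀ d, ℓ d ≤ ℓ (a 0) - j - 1 →
      (f * sw α a b j * swap (a j) (b j)) d = (f * α) d := by
    intro j hj d hd
    obtain ⟨l1, l2, l3, l4⟩ := big_lev hl hB j hj
    have n1 : d ≠ a j := by
      intro h
      rw [h] at hd
      omega
    have n2 : d ≠ b j := by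
      intro h
      rw [h] at hd
      omega
    rw [Perm.mul_apply, Perm.mul_apply, Perm.mul_apply, swap_apply_of_ne_of_ne n1 n2,
      sw_low hl hB (by omega) d hd]
  have same : ∀ j < k, ∀ y, (f * sw α a b j * swap (a j) (b j)).SameCycle (α (a j)) y ↔
      (f * α).SameCycle (α (a j)) y := by
    intro j hj y
    refine agree hσ (low j hj) ?_ y
    rw [(big_lev hl hB j hj).2.2.1]
  have same' : ∀ j < k, ∀ y, (f * sw α a b j * swap (a j) (b j)).SameCycle (α (b j)) y ↔
      (f * α).SameCycle (α (b j)) y := by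
    intro j hj y
    refine agree hσ (low j hj) ?_ y
    rw [(big_lev hl hB j hj).2.2.2]
  have hsucc : ∀ j < k, f * sw α a b (j + 1) =
      f * sw α a b j * swap (a j) (b j) * swap (α (a j)) (α (b j)) := by
    intro j hj
    rw [sw_succ hl hB hj]
    simp only [mul_assoc]
  have main : ∀ j < k, cyc (f * sw α a b j * swap (a j) (b j)) = cyc (f * α) + 1 := by
    intro j
    induction j with
    | zero =>
      intro _
      have h0 : sw α a b 0 = α := by simp [sw, swp]
      rw [h0]
      exact cyc_swap_same _ _ _ hB.ne hB.st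
    | succ j ih =>
      intro hj
      have h1 := ih (by omega)
      have s1 := fst_same hl.inv (hB.na j hj)
      have s2 := fst_same hl.inv (hB.nb j hj)
      have hne : ¬ (f * sw α a b j * swap (a j) (b j)).SameCycle (α (a j)) (α (b j)) := by
        rw [same j (by omega)]
        intro h
        exact hB.sep (j + 1) (by omega) hj ((s1.symm.trans h).trans s2)
      have h2 := cyc_swap_diff _ _ _ hne
      have h3 : (f * sw α a b j * swap (a j) (b j) * swap (α (a j)) (α (b j))).SameCycle
          (a (j + 1)) (b (j + 1)) := by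
        rw [zs_iff _ _ _ hne]
        right
        exact ⟨Or.inl ((same j (by omega) _).2 s1).symm, Or.inr ((same' j (by omega) _).2 s2).symm⟩
      have h4 : a (j + 1) ≠ b (j + 1) := (big_dist hl hB (j + 1) (j + 1) hj hj).1
      have h5 := cyc_swap_same _ _ _ h4 h3
      rw [hsucc j (by omega), h5]
      omega
  have hkp := hB.kp
  have h1 := main (k - 1) (by omega)
  have h2 : (f * sw α a b (k - 1) * swap (a (k - 1)) (b (k - 1))).SameCycle
      (α (a (k - 1))) (α (b (k - 1))) := (same (k - 1) (by omega) _).2 hB.en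
  have h3 := cyc_swap_same _ _ _ (big_dist hl hB (k - 1) (k - 1) (by omega) (by omega)).2.2.2.2.2.1 h2
  have h4 := hsucc (k - 1) (by omega)
  rw [Nat.sub_add_cancel hkp] at h4
  rw [h4, h3, h1]

end QL40
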