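import Mathlib
import Pool.Agent.H40.QL.Swv

/-!
[H40 QL SWG]  (MP_bcc40c_pr, Q2 lower half)  Both paths are leftmost geodesics after the surgery, too.

PROOF.  `α' = sw α a b k`, `ρ = α f⁻¹`, `ρ' = α' f⁻¹`.  Claim for `a` (the claim for `b` is symmetric): for `i + 1 < k`, `Fst f α' ℓ (α' (a i)) (a (i+1))`.  `α' (a i) = α (b i)` (sw_val).  By `nb`: `z t = ρ^t (α (b i))`, `t ≤ m`, `z m = b (i+1)`, `z t` not descending for `t < m`; `m ≥ 1` because `α (b i)` is ascending.
For `t + 1 ≤ m`: `z (t+1) = α (f⁻¹ (z t))`, so `f⁻¹ (z t) = α (z (t+1))` and `ρ' (z t) = α' (α (z (t+1)))`.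
 (1) `t + 1 < m`: `z (t+1)` is not one of the special darts `a j, b j, α (a j), α (b j)` (`j < k`): it is not descending, so not `a j, b j`.  If it is `α (a j)`: it has the level of `α (b i)` (same vertex), so `j = i`, and `α (a i)` is in the cycle of `α (b i)`, so `a (i+1)` and `b (i+1)` are in the same cycle (fst_same of `na`, `nb`), contradicting
 `sep`.  If it is `α (b j)`: `j = i`, so `z (t+1) = z 0`: then `z` is periodic with period `t + 1 < m` and all its values are not descending, but `z m` is.  So `α (z (t+1))` is not special either (the special set is closed under `α`), and `ρ' (z t) = α (α (z (t+1))) = z (t+1)`.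
 (2) `t + 1 = m`: `ρ' (z (m-1)) = α' (α (b (i+1))) = a (i+1)` (sw_val).
So `ρ'^t (α (b i)) = z t` for `t < m`, not descending, and `ρ'^m (α (b i)) = a (i+1)`, descending.
-/

set_option autoImplicit false
set_option linter.unusedSectionVars false

namespace QL40

open Equiv HG39 QD39

variable {D : Type} [Fintype D] [DecidableEq D]

private theorem one_side {f α : Perm D} {ℓ : D → ℤ} {k : ℕ} {a b : ℕ → D} (hl : Lb f α ℓ)
    (hB : Big f α ℓ k a b) (i : ℕ) (hi : i + 1 < k) :
    Fst f (sw α a b k) ℓ (sw α a b k (a i)) (a (i + 1)) := by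
  obtain ⟨v1, v2⟩ := sw_val hl hB
  obtain ⟨hd, m, hm, hmin⟩ := hB.nb i hi
  obtain ⟨l1, l2, l3, l4⟩ := big_lev hl hB i (by omega)
  rw [(v1 i (by omega)).1]
  obtain ⟨z, hz⟩ : ∃ z : ℕ → D, ∀ t, z t = ((α * f⁻¹) ^ t) (α (b i)) := ⟨_, fun _ => rfl⟩
  simp only [← hz] at hm hmin
  have hz0 : z 0 = α (b i) := by rw [hz, pow_zero, Perm.one_apply]
  have hzs : ∀ t, z (t + 1) = α (f⁻¹ (z t)) := by
    intro t
    rw [hz, hz, pow_succ']
    rfl
  have hzf : ∀ t, f⁻¹ (z t) = α (z (t + 1)) := by
    intro t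
    rw [hzs, hl.inv]
  have hsame : ∀ t, (f * α).SameCycle (α (b i)) (z t) := by
    intro t
    rw [← rho_same hl.inv]
    exact ⟨(t : ℤ), by rw [zpow_natCast, hz]⟩
  have hlev : ∀ t, ℓ (z t) = ℓ (a 0) - i - 1 := by
    intro t
    rw [← lb_same hl (hsame t), l4]
  have hm1 : 1 ≤ m := by
    rcases Nat.eq_zero_or_pos m with h0 | h0
    · exfalso
      rw [h0, hz0] at hm
      apply swv_not_desc hl (hB.db i (by omega))
      rw [hm]
      exact hd
    · exact h0
  -- the darts before the last one are not special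
  have hspec : ∀ t, t + 1 < m → ∀ j < k, z (t + 1) ≠ a j ∧ z (t + 1) ≠ b j ∧
      z (t + 1) ≠ α (a j) ∧ z (t + 1) ≠ α (b j) := by
    intro t ht j hj
    obtain ⟨j1, j2, j3, j4⟩ := big_lev hl hB j hj
    have hl1 := hlev (t + 1)
    refine ⟨fun h => ?_, fun h => ?_, fun h => ?_, fun h => ?_⟩
    · exact hmin (t + 1) ht (by rw [h]; exact hB.da j hj)
    · exact hmin (t + 1) ht (by rw [h]; exact hB.db j hj)
    · have h1 : ℓ (z (t + 1)) = ℓ (α (a j)) := by rw [h]
      have hij : j = i := by omega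
      subst hij
      have h2 := hsame (t + 1)
      rw [h] at h2
      exact hB.sep (j + 1) (by omega) hi (((fst_same hl.inv (hB.na j hi)).symm.trans h2.symm).trans
        (fst_same hl.inv (hB.nb j hi)))
    · have h1 : ℓ (z (t + 1)) = ℓ (α (b j)) := by rw [h]
      have hij : j = i := by omega
      subst hij
      -- periodicity
      have hper : ∀ q : ℕ, ∀ r : ℕ, z ((t + 1) * q + r) = z r := by
        intro q
        induction q with
        | zero =>
          intro r
          rw [mul_zero, zero_add]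
        | succ q ih =>
          intro r
          have e : (t + 1) * (q + 1) + r = (t + 1) * q + (r + (t + 1)) := by ring
          rw [e, ih, hz, pow_add, Perm.mul_apply, ← hz (t + 1), h, ← hz]
      have h2 := hper (m / (t + 1)) (m % (t + 1))
      rw [Nat.div_add_mod] at h2
      have h3 : m % (t + 1) < m := lt_trans (Nat.mod_lt _ (by omega)) ht
      apply hmin _ h3
      rw [← h2, hm]
      exact hd
  have hstep : ∀ t, t + 1 < m → sw α a b k (f⁻¹ (z t)) = z (t + 1) := by
    intro t ht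
    rw [hzf]
    rw [v2, hl.inv]
    intro j hj
    obtain ⟨s1, s2, s3, s4⟩ := hspec t ht j hj
    refine ⟨fun h => s3 ?_, fun h => s4 ?_, fun h => s1 (α.injective h), fun h => s2 (α.injective h)⟩
    · rw [← h, hl.inv]
    · rw [← h, hl.inv]
  have hpow : ∀ t, t < m → ((sw α a b k * f⁻¹) ^ t) (α (b i)) = z t := by
    intro t
    induction t with
    | zero =>
      intro _
      rw [pow_zero, Perm.one_apply, hz0]
    | succ t ih =>
      intro ht
      rw [pow_succ', Perm.mul_apply, ih (by omega), Perm.mul_apply, hstep t ht]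
  refine ⟨hB.da (i + 1) hi, m, ?_, fun j hj => ?_⟩
  · obtain ⟨m', rfl⟩ : ∃ m', m = m' + 1 := ⟨m - 1, by omega⟩
    rw [pow_succ', Perm.mul_apply, hpow m' (by omega), Perm.mul_apply, hzf, hm, (v1 (i + 1) hi).2.2.2]
  · simp only [hpow j hj]
    exact hmin j hj

private theorem swp_symm (a b : ℕ → D) (k : ℕ) : swp a b k = swp b a k := by
  induction k with
  | zero => rfl
  | succ k ih => rw [swp, swp, ih, swap_comm]

theorem sw_geo {f α : Perm D} {ℓ : D → ℤ} {k : ℕ} {a b : ℕ → D} (hl : Lb f α ℓ)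
    (hB : Big f α ℓ k a b) (i : ℕ) (hi : i + 1 < k) :
    Fst f (sw α a b k) ℓ (sw α a b k (a i)) (a (i + 1)) ∧
      Fst f (sw α a b k) ℓ (sw α a b k (b i)) (b (i + 1)) := by
  refine ⟨one_side hl hB i hi, ?_⟩
  have hB' : Big f α ℓ k b a := ⟨hB.kp, hB.db, hB.da, hB.nb, hB.na, hB.st.symm, hB.ne.symm,
    hB.en.symm, fun i h1 h2 h3 => hB.sep i h1 h2 h3.symm⟩
  have h := one_side hl hB' i hi
  have e : sw α b a k = sw α a b k := by rw [sw, sw, swp_symm]
  rwa [e] at h

end QL40
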