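import Mathlib
import Pool.Agent.H40.QL.Swg

/-!
[H40 QL SWR]  (MP_bcc40c_pr, Q2 lower half)  After the surgery there are at most two vertices without a descending dart.

PROOF.  `σ = f α`, `σ' = f α'`, `α' = sw α a b k`.  Special darts: `a i, b i, α (a i), α (b i)`, `i < k`; `σ' d = σ d` for all other darts `d` (sw_val).  `ℓ` is constant on the cycles of `σ'` (sw_lb, lb_same).  Let `w1 = α (a (k-1))`, `w2 = α (b (k-1))`, both of level `ℓ (a 0) - k`.  Say that `d` is fine if its `σ'`-cycle contains a descending dart.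
(a) If the `σ'`-cycle of `d` contains no special dart then it is the `σ`-cycle of `d` (`σ' = σ` on it), so `d` is fine, or `x0` is in the `σ`-cycle of `d`, which is the `σ'`-cycle: `SameCycle σ' d x0`.
(b) If it contains some `a i` or `b i`: fine.  (c) If it contains `α (a i)` or `α (b i)` with `i + 1 < k`: fine, because `α (b i) = α' (a i)` is in the `σ'`-cycle of `a (i+1)` (sw_geo, fst_same), and similarly for `α (a i)`.  (d) So every `d` which is not fine and not in the `σ'`-cycle of `x0` is in the `σ'`-cycle of `w1` or of `w2`.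
If `x0` is in the `σ`-cycle of `w1` (so at the level `ℓ w1`): take `x1 = w1`, `w = w2`: in case (a) the alternative `SameCycle σ' d x0` with a cycle without special darts is impossible, because this cycle would be the `σ`-cycle of `x0`, which contains `w1`.  `ℓ x1 = ℓ w1 = ℓ x0`.
Otherwise the `σ`-cycle of `w1` (it contains `w2`, by `en`) contains a descending dart `δ`.  The `σ'`-cycle of `δ` contains a special dart (otherwise it would be the `σ`-cycle, which contains `w1`), of level `ℓ w1 = ℓ (a 0) - k`; the special darts of this level are `w1` and `w2` only (big_lev: `a i, b i` have levels `≥ ℓ (a 0) - k + 1`; `α (a i)` has level `ℓ (a 0) - i - 1`).  So `w1` or `w2` is fine; take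
`x1 = x0` and for `w` the other one.
-/

set_option autoImplicit false

namespace QL40

open Equiv HG39 QD39

variable {D : Type} [Fintype D] [DecidableEq D]

private theorem rt_cyc {σ σ' : Perm D} {S : D → Prop} (hS : ∀ x, S x → σ' x = σ x) {d : D}
    (h : ∀ y, σ'.SameCycle d y → S y) {y : D} (hy : σ.SameCycle d y) : σ'.SameCycle d y := by
  have h1 : ∀ n : ℕ, (σ' ^ n) d = (σ ^ n) d := by
    intro n
    induction n with
    | zero => rfl
    | succ n ih =>
      have h2 : S ((σ' ^ n) d) := h _ ⟨(n : ℤ), by rw [zpow_natCast]⟩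
      rw [pow_succ', pow_succ', Perm.mul_apply, Perm.mul_apply, hS _ h2, ih]
  obtain ⟨n, _, hn⟩ := hy.exists_pow_eq'
  exact ⟨(n : ℤ), by rw [zpow_natCast, h1, hn]⟩

theorem sw_rt {f α : Perm D} {ℓ : D → ℤ} {k : ℕ} {a b : ℕ → D} (hl : Lb f α ℓ)
    (hB : Big f α ℓ k a b) (x0 : D) (hr : Rt f α ℓ x0 x0) :
    ∃ x1 w : D, ℓ x1 = ℓ x0 ∧ ℓ w = ℓ (a 0) - k ∧ Rt f (sw α a b k) ℓ x1 w := by
  have hi := hl.inv
  have hi' : ∀ d, sw α a b k (sw α a b k d) = d := sw_inv hi a b k
  obtain ⟨hv, hv'⟩ := sw_val hl hB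
  have hl' := sw_lb hl hB
  have hk := hB.kp
  obtain ⟨_, _, lw1, lw2⟩ := big_lev hl hB (k - 1) (by omega)
  have hkc : ((k - 1 : ℕ) : ℤ) = (k : ℤ) - 1 := by omega
  rw [hkc] at lw1 lw2
  have hS : ∀ x : D, (∀ i < k, x ≠ a i ∧ x ≠ b i ∧ x ≠ α (a i) ∧ x ≠ α (b i)) →
      (f * sw α a b k) x = (f * α) x := by
    intro x hx
    rw [Perm.mul_apply, Perm.mul_apply, hv' x hx]
  have claim : ∀ d : D, (∃ d', (f * sw α a b k).SameCycle d d' ∧ Desc f ℓ d') ∨
      (f * sw α a b k).SameCycle d (α (a (k - 1))) ∨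
      (f * sw α a b k).SameCycle d (α (b (k - 1))) ∨
      ((f * sw α a b k).SameCycle d x0 ∧ ∀ y, (f * sw α a b k).SameCycle d y →
        ∀ i < k, y ≠ a i ∧ y ≠ b i ∧ y ≠ α (a i) ∧ y ≠ α (b i)) := by
    intro d
    by_cases hns : ∀ y, (f * sw α a b k).SameCycle d y →
        ∀ i < k, y ≠ a i ∧ y ≠ b i ∧ y ≠ α (a i) ∧ y ≠ α (b i)
    · rcases hr d with h | h | ⟨d', h, hd'⟩
      · exact Or.inr (Or.inr (Or.inr ⟨rt_cyc hS hns h, hns⟩))
      · exact Or.inr (Or.inr (Or.inr ⟨rt_cyc hS hns h, hns⟩))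
      · exact Or.inl ⟨d', rt_cyc hS hns h, hd'⟩
    · push Not at hns
      obtain ⟨y, hy, i, hik, h2⟩ := hns
      by_cases e1 : y = a i
      · exact Or.inl ⟨a i, e1 ▸ hy, hB.da i hik⟩
      by_cases e2 : y = b i
      · exact Or.inl ⟨b i, e2 ▸ hy, hB.db i hik⟩
      by_cases e3 : y = α (a i)
      · by_cases hik' : i + 1 < k
        · have h3 := fst_same hi' (sw_geo hl hB i hik').2
          rw [(hv i hik).2.1] at h3
          exact Or.inl ⟨b (i + 1), (e3 ▸ hy).trans h3, hB.db _ hik'⟩
        · have e : i = k - 1 := by omega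
          subst e
          exact Or.inr (Or.inl (e3 ▸ hy))
      · have e4 := h2 e1 e2 e3
        by_cases hik' : i + 1 < k
        · have h3 := fst_same hi' (sw_geo hl hB i hik').1
          rw [(hv i hik).1] at h3
          exact Or.inl ⟨a (i + 1), (e4 ▸ hy).trans h3, hB.da _ hik'⟩
        · have e : i = k - 1 := by omega
          subst e
          exact Or.inr (Or.inr (Or.inl (e4 ▸ hy)))
  by_cases hx0 : (f * α).SameCycle (α (a (k - 1))) x0
  · refine ⟨α (a (k - 1)), α (b (k - 1)), lb_same hl hx0, by rw [lw2]; ring, fun d => ?_⟩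
    rcases claim d with h | h | h | ⟨h, hns⟩
    · exact Or.inr (Or.inr h)
    · exact Or.inl h
    · exact Or.inr (Or.inl h)
    · exfalso
      have h3 : (f * sw α a b k).SameCycle x0 (α (a (k - 1))) :=
        rt_cyc hS (fun y hy => hns y (h.trans hy)) hx0.symm
      exact (hns _ (h.trans h3) (k - 1) (by omega)).2.2.1 rfl
  · have hδ : ∃ δ, (f * α).SameCycle (α (a (k - 1))) δ ∧ Desc f ℓ δ := by
      rcases hr (α (a (k - 1))) with h | h | h
      · exact absurd h hx0
      · exact absurd h hx0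
      · exact h
    obtain ⟨δ, hδ1, hδ2⟩ := hδ
    have hsp : ¬ ∀ y, (f * sw α a b k).SameCycle δ y →
        ∀ i < k, y ≠ a i ∧ y ≠ b i ∧ y ≠ α (a i) ∧ y ≠ α (b i) := by
      intro hns
      have h3 := rt_cyc hS hns hδ1.symm
      exact (hns _ h3 (k - 1) (by omega)).2.2.1 rfl
    push Not at hsp
    obtain ⟨y, hy, i, hik, h2⟩ := hsp
    have hyl : ℓ y = ℓ (a 0) - k := by
      rw [← lb_same hl' hy, ← lb_same hl hδ1, lw1]
      ring
    obtain ⟨m1, m2, m3, m4⟩ := big_lev hl hB i hik
    have hfine : (f * sw α a b k).SameCycle (α (a (k - 1))) δ ∨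
        (f * sw α a b k).SameCycle (α (b (k - 1))) δ := by
      by_cases e1 : y = a i
      · rw [e1] at hyl
        omega
      by_cases e2 : y = b i
      · rw [e2] at hyl
        omega
      by_cases e3 : y = α (a i)
      · have e : i = k - 1 := by
          rw [e3] at hyl
          omega
        subst e
        exact Or.inl (e3 ▸ hy.symm)
      · have e4 := h2 e1 e2 e3
        have e : i = k - 1 := by
          rw [e4] at hyl
          omega
        subst e
        exact Or.inr (e4 ▸ hy.symm)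
    rcases hfine with hf1 | hf1
    · refine ⟨x0, α (b (k - 1)), rfl, by rw [lw2]; ring, fun d => ?_⟩
      rcases claim d with h | h | h | ⟨h, _⟩
      · exact Or.inr (Or.inr h)
      · exact Or.inr (Or.inr ⟨δ, h.trans hf1, hδ2⟩)
      · exact Or.inr (Or.inl h)
      · exact Or.inl h
    · refine ⟨x0, α (a (k - 1)), rfl, by rw [lw1]; ring, fun d => ?_⟩
      rcases claim d with h | h | h | ⟨h, _⟩
      · exact Or.inr (Or.inr h)
      · exact Or.inr (Or.inl h)
      · exact Or.inr (Or.inr ⟨δ, h.trans hf1, hδ2⟩)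
      · exact Or.inl h

end QL40
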