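import Mathlib
import Pool.Agent.H40.QL.Swc
import Pool.Agent.H40.QL.Swg
import Pool.Agent.H40.QL.Swr
import Pool.Agent.H40.QL.Luni

/-!
[H40 QL CNT2]  (MP_bcc40c_pr, Q2 lower half)  Bigons with a connected surgery are rare.

PROOF.  Common part: for `k ≤ R` let `B k` be the set of the `p = (α, x) ∈ Bad2 f v R S` for which a bigon of length `k` as in the definition exists (`k ≤ R`: `ℓ (a 0) ≤ R` and `ℓ (a (k-1)) = ℓ (a 0) - (k-1)` descends to a level `≥ 0`); choose `a, b`.  Map `J k p = (sw α a b k, dlab f α x, a 0, b 0)`.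
(1) `(sw α a b k, dlab f α x) ∈ Yst f (v + 2) R S`: TS: the hypothesis `PT f (sw α a b k) []` and sw_cyc; Lb: sw_lb (dlab_lab, lb_of_lab); `0 ≤` clear; roots: `Rt f α (dlab f α x) x x`: by Lab.dsc and Lab.zro (a dart of level 0 is in the cycle of `x`, `dlab x x = 0` by dst_self); sw_rt gives `x1, w` with `ℓ x1 = ℓ x = 0`, `ℓ w = ℓ (a 0) - k ≤ R`.  Cardinality: the same function.  `a 0`, `b
0` have levels `≤ R` (big_lev).
(2) `J k` is injective on `B k`: from the four components we know `α' = sw α a b k`, `ℓ`, `a 0`, `b 0`.  By sw_geo and fst_unique, `a (i+1)` is the unique `δ` with `Fst f α' ℓ (α' (a i)) δ`, for `i + 1 < k`; so `a i, b i` (`i < k`) are determined (induction), swp_congr, and `α` by sw_back.  `x`: `ℓ = dlab f α x = dlab f α x'` gives `dst f α x x' = ℓ x' = 0`, so `x, x'`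
are in the same cycle (Lab.zro of dlab_lab) and `x = rep x = rep x' = x'` (rep depends only on the cycle: Quotient.sound).
(3) For each `(α', ℓ) ∈ Yst` there are at most `S^2` pairs of darts of level `≤ R`.  So `(B k).ncard ≤ Yst.ncard * S^2`, and `Bad2 = ⋃_{1 ≤ k ≤ R} B k`; sum over `k`.
cnt2f: the same with `a 0 = a0`, `b 0 = b0`: for each `k` the map `p ↦ (sw α a b k, dlab f α x)` is injective into `{q ∈ Yst | q.2 a0 ≤ R, q.2 b0 ≤ R}`.
-/

set_option autoImplicit false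

namespace QL40

open Equiv HG39 QD39

variable {D : Type} [Fintype D] [DecidableEq D]

private theorem cnt2_mem {f : Perm D} (hf : TF f) {v R S k : ℕ} {α : Perm D} {x : D} {a b : ℕ → D}
    (h1 : α ∈ TS f v) (h3 : (Finset.univ.filter fun d => dlab f α x d ≤ (R : ℤ)).card ≤ S)
    (hB : Big f α (dlab f α x) k a b) (hR : dlab f α x (a 0) ≤ R) (hP : PT f (sw α a b k) []) :
    (sw α a b k, dlab f α x) ∈ Yst f (v + 2) R S ∧ 1 ≤ k ∧ k ≤ R ∧ dlab f α x (b 0) ≤ R := by
  have hα : PT f α [] := h1.1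
  have hlab := dlab_lab hf hα x
  have hl := lb_of_lab hα hlab
  have hnn : ∀ d, 0 ≤ dlab f α x d := fun d => Int.natCast_nonneg _
  have hx0 : dlab f α x x = 0 := by
    rw [dlab, dst_self f α x x (Equiv.Perm.SameCycle.refl _ _)]
    rfl
  have hr : Rt f α (dlab f α x) x x := by
    intro d
    rcases (hnn d).eq_or_lt with h | h
    · left
      exact hlab.zro d x (hl.fpf d) (hl.fpf x) h.symm hx0
    · right; right
      obtain ⟨d', e1, -, e3⟩ := hlab.dsc d (hl.fpf d) h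
      exact ⟨d', e1, e3⟩
  obtain ⟨x1, w, g1, g2, g3⟩ := sw_rt hl hB x hr
  have hk := hB.kp
  obtain ⟨-, -, l3, -⟩ := big_lev hl hB (k - 1) (by omega)
  obtain ⟨-, m2, -, -⟩ := big_lev hl hB 0 (by omega)
  have h5 := hnn (α (a (k - 1)))
  have hkc : ((k - 1 : ℕ) : ℤ) = (k : ℤ) - 1 := by omega
  rw [hkc] at l3
  refine ⟨⟨⟨hP, ?_⟩, sw_lb hl hB, hnn, ⟨x1, w, ?_, ?_, g3⟩, h3⟩, hk, ?_, ?_⟩
  · change cyc (f * sw α a b k) = v + 2
    rw [sw_cyc hl hB, h1.2]
  · change dlab f α x x1 = 0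
    rw [g1, hx0]
  · change dlab f α x w ≤ R
    rw [g2]
    omega
  · omega
  · simp only [Nat.cast_zero, sub_zero] at m2
    rw [m2]
    exact hR

private theorem cnt2_inj {f : Perm D} (hf : TF f) {k : ℕ} {α α' : Perm D} {x x' : D}
    {a b a' b' : ℕ → D} (hα : PT f α []) (hα' : PT f α' []) (hx : rep f α x = x)
    (hx' : rep f α' x' = x') (hB : Big f α (dlab f α x) k a b)
    (hB' : Big f α' (dlab f α' x') k a' b') (e1 : sw α a b k = sw α' a' b' k)
    (e2 : dlab f α x = dlab f α' x') (e3 : a 0 = a' 0) (e4 : b 0 = b' 0) : α = α' ∧ x = x' := by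
  have hlab := dlab_lab hf hα x
  have hl := lb_of_lab hα hlab
  have hlab' := dlab_lab hf hα' x'
  have hl' := lb_of_lab hα' hlab'
  have key : ∀ i < k, a i = a' i ∧ b i = b' i := by
    intro i
    induction i with
    | zero => exact fun _ => ⟨e3, e4⟩
    | succ i ih =>
      intro hi
      obtain ⟨i1, i2⟩ := ih (by omega)
      obtain ⟨f1, f2⟩ := sw_geo hl hB i hi
      obtain ⟨f3, f4⟩ := sw_geo hl' hB' i hi
      rw [← e1, ← e2, ← i1] at f3
      rw [← e1, ← e2, ← i2] at f4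
      exact ⟨fst_unique f1 f3, fst_unique f2 f4⟩
  have hαα : α = α' := by
    rw [sw_back α a b k, sw_back α' a' b' k, swp_congr key, e1]
  subst hαα
  refine ⟨rfl, ?_⟩
  have h0 : dlab f α x x = 0 := by
    rw [dlab, dst_self f α x x (Equiv.Perm.SameCycle.refl _ _)]
    rfl
  have h0' : dlab f α x x' = 0 := by
    rw [e2, dlab, dst_self f α x' x' (Equiv.Perm.SameCycle.refl _ _)]
    rfl
  have h1 := hlab.zro x x' (hl.fpf x) (hl.fpf x') h0 h0'
  have h2 : rep f α x = rep f α x' := by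
    unfold rep
    rw [show Quotient.mk (Equiv.Perm.SameCycle.setoid (f * α)) x =
      Quotient.mk (Equiv.Perm.SameCycle.setoid (f * α)) x' from Quotient.sound h1]
  rw [← hx, ← hx', h2]

/-- the part of the bad set with bigons of length `k` -/
private def cnt2B (f : Perm D) (v R S k : ℕ) (P : D → D → Prop) : Set (Perm D × D) :=
  {p | p.1 ∈ TS f v ∧ rep f p.1 p.2 = p.2 ∧
    (Finset.univ.filter fun d => dlab f p.1 p.2 d ≤ (R : ℤ)).card ≤ S ∧
    ∃ (a b : ℕ → D), Big f p.1 (dlab f p.1 p.2) k a b ∧ dlab f p.1 p.2 (a 0) ≤ R ∧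
      P (a 0) (b 0) ∧ PT f (sw p.1 a b k) []}

private theorem cnt2_sum (f : Perm D) (v R S : ℕ) (P : D → D → Prop) (N : ℕ)
    (X : Set (Perm D × D)) (hX : X ⊆ ⋃ k ∈ Finset.Icc 1 R, cnt2B f v R S k P)
    (hN : ∀ k ∈ Finset.Icc 1 R, (cnt2B f v R S k P).ncard ≤ N) : X.ncard ≤ N * R := by
  classical
  have h1 : X.ncard ≤ (⋃ k ∈ Finset.Icc 1 R, cnt2B f v R S k P).ncard :=
    Set.ncard_le_ncard hX (Set.toFinite _)
  have h2 : (⋃ k ∈ Finset.Icc 1 R, cnt2B f v R S k P).ncard ≤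
      ∑ k ∈ Finset.Icc 1 R, (cnt2B f v R S k P).ncard := by
    generalize Finset.Icc 1 R = s
    induction s using Finset.induction_on with
    | empty => simp
    | insert k s hk ih =>
      rw [Finset.set_biUnion_insert, Finset.sum_insert hk]
      exact (Set.ncard_union_le _ _).trans (Nat.add_le_add_left ih _)
  have h3 : ∑ k ∈ Finset.Icc 1 R, (cnt2B f v R S k P).ncard ≤ R * N := by
    have := Finset.sum_le_card_nsmul (Finset.Icc 1 R) (fun k => (cnt2B f v R S k P).ncard) N hN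
    simpa using this
  calc X.ncard ≤ R * N := h1.trans (h2.trans h3)
    _ = N * R := mul_comm _ _

theorem cnt2 {f : Perm D} (hf : TF f) (v R S : ℕ) :
    (Bad2 f v R S).ncard ≤ (Yst f (v + 2) R S).ncard * S ^ 2 * R := by
  classical
  refine cnt2_sum f v R S (fun _ _ => True) _ _ ?_ ?_
  · rintro p ⟨h1, h2, h3, k, a, b, h4, h5, h6⟩
    obtain ⟨-, g2, g3, -⟩ := cnt2_mem hf h1 h3 h4 h5 h6
    simp only [Set.mem_iUnion]
    exact ⟨k, Finset.mem_Icc.2 ⟨g2, g3⟩, h1, h2, h3, a, b, h4, h5, trivial, h6⟩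
  · intro k _
    rcases isEmpty_or_nonempty D with hD | hD
    · have : cnt2B f v R S k (fun _ _ => True) = ∅ := by
        ext p
        simp only [Set.mem_empty_iff_false, iff_false]
        intro _
        exact hD.false p.2
      rw [this, Set.ncard_empty]
      exact Nat.zero_le _
    have hfin : (Yst f (v + 2) R S).Finite := (yst_card f (v + 2) R S).1
    have hex : ∀ p ∈ cnt2B f v R S k (fun _ _ => True), ∃ (a b : ℕ → D),
        Big f p.1 (dlab f p.1 p.2) k a b ∧ dlab f p.1 p.2 (a 0) ≤ R ∧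
        True ∧ PT f (sw p.1 a b k) [] := fun p hp => hp.2.2.2
    choose! a b hab using hex
    let T : Finset ((Perm D × (D → ℤ)) × D × D) :=
      (hfin.toFinset ×ˢ ((Finset.univ : Finset D) ×ˢ (Finset.univ : Finset D))).filter
        fun t => t.1.2 t.2.1 ≤ (R : ℤ) ∧ t.1.2 t.2.2 ≤ (R : ℤ)
    have hT : T.card ≤ (Yst f (v + 2) R S).ncard * S ^ 2 := by
      have e1 : T.card = ∑ q ∈ hfin.toFinset,
          (((Finset.univ : Finset D) ×ˢ (Finset.univ : Finset D)).filter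
            fun t => q.2 t.1 ≤ (R : ℤ) ∧ q.2 t.2 ≤ (R : ℤ)).card := by
        simp only [T]
        rw [Finset.card_filter, Finset.sum_product]
        refine Finset.sum_congr rfl fun q _ => ?_
        rw [Finset.card_filter]
      have e2 : ∀ q ∈ hfin.toFinset,
          (((Finset.univ : Finset D) ×ˢ (Finset.univ : Finset D)).filter
            fun t => q.2 t.1 ≤ (R : ℤ) ∧ q.2 t.2 ≤ (R : ℤ)).card ≤ S ^ 2 := by
        intro q hq
        have hq' : q ∈ Yst f (v + 2) R S := (Set.Finite.mem_toFinset hfin).1 hq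
        rw [Finset.filter_product (fun d => q.2 d ≤ (R : ℤ)) (fun d => q.2 d ≤ (R : ℤ)),
          Finset.card_product, sq]
        exact Nat.mul_le_mul hq'.2.2.2.2 hq'.2.2.2.2
      rw [e1]
      refine (Finset.sum_le_card_nsmul _ _ _ e2).trans ?_
      rw [smul_eq_mul, ← Set.ncard_eq_toFinset_card _ hfin]
    have hle : (cnt2B f v R S k (fun _ _ => True)).ncard ≤
        (T : Set ((Perm D × (D → ℤ)) × D × D)).ncard := by
      refine Set.ncard_le_ncard_of_injOn
        (fun p => ((sw p.1 (a p) (b p) k, dlab f p.1 p.2), a p 0, b p 0)) ?_ ?_ (Finset.finite_toSet T)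
      · intro p hp
        obtain ⟨g1, g2, -, g3⟩ := hab p hp
        obtain ⟨h1, -, -, h4⟩ := cnt2_mem hf hp.1 hp.2.2.1 g1 g2 g3
        simp only [T, Finset.coe_filter, Finset.mem_product, Set.Finite.mem_toFinset,
          Finset.mem_univ, and_true, Set.mem_setOf_eq]
        exact ⟨h1, g2, h4⟩
      · intro p hp p' hp' he
        simp only [Prod.mk.injEq] at he
        obtain ⟨⟨e1, e2⟩, e3, e4⟩ := he
        obtain ⟨g1, g2, -, g3⟩ := hab p hp
        obtain ⟨g1', g2', -, g3'⟩ := hab p' hp'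
        obtain ⟨r1, r2⟩ := cnt2_inj hf hp.1.1 hp'.1.1 hp.2.1 hp'.2.1 g1 g1' e1 e2 e3 e4
        exact Prod.ext r1 r2
    rw [Set.ncard_coe_finset] at hle
    exact hle.trans hT

theorem cnt2f {f : Perm D} (hf : TF f) (v R S : ℕ) (a0 b0 : D) :
    (Bad2f f v R S a0 b0).ncard ≤
      {q | q ∈ Yst f (v + 2) R S ∧ q.2 a0 ≤ R ∧ q.2 b0 ≤ R}.ncard * R := by
  classical
  refine cnt2_sum f v R S (fun x y => x = a0 ∧ y = b0) _ _ ?_ ?_
  · rintro p ⟨h1, h2, h3, k, a, b, h4, h5, h6, h7, h8⟩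
    obtain ⟨-, g2, g3, -⟩ := cnt2_mem hf h1 h3 h4 h5 h8
    simp only [Set.mem_iUnion]
    exact ⟨k, Finset.mem_Icc.2 ⟨g2, g3⟩, h1, h2, h3, a, b, h4, h5, ⟨h6, h7⟩, h8⟩
  · intro k _
    have : Nonempty D := ⟨a0⟩
    have hfin : (Yst f (v + 2) R S).Finite := (yst_card f (v + 2) R S).1
    have hex : ∀ p ∈ cnt2B f v R S k (fun x y => x = a0 ∧ y = b0), ∃ (a b : ℕ → D),
        Big f p.1 (dlab f p.1 p.2) k a b ∧ dlab f p.1 p.2 (a 0) ≤ R ∧
        (a 0 = a0 ∧ b 0 = b0) ∧ PT f (sw p.1 a b k) [] := fun p hp => hp.2.2.2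
    choose! a b hab using hex
    refine Set.ncard_le_ncard_of_injOn
      (fun p => (sw p.1 (a p) (b p) k, dlab f p.1 p.2)) ?_ ?_
      (hfin.subset fun q hq => hq.1)
    · intro p hp
      obtain ⟨g1, g2, g4, g3⟩ := hab p hp
      obtain ⟨h1, -, -, h4⟩ := cnt2_mem hf hp.1 hp.2.2.1 g1 g2 g3
      rw [g4.1] at g2
      rw [g4.2] at h4
      exact ⟨h1, g2, h4⟩
    · intro p hp p' hp' he
      simp only [Prod.mk.injEq] at he
      obtain ⟨e1, e2⟩ := he
      obtain ⟨g1, g2, g4, g3⟩ := hab p hp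
      obtain ⟨g1', g2', g4', g3'⟩ := hab p' hp'
      obtain ⟨r1, r2⟩ := cnt2_inj hf hp.1.1 hp'.1.1 hp.2.1 hp'.2.1 g1 g1' e1 e2
        (g4.1.trans g4'.1.symm) (g4.2.trans g4'.2.symm)
      exact Prod.ext r1 r2

end QL40
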