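import Mathlib
import Pool.Agent.H40.QL.DigL

/-!
[H40 QL DIGB]  (MP_bcc40c_pr, Q2 lower half)  A triangular loop becomes a bigon after the insertion of a digon.

PROOF of big1_big.  `ca a 0 = inr 5`, `ca a (i+1) = inl (a i)`, `cb b 0 = inr 2`, `cb b (i+1) = inl (b i)`, length `k + 1`, labels `ℓ⁺ = lp α ℓ y`.
da, db: `f⁺ (inr 5) = inr 3` has the label `ℓ y`, `ℓ⁺ (inr 5) = ℓ y + 1` (`ℓ (α y) = ℓ (f y) = ℓ y`); `f⁺ (inr 2) = inr 0`.  na: `α⁺ (inr 5) = inr 1`, ap_fst1 with `fa`; for `i ≥ 1`: `α⁺ (inl (a (i-1))) = inl (α (a (i-1)))` (`a (i-1)` is descending, `y` and `α y` are level, so it is neither), ap_fst.  nb: `α⁺ (inr 2) = inr 4`, ap_fst4 with `fb`.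
st: ap_sig (`inr 2 ↔ inr 5`).  ne clear.  en: `k = 0`: `α⁺ (inr 5) = inr 1` is in the cycle of `inl y`, `α⁺ (inr 2) = inr 4` in the one of `inl (α y)`, and `y, α y` are in the same cycle (en0, ap_same).  `k ≥ 1`: ap_same and `en`.  sep: `i = 1`: `a 0` is in the cycle of `y`, `b 0` in the one of `α y` (fst_same), sp0, ap_same; `i ≥ 2`: `sep`.
coc_ap: `c⁺ (inl d) = c d`, `c⁺ (inr 0) = c⁺ (inr 1) = c⁺ (inr 3) = c⁺ (inr 5) = c y`, `c⁺ (inr 2) = c⁺ (inr 4) = 0`.  Sum: `c⁺ (inr 5) + c⁺ (inr 2) = c y` and the rest is the sum for `a, b` (Finset.sum_range_succ').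
bad1_le: for `(α, x) ∈ Bad1 f v R S` with `y, k, a, b` chosen: map to `(ap α y, rep (fp f) (ap α y) (inl x))`.  It is in `Bad2f (fp f) (v+1) (R+1) (S+6) (inr 5) (inr 2)`: TS: ap_PT, ap_cyc; `rep (rep z) = rep z`; `dlab` from `rep (inl x)` is `dlab` from `inl x` (dst_comm, dst_congr; `rep z` is in the cycle of `z`), which is `lp α (dlab f α x) y` by ap_dl; the darts with label `≤
R + 1`: at most `S` in `D` and 6 others; `ℓ⁺ (inr 5) = ℓ y + 1 ≤ R + 1`; big1_big.  Injective: ap_inj gives `α, y`; `rep (inl x) = rep (inl x')` gives SameCycle of `inl x, inl x'`, so of `x, x'` (ap_same), so `x = rep x = rep x' = x'`.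
-/

set_option autoImplicit false

namespace QL40

open Equiv HG39 QD39

variable {D : Type} [Fintype D] [DecidableEq D]

private theorem db_step (π : Perm (D ⊕ Fin 6)) {a b : D ⊕ Fin 6} (h : π a = b) :
    π.SameCycle a b := ⟨1, by rw [zpow_one, h]⟩

private theorem db_leg {f α : Perm D} (hα : PT f α []) (d : D) : α d ≠ d := by
  intro h
  have h1 := (hα.leg d).1 h
  simp [tri] at h1

theorem big1_big {f α : Perm D} {ℓ : D → ℤ} (hf : TF f) (hα : PT f α []) (hl : Lab f α ℓ)
    {y : D} {k : ℕ} {a b : ℕ → D} (hB : Big1 f α ℓ y k a b) :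
    Big (fp f) (ap α y) (lp α ℓ y) (k + 1) (ca a) (cb b) := by
  have hn : ∀ d, α d ≠ d := db_leg hα
  have hi := hα.inv
  obtain ⟨v1, v2, v3, v4, v5, v6, v7, v8, v9⟩ := ap_val hi hn y
  obtain ⟨s1, s2, s3, s4, s5, s6, s7, s8, s9⟩ := ap_sig (f := f) hi hn y
  have hay : ℓ (α y) = ℓ y := by rw [← hl.ver y (hn y), hB.lev]
  have hfa : ℓ (f (α y)) = ℓ (α y) := by rw [hl.ver _ (hn _), hi, hay]
  have hny : ∀ d, Desc f ℓ d → d ≠ y := by
    intro d hd h
    subst h
    have h1 : ℓ (f d) = ℓ d - 1 := hd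
    rw [hB.lev] at h1
    omega
  have hnay : ∀ d, Desc f ℓ d → d ≠ α y := by
    intro d hd h
    subst h
    have h1 : ℓ (f (α y)) = ℓ (α y) - 1 := hd
    rw [hfa] at h1
    omega
  have hval : ∀ d, Desc f ℓ d → ap α y (Sum.inl d) = Sum.inl (α d) := fun d hd =>
    v9 d (hny d hd) (hnay d hd)
  refine ⟨by omega, ?_, ?_, ?_, ?_, ?_, ?_, ?_, ?_⟩
  · intro i hi1
    cases i with
    | zero =>
      show ℓ y = min (ℓ y) (ℓ (α y)) + 1 - 1
      rw [hay, min_self]
      ring
    | succ i => exact hB.da i (by omega)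
  · intro i hi1
    cases i with
    | zero =>
      show ℓ (α y) = min (ℓ y) (ℓ (α y)) + 1 - 1
      rw [hay, min_self]
      ring
    | succ i => exact hB.db i (by omega)
  · intro i hi1
    cases i with
    | zero =>
      show Fst (fp f) (ap α y) (lp α ℓ y) (ap α y (Sum.inr 5)) (Sum.inl (a 0))
      rw [v6]
      exact ap_fst1 hf hα hl hB.lev (hB.fa (by omega))
    | succ i =>
      show Fst (fp f) (ap α y) (lp α ℓ y) (ap α y (Sum.inl (a i))) (Sum.inl (a (i + 1)))
      rw [hval _ (hB.da i (by omega))]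
      exact ap_fst hf hα hl hB.lev (hB.na i (by omega))
  · intro i hi1
    cases i with
    | zero =>
      show Fst (fp f) (ap α y) (lp α ℓ y) (ap α y (Sum.inr 2)) (Sum.inl (b 0))
      rw [v7]
      exact ap_fst4 hf hα hl hB.lev (hB.fb (by omega))
    | succ i =>
      show Fst (fp f) (ap α y) (lp α ℓ y) (ap α y (Sum.inl (b i))) (Sum.inl (b (i + 1)))
      rw [hval _ (hB.db i (by omega))]
      exact ap_fst hf hα hl hB.lev (hB.nb i (by omega))
  · exact db_step _ s8
  · show (Sum.inr 5 : D ⊕ Fin 6) ≠ Sum.inr 2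
    intro h
    have h1 : (5 : Fin 6) = 2 := Sum.inr.inj h
    exact absurd h1 (by decide)
  · cases k with
    | zero =>
      show (fp f * ap α y).SameCycle (ap α y (Sum.inr 5)) (ap α y (Sum.inr 2))
      rw [v6, v7]
      exact ((db_step _ s1).symm.trans ((ap_same hi hn y _ _).2 (hB.en0 rfl))).trans
        (db_step _ s4)
    | succ k =>
      show (fp f * ap α y).SameCycle (ap α y (Sum.inl (a k))) (ap α y (Sum.inl (b k)))
      rw [hval _ (hB.da k (by omega)), hval _ (hB.db k (by omega)), ap_same hi hn]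
      exact hB.en (by omega)
  · intro i hi0 hi1
    cases i with
    | zero => omega
    | succ i =>
      show ¬ (fp f * ap α y).SameCycle (Sum.inl (a i)) (Sum.inl (b i))
      rw [ap_same hi hn]
      cases i with
      | zero =>
        intro h
        exact hB.sp0 (by omega) (((fst_same hi (hB.fa (by omega))).trans h).trans
          (fst_same hi (hB.fb (by omega))).symm)
      | succ i => exact hB.sep (i + 1) (by omega) (by omega)

theorem coc_ap {f α : Perm D} (hf : TF f) (hα : PT f α []) {c : D → ZMod 2} (hc : Coc f α c)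
    (y : D) :
    ∃ c' : D ⊕ Fin 6 → ZMod 2, Coc (fp f) (ap α y) c' ∧ ∀ (k : ℕ) (a b : ℕ → D),
      (∑ i ∈ Finset.range (k + 1), (c' (ca a i) + c' (cb b i))) =
        c y + ∑ i ∈ Finset.range k, (c (a i) + c (b i)) := by
  have hn : ∀ d, α d ≠ d := db_leg hα
  have hi := hα.inv
  obtain ⟨v1, v2, v3, v4, v5, v6, v7, v8, v9⟩ := ap_val hi hn y
  have h2 : ∀ t : ZMod 2, t + t = 0 := by decide
  let c' : D ⊕ Fin 6 → ZMod 2 := Sum.elim c ![c y, c y, 0, c y, 0, c y]
  refine ⟨c', ⟨?_, ?_⟩, ?_⟩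
  · rintro (d | i)
    · by_cases h1 : d = y
      · subst h1
        rw [v1]
        rfl
      · by_cases h3 : d = α y
        · subst h3
          rw [v3]
          exact (hc.ca y).symm
        · rw [v9 d h1 h3]
          exact hc.ca d
    · fin_cases i
      · show c' (ap α y (Sum.inr 0)) = c' (Sum.inr 0)
        rw [v2]
        rfl
      · show c' (ap α y (Sum.inr 1)) = c' (Sum.inr 1)
        rw [v5]
        rfl
      · show c' (ap α y (Sum.inr 2)) = c' (Sum.inr 2)
        rw [v7]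
        rfl
      · show c' (ap α y (Sum.inr 3)) = c' (Sum.inr 3)
        rw [v4]
        exact hc.ca y
      · show c' (ap α y (Sum.inr 4)) = c' (Sum.inr 4)
        rw [v8]
        rfl
      · show c' (ap α y (Sum.inr 5)) = c' (Sum.inr 5)
        rw [v6]
        rfl
  · rintro (d | i)
    · exact hc.cf d
    · fin_cases i
      · show c y + c y + 0 = 0
        rw [h2, zero_add]
      · show c y + 0 + c y = 0
        rw [add_zero, h2]
      · show 0 + c y + c y = 0
        rw [zero_add, h2]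
      · show c y + 0 + c y = 0
        rw [add_zero, h2]
      · show 0 + c y + c y = 0
        rw [zero_add, h2]
      · show c y + c y + 0 = 0
        rw [h2, zero_add]
  · intro k a b
    rw [Finset.sum_range_succ']
    show (∑ i ∈ Finset.range k, (c (a i) + c (b i))) + (c y + 0) = _
    rw [add_zero, add_comm]

private theorem db_rep (f : Perm (D ⊕ Fin 6)) (β : Perm (D ⊕ Fin 6)) (z : D ⊕ Fin 6) :
    (f * β).SameCycle (rep f β z) z :=
  Quotient.mk_out (s := Equiv.Perm.SameCycle.setoid (f * β)) z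

theorem bad1_le {f : Perm D} (hf : TF f) (v R S : ℕ) :
    (Bad1 f v R S).ncard ≤
      (Bad2f (fp f) (v + 1) (R + 1) (S + 6) (Sum.inr 5) (Sum.inr 2)).ncard := by
  classical
  have H : ∀ p ∈ Bad1 f v R S, ∃ q : Perm (D ⊕ Fin 6) × (D ⊕ Fin 6),
      q ∈ Bad2f (fp f) (v + 1) (R + 1) (S + 6) (Sum.inr 5) (Sum.inr 2) ∧
      ∃ y, q.1 = ap p.1 y ∧ q.2 = rep (fp f) q.1 (Sum.inl p.2) := by
    rintro ⟨α, x⟩ ⟨hTS, hrep, hcard, y, k, a, b, hB, hy, hPT⟩
    have hα : PT f α [] := hTS.1
    have hn : ∀ d, α d ≠ d := db_leg hα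
    have hi := hα.inv
    have hl : Lab f α (dlab f α x) := dlab_lab hf hα x
    have hrr : rep (fp f) (ap α y) (rep (fp f) (ap α y) (Sum.inl x)) =
        rep (fp f) (ap α y) (Sum.inl x) := by
      have h1 := db_rep (fp f) (ap α y) (Sum.inl x)
      unfold rep at h1 ⊢
      exact congrArg Quotient.out (Quotient.sound h1)
    have hd : dlab (fp f) (ap α y) (rep (fp f) (ap α y) (Sum.inl x)) =
        lp α (dlab f α x) y := by
      rw [← ap_dl hf hα x y]
      funext d
      unfold dlab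
      rw [dst_comm, dst_congr (fp f) (ap α y) d _ _ (db_rep (fp f) (ap α y) (Sum.inl x)),
        dst_comm]
    refine ⟨(ap α y, rep (fp f) (ap α y) (Sum.inl x)), ⟨⟨ap_PT hf hα y, ?_⟩, hrr, ?_,
      k + 1, ca a, cb b, ?_, ?_, rfl, rfl, hPT⟩, y, rfl, rfl⟩
    · rw [ap_cyc hf hi hn y, hTS.2]
    · show (Finset.univ.filter fun d => dlab (fp f) (ap α y)
        (rep (fp f) (ap α y) (Sum.inl x)) d ≤ ((R + 1 : ℕ) : ℤ)).card ≤ S + 6
      rw [hd]
      have hsub : (Finset.univ.filter fun d => lp α (dlab f α x) y d ≤ ((R + 1 : ℕ) : ℤ)) ⊆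
          ((Finset.univ.filter fun d => dlab f α x d ≤ (R : ℤ) + 1).image Sum.inl) ∪
          ((Finset.univ : Finset (Fin 6)).image Sum.inr) := by
        rintro (d | i) hz
        · rw [Finset.mem_union]
          left
          rw [Finset.mem_image]
          refine ⟨d, ?_, rfl⟩
          rw [Finset.mem_filter] at hz ⊢
          refine ⟨Finset.mem_univ _, ?_⟩
          have h1 : dlab f α x d ≤ ((R + 1 : ℕ) : ℤ) := hz.2
          push_cast at h1
          exact h1
        · rw [Finset.mem_union]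
          right
          exact Finset.mem_image.2 ⟨i, Finset.mem_univ _, rfl⟩
      refine (Finset.card_le_card hsub).trans ((Finset.card_union_le _ _).trans ?_)
      refine Nat.add_le_add (Finset.card_image_le.trans hcard) ?_
      exact Finset.card_image_le.trans (by simp)
    · show Big (fp f) (ap α y) (dlab (fp f) (ap α y) (rep (fp f) (ap α y) (Sum.inl x)))
        (k + 1) (ca a) (cb b)
      rw [hd]
      exact big1_big hf hα hl hB
    · show dlab (fp f) (ap α y) (rep (fp f) (ap α y) (Sum.inl x)) (ca a 0) ≤ ((R + 1 : ℕ) : ℤ)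
      rw [hd]
      show min (dlab f α x y) (dlab f α x (α y)) + 1 ≤ ((R + 1 : ℕ) : ℤ)
      have h1 : dlab f α x y ≤ R := hy
      have h2 := min_le_left (dlab f α x y) (dlab f α x (α y))
      push_cast
      linarith
  choose! g hg1 hg2 using H
  refine Set.ncard_le_ncard_of_injOn g hg1 ?_ (Set.toFinite _)
  rintro ⟨α, x⟩ hp ⟨α', x'⟩ hp' hgg
  obtain ⟨y, e1, e2⟩ := hg2 _ hp
  obtain ⟨y', e1', e2'⟩ := hg2 _ hp'
  have hα : PT f α [] := hp.1.1
  have hα' : PT f α' [] := hp'.1.1
  have e1 : (g (α, x)).1 = ap α y := e1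
  have e1' : (g (α', x')).1 = ap α' y' := e1'
  have h1 : ap α y = ap α' y' := by rw [← e1, ← e1', hgg]
  obtain ⟨h2, h3⟩ := ap_inj hα.inv (db_leg hα) hα'.inv (db_leg hα') y y' h1
  subst h2
  subst h3
  have h4 : rep (fp f) (ap α y) (Sum.inl x) = rep (fp f) (ap α y) (Sum.inl x') := by
    have e3 : (g (α, x)).2 = rep (fp f) (g (α, x)).1 (Sum.inl x) := e2
    have e3' : (g (α, x')).2 = rep (fp f) (g (α, x')).1 (Sum.inl x') := e2'
    rw [e1] at e3
    rw [e1'] at e3'
    rw [← e3, ← e3', hgg]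
  have h5 : (fp f * ap α y).SameCycle (Sum.inl x) (Sum.inl x') := by
    have h6 := db_rep (fp f) (ap α y) (Sum.inl x)
    have h7 := db_rep (fp f) (ap α y) (Sum.inl x')
    rw [h4] at h6
    exact h6.symm.trans h7
  have h6 := (ap_same hα.inv (db_leg hα) y x x').1 h5
  have h7 : rep f α x = rep f α x' := by
    unfold rep
    exact congrArg Quotient.out (Quotient.sound h6)
  have h8 : rep f α x = x := hp.2.1
  have h9 : rep f α x' = x' := hp'.2.1
  rw [h8, h9] at h7
  rw [h7]

end QL40
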