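import Mathlib
import Pool.Agent.H40.QL.DigB
import Pool.Agent.H40.QL.Cnt2
import Pool.Agent.H40.QL.Exch
import Pool.Agent.H40.QL.Luni

/-!
[H40 QL CNT1]  (MP_bcc40c_pr, Q2 lower half)  The essential triangular loops are rare.

PROOF.  `N = card (D ⊕ Fin 6) = card D + 6`.  bad1_le, cnt2f (for `fp f`, `v + 1`, `R + 1`, `S + 6`), exch_yst with `a = inr 5`, `b = inr 2` (the triangle of `inr 5` is `inr 5, inr 3, inr 4`), yst_card:
`Bad1.ncard * (N (N-3)) ≤ (R+1) * {q ∈ Yst ...}.ncard * (N (N - 3)) ≤ (R+1) * Yst.ncard * (S+6)^2 ≤ (TS (fp f) (v+3)).ncard * N^2 * (R+2) * (S+6)^2 * (R+1)`.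
-/

set_option autoImplicit false

namespace QL40

open Equiv HG39 QD39

variable {D : Type} [Fintype D] [DecidableEq D]

theorem cnt1 {f : Perm D} (hf : TF f) (v R S : ℕ) :
    (Bad1 f v R S).ncard * ((Fintype.card D + 6) * (Fintype.card D + 3)) ≤
      (TS (fp f) (v + 3)).ncard * (Fintype.card D + 6) ^ 2 * (R + 2) * (S + 6) ^ 2 *
        (R + 1) := by
  have hf' : TF (fp f) := fp_tf hf
  have h1 := bad1_le hf v R S
  have h2 := cnt2f hf' (v + 1) (R + 1) (S + 6) (Sum.inr 5) (Sum.inr 2)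
  obtain ⟨h3, h4⟩ := yst_card (fp f) (v + 1 + 2) (R + 1) (S + 6)
  have hab : (Sum.inr 2 : D ⊕ Fin 6) ≠ Sum.inr 5 ∧ (Sum.inr 2 : D ⊕ Fin 6) ≠ fp f (Sum.inr 5) ∧
      (Sum.inr 2 : D ⊕ Fin 6) ≠ fp f (fp f (Sum.inr 5)) := by
    have e5 : fp f (Sum.inr 5 : D ⊕ Fin 6) = Sum.inr 3 := rfl
    have e3 : fp f (Sum.inr 3 : D ⊕ Fin 6) = Sum.inr 4 := rfl
    rw [e5, e3]
    refine ⟨?_, ?_, ?_⟩ <;>
    · intro h
      have := Sum.inr_injective h
      revert this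
      decide
  have h5 := exch_yst hf' (v + 1 + 2) (R + 1) (S + 6) (Sum.inr 5) (Sum.inr 2) hab h3
  have hN : Fintype.card (D ⊕ Fin 6) = Fintype.card D + 6 := by
    rw [Fintype.card_sum, Fintype.card_fin]
  rw [hN] at h4 h5
  have hN3 : Fintype.card D + 6 - 3 = Fintype.card D + 3 := by omega
  rw [hN3] at h5
  have hv : v + 1 + 2 = v + 3 := by ring
  rw [hv] at h2 h4 h5
  calc (Bad1 f v R S).ncard * ((Fintype.card D + 6) * (Fintype.card D + 3))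
      ≤ ({q | q ∈ Yst (fp f) (v + 3) (R + 1) (S + 6) ∧ q.2 (Sum.inr 5) ≤ (R + 1 : ℕ) ∧
          q.2 (Sum.inr 2) ≤ (R + 1 : ℕ)}.ncard * (R + 1)) *
          ((Fintype.card D + 6) * (Fintype.card D + 3)) :=
        Nat.mul_le_mul_right _ (h1.trans h2)
    _ = ({q | q ∈ Yst (fp f) (v + 3) (R + 1) (S + 6) ∧ q.2 (Sum.inr 5) ≤ (R + 1 : ℕ) ∧
          q.2 (Sum.inr 2) ≤ (R + 1 : ℕ)}.ncard *
          ((Fintype.card D + 6) * (Fintype.card D + 3))) * (R + 1) := by ring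
    _ ≤ ((Yst (fp f) (v + 3) (R + 1) (S + 6)).ncard * (S + 6) ^ 2) * (R + 1) :=
        Nat.mul_le_mul_right _ h5
    _ ≤ (((TS (fp f) (v + 3)).ncard * (Fintype.card D + 6) ^ 2 * (R + 1 + 1)) * (S + 6) ^ 2) *
          (R + 1) :=
        Nat.mul_le_mul_right _ (Nat.mul_le_mul_right _ h4)
    _ = (TS (fp f) (v + 3)).ncard * (Fintype.card D + 6) ^ 2 * (R + 2) * (S + 6) ^ 2 *
          (R + 1) := by ring

theorem cnt2b {f : Perm D} (hf : TF f) (v R S : ℕ) :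
    (Bad2 f v R S).ncard ≤
      (TS f (v + 2)).ncard * (Fintype.card D) ^ 2 * (R + 1) * S ^ 2 * R := by
  have h1 := cnt2 hf v R S
  obtain ⟨_, h2⟩ := yst_card f (v + 2) R S
  exact h1.trans (Nat.mul_le_mul_right _ (Nat.mul_le_mul_right _ h2))

end QL40
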