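import Mathlib
import Pool.Agent.H40.QL.Bas

/-!
[H40 QL PHI]  (MP_bcc40c_pr, Q2 lower half)  The sum `Ph` of `c` along the leftmost geodesic from a corner.

PROOFS (`Ph y = ∑ i < (ℓ y).toNat, c (gs y i)`).
ph_zero: empty sum.
ph_tail: `(ℓ y).toNat = (k + 1) + (ℓ y - k - 1).toNat`, split the range (Finset.sum_range_add), gs_add, and the level of `α (gs y k)` is
`ℓ (f (gs y k)) = ℓ y - k - 1` (gs_lev, Lab.ver).
ph_desc: if `y` is descending then `Fst y y` (path of length 0), so `gs y 0 = y` (fs_eq), `0 < ℓ y` because `ℓ (f y) = ℓ y - 1 ≥ 0`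
(Lab.nn); ph_tail with `k = 0`.
ph_rot: let `z = α (f⁻¹ y) = ρ y`, it has the same level (same vertex).  If `ℓ y ≤ 0` both sums are empty.  Otherwise, as `y` is not
descending, `Fst f α ℓ y δ ↔ Fst f α ℓ z δ` for all `δ` (shift the path by one; `δ ≠ y` because `δ` is descending), so `gs y 0 = gs z 0` and
then `gs y i = gs z i` for all `i` (induction).
-/

set_option autoImplicit false

namespace QL40

open Equiv HG39 QD39

variable {D : Type} [Fintype D] [DecidableEq D]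

omit [Fintype D] [DecidableEq D] in
private theorem phi_leg {f α : Perm D} (h : PT f α []) (d : D) : α d ≠ d := by
  intro h1
  have h2 := (h.leg d).1 h1
  simp [tri] at h2

theorem ph_zero (f α : Perm D) (ℓ : D → ℤ) (c : D → ZMod 2) (y : D) (h : ℓ y ≤ 0) :
    Ph f α ℓ c y = 0 := by
  unfold Ph
  rw [Int.toNat_of_nonpos h, Finset.sum_range_zero]

theorem ph_tail {f α : Perm D} {ℓ : D → ℤ} (hf : TF f) (hα : PT f α []) (hl : Lab f α ℓ)
    (c : D → ZMod 2) (y : D) (k : ℕ) (hk : (k : ℤ) + 1 ≤ ℓ y) :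
    Ph f α ℓ c y = (∑ i ∈ Finset.range (k + 1), c (gs f α ℓ y i)) +
      Ph f α ℓ c (α (gs f α ℓ y k)) := by
  have h1 := gs_lev hf hα hl y k (by omega)
  have h2 : ℓ (α (gs f α ℓ y k)) = ℓ y - k - 1 := by
    have h3 : ℓ (f (gs f α ℓ y k)) = ℓ (α (gs f α ℓ y k)) := hl.ver _ (phi_leg hα _)
    have h4 : ℓ (f (gs f α ℓ y k)) = ℓ (gs f α ℓ y k) - 1 := h1.1
    rw [← h3, h4, h1.2]
  have h5 : (ℓ y).toNat = (k + 1) + (ℓ (α (gs f α ℓ y k))).toNat := by
    rw [h2]
    omega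
  unfold Ph
  rw [h5, Finset.sum_range_add]
  refine congrArg (fun t => _ + t) (Finset.sum_congr rfl fun i _ => ?_)
  rw [gs_add]

theorem ph_desc {f α : Perm D} {ℓ : D → ℤ} (hf : TF f) (hα : PT f α []) (hl : Lab f α ℓ)
    (c : D → ZMod 2) (y : D) (hd : Desc f ℓ y) :
    Ph f α ℓ c y = c y + Ph f α ℓ c (α y) := by
  have h1 : Fst f α ℓ y y := ⟨hd, 0, rfl, fun j hj => absurd hj (Nat.not_lt_zero j)⟩
  have h2 : gs f α ℓ y 0 = y := fs_eq h1
  have h3 : ℓ (f y) = ℓ y - 1 := hd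
  have h4 := hl.nn (f y) (phi_leg hα _)
  have h5 := ph_tail hf hα hl c y 0 (by push_cast; omega)
  rw [h5, Finset.sum_range_succ, Finset.sum_range_zero, zero_add, h2]

theorem ph_rot {f α : Perm D} {ℓ : D → ℤ} (hf : TF f) (hα : PT f α []) (hl : Lab f α ℓ)
    (c : D → ZMod 2) (y : D) (hd : ¬ Desc f ℓ y) :
    Ph f α ℓ c y = Ph f α ℓ c (α (f⁻¹ y)) := by
  have hs : (f * α).SameCycle (α (f⁻¹ y)) y :=
    ⟨1, by rw [zpow_one, Perm.mul_apply, hα.inv]; exact Equiv.apply_symm_apply f y⟩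
  have hlev : ℓ (α (f⁻¹ y)) = ℓ y := lb_same (lb_of_lab hα hl) hs
  rcases le_or_gt (ℓ y) 0 with h | h
  · rw [ph_zero f α ℓ c y h, ph_zero f α ℓ c _ (by rw [hlev]; exact h)]
  · obtain ⟨h2, k, h3, h4⟩ := gs_zero hf hα hl (α (f⁻¹ y)) (by rw [hlev]; exact h)
    have h5 : Fst f α ℓ y (gs f α ℓ (α (f⁻¹ y)) 0) := by
      refine ⟨h2, k + 1, ?_, ?_⟩
      · rw [pow_succ, Perm.mul_apply]
        exact h3
      · intro j hj
        cases j with
        | zero =>
          rw [pow_zero]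
          exact hd
        | succ j =>
          have h6 := h4 j (by omega)
          rw [pow_succ, Perm.mul_apply]
          exact h6
    have h6 : ∀ i, gs f α ℓ y i = gs f α ℓ (α (f⁻¹ y)) i := by
      intro i
      induction i with
      | zero => exact fs_eq h5
      | succ i ih =>
        show fs f α ℓ (α (gs f α ℓ y i)) = fs f α ℓ (α (gs f α ℓ (α (f⁻¹ y)) i))
        rw [ih]
    unfold Ph
    rw [hlev]
    exact Finset.sum_congr rfl fun i _ => by rw [h6 i]

end QL40
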