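import Mathlib
import Pool.Agent.H40.QL.Bas
import Pool.Agent.H39.HG.ZSwap

/-!
[H40 QL BCON]  (MP_bcc40c_pr, Q2 lower half)  The ball is connected.

PROOFS.  `dst f α x` is constant on the cycles of `f * α` in the second variable (dst_congr of HG/GraphA).
ball_f: rotate the disjunction (`f (f (f d)) = d`).  ball_lev: `dst x d ≤ dst x (f d) + 1` etc. (dst_f of HG/GraphA applied to `f d`, `f f d`: `dst x (f (f (f d)))
≤ dst x (f f d) + 1`; and for `f d`: `dst x d ≤ dst x (f d) + 1` from lb_low with Lab (dlab_lab, lb_of_lab)).  ball_x: `dst x x = 0 < r` (dst_self).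
ball_conn: (a) Let `P` be closed as in the statement and `P d0` for some `d0 ∈ ball`.  Then `P x`: choose `d1 ∈ {d0, f d0, f f d0}` with `dst x d1 < r`; `P d1`
(closed under `f`, ball_f).  Strong induction on `dst x d1`: every dart `e` of the cycle of `d1` satisfies `dst x e < r`, so it is in the ball and `P e`: step `e →
(f * α) e = f (α e)`: `f (α e)` is in the ball (its distance is `< r`), so `α e` is in the ball (ball_f twice: `α e = f (f (f (α e)))`), `P (α e)`, `P (f (α e))`.  If `dst x d1 = 0` then `d1`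
and `x` are in the same cycle (gr_conn: the graph is connected and distance 0 means equal; see GraphLab, or use Lab.zro of dlab_lab), so `P x`.  Otherwise Lab.dsc of dlab_lab gives
a descending dart `e` in the cycle of `d1`; `P (f e)`, `dst x (f e) = dst x d1 - 1 < r`: induction.
(b) If `¬ P d` for some `d ∈ ball`, apply (a) to the complement `Q = fun d => ¬ P d`, which is closed as well (`f` has order three: if `P (f d)` then `P (f (f (f d))) =
P d`; `α` is an involution): so `¬ P x`, contradiction.
-/

set_option autoImplicit false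

namespace QL40

open Equiv HG39 QD39

variable {D : Type} [Fintype D] [DecidableEq D]

omit [Fintype D] [DecidableEq D] in
private theorem bcon_leg {f α : Perm D} (h : PT f α []) (d : D) : α d ≠ d := by
  intro h1
  have h2 := (h.leg d).1 h1
  simp [tri] at h2

theorem ball_f {f α : Perm D} (hf : TF f) (x : D) (r : ℕ) (d : D) (h : d ∈ ball f α x r) :
    f d ∈ ball f α x r := by
  rw [ball, Finset.mem_filter] at h ⊢
  refine ⟨Finset.mem_univ _, ?_⟩
  rw [hf.three]
  rcases h.2 with h | h | h
  · exact Or.inr (Or.inr h)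
  · exact Or.inl h
  · exact Or.inr (Or.inl h)

theorem ball_lev {f α : Perm D} (hf : TF f) (hα : PT f α []) (x : D) (r : ℕ) (d : D)
    (h : d ∈ ball f α x r) : dst f α x d ≤ r := by
  rw [ball, Finset.mem_filter] at h
  rcases h.2 with h | h | h
  · exact h.le
  · have h1 : dlab f α x d ≤ dlab f α x (f d) + 1 :=
      lb_low (lb_of_lab hα (dlab_lab hf hα x)) d
    have h2 : (dst f α x d : ℤ) ≤ (dst f α x (f d) : ℤ) + 1 := h1
    omega
  · have h1 := dst_f hf hα x (f (f d))
    rw [hf.three] at h1
    omega

theorem ball_x (f α : Perm D) (x : D) (r : ℕ) (hr : 1 ≤ r) : x ∈ ball f α x r := by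
  rw [ball, Finset.mem_filter]
  refine ⟨Finset.mem_univ _, Or.inl ?_⟩
  rw [dst_self f α x x (Equiv.Perm.SameCycle.refl _ _)]
  omega

theorem ball_conn {f α : Perm D} (hf : TF f) (hα : PT f α []) (x : D) (r : ℕ) (hr : 1 ≤ r)
    (P : D → Prop) (h0 : ∃ d ∈ ball f α x r, P d) (h1 : ∀ d ∈ ball f α x r, P d → P (f d))
    (h2 : ∀ d ∈ ball f α x r, α d ∈ ball f α x r → P d → P (α d)) :
    ∀ d ∈ ball f α x r, P d := by
  have hin : ∀ e, dst f α x e < r → e ∈ ball f α x r := by
    intro e he
    rw [ball, Finset.mem_filter]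
    exact ⟨Finset.mem_univ _, Or.inl he⟩
  have hlab := dlab_lab hf hα x
  have key : ∀ Q : D → Prop, (∃ d ∈ ball f α x r, Q d) → (∀ d ∈ ball f α x r, Q d → Q (f d)) →
      (∀ d ∈ ball f α x r, α d ∈ ball f α x r → Q d → Q (α d)) → Q x := by
    rintro Q ⟨d0, hd0, hQ0⟩ q1 q2
    have hcyc : ∀ a b : D, (f * α).SameCycle a b → dst f α x a < r → Q a →
        dst f α x b < r ∧ Q b := by
      intro a b hab
      refine zs_ind (f * α) (fun a b => dst f α x a < r → Q a → dst f α x b < r ∧ Q b)
        (fun _ h h' => ⟨h, h'⟩) (fun _ _ _ hxy hyz h h' => hyz (hxy h h').1 (hxy h h').2) ?_ hab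
      intro e he hQe
      have h3 : dst f α x ((f * α) e) < r := by
        rw [← dst_congr f α x e ((f * α) e) ⟨1, by rw [zpow_one]⟩]
        exact he
      refine ⟨h3, ?_⟩
      have h4 : f (α e) ∈ ball f α x r := hin _ h3
      have h5 : α e ∈ ball f α x r := by
        have h6 := ball_f hf x r _ (ball_f hf x r _ h4)
        rwa [hf.three] at h6
      exact q1 _ h5 (q2 e (hin e he) h5 hQe)
    have ind : ∀ (n : ℕ) (d : D), dst f α x d ≤ n → dst f α x d < r → Q d → Q x := by
      intro n
      induction n with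
      | zero =>
        intro d h3 h4 h5
        have h6 : dlab f α x d = 0 := by
          show (dst f α x d : ℤ) = 0
          omega
        have h7 : dlab f α x x = 0 := by
          show (dst f α x x : ℤ) = 0
          rw [dst_self f α x x (Equiv.Perm.SameCycle.refl _ _)]
          rfl
        exact (hcyc d x (hlab.zro d x (bcon_leg hα d) (bcon_leg hα x) h6 h7) h4 h5).2
      | succ n ih =>
        intro d h3 h4 h5
        rcases Nat.eq_zero_or_pos (dst f α x d) with h6 | h6
        · exact ih d (by omega) h4 h5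
        · have h7 : 0 < dlab f α x d := by
            show 0 < (dst f α x d : ℤ)
            exact_mod_cast h6
          obtain ⟨d', hs, -, hd'⟩ := hlab.dsc d (bcon_leg hα d) h7
          obtain ⟨h8, h9⟩ := hcyc d d' hs h4 h5
          have h10 : (dst f α x (f d') : ℤ) = (dst f α x d' : ℤ) - 1 := hd'
          have h11 := dst_congr f α x d d' hs
          exact ih (f d') (by omega) (by omega) (q1 d' (hin d' h8) h9)
    have hd0' := hd0
    rw [ball, Finset.mem_filter] at hd0'
    rcases hd0'.2 with h | h | h
    · exact ind _ d0 le_rfl h hQ0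
    · exact ind _ (f d0) le_rfl h (q1 d0 hd0 hQ0)
    · exact ind _ (f (f d0)) le_rfl h (q1 _ (ball_f hf x r _ hd0) (q1 d0 hd0 hQ0))
  have _ := hr
  intro d hd
  by_contra hnP
  refine key (fun e => ¬ P e) ⟨d, hd, hnP⟩ ?_ ?_ (key P h0 h1 h2)
  · intro e he h3 h4
    apply h3
    have h5 := ball_f hf x r _ he
    have h6 := h1 _ (ball_f hf x r _ h5) (h1 _ h5 h4)
    rwa [hf.three] at h6
  · intro e he he' h3 h4
    apply h3
    have h5 := h2 (α e) he' (by rw [hα.inv]; exact he) h4
    rwa [hα.inv] at h5

end QL40
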