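import Mathlib
import Pool.Agent.H40.QL.Defs
import Pool.Agent.H39.HG.GlueVal
import Pool.Agent.H39.HG.ZSwap

/-!
[H40 QL ADDP]  (MP_bcc40c_pr, Q2 lower half)  Adding the remaining pairs, and the number of cycles on `F`.

PROOFS.
add_pairs: induction on `l2` from the right (List.reverseRecOn / induction on the length): for `l2 ++ [p]`: if the claim for `l2` gives a bad pair, done; otherwise `f * glue 1 (l ++ (l2 ++ [p])) = (f * glue 1 (l ++ l2)) * swap p.1
p.2` (glue_append); if `p.1, p.2` are in the same cycle of `f * glue 1 (l ++ l2)` then cyc_swap_same (`p.1 ≠ p.2` from Nodup), otherwise `p` itself is bad (`u = l2`, `w = []`).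
pairs_exist: induction on the number of elements of `F` with `α d ∈ F` which are not in `ent l`: if there is such a `d`, then `α d` is not in `ent l` either (entries come in pairs) and we may append `(d, α d)`.
cyc_three: every cycle of `f` has three elements (`SameCycle f a b ↔ b ∈ {a, f a, f f a}`): `3 * cyc f = card D`.
vb_cyc: let `β = glue 1 L`; `β d = if d ∈ F ∧ α d ∈ F then α d else d` (glue_pair, glue_notMem), so `stp f α F d = (f * β) d`; `F` is closed under `f * β`, and outside `F`: `(f * β) d = f d`.  The cycles of `f * β` are those in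
`F` and the triangles outside `F`.  Number of the first: `Quot` of the relation `b = stp a` on `{d // d ∈ F}` is the set of cycles contained in `F`: the map `Quot → Quotient (SameCycle (f * β))` induced by the inclusion is well
defined, injective (if `SameCycle (f * β) a b`, `a ∈ F`, then `b = (f * β)^k a` with `k ∈ ℕ` (finite order), chain of relations), with image the classes of elements of `F`.  Number of the others: classes in the complement, each has three elements.  So `3 * cyc (f * β) = 3 * vb + (card D - F.card)`.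
Suggestion: split `Quotient` into the two subtypes (classes meeting `F` / not meeting `F`).
pairs_card2: the entries of `L` are exactly the `d ∈ F` with `α d ∈ F`, `(ent L).length = 2 * L.length`.
-/

set_option autoImplicit false

namespace QL40

open Equiv HG39 QD39

variable {D : Type} [Fintype D] [DecidableEq D]

theorem mem_ent (l : List (D × D)) (x : D) :
    x ∈ ent l ↔ ∃ p ∈ l, x = p.1 ∨ x = p.2 := by
  unfold ent
  rw [List.mem_flatMap]
  constructor
  · rintro ⟨p, hp, hx⟩
    refine ⟨p, hp, ?_⟩
    simpa using hx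
  · rintro ⟨p, hp, hx⟩
    refine ⟨p, hp, ?_⟩
    simpa using hx

theorem ent_snoc (l : List (D × D)) (p : D × D) : ent (l ++ [p]) = ent l ++ [p.1, p.2] := by
  rw [ent_append]
  rfl

theorem add_pairs (f : Perm D) (l l2 : List (D × D)) (hn : (ent (l ++ l2)).Nodup) :
    cyc (f * glue 1 (l ++ l2)) = cyc (f * glue 1 l) + l2.length ∨
      ∃ (u w : List (D × D)) (p : D × D), l2 = u ++ p :: w ∧
        ¬ (f * glue 1 (l ++ u)).SameCycle p.1 p.2 := by
  induction l2 using List.reverseRecOn with
  | nil =>
    left
    rw [List.append_nil, List.length_nil, Nat.add_zero]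
  | append_singleton l2 p ih =>
    rw [← List.append_assoc, ent_snoc, List.nodup_append] at hn
    obtain ⟨h1, h2, -⟩ := hn
    have hp : p.1 ≠ p.2 := by
      intro h
      rw [List.nodup_cons] at h2
      exact h2.1 (List.mem_singleton.2 h)
    rcases ih h1 with h3 | ⟨u, w, q, h3, h4⟩
    · by_cases h5 : (f * glue 1 (l ++ l2)).SameCycle p.1 p.2
      · left
        have e1 : f * glue 1 (l ++ (l2 ++ [p])) = (f * glue 1 (l ++ l2)) * swap p.1 p.2 := by
          rw [← List.append_assoc, glue_append, mul_assoc]
          rfl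
        rw [e1, cyc_swap_same _ _ _ hp h5, h3, List.length_append, List.length_singleton,
          Nat.add_assoc]
      · right
        exact ⟨l2, [], p, rfl, h5⟩
    · right
      refine ⟨u, w ++ [p], q, ?_, h4⟩
      rw [h3]
      simp

theorem pairs_exist {α : Perm D} (hi : ∀ d, α (α d) = d) (hn : ∀ d, α d ≠ d) (F : Finset D)
    (l : List (D × D)) (hl : (ent l).Nodup) (h : ∀ p ∈ l, p.1 ∈ F ∧ p.2 ∈ F ∧ α p.1 = p.2) :
    ∃ l2 : List (D × D), (ent (l ++ l2)).Nodup ∧
      (∀ p ∈ l ++ l2, p.1 ∈ F ∧ p.2 ∈ F ∧ α p.1 = p.2) ∧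
      ∀ d ∈ F, α d ∈ F → d ∈ ent (l ++ l2) := by
  obtain ⟨n, hcard⟩ : ∃ n, (F.filter fun d => α d ∈ F ∧ d ∉ ent l).card ≤ n := ⟨_, le_rfl⟩
  induction n generalizing l with
  | zero =>
    refine ⟨[], by rwa [List.append_nil], by rwa [List.append_nil], ?_⟩
    intro d hd hd2
    rw [List.append_nil]
    by_contra hc
    have h1 : d ∈ F.filter fun d => α d ∈ F ∧ d ∉ ent l := Finset.mem_filter.2 ⟨hd, hd2, hc⟩
    have h2 := Finset.card_pos.2 ⟨d, h1⟩
    omega
  | succ n ih =>
    by_cases hex : ∃ d ∈ F, α d ∈ F ∧ d ∉ ent l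
    · obtain ⟨d, hd, hd2, hd3⟩ := hex
      have hd4 : α d ∉ ent l := by
        intro hc
        obtain ⟨p, hp, h1 | h1⟩ := (mem_ent l _).1 hc
        · apply hd3
          refine (mem_ent l _).2 ⟨p, hp, Or.inr ?_⟩
          rw [← (h p hp).2.2, ← h1, hi]
        · apply hd3
          refine (mem_ent l _).2 ⟨p, hp, Or.inl ?_⟩
          rw [← (h p hp).2.2] at h1
          exact α.injective h1
      have hl' : (ent (l ++ [(d, α d)])).Nodup := by
        rw [ent_snoc, List.nodup_append]
        refine ⟨hl, ?_, ?_⟩
        · rw [List.nodup_cons]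
          refine ⟨fun hc => hn d (List.mem_singleton.1 hc).symm, List.nodup_singleton _⟩
        · intro a ha b hb hab
          rw [List.mem_cons, List.mem_singleton] at hb
          rcases hb with hb | hb
          · have hb' : b = d := hb
            exact hd3 (by rw [← hb', ← hab]; exact ha)
          · have hb' : b = α d := hb
            exact hd4 (by rw [← hb', ← hab]; exact ha)
      have h' : ∀ p ∈ l ++ [(d, α d)], p.1 ∈ F ∧ p.2 ∈ F ∧ α p.1 = p.2 := by
        intro p hp
        rw [List.mem_append, List.mem_singleton] at hp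
        rcases hp with hp | hp
        · exact h p hp
        · rw [hp]
          exact ⟨hd, hd2, rfl⟩
      have hc' : (F.filter fun e => α e ∈ F ∧ e ∉ ent (l ++ [(d, α d)])).card ≤ n := by
        have h1 : (F.filter fun e => α e ∈ F ∧ e ∉ ent (l ++ [(d, α d)])) ⊆
            (F.filter fun e => α e ∈ F ∧ e ∉ ent l).erase d := by
          intro e he
          rw [Finset.mem_filter] at he
          rw [Finset.mem_erase, Finset.mem_filter]
          obtain ⟨h1, h2, h3⟩ := he
          rw [ent_snoc, List.mem_append, not_or] at h3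
          refine ⟨?_, h1, h2, h3.1⟩
          intro hed
          apply h3.2
          rw [hed]
          exact List.mem_cons_self
        have h2 := Finset.card_le_card h1
        rw [Finset.card_erase_of_mem (Finset.mem_filter.2 ⟨hd, hd2, hd3⟩)] at h2
        omega
      obtain ⟨l2, h1, h2, h3⟩ := ih (l ++ [(d, α d)]) hl' h' hc'
      rw [List.append_assoc] at h1 h2 h3
      exact ⟨[(d, α d)] ++ l2, h1, h2, h3⟩
    · push Not at hex
      refine ⟨[], by rwa [List.append_nil], by rwa [List.append_nil], ?_⟩
      intro d hd hd2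
      rw [List.append_nil]
      exact hex d hd hd2

theorem cyc_three {f : Perm D} (hf : TF f) : 3 * cyc f = Fintype.card D := by
  classical
  have hpow3 : ∀ (n : ℕ) (a : D), (f ^ (n % 3)) a = (f ^ n) a := by
    intro n a
    have h3 : f ^ 3 = 1 := by
      ext d
      rw [pow_succ, pow_succ, pow_one, Perm.mul_apply, Perm.mul_apply, hf.three]
      rfl
    conv_rhs => rw [← Nat.mod_add_div n 3, pow_add, pow_mul, h3, one_pow, mul_one]
  have hne2 : ∀ d, f (f d) ≠ d := by
    intro d h
    have h4 := hf.three d
    rw [h] at h4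
    exact hf.nf d h4
  let G : Quotient (Equiv.Perm.SameCycle.setoid f) × Fin 3 → D :=
    fun x => (f ^ (x.2 : ℕ)) (Quotient.out x.1)
  have hbij : Function.Bijective G := by
    constructor
    · rintro ⟨q, i⟩ ⟨q', j⟩ h
      have h1 : (f ^ (i : ℕ)) (Quotient.out q) = (f ^ (j : ℕ)) (Quotient.out q') := h
      have h2 : f.SameCycle (Quotient.out q) (Quotient.out q') := by
        have h3 : f.SameCycle (Quotient.out q) ((f ^ (i : ℕ)) (Quotient.out q)) :=
          ⟨i, by rw [zpow_natCast]⟩
        have h4 : f.SameCycle (Quotient.out q') ((f ^ (j : ℕ)) (Quotient.out q')) :=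
          ⟨j, by rw [zpow_natCast]⟩
        rw [h1] at h3
        exact h3.trans h4.symm
      have h3 : q = q' := by
        rw [← Quotient.out_eq q, ← Quotient.out_eq q']
        exact Quotient.sound h2
      subst h3
      have h4 : i = j := by
        set a := Quotient.out q
        have e0 : (f ^ 0) a = a := rfl
        have e1 : (f ^ 1) a = f a := by rw [pow_one]
        have e2 : (f ^ 2) a = f (f a) := by rw [pow_two, Perm.mul_apply]
        have n1 := hf.nf a
        have n2 := hne2 a
        have n3 := hf.nf (f a)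
        fin_cases i <;> fin_cases j <;> simp only [e0, e1, e2] at h1 ⊢
        · exact absurd h1.symm n1
        · exact absurd h1.symm n2
        · exact absurd h1 n1
        · exact absurd h1.symm n3
        · exact absurd h1 n2
        · exact absurd h1 n3
      rw [h4]
    · intro d
      have h1 : f.SameCycle (Quotient.out (Quotient.mk (Equiv.Perm.SameCycle.setoid f) d)) d :=
        (Quotient.exact (s := Equiv.Perm.SameCycle.setoid f) (Quotient.out_eq _))
      obtain ⟨n, _, hn⟩ := h1.exists_pow_eq'
      refine ⟨(Quotient.mk _ d, ⟨n % 3, Nat.mod_lt _ (by norm_num)⟩), ?_⟩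
      change (f ^ (n % 3)) _ = d
      rw [hpow3]
      exact hn
  have h1 := Nat.card_congr (Equiv.ofBijective G hbij)
  rw [Nat.card_prod, Nat.card_eq_fintype_card, Nat.card_eq_fintype_card (α := Fin 3),
    Fintype.card_fin, Nat.card_eq_fintype_card (α := D)] at h1
  unfold cyc
  rw [Nat.card_eq_fintype_card]
  omega

theorem cyc_quot (τ : Perm D) : Nat.card (Quot fun a b : D => b = τ a) = cyc τ := by
  unfold cyc
  have hQ : ∀ (k : ℕ) (a b : D), (τ ^ k) a = b →
      Quot.mk (fun a b : D => b = τ a) a = Quot.mk _ b := by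
    intro k
    induction k with
    | zero =>
      intro a b h
      rw [pow_zero, Perm.one_apply] at h
      rw [h]
    | succ k ih =>
      intro a b h
      have h1 : (τ ^ k) (τ a) = b := by
        rw [← Perm.mul_apply, ← pow_succ]
        exact h
      rw [← ih (τ a) b h1]
      exact Quot.sound rfl
  refine Nat.card_congr (Equiv.ofBijective (Quot.lift
    (fun a => Quotient.mk (Equiv.Perm.SameCycle.setoid τ) a) ?_) ⟨?_, ?_⟩)
  · intro a b hab
    refine Quotient.sound ⟨1, ?_⟩
    rw [zpow_one, hab]
  · intro q q' h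
    induction q using Quot.ind with
    | mk a =>
      induction q' using Quot.ind with
      | mk b =>
        have h1 : Equiv.Perm.SameCycle τ a b := Quotient.exact h
        obtain ⟨k, _, hk⟩ := h1.exists_pow_eq'
        exact hQ k a b hk
  · intro q
    obtain ⟨d, rfl⟩ := Quotient.exists_rep q
    exact ⟨Quot.mk _ d, rfl⟩

theorem cyc_split (π : Perm D) (p : D → Prop) [DecidablePred p] (hp : ∀ d, p (π d) ↔ p d) :
    cyc π = cyc (π.subtypePerm (p := p) hp) +
      cyc (π.subtypePerm (p := fun d => ¬ p d) (fun d => not_congr (hp d))) := by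
  classical
  have hinv : ∀ a b, π.SameCycle a b → p a → p b := by
    intro a b h ha
    obtain ⟨k, hk0, hk⟩ := h.exists_pow_eq'
    rw [← hk]
    clear hk hk0
    induction k with
    | zero => exact ha
    | succ k ih =>
      rw [pow_succ', Perm.mul_apply]
      exact (hp _).2 ih
  unfold cyc
  rw [← Nat.card_sum]
  symm
  refine Nat.card_congr (Equiv.ofBijective (fun x => match x with
    | Sum.inl q => Quotient.map (fun x : {d // p d} => x.1)
        (fun a b (h : Equiv.Perm.SameCycle _ a b) => (show Equiv.Perm.SameCycle π a.1 b.1 from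
          Equiv.Perm.sameCycle_subtypePerm.1 h)) q
    | Sum.inr q => Quotient.map (fun x : {d // ¬ p d} => x.1)
        (fun a b (h : Equiv.Perm.SameCycle _ a b) => (show Equiv.Perm.SameCycle π a.1 b.1 from
          Equiv.Perm.sameCycle_subtypePerm.1 h)) q) ⟨?_, ?_⟩)
  · rintro (q | q) (q' | q') h
    · induction q using Quotient.ind with
      | _ a =>
      induction q' using Quotient.ind with
      | _ b =>
      have h1 : Equiv.Perm.SameCycle π a.1 b.1 := Quotient.exact h
      exact congrArg Sum.inl (Quotient.sound (Equiv.Perm.sameCycle_subtypePerm.2 h1))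
    · induction q using Quotient.ind with
      | _ a =>
      induction q' using Quotient.ind with
      | _ b =>
      have h1 : Equiv.Perm.SameCycle π a.1 b.1 := Quotient.exact h
      exact absurd (hinv _ _ h1 a.2) b.2
    · induction q using Quotient.ind with
      | _ a =>
      induction q' using Quotient.ind with
      | _ b =>
      have h1 : Equiv.Perm.SameCycle π a.1 b.1 := Quotient.exact h
      exact absurd (hinv _ _ h1.symm b.2) a.2
    · induction q using Quotient.ind with
      | _ a =>
      induction q' using Quotient.ind with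
      | _ b =>
      have h1 : Equiv.Perm.SameCycle π a.1 b.1 := Quotient.exact h
      exact congrArg Sum.inr (Quotient.sound (Equiv.Perm.sameCycle_subtypePerm.2 h1))
  · intro q
    obtain ⟨d, rfl⟩ := Quotient.exists_rep q
    by_cases hd : p d
    · exact ⟨Sum.inl (Quotient.mk _ ⟨d, hd⟩), rfl⟩
    · exact ⟨Sum.inr (Quotient.mk _ ⟨d, hd⟩), rfl⟩

theorem vb_cyc {f α : Perm D} (hf : TF f) (hi : ∀ d, α (α d) = d) (F : Finset D)
    (hFf : ∀ d ∈ F, f d ∈ F) (L : List (D × D)) (hL : (ent L).Nodup)
    (h : ∀ p ∈ L, p.1 ∈ F ∧ p.2 ∈ F ∧ α p.1 = p.2) (hall : ∀ d ∈ F, α d ∈ F → d ∈ ent L) :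
    3 * cyc (f * glue 1 L) + F.card = 3 * vb f α F + Fintype.card D := by
  classical
  have hβ : ∀ d, glue 1 L d = if d ∈ F ∧ α d ∈ F then α d else d := by
    intro d
    by_cases hd : d ∈ ent L
    · obtain ⟨p, hp, h1 | h1⟩ := (mem_ent L d).1 hd
      · rw [h1, (glue_pair 1 L hL (fun x _ => rfl) p hp).1, (h p hp).2.2,
          if_pos ⟨(h p hp).1, (h p hp).2.1⟩]
      · have h2 : α p.2 = p.1 := by rw [← (h p hp).2.2, hi]
        rw [h1, (glue_pair 1 L hL (fun x _ => rfl) p hp).2, h2,
          if_pos ⟨(h p hp).2.1, (h p hp).1⟩]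
    · rw [glue_notMem 1 L d hd, if_neg (fun hc => hd (hall d hc.1 hc.2))]
      rfl
  have hFc : ∀ d, f d ∈ F → d ∈ F := by
    intro d hd
    rw [← hf.three d]
    exact hFf _ (hFf _ hd)
  have hβF : ∀ d, glue 1 L d ∈ F ↔ d ∈ F := by
    intro d
    rw [hβ]
    split_ifs with h1
    · exact ⟨fun _ => h1.1, fun _ => h1.2⟩
    · exact Iff.rfl
  have hπF : ∀ d, (f * glue 1 L) d ∈ F ↔ d ∈ F := by
    intro d
    rw [Perm.mul_apply]
    exact ⟨fun h1 => (hβF d).1 (hFc _ h1), fun h1 => hFf _ ((hβF d).2 h1)⟩
  have h1 := cyc_split (f * glue 1 L) (fun d => d ∈ F) hπF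
  have h2 : cyc ((f * glue 1 L).subtypePerm (p := fun d => d ∈ F) hπF) = vb f α F := by
    rw [← cyc_quot]
    unfold vb
    congr 2
    funext a b
    have e1 : ((((f * glue 1 L).subtypePerm (p := fun d => d ∈ F) hπF) a : {d // d ∈ F}) : D) =
        stp f α F a := by
      rw [Perm.subtypePerm_apply]
      change (f * glue 1 L) a.1 = stp f α F a.1
      rw [Perm.mul_apply, hβ]
      rfl
    rw [eq_iff_iff, Subtype.ext_iff, e1]
  have hout : ∀ d, d ∉ F → (f * glue 1 L) d = f d := by
    intro d hd
    rw [Perm.mul_apply, hβ, if_neg (fun hc => hd hc.1)]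
  have h3 : TF ((f * glue 1 L).subtypePerm (p := fun d => ¬ d ∈ F)
      (fun d => not_congr (hπF d))) := by
    constructor
    · rintro ⟨d, hd⟩
      have hd1 : f d ∉ F := fun hc => hd (hFc d hc)
      have hd2 : f (f d) ∉ F := fun hc => hd1 (hFc _ hc)
      apply Subtype.ext
      simp only [Perm.subtypePerm_apply]
      rw [hout d hd, hout _ hd1, hout _ hd2, hf.three]
    · rintro ⟨d, hd⟩ hc
      have h4 := congrArg Subtype.val hc
      simp only [Perm.subtypePerm_apply] at h4
      rw [hout d hd] at h4
      exact hf.nf d h4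
  have h4 := cyc_three h3
  rw [Fintype.card_subtype_compl, Fintype.card_coe] at h4
  rw [h2] at h1
  have h5 : F.card ≤ Fintype.card D := Finset.card_le_univ F
  omega

theorem pairs_card2 {α : Perm D} (hi : ∀ d, α (α d) = d) (F : Finset D) (L : List (D × D))
    (hL : (ent L).Nodup) (h : ∀ p ∈ L, p.1 ∈ F ∧ p.2 ∈ F ∧ α p.1 = p.2)
    (hall : ∀ d ∈ F, α d ∈ F → d ∈ ent L) :
    (F.filter fun d => α d ∈ F).card = 2 * L.length := by
  have h1 : (F.filter fun d => α d ∈ F) = (ent L).toFinset := by
    ext d
    rw [Finset.mem_filter, List.mem_toFinset]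
    constructor
    · exact fun h2 => hall d h2.1 h2.2
    · intro h2
      obtain ⟨p, hp, h3 | h3⟩ := (mem_ent L d).1 h2
      · rw [h3, (h p hp).2.2]
        exact ⟨(h p hp).1, (h p hp).2.1⟩
      · have h4 : α p.2 = p.1 := by rw [← (h p hp).2.2, hi]
        rw [h3, h4]
        exact ⟨(h p hp).2.1, (h p hp).1⟩
  rw [h1, List.toFinset_card_of_nodup hL]
  unfold ent
  rw [List.length_flatMap]
  have h2 : (L.map fun p : D × D => [p.1, p.2].length) = L.map fun _ => 2 := rfl
  rw [h2, List.map_const', List.sum_replicate, smul_eq_mul, mul_comm]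

end QL40
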