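import Mathlib
import Pool.Agent.H40.QL.Defs
import Pool.Agent.H39.HG.AsyP
import Pool.Agent.H39.HG.TEnum
import Pool.Agent.H39.HG.MainP
import Pool.Agent.H39.HG.DescF
import Pool.Agent.H39.HG.TLim

/-!
[H40 QL ASYQ]  (MP_bcc40c_pr, Q2 lower half)  The first moment at radius `κ D(h) log n`: copy of HG/AsyP with the exponent `1 + κ`.

PROOF.  As in AsyP (copy the file; there `κ = 1 - ε` and the exponent is `2 - δ`).  `L0 = - log (mh h) > 0`.  Choose `μ < mh h`, `0 < μ`, with `κ (- log μ) / L0 ≤ κ + δ/2` (possible because `- log μ → L0` as `μ → mh h`).  `enum` gives `c, C`.  `r = 0`: at most `(TS f v).ncard * card D` (asy_zero there).  `1 ≤ r ≤ R`: mainP with `K ≤ C r`, `F` from `enum`, `6 K < 6 n`: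
`(Pr).ncard * (M-2).descFactorial K * #F ≤ (TS).ncard * (6n)^(K+1) * (12K+1)`, descF_ge: `(M-2).descFactorial K ≥ (6 n lam)^K / 2`.  So `(Pr).ncard ≤ (TS).ncard * 12 n (12 K + 1) C r / (c μ^r)` and `μ^(-r) ≤ μ^(-3) exp (κ DD log n (- log μ)) ≤ μ^(-3) n^(κ + δ/2)`.  Sum over `r ≤ R = O(log n)`: `≤ (TS).ncard * n^(1 + κ + δ/2) * polylog n`, polylog_le.
The set `D` is now an arbitrary finite type with `6 n` elements.
-/

set_option autoImplicit false

namespace QL40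

open Equiv HG39 QD39

variable {D : Type} [Fintype D] [DecidableEq D]

private theorem asy_zero {f : Perm D} (hf : TF f) (v M : ℕ) :
    (Pr f v 0 M).ncard ≤ (TS f v).ncard * Fintype.card D := by
  classical
  have h1 : Pr f v 0 M ⊆
      (fun p : Perm D × D => (p.1, p.2, p.2)) '' ((TS f v) ×ˢ (Set.univ : Set D)) := by
    rintro ⟨α, a, b⟩ ⟨h1, -, h2, h3, h4⟩
    simp only at h1 h2 h3 h4
    haveI : Nonempty D := ⟨a⟩
    have h5 := gr_conn hf h1.1
    have h6 : Quotient.mk (Equiv.Perm.SameCycle.setoid (f * α)) a =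
        Quotient.mk (Equiv.Perm.SameCycle.setoid (f * α)) b := (h5.dist_eq_zero_iff).1 h4
    have h7 : a = b := by
      rw [← h2, ← h3]
      unfold rep
      rw [h6]
    refine ⟨(α, a), ⟨h1, trivial⟩, ?_⟩
    simp only [h7]
  refine (Set.ncard_le_ncard h1 (Set.toFinite _)).trans
    ((Set.ncard_image_le (Set.toFinite _)).trans ?_)
  rw [Set.ncard_prod, Set.ncard_univ, Nat.card_eq_fintype_card]

/-- the real inequality for one value of `r` -/
private theorem asy_one {P T N lm desc F c C' e2 l A1 b : ℝ} {K r : ℕ} {C : ℕ} {μ : ℝ}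
    (hP : 0 ≤ P) (hT : 0 ≤ T) (hN : 1 ≤ N) (hlm : 0 < lm) (hF : 0 ≤ F) (hc : 0 < c)
    (hC' : 0 ≤ C') (hl : 1 ≤ l) (hμ : 0 < μ) (he2 : 0 < e2)
    (hKl : (K : ℝ) ≤ C' * l) (hrl : (C * r : ℝ) ≤ C' * l)
    (hdesc : (6 * N * lm) ^ K / 2 ≤ desc)
    (hmain : P * desc * F ≤ T * (6 * N) ^ (K + 1) * (12 * K + 1))
    (hcF : c * μ ^ r ≤ (C * r : ℝ) * F * lm ^ K)
    (hmu : 1 ≤ μ ^ r * (e2 * N ^ b))
    (hA : A1 = 12 * (12 * C' + 1) * C' * e2 / c) :
    P ≤ T * (A1 * l ^ 2 * (N * N ^ b)) := by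
  have hN0 : 0 < N := by linarith
  have h6 : 0 < (6 * N) ^ K := by positivity
  have hb : 0 < N ^ b := Real.rpow_pos_of_pos hN0 b
  have hK0 : (0 : ℝ) ≤ K := Nat.cast_nonneg K
  have hCr : (0 : ℝ) ≤ C * r := by positivity
  have h1 : P * ((6 * N * lm) ^ K / 2) * F ≤ T * (6 * N) ^ (K + 1) * (12 * K + 1) := by
    refine le_trans ?_ hmain
    gcongr
  have h2 : P * (F * lm ^ K) ≤ T * (12 * N) * (12 * K + 1) := by
    have h3 : (6 * N) ^ K * (P * (F * lm ^ K)) ≤ (6 * N) ^ K * (T * (12 * N) * (12 * K + 1)) := by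
      rw [mul_pow] at h1
      rw [pow_succ] at h1
      linarith
    exact le_of_mul_le_mul_left h3 h6
  have h3 : P * (c * μ ^ r) ≤ T * (12 * N) * (12 * K + 1) * (C * r) := by
    calc P * (c * μ ^ r) ≤ P * ((C * r : ℝ) * F * lm ^ K) := by gcongr
      _ = (C * r) * (P * (F * lm ^ K)) := by ring
      _ ≤ (C * r) * (T * (12 * N) * (12 * K + 1)) := by gcongr
      _ = _ := by ring
  have h4 : P * (c * μ ^ r) ≤ T * (12 * N) * ((12 * C' + 1) * l) * (C' * l) := by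
    refine h3.trans ?_
    have h5 : (12 * K + 1 : ℝ) ≤ (12 * C' + 1) * l := by nlinarith
    gcongr
  have h5 : P * c ≤ T * (12 * N) * ((12 * C' + 1) * l) * (C' * l) * (e2 * N ^ b) := by
    calc P * c ≤ P * c * (μ ^ r * (e2 * N ^ b)) :=
          le_mul_of_one_le_right (by positivity) hmu
      _ = P * (c * μ ^ r) * (e2 * N ^ b) := by ring
      _ ≤ _ := by gcongr
  rw [hA]
  have h7 : P ≤ (T * (12 * N) * ((12 * C' + 1) * l) * (C' * l) * (e2 * N ^ b)) / c := by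
    rw [le_div_iff₀ hc]
    exact h5
  refine h7.trans (le_of_eq ?_)
  field_simp

theorem asyQ (h κ δ : ℝ) (h0 : 0 < h) (h1 : h < 1 / 4) (k0 : 0 < κ) (k1 : κ ≤ 1)
    (hδ : 0 < δ) :
    ∃ n0 : ℕ, ∀ n ≥ n0, ∀ (D : Type) [Fintype D] [DecidableEq D], Fintype.card D = 6 * n →
      ∀ f : Perm D, TF f → ∀ v R M : ℕ,
      (R : ℝ) ≤ κ * DD h * Real.log n + 3 → 6 * n * lam h ≤ M →
      (∑ r ∈ Finset.range (R + 1), ((Pr f v r M).ncard : ℝ)) ≤
        (TS f v).ncard * (n : ℝ) ^ (1 + κ + δ) := by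
  obtain ⟨hm0, hm1, -⟩ := mh_prop h h0 h1
  obtain ⟨L0, hL⟩ : ∃ L0, L0 = -Real.log (mh h) := ⟨_, rfl⟩
  have hL0 : 0 < L0 := by
    rw [hL]
    exact neg_pos.2 (Real.log_neg hm0 hm1)
  obtain ⟨η, hη⟩ : ∃ η, η = 1 + δ / (2 * κ) := ⟨_, rfl⟩
  have hη1 : 1 < η := by
    rw [hη]
    have : 0 < δ / (2 * κ) := by positivity
    linarith
  have hηe : κ * η = κ + δ / 2 := by
    rw [hη]
    field_simp
  obtain ⟨μ, hμd⟩ : ∃ μ, μ = Real.exp (-(η * L0)) := ⟨_, rfl⟩
  have hμ : 0 < μ := by rw [hμd]; exact Real.exp_pos _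
  have hμm : μ < mh h := by
    rw [hμd, ← Real.exp_log hm0, Real.exp_lt_exp]
    have h2 : Real.log (mh h) = -L0 := by rw [hL, neg_neg]
    rw [h2]
    nlinarith
  obtain ⟨c, hc, C, hC1, henum⟩ := enum h h0 h1 μ hμ hμm
  obtain ⟨C', hC'⟩ : ∃ C' : ℝ, C' = C * (1 / L0 + 3) := ⟨_, rfl⟩
  have hC'0 : 0 ≤ C' := by rw [hC']; positivity
  obtain ⟨n1, hn1⟩ := descF_ge h h0 h1 C'
  obtain ⟨n2, hn2⟩ := polylog_le C' 1 (1 / 2) (by norm_num)
  obtain ⟨e2, he2⟩ : ∃ e2, e2 = Real.exp (3 * (η * L0)) := ⟨_, rfl⟩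
  have he20 : 0 < e2 := by rw [he2]; exact Real.exp_pos _
  obtain ⟨A1, hA1⟩ : ∃ A1, A1 = 12 * (12 * C' + 1) * C' * e2 / c := ⟨_, rfl⟩
  have hA10 : 0 ≤ A1 := by rw [hA1]; positivity
  obtain ⟨n3, hn3⟩ := polylog_le ((A1 + 6) * (1 / L0 + 4)) 3 (δ / 2) (by linarith)
  refine ⟨max (max n1 n2) (max n3 2), ?_⟩
  intro n hn D _ _ hcD f hf v R M hR hM
  have hnn1 : n1 ≤ n := (le_max_left _ _).trans ((le_max_left _ _).trans hn)
  have hnn2 : n2 ≤ n := (le_max_right _ _).trans ((le_max_left _ _).trans hn)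
  have hnn3 : n3 ≤ n := (le_max_left _ _).trans ((le_max_right _ _).trans hn)
  have hnn4 : 2 ≤ n := (le_max_right _ _).trans ((le_max_right _ _).trans hn)
  obtain ⟨N, hN⟩ : ∃ N : ℝ, N = n := ⟨_, rfl⟩
  have hN2 : 2 ≤ N := by rw [hN]; exact_mod_cast hnn4
  have hN0 : 0 < N := by linarith
  have hlog : 0 ≤ Real.log N := Real.log_nonneg (by linarith)
  obtain ⟨l, hl⟩ : ∃ l, l = Real.log N + 1 := ⟨_, rfl⟩
  have hl1 : 1 ≤ l := by rw [hl]; linarith
  have hl0 : 0 ≤ l := by linarith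
  have hDD : DD h = 1 / L0 := by rw [hL]; rfl
  rw [hDD, ← hN] at hR
  rw [← hN] at hM
  have hiL : 0 < 1 / L0 := by positivity
  have hRl : (R : ℝ) ≤ (1 / L0 + 3) * l := by
    have h2 : κ * (1 / L0) * Real.log N ≤ 1 / L0 * l := by
      have h3 : κ * (1 / L0) ≤ 1 / L0 := by nlinarith
      have h4 : Real.log N ≤ l := by rw [hl]; linarith
      calc κ * (1 / L0) * Real.log N ≤ (1 / L0) * Real.log N := by gcongr
        _ ≤ 1 / L0 * l := by gcongr
    nlinarith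
  have hNb : 0 < N ^ (κ + δ / 2) := Real.rpow_pos_of_pos hN0 _
  have hNN : N * N ^ (κ + δ / 2) = N ^ (1 + κ + δ / 2) := by
    have h2 := Real.rpow_add hN0 1 (κ + δ / 2)
    rw [Real.rpow_one] at h2
    rw [← h2]
    congr 1
    ring
  have hT0 : (0 : ℝ) ≤ (TS f v).ncard := Nat.cast_nonneg _
  -- one value of `r`
  have hone : ∀ r ∈ Finset.range (R + 1), ((Pr f v r M).ncard : ℝ) ≤
      (TS f v).ncard * ((A1 + 6) * l ^ 2 * (N * N ^ (κ + δ / 2))) := by
    intro r hr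
    have hrR : r ≤ R := Nat.lt_succ_iff.1 (Finset.mem_range.1 hr)
    rcases Nat.eq_zero_or_pos r with hr0 | hr1
    · subst hr0
      have h2 := asy_zero (f := f) hf v M
      rw [hcD] at h2
      have h3 : ((Pr f v 0 M).ncard : ℝ) ≤ (TS f v).ncard * (6 * N) := by
        rw [hN]
        exact_mod_cast h2
      refine h3.trans (mul_le_mul_of_nonneg_left ?_ hT0)
      have h4 : 1 ≤ N ^ (κ + δ / 2) := Real.one_le_rpow (by linarith) (by linarith)
      have h5 : 1 ≤ l ^ 2 := one_le_pow₀ hl1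
      have h6 : 6 ≤ (A1 + 6) * l ^ 2 := by nlinarith
      have h7 : N ≤ N * N ^ (κ + δ / 2) := le_mul_of_one_le_right hN0.le h4
      calc 6 * N ≤ 6 * (N * N ^ (κ + δ / 2)) := by gcongr
        _ ≤ _ := by gcongr
    · obtain ⟨K, -, hKC, F, hF, hcF⟩ := henum r hr1
      have hrR' : (r : ℝ) ≤ R := by exact_mod_cast hrR
      have hCrl : (C * r : ℝ) ≤ C' * l := by
        calc (C * r : ℝ) ≤ C * ((1 / L0 + 3) * l) := by
              have h2 := hrR'.trans hRl
              gcongr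
          _ = C' * l := by rw [hC']; ring
      have hKr : (K : ℝ) ≤ C' * l := by
        have h2 : (K : ℝ) ≤ C * r := by exact_mod_cast hKC
        exact h2.trans hCrl
      have hKr' : (K : ℝ) ≤ C' * Real.log n + C' := by
        rw [← hN]
        rw [hl] at hKr
        linarith
      have hdesc := hn1 n hnn1 K M hKr' (by rw [← hN]; exact hM)
      have hKn : K < n := by
        have h2 := hn2 n hnn2
        rw [← hN, pow_one, ← hl] at h2
        have h3 : N ^ (1 / 2 : ℝ) < N ^ (1 : ℝ) :=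
          Real.rpow_lt_rpow_of_exponent_lt (by linarith) (by norm_num)
        rw [Real.rpow_one] at h3
        have h4 : (K : ℝ) < N := (hKr.trans h2).trans_lt h3
        rw [hN] at h4
        exact_mod_cast h4
      have hmain := mainP hf v r M K hr1 (by rw [hcD]; omega) F hF
      rw [hcD] at hmain
      have hmain' : ((Pr f v r M).ncard : ℝ) * ((M - 2).descFactorial K : ℝ) * (F.card : ℝ) ≤
          (TS f v).ncard * (6 * N) ^ (K + 1) * (12 * K + 1) := by
        rw [hN]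
        exact_mod_cast hmain
      rw [← hN] at hdesc
      have hmu : 1 ≤ μ ^ r * (e2 * N ^ (κ + δ / 2)) := by
        have h2 : μ ^ r = Real.exp (-(r * (η * L0))) := by
          rw [hμd, ← Real.exp_nat_mul]
          congr 1
          ring
        rw [h2, he2, Real.rpow_def_of_pos hN0, ← Real.exp_add, ← Real.exp_add,
          Real.one_le_exp_iff]
        have h3 : (r : ℝ) ≤ κ * (1 / L0) * Real.log N + 3 := hrR'.trans hR
        have h4 : (r : ℝ) * (η * L0) ≤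
            (κ * (1 / L0) * Real.log N + 3) * (η * L0) :=
          mul_le_mul_of_nonneg_right h3 (by positivity)
        have h5 : (κ * (1 / L0) * Real.log N + 3) * (η * L0) =
            Real.log N * (κ * η) + 3 * (η * L0) := by
          field_simp
        rw [h5, hηe] at h4
        linarith
      have h2 := asy_one (b := κ + δ / 2) (Nat.cast_nonneg _) hT0 (by linarith)
        (lam_pos h h0) (Nat.cast_nonneg _) hc hC'0 hl1 hμ he20 hKr hCrl hdesc hmain' hcF hmu hA1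
      refine h2.trans (mul_le_mul_of_nonneg_left ?_ hT0)
      have h8 : A1 ≤ A1 + 6 := by linarith
      gcongr
  refine (Finset.sum_le_sum hone).trans ?_
  rw [Finset.sum_const, Finset.card_range, nsmul_eq_mul, ← hN]
  have hfin := hn3 n hnn3
  rw [← hN, ← hl] at hfin
  have hR1 : ((R + 1 : ℕ) : ℝ) ≤ (1 / L0 + 4) * l := by
    push_cast
    nlinarith
  have hpow : N ^ (1 + κ + δ) = N ^ (δ / 2) * N ^ (1 + κ + δ / 2) := by
    rw [← Real.rpow_add hN0]
    congr 1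
    ring
  rw [hpow, hNN]
  have hNp : 0 < N ^ (1 + κ + δ / 2) := Real.rpow_pos_of_pos hN0 _
  calc ((R + 1 : ℕ) : ℝ) * ((TS f v).ncard * ((A1 + 6) * l ^ 2 * N ^ (1 + κ + δ / 2)))
      ≤ ((1 / L0 + 4) * l) * ((TS f v).ncard * ((A1 + 6) * l ^ 2 * N ^ (1 + κ + δ / 2))) := by
        gcongr
    _ = (TS f v).ncard * (((A1 + 6) * (1 / L0 + 4) * l ^ 3) * N ^ (1 + κ + δ / 2)) := by ring
    _ ≤ (TS f v).ncard * (N ^ (δ / 2) * N ^ (1 + κ + δ / 2)) := by gcongr

end QL40
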