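import Mathlib
import Pool.Agent.H40.QL.Defs
import Pool.Agent.H39.HG.GlueVal
import Pool.Agent.H39.HG.ZSwap

/-!
[H40 QL COCY]  (MP_bcc40c_pr, Q2 lower half)  The cocycle of a closed dual curve, and its sum along a boundary component.

PROOFS.
cocycle_exists: for `d ∈ F` let `Good d` say: there is `c0 : D → ZMod 2` with `c0 (α x) = c0 x`, `c0 x ≠ 0 → x ∈ ent l`, and `c0 x + c0 (f x) + c0 (f (f x)) = [x, f x or f (f x) is α d0] + [x, f x or f (f x) is d]` for all `x` (brackets: 1 if true, 0 otherwise, in ZMod 2; i.e. the face of `x` contains `α d0`, resp. `d`).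
 `Good (α d0)`: `c0 = 0` (`1 + 1 = 0`).  `Good d → Good (f d)`: the same `c0` (`f` has order three: a face containing `d` contains `f d`).  For `p ∈ l`: `Good p.1 ↔ Good p.2`: add to `c0` the indicator of `{p.1, p.2}` (`p.1 ≠ p.2`, both entries of `l`, `α` exchanges them); the
 sum of this indicator over the face of `x` is `[p.1 ∈ face x] + [p.2 ∈ face x]`.  By `hcon` (with `P = Good`, `α d0 ∈ F`) `Good d0`.  Take `c x = c0 x + (if x = d0 ∨ x = α d0 then 1 else 0)`: the sum over the face of `x` is `[α d0 ∈] + [d0 ∈] + [d0 ∈] + [α d0 ∈] = 0`; `c d0 = 0 + 1` because `d0 ∉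
 ent l`.
sum_cycle: let `β = glue 1 l` and `C = {x | (f * β).SameCycle d0 x}` (Finset.filter).  `x ↦ (f * β) x` is a bijection of `C`, so `∑_{x ∈ C} (Ψ x + Ψ ((f * β) x)) = 2 ∑ Ψ = 0`.  `C ⊆ F` (`F` closed under `f` and `β`).  For `x ∈ C`: if `x ∈ ent l` then `β x = α x` and
 `Ψ (f (α x)) = Ψ x` by (ht): the term is 0.  If `x ∉ ent l` then `β x = x`, `Ψ (f x) = Ψ (f (α (α x))) = Ψ (α x)` by (ht) for `α x`, so the term is `Ψ x + Ψ (α x) = c x` by (hc), and `c x = 0` unless `x = d0` (`x ∉ ent l`; `x = α d0` is impossible, `α d0 ∉ C`).  So the sum is `c d0 = 1`.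
 Contradiction.
-/

set_option autoImplicit false

namespace QL40

open Equiv HG39 QD39

variable {D : Type} [Fintype D] [DecidableEq D]

/-- indicator of a dart -/
private def e1 (p x : D) : ZMod 2 := if x = p then 1 else 0

/-- sum of the indicator over the face of `x` -/
private def e3 (f : Perm D) (p x : D) : ZMod 2 := e1 p x + e1 p (f x) + e1 p (f (f x))

omit [Fintype D] in
private theorem e3_f {f : Perm D} (h3 : ∀ d, f (f (f d)) = d) (p x : D) :
    e3 f (f p) x = e3 f p x := by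
  have h1 : e1 (f p) x = e1 p (f (f x)) := by
    unfold e1
    refine if_congr ⟨fun h => ?_, fun h => ?_⟩ rfl rfl
    · rw [h, h3]
    · rw [← h, h3]
  have h2 : e1 (f p) (f x) = e1 p x := by
    unfold e1
    exact if_congr ⟨fun h => f.injective h, fun h => by rw [h]⟩ rfl rfl
  have h4 : e1 (f p) (f (f x)) = e1 p (f x) := by
    unfold e1
    exact if_congr ⟨fun h => f.injective h, fun h => by rw [h]⟩ rfl rfl
  unfold e3
  rw [h1, h2, h4]
  ring

omit [Fintype D] in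
private theorem e1_inv {α : Perm D} (hi : ∀ d, α (α d) = d) (p x : D) :
    e1 p (α x) = e1 (α p) x := by
  unfold e1
  refine if_congr ⟨fun h => ?_, fun h => ?_⟩ rfl rfl
  · rw [← h, hi]
  · rw [h, hi]

private theorem two_zero (a : ZMod 2) : a + a = 0 := CharTwo.add_self_eq_zero a

private theorem mem_ent (l : List (D × D)) (x : D) :
    x ∈ ent l ↔ ∃ p ∈ l, x = p.1 ∨ x = p.2 := by
  unfold ent
  simp only [List.mem_flatMap, List.mem_cons, List.not_mem_nil, or_false]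

theorem cocycle_exists {f α : Perm D} (hf : TF f) (hi : ∀ d, α (α d) = d) (hn : ∀ d, α d ≠ d)
    (F : Finset D) (hFf : ∀ d ∈ F, f d ∈ F) (l : List (D × D))
    (hl : ∀ p ∈ l, p.1 ∈ F ∧ p.2 ∈ F ∧ α p.1 = p.2)
    (hcon : ∀ P : D → Prop, (∃ d ∈ F, P d) → (∀ d ∈ F, P d → P (f d)) →
      (∀ p ∈ l, (P p.1 ↔ P p.2)) → ∀ d ∈ F, P d) (d0 : D) (h0 : d0 ∈ F) (h1 : α d0 ∈ F)
    (h2 : d0 ∉ ent l) :
    ∃ c : D → ZMod 2, Coc f α c ∧ c d0 = 1 ∧ ∀ x, c x ≠ 0 → x = d0 ∨ x = α d0 ∨ x ∈ ent l := by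
  set Good : D → Prop := fun d => ∃ c0 : D → ZMod 2, (∀ x, c0 (α x) = c0 x) ∧
    (∀ x, c0 x ≠ 0 → x ∈ ent l) ∧
    ∀ x, c0 x + c0 (f x) + c0 (f (f x)) = e3 f (α d0) x + e3 f d x with hGood
  have hstep : ∀ p q : D, α p = q → p ∈ ent l → q ∈ ent l → Good p → Good q := by
    rintro p q hpq hp hq ⟨c0, k1, k2, k3⟩
    have hqp : α q = p := by rw [← hpq, hi]
    refine ⟨fun x => c0 x + (e1 p x + e1 q x), fun x => ?_, fun x hx => ?_, fun x => ?_⟩
    · show c0 (α x) + (e1 p (α x) + e1 q (α x)) = c0 x + (e1 p x + e1 q x)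
      rw [k1, e1_inv hi, e1_inv hi, hpq, hqp, add_comm (e1 q x)]
    · by_cases hxp : x = p
      · rw [hxp]; exact hp
      by_cases hxq : x = q
      · rw [hxq]; exact hq
      apply k2
      intro h
      apply hx
      show c0 x + (e1 p x + e1 q x) = 0
      rw [h]
      simp [e1, hxp, hxq]
    · have k := k3 x
      show c0 x + (e1 p x + e1 q x) + (c0 (f x) + (e1 p (f x) + e1 q (f x))) +
        (c0 (f (f x)) + (e1 p (f (f x)) + e1 q (f (f x)))) = e3 f (α d0) x + e3 f q x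
      have e : c0 x + (e1 p x + e1 q x) + (c0 (f x) + (e1 p (f x) + e1 q (f x))) +
        (c0 (f (f x)) + (e1 p (f (f x)) + e1 q (f (f x)))) =
          (c0 x + c0 (f x) + c0 (f (f x))) + e3 f p x + e3 f q x := by
        unfold e3; ring
      rw [e, k]
      have e' : e3 f (α d0) x + e3 f p x + e3 f p x + e3 f q x =
          e3 f (α d0) x + e3 f q x + (e3 f p x + e3 f p x) := by ring
      rw [e', two_zero, add_zero]
  have hG : ∀ d ∈ F, Good d := by
    refine hcon Good ⟨α d0, h1, ?_⟩ ?_ ?_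
    · exact ⟨fun _ => 0, fun _ => rfl, fun x hx => absurd rfl hx, fun x => by
        rw [two_zero (e3 f (α d0) x)]; simp⟩
    · rintro d _ ⟨c0, k1, k2, k3⟩
      exact ⟨c0, k1, k2, fun x => by rw [k3, e3_f hf.three]⟩
    · intro p hp
      have m1 : p.1 ∈ ent l := (mem_ent l _).2 ⟨p, hp, Or.inl rfl⟩
      have m2 : p.2 ∈ ent l := (mem_ent l _).2 ⟨p, hp, Or.inr rfl⟩
      have ha := (hl p hp).2.2
      exact ⟨hstep p.1 p.2 ha m1 m2, hstep p.2 p.1 (by rw [← ha, hi]) m2 m1⟩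
  obtain ⟨c0, k1, k2, k3⟩ := hG d0 h0
  refine ⟨fun x => c0 x + (e1 d0 x + e1 (α d0) x), ⟨fun x => ?_, fun x => ?_⟩, ?_, fun x hx => ?_⟩
  · show c0 (α x) + (e1 d0 (α x) + e1 (α d0) (α x)) = c0 x + (e1 d0 x + e1 (α d0) x)
    rw [k1, e1_inv hi, e1_inv hi, hi, add_comm (e1 (α d0) x)]
  · show c0 x + (e1 d0 x + e1 (α d0) x) + (c0 (f x) + (e1 d0 (f x) + e1 (α d0) (f x))) +
        (c0 (f (f x)) + (e1 d0 (f (f x)) + e1 (α d0) (f (f x)))) = 0
    have e : c0 x + (e1 d0 x + e1 (α d0) x) + (c0 (f x) + (e1 d0 (f x) + e1 (α d0) (f x))) +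
        (c0 (f (f x)) + (e1 d0 (f (f x)) + e1 (α d0) (f (f x)))) =
          (c0 x + c0 (f x) + c0 (f (f x))) + (e3 f (α d0) x + e3 f d0 x) := by
      unfold e3; ring
    rw [e, k3, two_zero]
  · show c0 d0 + (e1 d0 d0 + e1 (α d0) d0) = 1
    have : c0 d0 = 0 := by
      by_contra h
      exact h2 (k2 d0 h)
    rw [this]
    have h5 : d0 ≠ α d0 := (hn d0).symm
    simp [e1, h5]
  · by_cases hx1 : x = d0
    · exact Or.inl hx1
    by_cases hx2 : x = α d0
    · exact Or.inr (Or.inl hx2)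
    right; right
    apply k2
    intro h
    apply hx
    show c0 x + (e1 d0 x + e1 (α d0) x) = 0
    rw [h]
    simp [e1, hx1, hx2]

theorem sum_cycle {f α : Perm D} (hf : TF f) (hi : ∀ d, α (α d) = d)
    (F : Finset D) (hFf : ∀ d ∈ F, f d ∈ F) (l : List (D × D)) (hnd : (ent l).Nodup)
    (hl : ∀ p ∈ l, p.1 ∈ F ∧ p.2 ∈ F ∧ α p.1 = p.2) (d0 : D) (h0 : d0 ∈ F)
    (h2 : d0 ∉ ent l) (h3 : ¬ (f * glue 1 l).SameCycle d0 (α d0)) (c Ψ : D → ZMod 2)
    (hc1 : c d0 = 1) (hc2 : ∀ x, c x ≠ 0 → x = d0 ∨ x = α d0 ∨ x ∈ ent l)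
    (ht : ∀ d, (d ∈ F ∨ α d ∈ F) → Ψ (f (α d)) = Ψ d) (hc : ∀ d ∈ F, c d = Ψ d + Ψ (α d)) :
    False := by
  classical
  set β := glue (1 : Perm D) l with hβ
  have hin : ∀ x ∈ ent l, β x = α x ∧ α x ∈ F := by
    intro x hx
    obtain ⟨p, hp, h⟩ := (mem_ent l x).1 hx
    obtain ⟨g1, g2⟩ := glue_mem (1 : Perm D) l hnd p hp
    obtain ⟨f1, f2, f3⟩ := hl p hp
    rcases h with rfl | rfl
    · refine ⟨?_, by rw [f3]; exact f2⟩
      rw [hβ, g1, f3]; rfl
    · have : α p.2 = p.1 := by rw [← f3, hi]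
      refine ⟨?_, by rw [this]; exact f1⟩
      rw [hβ, g2, this]; rfl
  have hout : ∀ x, x ∉ ent l → β x = x := by
    intro x hx
    rw [hβ, glue_notMem _ _ _ hx]; rfl
  have hFβ : ∀ x ∈ F, (f * β) x ∈ F := by
    intro x hx
    rw [Equiv.Perm.mul_apply]
    apply hFf
    by_cases h : x ∈ ent l
    · rw [(hin x h).1]; exact (hin x h).2
    · rw [hout x h]; exact hx
  have hpow : ∀ i : ℕ, ((f * β) ^ i) d0 ∈ F := by
    intro i
    induction i with
    | zero => simpa using h0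
    | succ i ih => rw [pow_succ', Equiv.Perm.mul_apply]; exact hFβ _ ih
  set C : Finset D := Finset.univ.filter (fun x => (f * β).SameCycle d0 x) with hC
  have hCF : ∀ x ∈ C, x ∈ F := by
    intro x hx
    rw [hC, Finset.mem_filter] at hx
    obtain ⟨i, hi'⟩ := hx.2.exists_nat_pow_eq
    rw [← hi']; exact hpow i
  have hsum1 : ∑ x ∈ C, Ψ ((f * β) x) = ∑ x ∈ C, Ψ x := by
    refine Finset.sum_bij (fun x _ => (f * β) x) ?_ ?_ ?_ ?_
    · intro x hx
      rw [hC, Finset.mem_filter] at hx ⊢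
      exact ⟨Finset.mem_univ _, Equiv.Perm.sameCycle_apply_right.2 hx.2⟩
    · intro x _ y _ h
      exact (f * β).injective h
    · intro x hx
      refine ⟨(f * β).symm x, ?_, by simp⟩
      rw [hC, Finset.mem_filter] at hx ⊢
      refine ⟨Finset.mem_univ _, ?_⟩
      rw [← Equiv.Perm.sameCycle_apply_right, Equiv.apply_symm_apply]
      exact hx.2
    · intro x _; rfl
  have hsum0 : ∑ x ∈ C, (Ψ x + Ψ ((f * β) x)) = 0 := by
    rw [Finset.sum_add_distrib, hsum1, two_zero]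
  have hterm : ∀ x ∈ C, Ψ x + Ψ ((f * β) x) = if x = d0 then 1 else 0 := by
    intro x hx
    have hxF := hCF x hx
    rw [Equiv.Perm.mul_apply]
    by_cases h : x ∈ ent l
    · rw [(hin x h).1, ht x (Or.inl hxF), two_zero, if_neg]
      intro h'
      exact h2 (h' ▸ h)
    · rw [hout x h]
      have h4 : Ψ (f x) = Ψ (α x) := by
        have := ht (α x) (Or.inr (by rw [hi]; exact hxF))
        rwa [hi] at this
      rw [h4, ← hc x hxF]
      by_cases h5 : x = d0
      · rw [if_pos h5, h5, hc1]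
      · rw [if_neg h5]
        by_contra h6
        rcases hc2 x h6 with h7 | h7 | h7
        · exact h5 h7
        · apply h3
          rw [hC, Finset.mem_filter] at hx
          rw [← h7]
          exact hx.2
        · exact h h7
  rw [Finset.sum_congr rfl hterm] at hsum0
  have hd0C : d0 ∈ C := by
    rw [hC, Finset.mem_filter]
    exact ⟨Finset.mem_univ _, Equiv.Perm.SameCycle.refl _ _⟩
  rw [Finset.sum_ite_eq' C d0, if_pos hd0C] at hsum0
  exact one_ne_zero hsum0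

end QL40
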