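import Mathlib
import Pool.Agent.H40.QL.Phi

/-!
[H40 QL TAU]  (MP_bcc40c_pr, Q2 lower half)  If the loops of all level edges up to level `J` vanish, then `Ph` depends only on the
vertex, up to level `J`.

PROOFS.  Write `Φ = Ph`, `θ y = c y + Φ y + Φ (α y)`, `ρ = α f⁻¹`.
th_al: `c (α y) = c y`, `α (α y) = y`.
th_desc: ph_desc: `Φ y = c y + Φ (α y)`, and `x + x = 0` in ZMod 2 (use `CharTwo.add_self_eq_zero` or `decide`-style lemmas); an
ascending dart `y` (`ℓ (f y) = ℓ y + 1`): `α y` is descending, th_al.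
tau: put `e = f (α d)`, so `ρ e = α (f⁻¹ e) = α (α d) = d`, `ℓ e = ℓ d` (lb_same or Lab.ver).  If `e` is not descending: ph_rot.
Let `e` be descending.  Its face is `e, f e, f (f e)`, `f⁻¹ e = f (f e)` (hf.three), so `d = ρ e = α (f (f e))`, i.e. `f (f e) = α d`;
`ℓ (f e) = ℓ e - 1`; the third vertex has the label `ℓ (f (f e)) = ℓ (α d)` (as darts), i.e. `ℓ (f d)`; by lip (both directions, lb_low)
`ℓ (f (f e)) ∈ {ℓ e - 1, ℓ e}` (it differs by at most 1 from `ℓ (f e) = ℓ e - 1` and from `ℓ e`, so it is `ℓ e - 1`, `ℓ e`, and `ℓ e - 2` is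
excluded by `ℓ (f (f (f e))) = ℓ e ≤ ℓ (f (f e)) + 1`).
 Case 1: `ℓ (f (f e)) = ℓ e - 1`: `f e` is a level dart at level `ℓ e - 1 ≤ J`, so `θ (f e) = 0`.  `d` is descending (`ℓ (f d) = ℓ (α d)
 = ℓ (f (f e)) = ℓ d - 1`): `Φ d = c d + Φ (α d) = c (f (f e)) + Φ (f (f e))`, and `f (f e)` is ascending, so not descending: `Φ (f (f e)) = Φ (ρ (f f e))
 = Φ (α (f e))`.  `Φ e = c e + Φ (α e)`; `f e` is not descending: `Φ (f e) = Φ (ρ (f e)) = Φ (α e)`.  Sum: `Φ d + Φ e = c (f f e) + c e +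
 Φ (α (f e)) + Φ (f e) = c (f e) + Φ (α (f e)) + Φ (f e) = θ (f e) = 0` (Coc.cf).
 Case 2: `ℓ (f (f e)) = ℓ e`: `d` is a level dart (`ℓ (f d) = ℓ (α d) = ℓ (f (f e)) = ℓ e = ℓ d`), at level `≤ J`: `θ d = 0`, i.e. `c d + Φ d + Φ (α d) = 0` with
 `α d = f (f e)` level, so `Φ (f f e) = Φ (α (f e))`; `f e` is ascending, so `α (f e)` is descending: `Φ (α (f e)) = c (f e) + Φ (f e)` (ph_desc, `α (α (f e))
 = f e`, Coc.ca), `Φ (f e) = Φ (α e)` (ph_rot), `Φ e = c e + Φ (α e)`.  So `Φ d = c d + Φ (α d) = c (f f e) + c (f e) + Φ (α e) = c e + Φ (α e) = Φ e`.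
tau_same: induction along the cycle (all its darts have the level `ℓ d`): `(f * α) z = f (α z)`.
-/

set_option autoImplicit false

namespace QL40

open Equiv HG39 QD39

variable {D : Type} [Fintype D] [DecidableEq D]

omit [Fintype D] [DecidableEq D] in
private theorem tau_leg {f α : Perm D} (h : PT f α []) (d : D) : α d ≠ d := by
  intro h1
  have h2 := (h.leg d).1 h1
  simp [tri] at h2

private theorem tau_z1 : ∀ p q r x y : ZMod 2, p + q + r = 0 → q + x + y = 0 →
    p + x = r + y := by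
  decide

private theorem tau_z2 : ∀ p q r x z : ZMod 2, p + q + r = 0 → r + z + (q + x) = 0 →
    p + x = z := by
  decide

private theorem tau_z3 : ∀ a b : ZMod 2, a + (a + b) + b = 0 := by
  decide

omit [Fintype D] [DecidableEq D] in
private theorem tau_fi {f : Perm D} (y : D) : f⁻¹ (f y) = y := by
  exact f.symm_apply_apply y

theorem th_al {f α : Perm D} (ℓ : D → ℤ) {c : D → ZMod 2} (hi : ∀ d, α (α d) = d)
    (hc : Coc f α c) (y : D) : th f α ℓ c (α y) = th f α ℓ c y := by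
  unfold th
  rw [hi, hc.ca]
  ring

theorem th_desc {f α : Perm D} {ℓ : D → ℤ} (hf : TF f) (hα : PT f α []) (hl : Lab f α ℓ)
    {c : D → ZMod 2} (hc : Coc f α c) (y : D) (hy : ℓ (f y) ≠ ℓ y) : th f α ℓ c y = 0 := by
  have hb := lb_of_lab hα hl
  have hdesc : ∀ z, Desc f ℓ z → th f α ℓ c z = 0 := by
    intro z hz
    unfold th
    rw [ph_desc hf hα hl c z hz]
    exact tau_z3 _ _
  have h1 := hb.lip y
  have h2 := lb_low hb y
  rcases lt_or_gt_of_ne hy with h3 | h3
  · apply hdesc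
    change ℓ (f y) = ℓ y - 1
    omega
  · rw [← th_al ℓ hα.inv hc y]
    apply hdesc
    change ℓ (f (α y)) = ℓ (α y) - 1
    have h4 := hb.ver (α y)
    rw [hα.inv] at h4
    have h5 := hb.ver y
    omega

theorem tau {f α : Perm D} {ℓ : D → ℤ} (hf : TF f) (hα : PT f α []) (hl : Lab f α ℓ)
    {c : D → ZMod 2} (hc : Coc f α c) (J : ℤ)
    (hth : ∀ y, ℓ (f y) = ℓ y → ℓ y ≤ J → th f α ℓ c y = 0) (d : D) (hd : ℓ d ≤ J) :
    Ph f α ℓ c (f (α d)) = Ph f α ℓ c d := by
  have hb := lb_of_lab hα hl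
  obtain ⟨e, he⟩ : ∃ e, e = f (α d) := ⟨_, rfl⟩
  rw [← he]
  have hrot : α (f⁻¹ e) = d := by
    rw [he, tau_fi, hα.inv]
  by_cases hD : Desc f ℓ e
  · have he2 : f (f e) = α d := by
      rw [he, hf.three]
    have hle : ℓ e = ℓ d := by
      have h1 := hb.ver (α d)
      rw [hα.inv] at h1
      rw [he]
      exact h1
    have hl1 : ℓ (f e) = ℓ e - 1 := hD
    have hl2 := hb.lip (f e)
    have hl3 := hb.lip (f (f e))
    rw [hf.three] at hl3
    have hfd := hb.ver d
    rw [← he2] at hfd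
    have hcs := hc.cf e
    have hcd : c d = c (f (f e)) := by
      rw [he2, hc.ca]
    have hPe := ph_desc hf hα hl c e hD
    rcases (by omega : ℓ (f (f e)) = ℓ e - 1 ∨ ℓ (f (f e)) = ℓ e) with h | h
    · have t1 := hth (f e) (by omega) (by omega)
      have hDd : Desc f ℓ d := by
        change ℓ (f d) = ℓ d - 1
        omega
      have hPd := ph_desc hf hα hl c d hDd
      rw [← he2, hcd] at hPd
      have hn2 : ¬ Desc f ℓ (f (f e)) := by
        intro h5
        have h6 : ℓ (f (f (f e))) = ℓ (f (f e)) - 1 := h5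
        rw [hf.three] at h6
        omega
      have hP2 := ph_rot hf hα hl c (f (f e)) hn2
      rw [tau_fi] at hP2
      have hn1 : ¬ Desc f ℓ (f e) := by
        intro h5
        have h6 : ℓ (f (f e)) = ℓ (f e) - 1 := h5
        omega
      have hP1 := ph_rot hf hα hl c (f e) hn1
      rw [tau_fi] at hP1
      unfold th at t1
      rw [hPe, hPd, hP2, ← hP1]
      exact tau_z1 _ _ _ _ _ hcs t1
    · have t1 := hth d (by omega) hd
      have hn2 : ¬ Desc f ℓ (f (f e)) := by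
        intro h5
        have h6 : ℓ (f (f (f e))) = ℓ (f (f e)) - 1 := h5
        rw [hf.three] at h6
        omega
      have hP2 := ph_rot hf hα hl c (f (f e)) hn2
      rw [tau_fi] at hP2
      have hn1 : ¬ Desc f ℓ (f e) := by
        intro h5
        have h6 : ℓ (f (f e)) = ℓ (f e) - 1 := h5
        omega
      have hP1 := ph_rot hf hα hl c (f e) hn1
      rw [tau_fi] at hP1
      have hDa : Desc f ℓ (α (f e)) := by
        change ℓ (f (α (f e))) = ℓ (α (f e)) - 1
        have h4 := hb.ver (α (f e))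
        rw [hα.inv] at h4
        have h5 := hb.ver (f e)
        omega
      have hPa := ph_desc hf hα hl c (α (f e)) hDa
      rw [hα.inv, hc.ca] at hPa
      unfold th at t1
      rw [← he2, hP2, hPa, hcd, hP1] at t1
      rw [hPe]
      exact tau_z2 _ _ _ _ _ hcs t1
  · rw [ph_rot hf hα hl c e hD, hrot]

theorem tau_same {f α : Perm D} {ℓ : D → ℤ} (hf : TF f) (hα : PT f α []) (hl : Lab f α ℓ)
    {c : D → ZMod 2} (hc : Coc f α c) (J : ℤ)
    (hth : ∀ y, ℓ (f y) = ℓ y → ℓ y ≤ J → th f α ℓ c y = 0) (d d' : D) (hd : ℓ d ≤ J)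
    (hs : (f * α).SameCycle d d') : Ph f α ℓ c d = Ph f α ℓ c d' := by
  have hb := lb_of_lab hα hl
  have key : ∀ n : ℕ, ℓ (((f * α) ^ n) d) ≤ J ∧
      Ph f α ℓ c d = Ph f α ℓ c (((f * α) ^ n) d) := by
    intro n
    induction n with
    | zero => exact ⟨hd, rfl⟩
    | succ n ih =>
      rw [pow_succ', Perm.mul_apply, Perm.mul_apply]
      refine ⟨?_, ?_⟩
      · have h1 := hb.ver (α (((f * α) ^ n) d))
        rw [hα.inv] at h1
        rw [h1]
        exact ih.1
      · rw [tau hf hα hl hc J hth _ ih.1]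
        exact ih.2
  obtain ⟨n, -, hn⟩ := hs.exists_pow_eq'
  have h1 := (key n).2
  rw [hn] at h1
  exact h1

end QL40
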