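import Mathlib
import Pool.Agent.H40.QL.Tau

/-!
[H40 QL EXTR]  (MP_bcc40c_pr, Q2 lower half)  From an essential loop of a level edge to a simple one: a bigon `Big` or a triangular loop
`Big1`.

PROOF.  Among the level darts `y` (`ℓ (f y) = ℓ y`, `ℓ y ≤ R`) with `th y = 1` choose one with minimal level `j = ℓ y` (`c` is fixed).  By tau_same with `J = j - 1`:
(*) if `ℓ z < j` and `z, z'` are in the same cycle of `f * α` then `Ph z = Ph z'`  (level darts up to level `j - 1` have `th ≠ 1`, so `th = 0` in ZMod 2).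
Let `a i = gs y i`, `b i = gs (α y) i` (`ℓ (α y) = ℓ (f y) = j`).  Levels: gs_lev.
Case B: `y, α y` in the same cycle and `c y = 1`: `Big1` with `k = 0`, the sum is `c y = 1`.
Case A: `y, α y` in different cycles.  Then `j ≥ 1` (Lab.zro at level 0).  Let `k ≥ 1` be minimal such that `α (a (k-1))` and `α (b (k-1))` are in the same cycle; `k = j` has this property (both at level 0, Lab.zro), so `k ≤ j` (Nat.find).  For `1 ≤ i < k`: `a i` is in the cycle of `α (a (i-1))`, `b i` in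
the one of `α (b (i-1))` (fst_same of gs_step), so `sep`.  By ph_tail for `y` and `α y` with `k - 1`: `1 = th y = c y + ∑_{i<k} (c (a i) + c (b i)) + Ph (α (a (k-1))) + Ph (α (b (k-1)))`, and the last two are equal by (*) (level `j - k < j`), so they cancel.
Case C: `y, α y` in the same cycle and `c y = 0`: `Ph y + Ph (α y) = 1`, so `j ≥ 1` (otherwise both are 0) and `a 0 ≠ b 0` (if `a 0 = b 0` then `a i = b i` for all `i` and `Ph y = Ph (α y)`).  `a 0, b 0` are in the cycle of `y` (gs_zero, fst_same).  `k` as before; `Big` with this `k`; the sum is 1 by the same computation.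
(In Lean: `ZMod 2` elements are 0 or 1: `fin_cases` or `ZMod` lemmas; `x + x = 0`: CharTwo.add_self_eq_zero.)
-/

set_option autoImplicit false

namespace QL40

open Equiv HG39 QD39

variable {D : Type} [Fintype D] [DecidableEq D]

private lemma zt (x : ZMod 2) (h : x ≠ 1) : x = 0 := by
  revert h; revert x; decide

/-- the two leftmost geodesics from the two ends of a level dart, until they meet -/
private lemma meet {f α : Perm D} {ℓ : D → ℤ} (hf : TF f) (hα : PT f α []) (hl : Lab f α ℓ)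
    {c : D → ZMod 2} (y : D) (hy : ℓ (f y) = ℓ y) (hj : 0 < ℓ y)
    (hs : ∀ z z' : D, ℓ z < ℓ y → (f * α).SameCycle z z' → Ph f α ℓ c z = Ph f α ℓ c z') :
    ∃ k0 : ℕ, (k0 : ℤ) + 1 ≤ ℓ y ∧
      (∀ i < k0 + 1, Desc f ℓ (gs f α ℓ y i)) ∧ (∀ i < k0 + 1, Desc f ℓ (gs f α ℓ (α y) i)) ∧
      (∀ i, i + 1 < k0 + 1 → Fst f α ℓ (α (gs f α ℓ y i)) (gs f α ℓ y (i + 1))) ∧
      (∀ i, i + 1 < k0 + 1 → Fst f α ℓ (α (gs f α ℓ (α y) i)) (gs f α ℓ (α y) (i + 1))) ∧
      (∀ i, 1 ≤ i → i < k0 + 1 → ¬ (f * α).SameCycle (gs f α ℓ y i) (gs f α ℓ (α y) i)) ∧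
      (f * α).SameCycle (α (gs f α ℓ y k0)) (α (gs f α ℓ (α y) k0)) ∧
      Ph f α ℓ c y + Ph f α ℓ c (α y) =
        ∑ i ∈ Finset.range (k0 + 1), (c (gs f α ℓ y i) + c (gs f α ℓ (α y) i)) := by
  have hLb := lb_of_lab hα hl
  have hay : ℓ (α y) = ℓ y := by rw [← hLb.ver y, hy]
  have hlow : ∀ z : D, ∀ i : ℕ, (i : ℤ) < ℓ z → ℓ (α (gs f α ℓ z i)) = ℓ z - i - 1 := by
    intro z i hi
    obtain ⟨h1, h2⟩ := gs_lev hf hα hl z i hi
    rw [← hLb.ver, ← h2]
    exact h1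
  -- they meet at level zero
  have hex : ∃ k : ℕ, (k : ℤ) + 1 ≤ ℓ y ∧
      (f * α).SameCycle (α (gs f α ℓ y k)) (α (gs f α ℓ (α y) k)) := by
    refine ⟨(ℓ y - 1).toNat, ?_, ?_⟩
    · rw [Int.toNat_of_nonneg (by omega)]
      omega
    · have h1 : (((ℓ y - 1).toNat : ℕ) : ℤ) = ℓ y - 1 := Int.toNat_of_nonneg (by omega)
      refine hl.zro _ _ (hLb.fpf _) (hLb.fpf _) ?_ ?_
      · rw [hlow y _ (by omega), h1]; ring
      · rw [hlow (α y) _ (by omega), h1, hay]; ring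
  classical
  obtain ⟨k0, ⟨hk0, hk1⟩, hmin⟩ : ∃ k : ℕ, ((k : ℤ) + 1 ≤ ℓ y ∧
      (f * α).SameCycle (α (gs f α ℓ y k)) (α (gs f α ℓ (α y) k))) ∧
      ∀ m : ℕ, m < k → ¬ ((m : ℤ) + 1 ≤ ℓ y ∧
        (f * α).SameCycle (α (gs f α ℓ y m)) (α (gs f α ℓ (α y) m))) :=
    ⟨Nat.find hex, Nat.find_spec hex, fun m hm => Nat.find_min hex hm⟩
  have hstep : ∀ i, i + 1 < k0 + 1 → Fst f α ℓ (α (gs f α ℓ y i)) (gs f α ℓ y (i + 1)) :=
    fun i hi => gs_step hf hα hl y i (by omega)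
  have hstep' : ∀ i, i + 1 < k0 + 1 →
      Fst f α ℓ (α (gs f α ℓ (α y) i)) (gs f α ℓ (α y) (i + 1)) :=
    fun i hi => gs_step hf hα hl (α y) i (by rw [hay]; omega)
  refine ⟨k0, hk0, fun i hi => (gs_lev hf hα hl y i (by omega)).1,
    fun i hi => (gs_lev hf hα hl (α y) i (by rw [hay]; omega)).1, hstep, hstep', ?_, hk1, ?_⟩
  · intro i hi1 hi hsc
    obtain ⟨i', rfl⟩ : ∃ i', i = i' + 1 := ⟨i - 1, by omega⟩
    refine hmin i' (by omega) ⟨by omega, ?_⟩
    have h1 := fst_same hLb.inv (hstep i' hi)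
    have h2 := fst_same hLb.inv (hstep' i' hi)
    exact (h1.trans hsc).trans h2.symm
  · have h1 := ph_tail hf hα hl c y k0 hk0
    have h2 := ph_tail hf hα hl c (α y) k0 (by rw [hay]; exact hk0)
    have h3 := hs (α (gs f α ℓ y k0)) (α (gs f α ℓ (α y) k0))
      (by rw [hlow y k0 (by omega)]; omega) hk1
    rw [h1, h2, h3, Finset.sum_add_distrib]
    have h4 : ∀ s t u : ZMod 2, s + u + (t + u) = s + t := by decide
    exact h4 _ _ _

theorem extr {f α : Perm D} {ℓ : D → ℤ} (hf : TF f) (hα : PT f α []) (hl : Lab f α ℓ)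
    {c : D → ZMod 2} (hc : Coc f α c) (R : ℤ) (y0 : D) (h1 : ℓ (f y0) = ℓ y0) (h2 : ℓ y0 ≤ R)
    (h3 : th f α ℓ c y0 = 1) :
    (∃ (k : ℕ) (a b : ℕ → D), Big f α ℓ k a b ∧ ℓ (a 0) ≤ R ∧
      (∑ i ∈ Finset.range k, (c (a i) + c (b i))) = 1) ∨
    ∃ (y : D) (k : ℕ) (a b : ℕ → D), Big1 f α ℓ y k a b ∧ ℓ y ≤ R ∧
      c y + (∑ i ∈ Finset.range k, (c (a i) + c (b i))) = 1 := by
  classical
  have hLb := lb_of_lab hα hl
  have hnn : ∀ d, 0 ≤ ℓ d := fun d => hl.nn d (hLb.fpf d)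
  have hex : ∃ n : ℕ, ∃ y, ℓ (f y) = ℓ y ∧ ℓ y = n ∧ ℓ y ≤ R ∧ th f α ℓ c y = 1 :=
    ⟨(ℓ y0).toNat, y0, h1, (Int.toNat_of_nonneg (hnn y0)).symm, h2, h3⟩
  obtain ⟨j, ⟨y, hy, hyj, hyR, hth⟩, hmin⟩ : ∃ n : ℕ,
      (∃ y, ℓ (f y) = ℓ y ∧ ℓ y = n ∧ ℓ y ≤ R ∧ th f α ℓ c y = 1) ∧
      ∀ m < n, ¬ ∃ y, ℓ (f y) = ℓ y ∧ ℓ y = m ∧ ℓ y ≤ R ∧ th f α ℓ c y = 1 :=
    ⟨Nat.find hex, Nat.find_spec hex, fun m hm => Nat.find_min hex hm⟩
  have hay : ℓ (α y) = ℓ y := by rw [← hLb.ver y, hy]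
  have hstar : ∀ z z' : D, ℓ z < ℓ y → (f * α).SameCycle z z' →
      Ph f α ℓ c z = Ph f α ℓ c z' := by
    intro z z' hz hzz
    refine tau_same hf hα hl hc (ℓ y - 1) (fun y' hy' hy'' => ?_) z z' (by omega) hzz
    refine zt _ fun h4 => hmin (ℓ y').toNat ?_ ⟨y', hy', ?_, ?_, h4⟩
    · have := Int.toNat_of_nonneg (hnn y')
      omega
    · exact (Int.toNat_of_nonneg (hnn y')).symm
    · omega
  have hth' : c y + (Ph f α ℓ c y + Ph f α ℓ c (α y)) = 1 := by
    rw [← add_assoc]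
    exact hth
  by_cases hsc : (f * α).SameCycle y (α y)
  · by_cases hcy : c y = 1
    · -- a loop
      right
      refine ⟨y, 0, fun _ => y, fun _ => y, ⟨hy, fun i hi => absurd hi (Nat.not_lt_zero i),
        fun i hi => absurd hi (Nat.not_lt_zero i), fun h => absurd h (Nat.not_lt_zero 0),
        fun h => absurd h (Nat.not_lt_zero 0), fun i hi => absurd hi (Nat.not_lt_zero _),
        fun i hi => absurd hi (Nat.not_lt_zero _), fun h => absurd h (Nat.not_lt_zero 0),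
        fun i _ hi => absurd hi (Nat.not_lt_zero i), fun _ => hsc,
        fun h => absurd h (Nat.not_lt_zero 0)⟩, hyR, ?_⟩
      rw [Finset.range_zero, Finset.sum_empty, add_zero]
      exact hcy
    · -- a bigon
      left
      have hc0 := zt _ hcy
      rw [hc0, zero_add] at hth'
      have hj : 0 < ℓ y := by
        by_contra hcon
        rw [ph_zero f α ℓ c y (by omega), ph_zero f α ℓ c (α y) (by omega)] at hth'
        exact absurd hth' (by decide)
      obtain ⟨k0, hk0, hda, hdb, hna, hnb, hsep, hen, hsum⟩ := meet hf hα hl y hy hj hstar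
      have hay0 : 0 < ℓ (α y) := by rw [hay]; exact hj
      have s1 := fst_same hLb.inv (gs_zero hf hα hl y hj)
      have s2 := fst_same hLb.inv (gs_zero hf hα hl (α y) hay0)
      refine ⟨k0 + 1, gs f α ℓ y, gs f α ℓ (α y), ⟨by omega, hda, hdb, hna, hnb,
        (s1.symm.trans hsc).trans s2, ?_, ?_, hsep⟩, ?_, ?_⟩
      · intro h0
        have hall : ∀ i, gs f α ℓ y i = gs f α ℓ (α y) i := by
          intro i
          induction i with
          | zero => exact h0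
          | succ i ih =>
            show fs f α ℓ (α (gs f α ℓ y i)) = fs f α ℓ (α (gs f α ℓ (α y) i))
            rw [ih]
        have hP : Ph f α ℓ c (α y) = Ph f α ℓ c y := by
          unfold Ph
          rw [hay]
          exact Finset.sum_congr rfl fun i _ => by rw [hall i]
        rw [hP] at hth'
        have h4 : ∀ s : ZMod 2, s + s ≠ 1 := by decide
        exact h4 _ hth'
      · rw [Nat.add_sub_cancel]
        exact hen
      · rw [(gs_lev hf hα hl y 0 (by exact_mod_cast hj)).2]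
        push_cast
        omega
      · rw [← hsum]
        exact hth'
  · -- a triangular loop
    right
    have hj : 0 < ℓ y := by
      by_contra hcon
      have e1 : ℓ y = 0 := le_antisymm (by omega) (hnn y)
      exact hsc (hl.zro y (α y) (hLb.fpf _) (hLb.fpf _) e1 (by rw [hay]; exact e1))
    have hay0 : 0 < ℓ (α y) := by rw [hay]; exact hj
    obtain ⟨k0, hk0, hda, hdb, hna, hnb, hsep, hen, hsum⟩ := meet hf hα hl y hy hj hstar
    refine ⟨y, k0 + 1, gs f α ℓ y, gs f α ℓ (α y), ⟨hy, hda, hdb,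
      fun _ => gs_zero hf hα hl y hj, fun _ => gs_zero hf hα hl (α y) hay0, hna, hnb,
      fun _ => hsc, hsep, fun h => absurd h (Nat.succ_ne_zero k0), fun _ => ?_⟩, hyR, ?_⟩
    · rw [Nat.add_sub_cancel]
      exact hen
    · rw [← hsum]
      exact hth'

end QL40
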