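import Mathlib
import Pool.Agent.H40.QL.Defs
import Pool.Agent.H39.HG.GlueVal
import Pool.Agent.H39.HG.ZSwap

/-!
[H40 QL TREE]  (MP_bcc40c_pr, Q2 lower half)  A spanning tree of the dual graph of a connected set `F` of faces.

PROOF.  Induction on `m`: for all `m` with `3 (m + 1) ≤ F.card` there are a list `l` of length `m` and a set `G ⊆ F` with `G.card = 3 (m+1)`, `G` closed under `f`, all entries of
`l` in `G`, `(ent l).Nodup`, `α p.1 = p.2` for `p ∈ l`, `cyc (f * glue 1 l) + m = cyc f`, and (C): every `P` which holds somewhere on `G`, is closed under `f` on `G`, and satisfies `P p.1 ↔ P p.2` for `p ∈ l`,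
holds on all of `G`.
`m = 0`: `G = {x, f x, f f x}` for some `x ∈ F`, `l = []` (`glue 1 [] = 1`).
Step: `3 (m + 2) ≤ F.card`, so there is an element of `F` outside `G`; by `hcon` applied to `P d := d ∈ G` (closed under `f`) there must be `d ∈ G` with `α d ∈ F`, `α d ∉ G`.  `l' = l ++ [(d, α d)]`, `G' = G ∪ {α d, f (α d), f (f
(α d))}` (disjoint, three different elements: hf).  `d ∉ ent l`: otherwise its partner `α d` would be an entry too (entries of `l` come in pairs `p.1, p.2 = α p.1`), so in `G`.  `glue 1 l' = glue 1 l * swap d (α d)` (glue_append), so `f * glue 1 l' = (f * glue 1 l) * swap d (α d)`.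
`d` and `α d` are in different cycles of `f * glue 1 l`: `G` is closed under `glue 1 l` (glue_notMem: `= x` outside the entries; glue_pair: partners on the entries) and under `f`; so `cyc_swap_diff`.  (C) for `G'`: `P` holds on `G` or on the new triangle somewhere; use `P d ↔ P (α d)`
and `f` of order three.
The theorem is the case `3 (m + 1) = F.card`: `F.card` is divisible by three (`F` is a union of triangles); to avoid this, iterate as long as `G ≠ F`: if `G.card = 3 (m+1)` and `G ≠ F` the step applies, so take the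
maximal `m` for which such `l, G` exist; then `G = F`.
-/

set_option autoImplicit false

namespace QL40

open Equiv HG39 QD39

variable {D : Type} [Fintype D] [DecidableEq D]

private structure TrP (f α : Perm D) (F : Finset D) (l : List (D × D)) (G : Finset D) : Prop where
  sub : G ⊆ F
  card : G.card = 3 * (l.length + 1)
  clf : ∀ d ∈ G, f d ∈ G
  ml : ∀ p ∈ l, p.1 ∈ G ∧ p.2 ∈ G ∧ α p.1 = p.2
  ndp : (ent l).Nodup
  cy : cyc (f * glue 1 l) + l.length = cyc f
  con : ∀ P : D → Prop, (∃ d ∈ G, P d) → (∀ d ∈ G, P d → P (f d)) →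
    (∀ p ∈ l, (P p.1 ↔ P p.2)) → ∀ d ∈ G, P d

omit [Fintype D] in
private theorem te_tri (f : Perm D) (x d : D) :
    d ∈ ({x, f x, f (f x)} : Finset D) ↔ d = x ∨ d = f x ∨ d = f (f x) := by
  rw [Finset.mem_insert, Finset.mem_insert, Finset.mem_singleton]

omit [Fintype D] in
private theorem te_closed {f : Perm D} (hf : TF f) (x : D) :
    ∀ d ∈ ({x, f x, f (f x)} : Finset D), f d ∈ ({x, f x, f (f x)} : Finset D) := by
  intro d hd
  rw [te_tri]
  rcases (te_tri f x d).1 hd with h | h | h
  · exact Or.inr (Or.inl (by rw [h]))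
  · exact Or.inr (Or.inr (by rw [h]))
  · exact Or.inl (by rw [h, hf.three])

omit [Fintype D] in
private theorem te_card {f : Perm D} (hf : TF f) (x : D) :
    ({x, f x, f (f x)} : Finset D).card = 3 := by
  have h1 : x ≠ f x := (hf.nf x).symm
  have h2 : f x ≠ f (f x) := (hf.nf (f x)).symm
  have h3 : x ≠ f (f x) := by
    intro h
    have h4 := hf.three x
    rw [← h] at h4
    exact hf.nf x h4
  rw [Finset.card_insert_of_notMem, Finset.card_insert_of_notMem, Finset.card_singleton]
  · rw [Finset.mem_singleton]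
    exact h2
  · rw [Finset.mem_insert, Finset.mem_singleton, not_or]
    exact ⟨h1, h3⟩

omit [Fintype D] in
private theorem te_con {f : Perm D} (hf : TF f) (x : D) (P : D → Prop)
    (h1 : ∃ d ∈ ({x, f x, f (f x)} : Finset D), P d)
    (h2 : ∀ d ∈ ({x, f x, f (f x)} : Finset D), P d → P (f d)) :
    ∀ d ∈ ({x, f x, f (f x)} : Finset D), P d := by
  have hc := te_closed hf x
  have hx : x ∈ ({x, f x, f (f x)} : Finset D) := (te_tri f x x).2 (Or.inl rfl)
  have hP : P x := by
    obtain ⟨d, hd, hPd⟩ := h1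
    rcases (te_tri f x d).1 hd with h | h | h
    · rw [← h]; exact hPd
    · rw [h] at hPd hd
      have h3 := h2 _ (hc _ hd) (h2 _ hd hPd)
      rwa [hf.three] at h3
    · rw [h] at hPd hd
      have h3 := h2 _ hd hPd
      rwa [hf.three] at h3
  intro d hd
  rcases (te_tri f x d).1 hd with h | h | h
  · rw [h]; exact hP
  · rw [h]; exact h2 _ hx hP
  · rw [h]; exact h2 _ (hc _ hx) (h2 _ hx hP)

omit [Fintype D] [DecidableEq D] in
private theorem te_mem (l : List (D × D)) (x : D) :
    x ∈ ent l ↔ ∃ p ∈ l, x = p.1 ∨ x = p.2 := by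
  unfold ent
  rw [List.mem_flatMap]
  constructor
  · rintro ⟨p, hp, hx⟩
    refine ⟨p, hp, ?_⟩
    rcases List.mem_cons.1 hx with h | h
    · exact Or.inl h
    · exact Or.inr (List.mem_singleton.1 h)
  · rintro ⟨p, hp, hx⟩
    refine ⟨p, hp, ?_⟩
    rcases hx with h | h
    · exact List.mem_cons.2 (Or.inl h)
    · exact List.mem_cons.2 (Or.inr (List.mem_singleton.2 h))

private theorem te_step {f α : Perm D} (hf : TF f) (hi : ∀ d, α (α d) = d) (hn : ∀ d, α d ≠ d)
    (F : Finset D) (hFf : ∀ d ∈ F, f d ∈ F)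
    (hcon : ∀ P : D → Prop, (∃ d ∈ F, P d) → (∀ d ∈ F, P d → P (f d)) →
      (∀ d ∈ F, α d ∈ F → P d → P (α d)) → ∀ d ∈ F, P d)
    {l : List (D × D)} {G : Finset D} (h : TrP f α F l G) (hG : G ≠ F) :
    ∃ l' G', TrP f α F l' G' ∧ G'.card = G.card + 3 := by
  have hne : G.Nonempty := by
    rw [← Finset.card_pos, h.card]
    omega
  have hex : ∃ d ∈ G, α d ∈ F ∧ α d ∉ G := by
    by_contra hc
    apply hG
    refine Finset.Subset.antisymm h.sub ?_
    intro d hd
    obtain ⟨g, hg⟩ := hne
    refine hcon (fun e => e ∈ G) ⟨g, h.sub hg, hg⟩ (fun e _ he => h.clf e he) ?_ d hd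
    intro e _ hae he
    by_contra hnot
    exact hc ⟨e, he, hae, hnot⟩
  obtain ⟨d, hd, hdF, hdG⟩ := hex
  have hT : ∀ e ∈ ({α d, f (α d), f (f (α d))} : Finset D), e ∉ G := by
    intro e he heG
    apply hdG
    rcases (te_tri f (α d) e).1 he with h1 | h1 | h1
    · rw [← h1]; exact heG
    · rw [h1] at heG
      have h2 := h.clf _ (h.clf _ heG)
      rwa [hf.three] at h2
    · rw [h1] at heG
      have h2 := h.clf _ heG
      rwa [hf.three] at h2
  have hent : ∀ e ∈ ent l, e ∈ G ∧ α e ∈ G := by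
    intro e he
    obtain ⟨p, hp, h1⟩ := (te_mem l e).1 he
    obtain ⟨h2, h3, h4⟩ := h.ml p hp
    rcases h1 with h1 | h1
    · rw [h1]
      exact ⟨h2, by rw [h4]; exact h3⟩
    · rw [h1]
      exact ⟨h3, by rw [← h4, hi]; exact h2⟩
  have haT : α d ∈ ({α d, f (α d), f (f (α d))} : Finset D) := (te_tri f _ _).2 (Or.inl rfl)
  have hcardG : (G ∪ {α d, f (α d), f (f (α d))}).card = G.card + 3 := by
    rw [Finset.card_union_of_disjoint, te_card hf]
    rw [Finset.disjoint_left]
    intro e he he'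
    exact hT e he' he
  refine ⟨l ++ [(d, α d)], G ∪ {α d, f (α d), f (f (α d))}, ⟨?_, ?_, ?_, ?_, ?_, ?_, ?_⟩,
    hcardG⟩
  · intro e he
    rcases Finset.mem_union.1 he with h1 | h1
    · exact h.sub h1
    · rcases (te_tri f (α d) e).1 h1 with h2 | h2 | h2
      · rw [h2]; exact hdF
      · rw [h2]; exact hFf _ hdF
      · rw [h2]; exact hFf _ (hFf _ hdF)
  · rw [hcardG, h.card, List.length_append, List.length_singleton]
    ring
  · intro e he
    rcases Finset.mem_union.1 he with h1 | h1
    · exact Finset.mem_union_left _ (h.clf e h1)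
    · exact Finset.mem_union_right _ (te_closed hf (α d) e h1)
  · intro p hp
    rcases List.mem_append.1 hp with h1 | h1
    · obtain ⟨h2, h3, h4⟩ := h.ml p h1
      exact ⟨Finset.mem_union_left _ h2, Finset.mem_union_left _ h3, h4⟩
    · rw [List.mem_singleton.1 h1]
      exact ⟨Finset.mem_union_left _ hd, Finset.mem_union_right _ haT, rfl⟩
  · rw [ent_append]
    refine List.nodup_append.2 ⟨h.ndp, ?_, ?_⟩
    · show [d, α d].Nodup
      rw [List.nodup_cons]
      refine ⟨?_, List.nodup_singleton _⟩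
      rw [List.mem_singleton]
      exact (hn d).symm
    · intro a ha b hb hab
      rw [hab] at ha
      have hb' : b ∈ [d, α d] := hb
      rcases List.mem_cons.1 hb' with h1 | h1
      · rw [h1] at ha
        exact hdG (hent d ha).2
      · rw [List.mem_singleton.1 h1] at ha
        exact hdG (hent _ ha).1
  · have h1 : glue 1 (l ++ [(d, α d)]) = glue 1 l * swap d (α d) := by
      rw [glue_append]
      rfl
    have h2 : ¬ (f * glue 1 l).SameCycle d (α d) := by
      intro hs
      apply hdG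
      refine zs_ind (f * glue 1 l) (fun a b => a ∈ G → b ∈ G) (fun _ h => h)
        (fun _ _ _ h1 h2 h3 => h2 (h1 h3)) ?_ hs hd
      intro e he
      rw [Perm.mul_apply]
      apply h.clf
      by_cases hel : e ∈ ent l
      · obtain ⟨p, hp, h3⟩ := (te_mem l e).1 hel
        obtain ⟨h4, h5⟩ := glue_pair 1 l h.ndp (fun _ _ => rfl) p hp
        obtain ⟨h6, h7, -⟩ := h.ml p hp
        rcases h3 with h3 | h3
        · rw [h3, h4]; exact h7
        · rw [h3, h5]; exact h6
      · rw [glue_notMem 1 l e hel]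
        exact he
    have h3 := cyc_swap_diff (f * glue 1 l) d (α d) h2
    rw [h1, ← mul_assoc, List.length_append, List.length_singleton]
    have h4 := h.cy
    omega
  · intro P h1 h2 h3
    have hG1 : (∃ e ∈ G, P e) → ∀ e ∈ G, P e := fun h4 =>
      h.con P h4 (fun e he => h2 e (Finset.mem_union_left _ he))
        (fun p hp => h3 p (List.mem_append_left _ hp))
    have hT1 : (∃ e ∈ ({α d, f (α d), f (f (α d))} : Finset D), P e) →
        ∀ e ∈ ({α d, f (α d), f (f (α d))} : Finset D), P e := fun h4 =>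
      te_con hf (α d) P h4 (fun e he => h2 e (Finset.mem_union_right _ he))
    have hlink : P d ↔ P (α d) :=
      h3 (d, α d) (List.mem_append_right _ (List.mem_singleton.2 rfl))
    have hall : (∀ e ∈ G, P e) ∧ ∀ e ∈ ({α d, f (α d), f (f (α d))} : Finset D), P e := by
      obtain ⟨e, he, hPe⟩ := h1
      rcases Finset.mem_union.1 he with h4 | h4
      · have h5 := hG1 ⟨e, h4, hPe⟩
        exact ⟨h5, hT1 ⟨α d, haT, hlink.1 (h5 d hd)⟩⟩
      · have h5 := hT1 ⟨e, h4, hPe⟩
        exact ⟨hG1 ⟨d, hd, hlink.2 (h5 _ haT)⟩, h5⟩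
    intro e he
    rcases Finset.mem_union.1 he with h4 | h4
    · exact hall.1 e h4
    · exact hall.2 e h4

theorem tree_exists {f α : Perm D} (hf : TF f) (hi : ∀ d, α (α d) = d) (hn : ∀ d, α d ≠ d)
    (F : Finset D) (hF : F.Nonempty) (hFf : ∀ d ∈ F, f d ∈ F)
    (hcon : ∀ P : D → Prop, (∃ d ∈ F, P d) → (∀ d ∈ F, P d → P (f d)) →
      (∀ d ∈ F, α d ∈ F → P d → P (α d)) → ∀ d ∈ F, P d) :
    ∃ l : List (D × D), (ent l).Nodup ∧ (∀ p ∈ l, p.1 ∈ F ∧ p.2 ∈ F ∧ α p.1 = p.2) ∧
      3 * (l.length + 1) = F.card ∧ cyc (f * glue 1 l) + l.length = cyc f ∧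
      ∀ P : D → Prop, (∃ d ∈ F, P d) → (∀ d ∈ F, P d → P (f d)) →
        (∀ p ∈ l, (P p.1 ↔ P p.2)) → ∀ d ∈ F, P d := by
  obtain ⟨x, hx⟩ := hF
  have h0 : TrP f α F [] ({x, f x, f (f x)} : Finset D) := by
    refine ⟨?_, ?_, ?_, ?_, ?_, ?_, ?_⟩
    · intro d hd
      rcases (te_tri f x d).1 hd with h | h | h
      · rw [h]; exact hx
      · rw [h]; exact hFf _ hx
      · rw [h]; exact hFf _ (hFf _ hx)
    · rw [te_card hf x]
      rfl
    · exact te_closed hf x
    · intro p hp
      exact absurd hp List.not_mem_nil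
    · exact List.nodup_nil
    · show cyc (f * 1) + 0 = cyc f
      rw [mul_one, add_zero]
    · intro P h1 h2 _
      exact te_con hf x P h1 h2
  have hrec : ∀ (n : ℕ) (l : List (D × D)) (G : Finset D), TrP f α F l G →
      F.card ≤ G.card + n → ∃ l', TrP f α F l' F := by
    intro n
    induction n with
    | zero =>
      intro l G h hc
      have h1 := Finset.eq_of_subset_of_card_le h.sub (by omega)
      rw [h1] at h
      exact ⟨l, h⟩
    | succ n ih =>
      intro l G h hc
      by_cases hG : G = F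
      · rw [hG] at h
        exact ⟨l, h⟩
      · obtain ⟨l', G', h', hc'⟩ := te_step hf hi hn F hFf hcon h hG
        exact ih l' G' h' (by omega)
  obtain ⟨l, h⟩ := hrec F.card [] _ h0 (Nat.le_add_left _ _)
  exact ⟨l, h.ndp, h.ml, h.card.symm, h.cy, h.con⟩

end QL40
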