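import Mathlib
import Pool.Agent.H40.QL.Tau
import Pool.Agent.H40.QL.Bcon
import Pool.Agent.H40.QL.Tree
import Pool.Agent.H40.QL.Addp
import Pool.Agent.H40.QL.Cocy

/-!
[H40 QL NONP]  (MP_bcc40c_pr, Q2 lower half)  Assembly: a non planar ball has an essential loop `th = 1` of a level edge.

PROOF.  `F = ball f α x r`.  tree_exists (with ball_conn) gives `l`; pairs_exist gives `l2`; `L = l ++ l2`.  add_pairs: (i) `cyc (f * glue 1 L) = cyc (f * glue 1 l) + l2.length`: with vb_cyc, pairs_card2, cyc_three and `3 (l.length + 1) = F.card` this gives `Plan` (linear arithmetic): contradiction.  (ii) `l2 = u ++ p :: w`, `p.1, p.2` in different cycles of `f *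
glue 1 (l ++ u)`.  cocycle_exists for the list `l ++ u` and `d0 = p.1` gives `c`.  If `th c y = 0` for all level darts `y` with `dlab x y ≤ r`, then sum_cycle with `Ψ = Ph` gives a contradiction: (ht) by tau with `J = r` (a dart `d` with `d ∈ F` or `α d ∈ F` has level `≤ r`: ball_lev, and for `α d ∈ F`: `ℓ d = ℓ (f (α d))`, `f (α d) ∈ F`), (hc) by
th_desc or the assumption.
-/

set_option autoImplicit false

namespace QL40

open Equiv HG39 QD39

variable {D : Type} [Fintype D] [DecidableEq D]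

theorem nonplan {f α : Perm D} (hf : TF f) (hα : PT f α []) (x : D) (r : ℕ) (hr : 1 ≤ r)
    (h : ¬ Plan f α (ball f α x r)) :
    ∃ (c : D → ZMod 2) (y : D), Coc f α c ∧ dlab f α x (f y) = dlab f α x y ∧ dlab f α x y ≤ r ∧
      th f α (dlab f α x) c y = 1 := by
  have hi : ∀ d, α (α d) = d := hα.inv
  have hn : ∀ d, α d ≠ d := by
    intro d hd
    have := (hα.leg d).1 hd
    simp [tri] at this
  obtain ⟨F, hFd⟩ : ∃ F, F = ball f α x r := ⟨_, rfl⟩
  have hFf : ∀ d ∈ F, f d ∈ F := by
    rw [hFd]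
    exact fun d hd => ball_f hf x r d hd
  have hFne : F.Nonempty := ⟨x, by rw [hFd]; exact ball_x f α x r hr⟩
  have hFcon : ∀ P : D → Prop, (∃ d ∈ F, P d) → (∀ d ∈ F, P d → P (f d)) →
      (∀ d ∈ F, α d ∈ F → P d → P (α d)) → ∀ d ∈ F, P d := by
    rw [hFd]
    exact ball_conn hf hα x r hr
  rw [← hFd] at h
  obtain ⟨l, hnd, hl, hlen, hcyc, hlcon⟩ := tree_exists hf hi hn F hFne hFf hFcon
  obtain ⟨l2, hnd2, hL, hall⟩ := pairs_exist hi hn F l hnd hl
  rcases add_pairs f l l2 hnd2 with h1 | ⟨u, w, p, hup, hsc⟩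
  · exfalso
    apply h
    have e1 := vb_cyc hf hi F hFf (l ++ l2) hnd2 hL hall
    have e2 := cyc_three hf
    have e3 := pairs_card2 hi F (l ++ l2) hnd2 hL hall
    rw [List.length_append] at e3
    unfold Plan
    omega
  · have hp : p ∈ l ++ l2 := by
      rw [hup]
      simp
    obtain ⟨hp1, hp2, hp3⟩ := hL p hp
    have hsub : ∀ q ∈ l ++ u, q ∈ l ++ l2 := by
      intro q hq
      rw [hup]
      rcases List.mem_append.1 hq with hq | hq
      · exact List.mem_append_left _ hq
      · exact List.mem_append_right _ (List.mem_append_left _ hq)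
    have hl' : ∀ q ∈ l ++ u, q.1 ∈ F ∧ q.2 ∈ F ∧ α q.1 = q.2 := fun q hq => hL q (hsub q hq)
    have hent : ent (l ++ l2) = ent (l ++ u) ++ (p.1 :: p.2 :: ent w) := by
      rw [hup]
      simp [ent, List.flatMap_append, List.append_assoc]
    rw [hent] at hnd2
    have hnd' : (ent (l ++ u)).Nodup := (List.nodup_append.1 hnd2).1
    have hp1n : p.1 ∉ ent (l ++ u) := by
      intro hmem
      exact (List.nodup_append.1 hnd2).2.2 p.1 hmem p.1 (by simp) rfl
    have hcon' : ∀ P : D → Prop, (∃ d ∈ F, P d) → (∀ d ∈ F, P d → P (f d)) →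
        (∀ q ∈ l ++ u, (P q.1 ↔ P q.2)) → ∀ d ∈ F, P d := fun P a b c =>
      hlcon P a b fun q hq => c q (List.mem_append_left _ hq)
    have hαp : α p.1 ∈ F := by
      rw [hp3]
      exact hp2
    obtain ⟨c, hcoc, hc1, hc2⟩ := cocycle_exists hf hi hn F hFf (l ++ u) hl' hcon' p.1 hp1 hαp hp1n
    have hlab := dlab_lab hf hα x
    have hlev : ∀ d ∈ F, dlab f α x d ≤ (r : ℤ) := by
      intro d hd
      rw [hFd] at hd
      have := ball_lev hf hα x r d hd
      unfold dlab
      exact_mod_cast this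
    by_contra hcon
    have hz2 : ∀ a : ZMod 2, a ≠ 1 → a = 0 := by decide
    have hth : ∀ y, dlab f α x (f y) = dlab f α x y → dlab f α x y ≤ (r : ℤ) →
        th f α (dlab f α x) c y = 0 := by
      intro y hy1 hy2
      apply hz2
      intro h1
      exact hcon ⟨c, y, hcoc, hy1, hy2, h1⟩
    refine sum_cycle hf hi F hFf (l ++ u) hnd' hl' p.1 hp1 hp1n ?_ c (Ph f α (dlab f α x) c)
      hc1 hc2 ?_ ?_
    · rw [hp3]
      exact hsc
    · rintro d (hd | hd)
      · exact tau hf hα hlab hcoc r hth d (hlev d hd)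
      · refine tau hf hα hlab hcoc r hth d ?_
        have e1 := hlev _ (hFf _ hd)
        have e2 := hlab.ver (α d) (hn (α d))
        rw [hi] at e2
        rwa [e2] at e1
    · intro d hd
      have e1 : th f α (dlab f α x) c d = 0 := by
        by_cases hlv : dlab f α x (f d) = dlab f α x d
        · exact hth d hlv (hlev d hd)
        · exact th_desc hf hα hlab hcoc d hlv
      unfold th at e1
      have e3 : ∀ a b e : ZMod 2, a + b + e = 0 → a = b + e := by decide
      exact e3 _ _ _ e1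

end QL40
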