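import Mathlib
import Pool.Agent.H40.QL.Swg
import Pool.Agent.H39.HG.ZSwap

/-!
[H40 QL SWP]  (MP_bcc40c_pr, Q2 lower half)  If a cocycle has an odd sum on the bigon, then the cut map is connected.

PROOF.  `α' = sw α a b k`.  inv: sw_inv; leg: `tri f [] = []` and sw_fpf; ndp trivial.  con: let `P` be closed under `f` and `α'` and hold somewhere.  Suppose `¬ P d1` for some `d1`.  `χ d = if P d then 1 else 0 : ZMod 2`.  `P` and its complement are closed under `f`, `f⁻¹ = f²`, `α'`; so `χ (f d) = χ d`, `χ (α' d) = χ d`, and `χ`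
is constant on the cycles of `f * α'`.
By sw_geo and fst_same (for `α'`): `α' (a i) = α (b i)` and `a (i+1)` are in the same cycle of `f * α'`; so `χ (a (i+1)) = χ (α (b i)) = χ (a i)` (`α' (a i) = α (b i)`), for `i + 1 < k`: `χ (a i) = p` for all `i < k`, and `χ (α (b i)) = p`; similarly `χ (b i) = χ (α (a i)) = q`.
If `p = q`: `χ (α d) = χ d` for all `d` (special darts: all values are `p`; other darts: `α d = α' d`), so `P` is closed under `f` and `α`, and by `hα.con` it holds everywhere.  Contradiction.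
So `p ≠ q`, `p + q = 1`.  Compute `S = ∑_d χ d * c d` in two ways.  (i) `S = ∑ χ (f d) c (f d) = ∑ χ d c (f d)` and the same for `f (f d)`, so `3 S = ∑ χ d (c d + c (f d) + c (f (f d))) = 0`, `S = 0`.  (ii) Let `E` be the set of the special darts `a i, b i, α (a i), α (b i)`.  On the complement of `E`, `d ↦ α d` is an involution without fixed
points preserving `χ d * c d` (as `α' d = α d`), so the sum is 0 (Finset.sum_involution, char 2).  On `E` (all `4k` darts different): `∑_i (χ (a i) c (a i) + χ (b i) c (b i) + χ (α (a i)) c (a i) + χ (α (b i)) c (b i)) = ∑_i (p + q) (c (a i) + c (b i)) = 1`.  So `0 = 1`, contradiction.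
-/

set_option autoImplicit false

namespace QL40

open Equiv HG39 QD39

variable {D : Type} [Fintype D] [DecidableEq D]

theorem sw_PT {f α : Perm D} {ℓ : D → ℤ} {k : ℕ} {a b : ℕ → D} (hf : TF f) (hα : PT f α [])
    (hl : Lb f α ℓ) (hB : Big f α ℓ k a b) {c : D → ZMod 2} (hc : Coc f α c)
    (h1 : (∑ i ∈ Finset.range k, (c (a i) + c (b i))) = 1) : PT f (sw α a b k) [] := by
  classical
  have hi := hl.inv
  have hn := hl.fpf
  have hi' : ∀ d, sw α a b k (sw α a b k d) = d := sw_inv hi a b k
  have hn' : ∀ d, sw α a b k d ≠ d := sw_fpf hn a b k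
  obtain ⟨hv, hv'⟩ := sw_val hl hB
  refine ⟨hi', fun d => ?_, by simp [tri], ?_⟩
  · constructor
    · intro h
      exact absurd h (hn' d)
    · intro h
      simp [tri] at h
  rintro P ⟨d0, _, hd0⟩ hPf hPa d1 _
  by_contra hd1
  have hPf' : ∀ d, P (f d) ↔ P d := fun d =>
    ⟨fun h => by have h2 := hPf _ (hPf _ h); rwa [hf.three] at h2, hPf d⟩
  have hPa' : ∀ d, P (sw α a b k d) ↔ P d := fun d =>
    ⟨fun h => by have h2 := hPa _ h; rwa [hi'] at h2, hPa d⟩
  have hPs : ∀ x y, (f * sw α a b k).SameCycle x y → (P x ↔ P y) := fun x y h =>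
    zs_ind (f * sw α a b k) (fun x y => (P x ↔ P y)) (fun _ => Iff.rfl)
      (fun _ _ _ h1 h2 => h1.trans h2) (fun x => by rw [Perm.mul_apply, hPf', hPa']) h
  have hstep : ∀ i, i + 1 < k → (P (a (i + 1)) ↔ P (a i)) ∧ (P (b (i + 1)) ↔ P (b i)) := by
    intro i hik
    obtain ⟨h2, h3⟩ := sw_geo hl hB i hik
    have h4 := fst_same hi' h2
    have h5 := fst_same hi' h3
    exact ⟨(hPs _ _ h4).symm.trans (hPa' _), (hPs _ _ h5).symm.trans (hPa' _)⟩
  have hpab : ∀ i < k, (P (a i) ↔ P (a 0)) ∧ (P (b i) ↔ P (b 0)) := by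
    intro i
    induction i with
    | zero => intro _; exact ⟨Iff.rfl, Iff.rfl⟩
    | succ i ih =>
      intro hik
      obtain ⟨h2, h3⟩ := hstep i hik
      obtain ⟨h4, h5⟩ := ih (by omega)
      exact ⟨h2.trans h4, h3.trans h5⟩
  have hαa : ∀ i < k, (P (α (a i)) ↔ P (b 0)) := by
    intro i hik
    rw [← (hv i hik).2.1]
    exact (hPa' _).trans (hpab i hik).2
  have hαb : ∀ i < k, (P (α (b i)) ↔ P (a 0)) := by
    intro i hik
    rw [← (hv i hik).1]
    exact (hPa' _).trans (hpab i hik).1
  by_cases hpq : P (a 0) ↔ P (b 0)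
  · have hPα : ∀ d, P (α d) ↔ P d := by
      intro d
      by_cases hs : ∀ i < k, d ≠ a i ∧ d ≠ b i ∧ d ≠ α (a i) ∧ d ≠ α (b i)
      · rw [← hv' d hs]
        exact hPa' d
      · push Not at hs
        obtain ⟨i, hik, h2⟩ := hs
        by_cases e1 : d = a i
        · rw [e1]
          exact (hαa i hik).trans (hpq.symm.trans (hpab i hik).1.symm)
        by_cases e2 : d = b i
        · rw [e2]
          exact (hαb i hik).trans (hpq.trans (hpab i hik).2.symm)
        by_cases e3 : d = α (a i)
        · rw [e3, hi]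
          exact (hpab i hik).1.trans (hpq.trans (hαa i hik).symm)
        · have e4 := h2 e1 e2 e3
          rw [e4, hi]
          exact (hpab i hik).2.trans (hpq.symm.trans (hαb i hik).symm)
    exact hd1 (hα.con P ⟨d0, hn d0, hd0⟩ hPf (fun d h => (hPα d).2 h) d1 (hn d1))
  · obtain ⟨χ, hχ⟩ : ∃ χ : D → ZMod 2, ∀ d, χ d = if P d then 1 else 0 := ⟨_, fun _ => rfl⟩
    have hχc : ∀ x y, (P x ↔ P y) → χ x = χ y := by
      intro x y h
      rw [hχ, hχ]
      by_cases hx : P x
      · rw [if_pos hx, if_pos (h.1 hx)]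
      · rw [if_neg hx, if_neg fun hy => hx (h.2 hy)]
    have hχ1 : χ (a 0) + χ (b 0) = 1 := by
      rw [hχ, hχ]
      by_cases hx : P (a 0)
      · have hy : ¬ P (b 0) := fun hy => hpq ⟨fun _ => hy, fun _ => hx⟩
        rw [if_pos hx, if_neg hy, add_zero]
      · have hy : P (b 0) := by
          by_contra hy
          exact hpq ⟨fun h => absurd h hx, fun h => absurd h hy⟩
        rw [if_neg hx, if_pos hy, zero_add]
    -- first computation
    have e1 : (∑ d, χ d * c (f d)) = ∑ d, χ d * c d := by
      rw [← Equiv.sum_comp f (fun d => χ d * c d)]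
      exact Finset.sum_congr rfl fun d _ => by rw [hχc _ _ (hPf' d)]
    have e2 : (∑ d, χ d * c (f (f d))) = ∑ d, χ d * c d := by
      rw [← e1, ← Equiv.sum_comp f (fun d => χ d * c (f d))]
      exact Finset.sum_congr rfl fun d _ => by rw [hχc _ _ (hPf' d)]
    have hS0 : (∑ d, χ d * c d) = 0 := by
      have h3 : (∑ d, χ d * c d) + (∑ d, χ d * c (f d)) + (∑ d, χ d * c (f (f d))) = 0 := by
        rw [← Finset.sum_add_distrib, ← Finset.sum_add_distrib]
        refine Finset.sum_eq_zero fun d _ => ?_
        rw [← mul_add, ← mul_add, hc.cf, mul_zero]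
      rw [e1, e2, CharTwo.add_self_eq_zero, zero_add] at h3
      exact h3
    -- second computation
    obtain ⟨E, hE⟩ : ∃ E : Finset D, E = (Finset.range k).biUnion fun i =>
      ({a i, b i, α (a i), α (b i)} : Finset D) := ⟨_, rfl⟩
    have hEmem : ∀ d, d ∉ E ↔ ∀ i < k, d ≠ a i ∧ d ≠ b i ∧ d ≠ α (a i) ∧ d ≠ α (b i) := by
      intro d
      rw [hE]
      simp only [Finset.mem_biUnion, Finset.mem_range, Finset.mem_insert, Finset.mem_singleton,
        not_exists, not_and, not_or]
    have hcomp : (∑ d ∈ Eᶜ, χ d * c d) = 0 := by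
      have hαE : ∀ d, d ∈ Eᶜ → α d ∈ Eᶜ := by
        intro d hd
        rw [Finset.mem_compl, hEmem] at hd ⊢
        intro i hik
        obtain ⟨h2, h3, h4, h5⟩ := hd i hik
        refine ⟨fun h => h4 ?_, fun h => h5 ?_, fun h => h2 ?_, fun h => h3 ?_⟩
        · rw [← h, hi]
        · rw [← h, hi]
        · exact α.injective h
        · exact α.injective h
      refine Finset.sum_involution (fun d _ => α d) ?_ ?_ hαE ?_
      · intro d hd
        rw [Finset.mem_compl, hEmem] at hd
        have h2 : χ (α d) = χ d := by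
          rw [← hv' d hd]
          exact hχc _ _ (hPa' d)
        rw [h2, hc.ca]
        exact CharTwo.add_self_eq_zero _
      · intro d _ _
        exact hn d
      · intro d _
        exact hi d
    have hEsum : (∑ d ∈ E, χ d * c d) = ∑ i ∈ Finset.range k, (c (a i) + c (b i)) := by
      rw [hE, Finset.sum_biUnion]
      · refine Finset.sum_congr rfl fun i hik => ?_
        rw [Finset.mem_range] at hik
        obtain ⟨g1, g2, g3, g4, g5, g6, _⟩ := big_dist hl hB i i hik hik
        rw [Finset.sum_insert (by simp [g1, g2, g3]), Finset.sum_insert (by simp [g4, g5]),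
          Finset.sum_insert (by simp [g6]), Finset.sum_singleton, hc.ca, hc.ca,
          hχc _ _ (hpab i hik).1, hχc _ _ (hpab i hik).2, hχc _ _ (hαa i hik),
          hχc _ _ (hαb i hik)]
        calc χ (a 0) * c (a i) + (χ (b 0) * c (b i) + (χ (b 0) * c (a i) + χ (a 0) * c (b i))) =
            (χ (a 0) + χ (b 0)) * (c (a i) + c (b i)) := by ring
          _ = c (a i) + c (b i) := by rw [hχ1, one_mul]
      · intro i hik j hjk hij
        rw [Finset.mem_coe, Finset.mem_range] at hik hjk
        obtain ⟨g1, g2, g3, g4, g5, g6, g7⟩ := big_dist hl hB i j hik hjk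
        obtain ⟨k1, k2, k3, k4, k5, k6, _⟩ := big_dist hl hB j i hjk hik
        obtain ⟨g8, g9⟩ := g7 hij
        have g10 : α (a i) ≠ α (a j) := fun h => g8 (α.injective h)
        have g11 : α (b i) ≠ α (b j) := fun h => g9 (α.injective h)
        rw [Function.onFun, Finset.disjoint_left]
        intro d hd hd'
        simp only [Finset.mem_insert, Finset.mem_singleton] at hd hd'
        rcases hd with rfl | rfl | rfl | rfl <;> rcases hd' with h | h | h | h
        · exact g8 h
        · exact g1 h
        · exact g2 h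
        · exact g3 h
        · exact k1 h.symm
        · exact g9 h
        · exact g4 h
        · exact g5 h
        · exact k2 h.symm
        · exact k4 h.symm
        · exact g10 h
        · exact g6 h
        · exact k3 h.symm
        · exact k5 h.symm
        · exact k6 h.symm
        · exact g11 h
    have h4 := Finset.sum_add_sum_compl E (fun d => χ d * c d)
    rw [hcomp, hEsum, h1, hS0, add_zero] at h4
    exact one_ne_zero h4

end QL40
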