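import Mathlib
import Pool.Agent.H40.QL.Nonp
import Pool.Agent.H40.QL.Extr
import Pool.Agent.H40.QL.Swp
import Pool.Agent.H40.QL.DigB

/-!
[H40 QL MEM]  (MP_bcc40c_pr, Q2 lower half)  Assembly: if the ball is not planar then `(α, x)` is in `Bad2` or in `Bad1`.

PROOF.  nonplan gives `c` and a level dart `y` with `th = 1`, level `≤ r`; extr (labels `dlab f α x`, dlab_lab) gives a bigon with an odd sum: `sw_PT` (lb_of_lab) gives `PT f (sw α a b k) []`, and the darts of label `≤ r` are among those of label `≤ r + 1`: `Bad2`; or a triangular loop with an odd sum: big1_big, coc_ap and sw_PT for `fp f, ap α y`, the labels `lp α ℓ y` (`Lb` by ap_lab,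
ap_PT, lb_of_lab): `Bad1`.
-/

set_option autoImplicit false

namespace QL40

open Equiv HG39 QD39

variable {D : Type} [Fintype D] [DecidableEq D]

theorem mem_bad {f α : Perm D} (hf : TF f) {v : ℕ} (hα : α ∈ TS f v) (x : D)
    (hx : rep f α x = x) (r S : ℕ) (hr : 1 ≤ r) (h : ¬ Plan f α (ball f α x r))
    (hS : (Finset.univ.filter fun d => dlab f α x d ≤ (r : ℤ) + 1).card ≤ S) :
    (α, x) ∈ Bad2 f v r S ∨ (α, x) ∈ Bad1 f v r S := by
  have hPT : PT f α [] := hα.1
  have hlab := dlab_lab hf hPT x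
  obtain ⟨c, y, hcoc, hy1, hy2, hth⟩ := nonplan hf hPT x r hr h
  rcases extr hf hPT hlab hcoc (r : ℤ) y hy1 hy2 hth with
    ⟨k, a, b, hB, ha, hsum⟩ | ⟨z, k, a, b, hB, hz, hsum⟩
  · left
    refine ⟨hα, hx, le_trans (Finset.card_le_card ?_) hS, k, a, b, hB, ha,
      sw_PT hf hPT (lb_of_lab hPT hlab) hB hcoc hsum⟩
    intro d hd
    rw [Finset.mem_filter] at hd ⊢
    refine ⟨hd.1, ?_⟩
    have := hd.2
    dsimp only at this
    omega
  · right
    obtain ⟨c', hc', hs'⟩ := coc_ap hf hPT hcoc z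
    have hPT' := ap_PT hf hPT z
    exact ⟨hα, hx, hS, z, k, a, b, hB, hz,
      sw_PT (fp_tf hf) hPT' (lb_of_lab hPT' (ap_lab hf hPT hlab z)) (big1_big hf hPT hlab hB)
        hc' (by rw [hs' k a b]; exact hsum)⟩

end QL40
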