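import Mathlib
import Pool.Agent.H40.QL.Mem
import Pool.Agent.H40.QL.Cnt1
import Pool.Agent.H40.QL.Rtio
import Pool.Agent.H39.QF.BallS
import Pool.Agent.H39.QD.Stat
import Pool.Agent.H39.HG.DescF

/-!
[H40 QL STL]  (MP_bcc40c_pr, Q2 lower half)  The statement (L) of `QD/Stat.lean`: the balls of radius at most
`(1/2 - ε) D log n` are planar except for `n^(1-η) #TS` pairs.

PROOF.  `R = ⌊(1/2 - ε) D log n⌋₊`, `S = ⌊n^(1/2 - ε/2)⌋₊`.  If the ball of radius `r ≤ R` is not planar, either there are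
at least `n^(1/2 - ε/2)` darts at distance at most `R + 1` (`ballS`), or (`mem_bad`) the pair is in `Bad2 f v R S` or in
`Bad1 f v R S` (`cnt2b`, `cnt1`, `rtio`).
-/

set_option autoImplicit false

namespace QL40

open Equiv HG39 QD39 Filter Topology

/-- membership, uniform in `r ≤ R` -/
theorem mem_badR {D : Type} [Fintype D] [DecidableEq D] {f α : Perm D} (hf : TF f) {v : ℕ}
    (hα : α ∈ TS f v) (x : D) (hx : rep f α x = x) (r R S : ℕ) (hr : 1 ≤ r) (hrR : r ≤ R)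
    (h : ¬ Plan f α (ball f α x r))
    (hS : (Finset.univ.filter fun d => dlab f α x d ≤ (R : ℤ) + 1).card ≤ S) :
    (α, x) ∈ Bad2 f v R S ∨ (α, x) ∈ Bad1 f v R S := by
  have hSr : (Finset.univ.filter fun d => dlab f α x d ≤ (r : ℤ) + 1).card ≤ S := by
    refine le_trans (Finset.card_le_card ?_) hS
    intro d hd
    rw [Finset.mem_filter] at hd ⊢
    exact ⟨hd.1, by have := hd.2; omega⟩
  have hSR : (Finset.univ.filter fun d => dlab f α x d ≤ (R : ℤ)).card ≤ S := by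
    refine le_trans (Finset.card_le_card ?_) hS
    intro d hd
    rw [Finset.mem_filter] at hd ⊢
    exact ⟨hd.1, by have := hd.2; omega⟩
  rcases mem_bad hf hα x hx r S hr h hSr with h2 | h1
  · left
    obtain ⟨a1, a2, a3, k, a, b, a4, a5, a6⟩ := h2
    exact ⟨a1, a2, hSR, k, a, b, a4, by dsimp only at a5 ⊢; omega, a6⟩
  · right
    obtain ⟨a1, a2, a3, y, k, a, b, a4, a5, a6⟩ := h1
    exact ⟨a1, a2, hS, y, k, a, b, a4, by dsimp only at a5 ⊢; omega, a6⟩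

/-- the numbers: `Bad2` -/
private theorem stl_n2 {ε C x N T U L S : ℝ} (hx : 1 ≤ x) (hT : 0 ≤ T) (hU : 0 ≤ U) (hS0 : 0 ≤ S)
    (hL : 0 ≤ L) (hC : 0 < C) (h1 : N ≤ U * (6 * x) ^ 2 * (L + 1) * S ^ 2 * L)
    (h2 : U * x ^ 2 ≤ C * T) (hS : S ≤ x ^ (1 / 2 - ε / 2))
    (hCL : 36 * C * (L + 2) ^ 2 ≤ x ^ (ε / 4)) :
    N ≤ x ^ (1 - 3 * ε / 4) * T := by
  have hx0 : 0 < x := by linarith
  have hS2 : S ^ 2 ≤ x ^ (1 - ε) := by
    calc S ^ 2 ≤ (x ^ (1 / 2 - ε / 2)) ^ 2 := pow_le_pow_left₀ hS0 hS 2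
      _ = x ^ (1 - ε) := by
          rw [← Real.rpow_natCast, ← Real.rpow_mul hx0.le]
          congr 1
          push_cast
          ring
  have hLL : (L + 1) * L ≤ (L + 2) ^ 2 := by nlinarith
  have hp0 : 0 ≤ x ^ (1 - ε) := Real.rpow_nonneg hx0.le _
  calc N ≤ U * (6 * x) ^ 2 * (L + 1) * S ^ 2 * L := h1
    _ = 36 * (U * x ^ 2) * ((L + 1) * L) * S ^ 2 := by ring
    _ ≤ 36 * (C * T) * ((L + 2) ^ 2) * x ^ (1 - ε) := by
        have e1 : 36 * (U * x ^ 2) ≤ 36 * (C * T) := by linarith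
        have e2 : 0 ≤ (L + 1) * L := by positivity
        have e3 : 0 ≤ 36 * (C * T) := by positivity
        exact mul_le_mul (mul_le_mul e1 hLL e2 e3) hS2 (by positivity) (by positivity)
    _ = (36 * C * (L + 2) ^ 2) * x ^ (1 - ε) * T := by ring
    _ ≤ x ^ (ε / 4) * x ^ (1 - ε) * T := by
        exact mul_le_mul_of_nonneg_right (mul_le_mul_of_nonneg_right hCL hp0) hT
    _ = x ^ (1 - 3 * ε / 4) * T := by
        rw [← Real.rpow_add hx0]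
        congr 2
        ring

/-- the numbers: `Bad1` -/
private theorem stl_n1 {ε C x N T U L S : ℝ} (hx : 1 ≤ x) (hT : 0 ≤ T) (hN : 0 ≤ N) (hS0 : 0 ≤ S)
    (hL : 0 ≤ L) (hC : 0 < C)
    (h1 : N * ((6 * x + 6) * (6 * x + 3)) ≤ U * (6 * x + 6) ^ 2 * (L + 2) * (S + 6) ^ 2 * (L + 1))
    (h2 : U ≤ C * T) (hS : S ≤ x ^ (1 / 2 - ε / 2)) (h6 : 6 ≤ x ^ (1 / 2 - ε / 2))
    (hCL : 8 * C * (L + 2) ^ 2 ≤ x ^ (ε / 4)) :
    N ≤ x ^ (1 - 3 * ε / 4) * T := by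
  have hx0 : 0 < x := by linarith
  have hS2 : (S + 6) ^ 2 ≤ 4 * x ^ (1 - ε) := by
    calc (S + 6) ^ 2 ≤ (2 * x ^ (1 / 2 - ε / 2)) ^ 2 :=
          pow_le_pow_left₀ (by linarith) (by linarith) 2
      _ = 4 * x ^ (1 - ε) := by
          rw [mul_pow, ← Real.rpow_natCast (x ^ (1 / 2 - ε / 2)), ← Real.rpow_mul hx0.le]
          norm_num
          congr 1
          ring
  have hLL : (L + 2) * (L + 1) ≤ (L + 2) ^ 2 := by nlinarith
  have hp0 : 0 ≤ x ^ (1 - ε) := Real.rpow_nonneg hx0.le _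
  have h3 : N ≤ 8 * (C * T) * (L + 2) ^ 2 * x ^ (1 - ε) := by
    have hA : 0 < (6 * x + 6) * (6 * x + 3) := by positivity
    refine le_of_mul_le_mul_right ?_ hA
    calc N * ((6 * x + 6) * (6 * x + 3))
        ≤ U * (6 * x + 6) ^ 2 * (L + 2) * (S + 6) ^ 2 * (L + 1) := h1
      _ = (U * ((L + 2) * (L + 1)) * (S + 6) ^ 2) * (6 * x + 6) ^ 2 := by ring
      _ ≤ ((C * T) * (L + 2) ^ 2 * (4 * x ^ (1 - ε))) * (2 * ((6 * x + 6) * (6 * x + 3))) := by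
          have e1 : 0 ≤ (L + 2) * (L + 1) := by positivity
          have e2 : (0 : ℝ) ≤ C * T := by positivity
          refine mul_le_mul (mul_le_mul (mul_le_mul h2 hLL e1 e2) hS2 (by positivity)
            (by positivity)) (by nlinarith) (by positivity) (by positivity)
      _ = 8 * (C * T) * (L + 2) ^ 2 * x ^ (1 - ε) * ((6 * x + 6) * (6 * x + 3)) := by ring
  calc N ≤ 8 * (C * T) * (L + 2) ^ 2 * x ^ (1 - ε) := h3
    _ = (8 * C * (L + 2) ^ 2) * x ^ (1 - ε) * T := by ring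
    _ ≤ x ^ (ε / 4) * x ^ (1 - ε) * T := by
        exact mul_le_mul_of_nonneg_right (mul_le_mul_of_nonneg_right hCL hp0) hT
    _ = x ^ (1 - 3 * ε / 4) * T := by
        rw [← Real.rpow_add hx0]
        congr 2
        ring

theorem stL : QD39.StL := by
  classical
  intro h h0 h1 v hv hp ε hε hε2
  obtain ⟨ω0, ω1⟩ := UN39.dl_range h0 h1
  obtain ⟨C, hC, n1, hn1, hr⟩ := rtio ω0 ω1 hv hp
  obtain ⟨η1, hη1, n2, hb⟩ := QF39.ballS h0 h1 hv hp hε hε2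
  have hDD : 0 < DD h := by
    obtain ⟨m0, m1, _⟩ := mh_prop h h0 h1
    unfold DD
    have := Real.log_neg m0 m1
    exact one_div_pos.2 (by linarith)
  obtain ⟨n3, hpl⟩ := polylog_le (36 * C * (DD h + 2) ^ 2) 2 (ε / 4) (by linarith)
  obtain ⟨μ, hμ⟩ : ∃ μ, μ = min η1 (3 * ε / 4) := ⟨_, rfl⟩
  have hμ0 : 0 < μ := by rw [hμ]; exact lt_min hη1 (by linarith)
  have hlarge : ∀ᶠ n : ℕ in atTop, 3 ≤ (n : ℝ) ^ (μ / 2) ∧ 6 ≤ (n : ℝ) ^ (1 / 2 - ε / 2) := by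
    have t1 : Tendsto (fun n : ℕ => (n : ℝ) ^ (μ / 2)) atTop atTop :=
      (tendsto_rpow_atTop (by linarith)).comp tendsto_natCast_atTop_atTop
    have t2 : Tendsto (fun n : ℕ => (n : ℝ) ^ (1 / 2 - ε / 2)) atTop atTop :=
      (tendsto_rpow_atTop (by linarith)).comp tendsto_natCast_atTop_atTop
    exact (t1.eventually_ge_atTop 3).and (t2.eventually_ge_atTop 6)
  obtain ⟨n4, hn4⟩ := eventually_atTop.1 hlarge
  refine ⟨μ / 2, by linarith, n1 + n2 + n3 + n4 + 1, fun n hn f hf => ?_⟩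
  obtain ⟨h3n, h6n⟩ := hn4 n (by omega)
  have hn0 : (1 : ℝ) ≤ n := by exact_mod_cast (by omega : 1 ≤ n)
  have hlog0 : 0 ≤ Real.log n := Real.log_nonneg hn0
  have hRx0 : 0 ≤ (1 / 2 - ε) * DD h * Real.log n :=
    mul_nonneg (mul_nonneg (by linarith) hDD.le) hlog0
  obtain ⟨R, hR⟩ : ∃ R : ℕ, R = ⌊(1 / 2 - ε) * DD h * Real.log n⌋₊ := ⟨_, rfl⟩
  obtain ⟨S, hS⟩ : ∃ S : ℕ, S = ⌊(n : ℝ) ^ (1 / 2 - ε / 2)⌋₊ := ⟨_, rfl⟩
  have hRle : (R : ℝ) ≤ (1 / 2 - ε) * DD h * Real.log n := by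
    rw [hR]
    exact Nat.floor_le hRx0
  have hSle : (S : ℝ) ≤ (n : ℝ) ^ (1 / 2 - ε / 2) := by
    rw [hS]
    exact Nat.floor_le (by linarith)
  have hb' := hb n (by omega) f hf (R + 1) (by push_cast; linarith)
  obtain ⟨-, -, hr3⟩ := hr n (by omega) (Fin (6 * n)) (Fin (6 * n) ⊕ Fin 6) (Fintype.card_fin _)
    (by rw [Fintype.card_sum, Fintype.card_fin, Fintype.card_fin]; ring) f (fp f) hf (fp_tf hf)
  obtain ⟨-, hr2, -⟩ := hr n (by omega) (Fin (6 * n)) (Fin (6 * n) ⊕ Fin 6) (Fintype.card_fin _)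
    (by rw [Fintype.card_sum, Fintype.card_fin, Fintype.card_fin]; ring) f (fp f) hf (fp_tf hf)
  have hc2 := cnt2b hf (v n) R S
  have hc1 := cnt1 hf (v n) R S
  rw [Fintype.card_fin] at hc2 hc1
  obtain ⟨T, hT⟩ : ∃ T : ℝ, T = ((TS f (v n)).ncard : ℝ) := ⟨_, rfl⟩
  rw [← hT] at hb' hr3 hr2 ⊢
  have hT0 : 0 ≤ T := by rw [hT]; exact Nat.cast_nonneg _
  have hsub : {q : Perm (Fin (6 * n)) × Fin (6 * n) | q.1 ∈ TS f (v n) ∧ rep f q.1 q.2 = q.2 ∧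
      ∃ r : ℕ, 1 ≤ r ∧ (r : ℝ) ≤ (1 / 2 - ε) * DD h * Real.log n ∧
        ¬ Plan f q.1 (ball f q.1 q.2 r)} ⊆
      {q : Perm (Fin (6 * n)) × Fin (6 * n) | q.1 ∈ TS f (v n) ∧ rep f q.1 q.2 = q.2 ∧
        (n : ℝ) ^ (1 / 2 - ε / 2) ≤
          ((Finset.univ.filter fun d => dst f q.1 q.2 d ≤ R + 1).card : ℝ)} ∪
      (Bad2 f (v n) R S ∪ Bad1 f (v n) R S) := by
    rintro ⟨α, x⟩ ⟨q1, q2, r, hr1, hrR, hpl⟩
    have hrR' : r ≤ R := by
      rw [hR]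
      exact Nat.le_floor hrR
    by_cases hq : (n : ℝ) ^ (1 / 2 - ε / 2) ≤
        ((Finset.univ.filter fun d => dst f α x d ≤ R + 1).card : ℝ)
    · exact Or.inl ⟨q1, q2, hq⟩
    · right
      refine mem_badR hf q1 x q2 r R S hr1 hrR' hpl ?_
      have e1 : (Finset.univ.filter fun d => dlab f α x d ≤ (R : ℤ) + 1) =
          (Finset.univ.filter fun d => dst f α x d ≤ R + 1) := by
        ext d
        unfold dlab
        rw [Finset.mem_filter, Finset.mem_filter]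
        constructor
        · rintro ⟨a, b⟩
          exact ⟨a, by omega⟩
        · rintro ⟨a, b⟩
          exact ⟨a, by omega⟩
      rw [e1, hS]
      exact Nat.le_floor (not_le.1 hq).le
  have hle := (Set.ncard_le_ncard hsub (Set.toFinite _)).trans
    ((Set.ncard_union_le _ _).trans (Nat.add_le_add_left (Set.ncard_union_le _ _) _))
  have hle' : (({q : Perm (Fin (6 * n)) × Fin (6 * n) | q.1 ∈ TS f (v n) ∧ rep f q.1 q.2 = q.2 ∧
      ∃ r : ℕ, 1 ≤ r ∧ (r : ℝ) ≤ (1 / 2 - ε) * DD h * Real.log n ∧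
        ¬ Plan f q.1 (ball f q.1 q.2 r)}.ncard : ℕ) : ℝ) ≤
      (({q : Perm (Fin (6 * n)) × Fin (6 * n) | q.1 ∈ TS f (v n) ∧ rep f q.1 q.2 = q.2 ∧
        (n : ℝ) ^ (1 / 2 - ε / 2) ≤
          ((Finset.univ.filter fun d => dst f q.1 q.2 d ≤ R + 1).card : ℝ)}.ncard : ℕ) : ℝ) +
      ((Bad2 f (v n) R S).ncard + (Bad1 f (v n) R S).ncard) := by
    exact_mod_cast hle
  -- the constants
  have hRd : (R : ℝ) + 2 ≤ (DD h + 2) * (Real.log n + 1) := by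
    have e1 : (1 / 2 - ε) * DD h * Real.log n ≤ DD h * Real.log n := by
      have e2 : 0 ≤ DD h * Real.log n := mul_nonneg hDD.le hlog0
      nlinarith
    nlinarith
  have hCL : 36 * C * ((R : ℝ) + 2) ^ 2 ≤ (n : ℝ) ^ (ε / 4) := by
    refine le_trans ?_ (hpl n (by omega))
    have e1 : ((R : ℝ) + 2) ^ 2 ≤ ((DD h + 2) * (Real.log n + 1)) ^ 2 :=
      pow_le_pow_left₀ (by positivity) hRd 2
    calc 36 * C * ((R : ℝ) + 2) ^ 2 ≤ 36 * C * ((DD h + 2) * (Real.log n + 1)) ^ 2 :=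
          mul_le_mul_of_nonneg_left e1 (by positivity)
      _ = 36 * C * (DD h + 2) ^ 2 * (Real.log n + 1) ^ 2 := by ring
  have hCL1 : 8 * C * ((R : ℝ) + 2) ^ 2 ≤ (n : ℝ) ^ (ε / 4) := by
    refine le_trans ?_ hCL
    have : 0 ≤ C * ((R : ℝ) + 2) ^ 2 := by positivity
    linarith
  have hB2 : ((Bad2 f (v n) R S).ncard : ℝ) ≤ (n : ℝ) ^ (1 - 3 * ε / 4) * T := by
    refine stl_n2 (U := ((TS f (v n + 2)).ncard : ℝ)) (L := (R : ℝ)) (S := (S : ℝ)) hn0 hT0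
      (Nat.cast_nonneg _) (Nat.cast_nonneg _) (Nat.cast_nonneg _) hC ?_ hr3 hSle hCL
    exact_mod_cast hc2
  have hB1 : ((Bad1 f (v n) R S).ncard : ℝ) ≤ (n : ℝ) ^ (1 - 3 * ε / 4) * T := by
    refine stl_n1 (U := ((TS (fp f) (v n + 3)).ncard : ℝ)) (L := (R : ℝ)) (S := (S : ℝ)) hn0 hT0
      (Nat.cast_nonneg _) (Nat.cast_nonneg _) (Nat.cast_nonneg _) hC ?_ hr2 hSle h6n hCL1
    exact_mod_cast hc1
  have hn00 : (0 : ℝ) < n := by linarith
  have hp1 : (n : ℝ) ^ (1 - η1) ≤ (n : ℝ) ^ (1 - μ) := by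
    refine Real.rpow_le_rpow_of_exponent_le hn0 ?_
    have := min_le_left η1 (3 * ε / 4)
    rw [← hμ] at this
    linarith
  have hp2 : (n : ℝ) ^ (1 - 3 * ε / 4) ≤ (n : ℝ) ^ (1 - μ) := by
    refine Real.rpow_le_rpow_of_exponent_le hn0 ?_
    have := min_le_right η1 (3 * ε / 4)
    rw [← hμ] at this
    linarith
  have hp3 : 3 * (n : ℝ) ^ (1 - μ) ≤ (n : ℝ) ^ (1 - μ / 2) := by
    calc 3 * (n : ℝ) ^ (1 - μ) ≤ (n : ℝ) ^ (μ / 2) * (n : ℝ) ^ (1 - μ) :=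
          mul_le_mul_of_nonneg_right h3n (Real.rpow_nonneg hn00.le _)
      _ = (n : ℝ) ^ (1 - μ / 2) := by
          rw [← Real.rpow_add hn00]
          congr 1
          ring
  have g1 := mul_le_mul_of_nonneg_right hp1 hT0
  have g2 := mul_le_mul_of_nonneg_right hp2 hT0
  have g3 := mul_le_mul_of_nonneg_right hp3 hT0
  linarith

end QL40
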