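import Mathlib
import Pool.Agent.H40.QL.StL
import Pool.Agent.H39.QE.Fin
import Pool.Agent.H39.HG.Model
import Pool.Agent.H39.HG.Final

/-!
[H40 QL FINA]  (MP_bcc40c_pr, Q2 lower half)  `R_plan(x_n) / log n ≥ D/2 - ε` with probability tending to 1 (notation of S19605,
definitions of `QE/Fin.lean`).

PROOF.  `stL`; the planarity radius is a supremum of a bounded set: for `r ≥ 6 n` the ball is everything, `Plan` would say `v = n + 2`, but
`v = n + 2 - 2 g n` and `g n > 0` for large `n`.  The translation is that of `QE39.fin` (helper39).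
-/

set_option autoImplicit false

namespace QL40

open Equiv HG39 QD39 QE39 Filter Topology

/-- distances are less than the number of darts -/
theorem dst_lt {D : Type} [Fintype D] [DecidableEq D] {f α : Perm D} (hf : TF f)
    (h : PT f α []) (x d : D) : dst f α x d < Fintype.card D := by
  classical
  have : Nonempty D := ⟨x⟩
  have hc := gr_conn hf h
  obtain ⟨w, hw⟩ := hc.exists_walk_length_eq_dist
    (Quotient.mk (Equiv.Perm.SameCycle.setoid (f * α)) x)
    (Quotient.mk (Equiv.Perm.SameCycle.setoid (f * α)) d)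
  have hp := w.isPath_of_length_eq_dist hw
  have h1 := hp.length_lt
  have h2 : Fintype.card (Quotient (Equiv.Perm.SameCycle.setoid (f * α))) ≤ Fintype.card D :=
    Fintype.card_quotient_le _
  unfold dst
  rw [← hw]
  exact lt_of_lt_of_le h1 h2

theorem ball_univ {D : Type} [Fintype D] [DecidableEq D] {f α : Perm D} (hf : TF f)
    (h : PT f α []) (x : D) (r : ℕ) (hr : Fintype.card D ≤ r) :
    ball f α x r = Finset.univ := by
  unfold ball
  rw [Finset.filter_true_of_mem]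
  intro d _
  left
  exact lt_of_lt_of_le (dst_lt hf h x d) hr

theorem vb_univ {D : Type} [Fintype D] [DecidableEq D] (f α : Perm D) :
    vb f α Finset.univ = cyc (f * α) := by
  have hp : ∀ (n : ℕ) (a : D), Quot.mk (fun a b : {d // d ∈ (Finset.univ : Finset D)} =>
      (b : D) = stp f α Finset.univ a) ⟨((f * α) ^ n) a, Finset.mem_univ _⟩ =
      Quot.mk _ ⟨a, Finset.mem_univ _⟩ := by
    intro n
    induction n with
    | zero => intro a; rfl
    | succ n ih =>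
      intro a
      rw [← ih a]
      symm
      apply Quot.sound
      show ((f * α) ^ (n + 1)) a = stp f α Finset.univ (((f * α) ^ n) a)
      unfold stp
      rw [if_pos ⟨Finset.mem_univ _, Finset.mem_univ _⟩, pow_succ', Perm.mul_apply, Perm.mul_apply]
  unfold vb cyc
  refine Nat.card_congr ⟨Quot.lift (fun a => Quotient.mk _ a.1) ?_,
    Quotient.lift (fun a => Quot.mk _ ⟨a, Finset.mem_univ _⟩) ?_, ?_, ?_⟩
  · intro a b hab
    apply Quotient.sound
    refine ⟨1, ?_⟩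
    rw [zpow_one, hab]
    unfold stp
    rw [if_pos ⟨Finset.mem_univ _, Finset.mem_univ _⟩, Perm.mul_apply]
  · rintro a b ⟨n, hn⟩
    obtain ⟨m, hm | hm⟩ := n.eq_nat_or_neg
    · rw [hm, zpow_natCast] at hn
      have := hp m a
      rw [hn] at this
      exact this.symm
    · rw [hm, zpow_neg, zpow_natCast] at hn
      have h1 : ((f * α) ^ m) b = a := by
        rw [← hn]
        simp
      have := hp m b
      rw [h1] at this
      exact this
  · intro q
    induction q using Quot.ind with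
    | mk d => rfl
  · intro q
    induction q using Quotient.ind with
    | _ d => rfl

theorem plan_univ {D : Type} [Fintype D] [DecidableEq D] {f α : Perm D} {n v : ℕ}
    (hD : Fintype.card D = 6 * n) (hα : α ∈ TS f v) (h : Plan f α Finset.univ) : v = n + 2 := by
  unfold Plan at h
  rw [vb_univ, hα.2, Finset.filter_true_of_mem (fun d _ => Finset.mem_univ _), Finset.card_univ,
    hD] at h
  omega

theorem rplan_ge {D : Type} [Fintype D] [DecidableEq D] {f α : Perm D} (hf : TF f) {n v : ℕ}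
    (hD : Fintype.card D = 6 * n) (hα : α ∈ TS f v) (hv : v ≠ n + 2) (x : D) (r : ℕ)
    (hr : 1 ≤ r) (h : Plan f α (ball f α x r)) : r ≤ rplan f α x := by
  unfold rplan
  refine le_csSup ⟨6 * n, ?_⟩ ⟨hr, h⟩
  rintro s ⟨_, hs⟩
  by_contra hc
  rw [ball_univ hf hα.1 x s (by omega)] at hs
  exact hv (plan_univ hD hα hs)

theorem low (h : ℝ) (h0 : 0 < h) (h1 : h < 1 / 4) (v : ℕ → ℕ)
    (hv : Tendsto (fun n => (v n : ℝ) / n) atTop (𝓝 (6 * UN39.dl h)))
    (hp : ∀ᶠ n in atTop, v n % 2 = n % 2) (ε : ℝ) (hε : 0 < ε) :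
    ∃ η : ℝ, 0 < η ∧ ∃ n0 : ℕ, ∀ n, n0 ≤ n → ∀ f : Perm (Fin (6 * n)), TF f →
    (({q : Perm (Fin (6 * n)) × Fin (6 * n) | q.1 ∈ TS f (v n) ∧ rep f q.1 q.2 = q.2 ∧
      (rplan f q.1 q.2 : ℝ) / Real.log n < 1 / 2 * DD h - ε}.ncard : ℕ) : ℝ) ≤
      (n : ℝ) ^ (1 - η) * (TS f (v n)).ncard := by
  have hD : 0 < DD h := by
    obtain ⟨m0, m1, _⟩ := mh_prop h h0 h1
    unfold DD
    apply one_div_pos.2
    have := Real.log_neg m0 m1
    linarith
  obtain ⟨ω0, ω1⟩ := UN39.dl_range h0 h1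
  set ε' : ℝ := min (ε / (2 * DD h)) (1 / 4) with hε'
  have hε0 : 0 < ε' := by positivity
  have hε1 : ε' * DD h ≤ ε / 2 := by
    have h2 : ε' ≤ ε / (2 * DD h) := min_le_left _ _
    calc ε' * DD h ≤ ε / (2 * DD h) * DD h := by gcongr
      _ = ε / 2 := by field_simp
  have hε2 : ε' ≤ 1 / 4 := min_le_right _ _
  obtain ⟨η, hη, n1, H1⟩ := stL h h0 h1 v hv hp ε' hε0 (by linarith)
  obtain ⟨n3, hn3⟩ := exists_nat_ge (Real.exp (2 / ε + 4 / DD h))
  obtain ⟨n4, hn4⟩ := eventually_atTop.1 (hv.eventually (gt_mem_nhds ω1))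
  refine ⟨η, hη, n1 + n3 + n4 + 1, fun n hn f hf => ?_⟩
  have hn0 : (1 : ℝ) ≤ n := by exact_mod_cast (by omega : 1 ≤ n)
  have hn0' : (0 : ℝ) < n := by linarith
  have hlog : 2 / ε + 4 / DD h ≤ Real.log n := by
    rw [Real.le_log_iff_exp_le hn0']
    refine hn3.trans ?_
    exact_mod_cast (by omega : n3 ≤ n)
  have hlogA : 2 / ε ≤ Real.log n := by
    have : 0 < 4 / DD h := by positivity
    linarith
  have hlogB : 4 / DD h ≤ Real.log n := by
    have : 0 < 2 / ε := by positivity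
    linarith
  have hlog0 : 0 < Real.log n := lt_of_lt_of_le (by positivity) hlogA
  have hinv : 1 / Real.log n ≤ ε / 2 := by
    rw [div_le_iff₀ hlog0]
    have h3 : 2 ≤ Real.log n * ε := by
      rwa [div_le_iff₀ hε] at hlogA
    linarith
  have hvn : v n ≠ n + 2 := by
    have h3 := hn4 n (by omega)
    rw [div_lt_one hn0'] at h3
    have h4 : v n < n := by exact_mod_cast h3
    omega
  refine le_trans ?_ (H1 n (by omega) f hf)
  rw [Nat.cast_le]
  refine Set.ncard_le_ncard ?_ (Set.toFinite _)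
  rintro q ⟨hq1, hq2, hq3⟩
  refine ⟨hq1, hq2, ?_⟩
  by_contra hcon
  push Not at hcon
  set X : ℝ := (1 / 2 - ε') * DD h * Real.log n with hX
  have hX1 : 1 ≤ X := by
    have h3 : 4 ≤ Real.log n * DD h := by rwa [div_le_iff₀ hD] at hlogB
    have h4 : (1 / 4) * (DD h * Real.log n) ≤ (1 / 2 - ε') * (DD h * Real.log n) :=
      mul_le_mul_of_nonneg_right (by linarith) (by positivity)
    nlinarith
  have h5 : 1 ≤ ⌊X⌋₊ := Nat.le_floor (by exact_mod_cast hX1)
  have h6 := rplan_ge hf (Fintype.card_fin _) hq1 hvn q.2 ⌊X⌋₊ h5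
    (hcon ⌊X⌋₊ h5 (Nat.floor_le (by linarith)))
  have h7 := Nat.lt_floor_add_one X
  have h8 : (⌊X⌋₊ : ℝ) ≤ (rplan f q.1 q.2 : ℝ) := by exact_mod_cast h6
  have h9 : (1 / 2 - ε') * DD h - 1 / Real.log n ≤ (rplan f q.1 q.2 : ℝ) / Real.log n := by
    rw [le_div_iff₀ hlog0, sub_mul, div_mul_cancel₀ _ hlog0.ne', ← hX]
    linarith
  nlinarith

private theorem fin_v {θ : ℝ} (h1 : θ < 1 / 2) {g : ℕ → ℕ}
    (hg : Tendsto (fun n : ℕ => (g n : ℝ) / (n : ℝ)) atTop (𝓝 θ)) :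
    Tendsto (fun n : ℕ => ((n + 2 - 2 * g n : ℕ) : ℝ) / (n : ℝ)) atTop (𝓝 (1 - 2 * θ)) ∧
      ∀ᶠ n : ℕ in atTop, (n + 2 - 2 * g n) % 2 = n % 2 := by
  have h2 : Tendsto (fun n : ℕ => 1 + 2 / (n : ℝ) - 2 * ((g n : ℝ) / (n : ℝ))) atTop
      (𝓝 (1 + 0 - 2 * θ)) := by
    have h3 : Tendsto (fun n : ℕ => 2 / (n : ℝ)) atTop (𝓝 0) :=
      tendsto_const_div_atTop_nhds_zero_nat 2
    exact (tendsto_const_nhds.add h3).sub (hg.const_mul 2)
  rw [add_zero] at h2
  have h4 : ∀ᶠ n : ℕ in atTop, (g n : ℝ) / (n : ℝ) < 1 / 2 := hg.eventually (gt_mem_nhds h1)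
  have h6 : ∀ᶠ n : ℕ in atTop, 1 ≤ n ∧ 2 * g n ≤ n + 2 := by
    filter_upwards [h4, eventually_ge_atTop 1] with n hn hn1
    refine ⟨hn1, ?_⟩
    have hnp : (0 : ℝ) < n := by exact_mod_cast hn1
    have h5 : (2 * g n : ℝ) < n := by
      rw [div_lt_iff₀ hnp] at hn
      linarith
    have : 2 * g n < n := by exact_mod_cast h5
    omega
  constructor
  · refine h2.congr' ?_
    filter_upwards [h6] with n hn
    have hnp : (0 : ℝ) < n := by exact_mod_cast hn.1
    rw [Nat.cast_sub hn.2]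
    push_cast
    field_simp
  · filter_upwards [h6] with n hn
    omega

private theorem fin_dist {D : Type} [Fintype D] [DecidableEq D] (σ τ α : Perm D) (h : τ = σ)
    (x y : D) : (gr τ α).dist (Quotient.mk (Equiv.Perm.SameCycle.setoid τ) x)
      (Quotient.mk (Equiv.Perm.SameCycle.setoid τ) y) =
    (gr σ α).dist (Quotient.mk (Equiv.Perm.SameCycle.setoid σ) x)
      (Quotient.mk (Equiv.Perm.SameCycle.setoid σ) y) := by
  subst h
  rfl

private theorem fin_ball {n : ℕ} (σ α : Perm (Fin (6 * n))) (h : σ * α * α = σ) (x : Fin (6 * n))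
    (r : ℕ) : qball σ α (gr σ α) (Quotient.mk (Equiv.Perm.SameCycle.setoid σ) x) r
      = ball (σ * α) α x r := by
  classical
  have hd : ∀ y, dst (σ * α) α x y = (gr σ α).dist
      (Quotient.mk (Equiv.Perm.SameCycle.setoid σ) x)
      (Quotient.mk (Equiv.Perm.SameCycle.setoid σ) y) := fun y =>
    fin_dist σ (σ * α * α) α h x y
  ext d
  unfold qball ball
  simp only [Finset.mem_filter, Finset.mem_univ, true_and, hd]
  constructor
  · rintro ⟨e, rfl | rfl | rfl, he⟩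
    · exact Or.inl he
    · exact Or.inr (Or.inl he)
    · exact Or.inr (Or.inr he)
  · rintro (he | he | he)
    · exact ⟨_, Or.inl rfl, he⟩
    · exact ⟨_, Or.inr (Or.inl rfl), he⟩
    · exact ⟨_, Or.inr (Or.inr rfl), he⟩

private theorem fin_rplan {n : ℕ} (σ α : Perm (Fin (6 * n))) (h : σ * α * α = σ) (x : Fin (6 * n)) :
    QRplan σ α (gr σ α) (Quotient.mk (Equiv.Perm.SameCycle.setoid σ) x) = rplan (σ * α) α x := by
  unfold QRplan rplan
  congr 1
  ext r
  change (1 ≤ r ∧ QPlan σ α (qball σ α (gr σ α) (Quotient.mk (Equiv.Perm.SameCycle.setoid σ) x) r)) ↔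
    (1 ≤ r ∧ Plan (σ * α) α (ball (σ * α) α x r))
  rw [fin_ball σ α h x r]
  exact Iff.rfl

private theorem fin_rep {n : ℕ} (σ τ : Perm (Fin (6 * n))) (h : τ = σ) (x : Fin (6 * n)) :
    Quotient.out (Quotient.mk (Equiv.Perm.SameCycle.setoid τ) x) =
    Quotient.out (Quotient.mk (Equiv.Perm.SameCycle.setoid σ) x) := by
  subst h
  rfl

private theorem fin_count {n : ℕ} (σ α : Perm (Fin (6 * n))) (h : σ * α * α = σ) (P : ℕ → Prop) :
    Nat.card {a : Quotient (Equiv.Perm.SameCycle.setoid σ) // P (QRplan σ α (gr σ α) a)} ≤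
      Nat.card {x : Fin (6 * n) // rep (σ * α) α x = x ∧ P (rplan (σ * α) α x)} := by
  refine Nat.card_le_card_of_injective (fun a => ⟨Quotient.out a.1, ?_, ?_⟩) ?_
  · show Quotient.out (Quotient.mk (Equiv.Perm.SameCycle.setoid (σ * α * α)) (Quotient.out a.1)) = _
    rw [fin_rep σ (σ * α * α) h, Quotient.out_eq]
  · have h1 := a.2
    rw [← Quotient.out_eq a.1] at h1
    rw [← fin_rplan σ α h]
    exact h1
  · intro a b hab
    have h1 : Quotient.out a.1 = Quotient.out b.1 := congrArg (fun z => z.1) hab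
    exact Subtype.ext (Quotient.out_injective h1)

open Classical in
private theorem fin_sum {n v : ℕ} (Sn : Finset (Perm (Fin (6 * n)) × Perm (Fin (6 * n))))
    (hS : ∀ p, p ∈ Sn ↔ TF (p.1 * p.2) ∧ p.2 ∈ TS (p.1 * p.2) v ∧ p.2 * p.2 = 1)
    (P : ℕ → Prop) (B : ℝ)
    (hB : ∀ f : Perm (Fin (6 * n)), TF f →
      (({q : Perm (Fin (6 * n)) × Fin (6 * n) | q.1 ∈ TS f v ∧ rep f q.1 q.2 = q.2 ∧
        P (rplan f q.1 q.2)}.ncard : ℕ) : ℝ) ≤ B * (TS f v).ncard) :
    (∑ p ∈ Sn, (Nat.card {a : Quotient (Equiv.Perm.SameCycle.setoid p.1) //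
      P (QRplan p.1 p.2 (gr p.1 p.2) a)} : ℝ) / (v : ℝ)) ≤ B / v * Sn.card := by
  let W : Perm (Fin (6 * n)) → Perm (Fin (6 * n)) → ℝ := fun f α =>
    (Nat.card {x : Fin (6 * n) // rep f α x = x ∧ P (rplan f α x)} : ℝ) / v
  have h1 : (∑ p ∈ Sn, (Nat.card {a : Quotient (Equiv.Perm.SameCycle.setoid p.1) //
      P (QRplan p.1 p.2 (gr p.1 p.2) a)} : ℝ) / (v : ℝ)) ≤ ∑ p ∈ Sn, W (p.1 * p.2) p.2 := by
    refine Finset.sum_le_sum fun p hp => ?_
    obtain ⟨a1, a2, a3⟩ := (hS p).1 hp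
    have hmul : p.1 * p.2 * p.2 = p.1 := by rw [mul_assoc, a3, mul_one]
    refine div_le_div_of_nonneg_right ?_ (Nat.cast_nonneg _)
    exact_mod_cast fin_count p.1 p.2 hmul P
  refine h1.trans ?_
  rw [sum_model Sn hS W, card_model Sn hS, Finset.mul_sum]
  refine Finset.sum_le_sum fun f hf => ?_
  have htf : TF f := (Finset.mem_filter.1 hf).2
  have h2 := hB f htf
  have h3 := ncard_fib (fun α : Perm (Fin (6 * n)) => α ∈ TS f v)
    (fun α (x : Fin (6 * n)) => rep f α x = x ∧ P (rplan f α x))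
  rw [h3] at h2
  push_cast at h2
  calc ∑ α ∈ Finset.univ.filter (fun α => α ∈ TS f v), W f α
      = (∑ α ∈ Finset.univ.filter (fun α => α ∈ TS f v),
        (Nat.card {x : Fin (6 * n) // rep f α x = x ∧ P (rplan f α x)} : ℝ)) / v := by
        rw [Finset.sum_div]
    _ ≤ B * (TS f v).ncard / v := div_le_div_of_nonneg_right h2 (Nat.cast_nonneg _)
    _ = B / v * (TS f v).ncard := by ring

theorem finA :
  ∀ θ : ℝ, 0 < θ → θ < 1/2 →
  ∀ g : ℕ → ℕ, Filter.Tendsto (fun n : ℕ => (g n : ℝ) / (n : ℝ)) Filter.atTop (nhds θ) →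
  ∀ h : ℝ, 0 < h → h < 1/4 →
    (1 - 2*θ) / 6 = h / ((1 + 8*h) * Real.sqrt (1 - 4*h)) *
      Real.log ((1 + Real.sqrt (1 - 4*h)) / (1 - Real.sqrt (1 - 4*h))) →
  ∀ S : (n : ℕ) → Finset (Equiv.Perm (Fin (6*n)) × Equiv.Perm (Fin (6*n))),
    (∀ (n : ℕ) (p : Equiv.Perm (Fin (6*n)) × Equiv.Perm (Fin (6*n))),
      p ∈ S n ↔
        ((∀ x : Fin (6*n), p.2 x ≠ x ∧ p.2 (p.2 x) = x) ∧
         (∀ x : Fin (6*n), (p.1 * p.2) x ≠ x ∧ ((p.1 * p.2)^3) x = x) ∧
         (∀ x y : Fin (6*n), ∃ w ∈ Subgroup.closure ({p.1, p.2} : Set (Equiv.Perm (Fin (6*n)))), w x = y) ∧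
         Nat.card (Quotient (Equiv.Perm.SameCycle.setoid p.1)) + 2 * g n = n + 2)) →
  ∀ G : (n : ℕ) → (p : Equiv.Perm (Fin (6*n)) × Equiv.Perm (Fin (6*n))) →
      SimpleGraph (Quotient (Equiv.Perm.SameCycle.setoid p.1)),
    (∀ (n : ℕ) (p : Equiv.Perm (Fin (6*n)) × Equiv.Perm (Fin (6*n)))
       (a b : Quotient (Equiv.Perm.SameCycle.setoid p.1)),
      (G n p).Adj a b ↔
        (a ≠ b ∧ ∃ x : Fin (6*n),
          ((Quotient.mk (Equiv.Perm.SameCycle.setoid p.1) x = a ∧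
            Quotient.mk (Equiv.Perm.SameCycle.setoid p.1) (p.2 x) = b) ∨
           (Quotient.mk (Equiv.Perm.SameCycle.setoid p.1) x = b ∧
            Quotient.mk (Equiv.Perm.SameCycle.setoid p.1) (p.2 x) = a)))) →
  ∀ ε : ℝ, 0 < ε →
    Filter.Tendsto
      (fun n : ℕ =>
        (∑ p ∈ S n,
          (Nat.card {a : Quotient (Equiv.Perm.SameCycle.setoid p.1) //
              (QRplan p.1 p.2 (G n p) a : ℝ) / Real.log (n : ℝ) <
                1 / 2 * (1 / (-Real.log ((1 - 2*h - Real.sqrt (1 - 4*h)) / (2*h)))) - ε} : ℝ)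
            / (Nat.card (Quotient (Equiv.Perm.SameCycle.setoid p.1)) : ℝ))
          / ((S n).card : ℝ))
      Filter.atTop (nhds 0) := by
  classical
  intro θ hθ0 hθ1 g hg h h0 h1 hdl S hS G hG ε hε
  have hdl' : 1 - 2 * θ = 6 * UN39.dl h := by
    have : (1 - 2 * θ) / 6 = UN39.dl h := hdl
    linarith
  obtain ⟨hv, hp⟩ := fin_v hθ1 hg
  have hω : 0 < (1 - 2 * θ) / 2 := by linarith
  have hvlow : ∀ᶠ n : ℕ in atTop, (1 - 2 * θ) / 2 < ((n + 2 - 2 * g n : ℕ) : ℝ) / (n : ℝ) :=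
    hv.eventually (lt_mem_nhds (by linarith))
  have hv6 : Tendsto (fun n : ℕ => ((n + 2 - 2 * g n : ℕ) : ℝ) / (n : ℝ)) atTop
      (𝓝 (6 * UN39.dl h)) := by
    rw [← hdl']
    exact hv
  obtain ⟨η, hη, n0, hmid⟩ := low h h0 h1 (fun n => n + 2 - 2 * g n) hv6 hp ε hε
  -- the model
  have hS' : ∀ n : ℕ, 1 ≤ n → ∀ p, p ∈ S n ↔ HG39.TF (p.1 * p.2) ∧
      p.2 ∈ HG39.TS (p.1 * p.2) (n + 2 - 2 * g n) ∧ p.2 * p.2 = 1 := by
    intro n hn p
    rw [← HG39.model_iff, hS, HG39.Mod]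
    have hne : Nonempty (Fin (6 * n)) := ⟨⟨0, by omega⟩⟩
    have hq : Nonempty (Quotient (Equiv.Perm.SameCycle.setoid p.1)) :=
      ⟨Quotient.mk _ hne.some⟩
    have hc : 0 < Nat.card (Quotient (Equiv.Perm.SameCycle.setoid p.1)) := Nat.card_pos
    constructor
    · rintro ⟨a1, a2, a3, a4⟩
      exact ⟨a1, a2, a3, by omega⟩
    · rintro ⟨a1, a2, a3, a4⟩
      exact ⟨a1, a2, a3, by omega⟩
  have hGr : ∀ n p, G n p = gr p.1 p.2 := by
    intro n p
    ext a b
    rw [hG]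
    rfl
  have hlim : Tendsto (fun n : ℕ => (n : ℝ) ^ (-η) * (2 / (1 - 2 * θ))) atTop (𝓝 0) := by
    have h2 : Tendsto (fun n : ℕ => (n : ℝ) ^ (-η)) atTop (𝓝 0) :=
      (tendsto_rpow_neg_atTop hη).comp tendsto_natCast_atTop_atTop
    have := h2.mul_const (2 / (1 - 2 * θ))
    rwa [zero_mul] at this
  refine squeeze_zero' (Filter.Eventually.of_forall fun n => ?_) ?_ hlim
  · apply div_nonneg _ (Nat.cast_nonneg _)
    apply Finset.sum_nonneg
    intro p _
    positivity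
  · filter_upwards [hvlow, eventually_ge_atTop (n0 + 1)] with n hnv hn
    have hn1 : 1 ≤ n := by omega
    have hnp : (0 : ℝ) < n := by exact_mod_cast hn1
    have hvp : (1 - 2 * θ) / 2 * n < ((n + 2 - 2 * g n : ℕ) : ℝ) := by
      rwa [lt_div_iff₀ hnp] at hnv
    have hvp0 : (0 : ℝ) < ((n + 2 - 2 * g n : ℕ) : ℝ) := lt_trans (by positivity) hvp
    have key := fin_sum (S n) (hS' n hn1)
      (fun k => (k : ℝ) / Real.log (n : ℝ) < 1 / 2 * DD h - ε) ((n : ℝ) ^ (1 - η))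
      (fun f hf => hmid n (by omega) f hf)
    have hsum : (∑ p ∈ S n,
          (Nat.card {a : Quotient (Equiv.Perm.SameCycle.setoid p.1) //
              (QRplan p.1 p.2 (G n p) a : ℝ) / Real.log (n : ℝ) <
                1 / 2 * (1 / (-Real.log ((1 - 2*h - Real.sqrt (1 - 4*h)) / (2*h)))) - ε} : ℝ)
            / (Nat.card (Quotient (Equiv.Perm.SameCycle.setoid p.1)) : ℝ)) ≤
        (n : ℝ) ^ (1 - η) / ((n + 2 - 2 * g n : ℕ) : ℝ) * (S n).card := by
      refine le_trans (le_of_eq ?_) key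
      refine Finset.sum_congr rfl fun p hp => ?_
      obtain ⟨-, -, -, a4⟩ := (hS n p).1 hp
      have hcard : Nat.card (Quotient (Equiv.Perm.SameCycle.setoid p.1)) = n + 2 - 2 * g n := by
        omega
      rw [hcard, hGr n p]
      rfl
    rcases Nat.eq_zero_or_pos (S n).card with hc | hc
    · rw [hc, Nat.cast_zero, div_zero]
      have : 0 < 1 - 2 * θ := by linarith
      positivity
    · have hc' : (0 : ℝ) < (S n).card := by exact_mod_cast hc
      rw [div_le_iff₀ hc']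
      refine hsum.trans (mul_le_mul_of_nonneg_right ?_ hc'.le)
      have h2 : (n : ℝ) ^ (1 - η) = (n : ℝ) ^ (-η) * n := by
        rw [show (1 : ℝ) - η = -η + 1 by ring, Real.rpow_add hnp, Real.rpow_one]
      rw [h2, mul_div_assoc]
      refine mul_le_mul_of_nonneg_left ?_ (Real.rpow_nonneg hnp.le _)
      have h3 : 0 < 1 - 2 * θ := by linarith
      rw [div_le_div_iff₀ hvp0 h3]
      nlinarith

end QL40
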