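import Mathlib

/-!
Superseded by `StL.lean` (`QL40.stL`), which proves the stronger statement `QD39.StL`.
-/
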