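import Pool.Agent.H40.QL.FinA

/-!
MP_bcc40c_pr, Q2: the lower half of the convergence of the planarity radius, with the sharp constant `D/2`.
Notation (permutations, vertices, graph) as in the frozen statement S19605: `p = (σ, α)`, `α` = edges, `σ` = vertices,
`σ * α` = faces.  The definitions (`QE39`, file `Pool/Agent/H39/QE/Fin.lean`):

* `qball σ α G a r`: the darts of the faces incident to a vertex at distance at most `r - 1` from the vertex `a`;
* `qstep`, `qvb`: the surface glued from the faces in `F` (two sides are glued iff both faces are in `F`); `qvb` =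
  number of its interior vertices plus number of its boundary components (cycles of `qstep` on `F`);
* `QPlan σ α F`: Euler: `6 qvb + 2 #F = 3 #{glued sides} + 12`, i.e. genus zero (for connected `F`);
* `QRplan σ α G a`: the planarity radius `sup {r ≥ 1 | the ball of radius r around a has genus zero}`.

Proof: `Pool/Agent/H40/QL` (`PLAN.md` there), `Pool/Agent/H39/QF` (first moment), `Pool/Agent/H39/QE`, `QD` (balls).
-/

set_option autoImplicit false

namespace Pool.Agent.Results.MP_bcc40c_pr.PlanarityLower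

open QE39

theorem result :
  ∀ θ : ℝ, 0 < θ → θ < 1/2 →
  ∀ g : ℕ → ℕ, Filter.Tendsto (fun n : ℕ => (g n : ℝ) / (n : ℝ)) Filter.atTop (nhds θ) →
  ∀ h : ℝ, 0 < h → h < 1/4 →
    (1 - 2*θ) / 6 = h / ((1 + 8*h) * Real.sqrt (1 - 4*h)) *
      Real.log ((1 + Real.sqrt (1 - 4*h)) / (1 - Real.sqrt (1 - 4*h))) →
  ∀ S : (n : ℕ) → Finset (Equiv.Perm (Fin (6*n)) × Equiv.Perm (Fin (6*n))),
    (∀ (n : ℕ) (p : Equiv.Perm (Fin (6*n)) × Equiv.Perm (Fin (6*n))),
      p ∈ S n ↔
        ((∀ x : Fin (6*n), p.2 x ≠ x ∧ p.2 (p.2 x) = x) ∧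
         (∀ x : Fin (6*n), (p.1 * p.2) x ≠ x ∧ ((p.1 * p.2)^3) x = x) ∧
         (∀ x y : Fin (6*n), ∃ w ∈ Subgroup.closure ({p.1, p.2} : Set (Equiv.Perm (Fin (6*n)))), w x = y) ∧
         Nat.card (Quotient (Equiv.Perm.SameCycle.setoid p.1)) + 2 * g n = n + 2)) →
  ∀ G : (n : ℕ) → (p : Equiv.Perm (Fin (6*n)) × Equiv.Perm (Fin (6*n))) →
      SimpleGraph (Quotient (Equiv.Perm.SameCycle.setoid p.1)),
    (∀ (n : ℕ) (p : Equiv.Perm (Fin (6*n)) × Equiv.Perm (Fin (6*n)))
       (a b : Quotient (Equiv.Perm.SameCycle.setoid p.1)),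
      (G n p).Adj a b ↔
        (a ≠ b ∧ ∃ x : Fin (6*n),
          ((Quotient.mk (Equiv.Perm.SameCycle.setoid p.1) x = a ∧
            Quotient.mk (Equiv.Perm.SameCycle.setoid p.1) (p.2 x) = b) ∨
           (Quotient.mk (Equiv.Perm.SameCycle.setoid p.1) x = b ∧
            Quotient.mk (Equiv.Perm.SameCycle.setoid p.1) (p.2 x) = a)))) →
  ∀ ε : ℝ, 0 < ε →
    Filter.Tendsto
      (fun n : ℕ =>
        (∑ p ∈ S n,
          (Nat.card {a : Quotient (Equiv.Perm.SameCycle.setoid p.1) //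
              (QRplan p.1 p.2 (G n p) a : ℝ) / Real.log (n : ℝ) <
                1 / 2 * (1 / (-Real.log ((1 - 2*h - Real.sqrt (1 - 4*h)) / (2*h)))) - ε} : ℝ)
            / (Nat.card (Quotient (Equiv.Perm.SameCycle.setoid p.1)) : ℝ))
          / ((S n).card : ℝ))
      Filter.atTop (nhds 0) :=
  QL40.finA

end Pool.Agent.Results.MP_bcc40c_pr.PlanarityLower
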